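import Pool.Agent.MP_a9d3bd_zz.Defs

namespace Pool.Agent.MP_a9d3bd_zz

open Polynomial Su

set_option linter.unusedSectionVars false

section

variable {K A ι : Type} [Field K] [CommRing A] [IsDomain A] [Algebra K A]
  [Algebra K[X] A] [IsScalarTower K K[X] A] [Fintype ι] {m : ℕ} (S : Su K A ι m)
  {T : Type} [CommRing T] [Algebra K T]

/-- the value at `θ` of the function of the pencil -/
noncomputable def Su.RT (θ : A →ₐ[K] T) (a a' : Fin m × ι → T) : T :=
  MvPolynomial.aeval ![θ (xA K A), θ (xA K A) ^ S.M + gam S.e θ a,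
    algebraMap K T S.c0 * θ (xA K A) ^ S.M + gam S.e θ a'] S.P

/-- the conjugate point -/
noncomputable def cj (θ : A →ₐ[K] T) (σ : A ≃ₐ[K[X]] A) : A →ₐ[K] T :=
  θ.comp (σ.restrictScalars K).toAlgHom

theorem cj_apply (θ : A →ₐ[K] T) (σ : A ≃ₐ[K[X]] A) (z : A) : cj θ σ z = θ (σ z) := rfl

theorem cj_x (θ : A →ₐ[K] T) (σ : A ≃ₐ[K[X]] A) : cj θ σ (xA K A) = θ (xA K A) := by
  rw [cj_apply, σ.commutes]

theorem cj_one (θ : A →ₐ[K] T) : cj θ 1 = θ := rfl

theorem gam_map {T' : Type} [CommRing T'] [Algebra K T'] (e : ι → A) (θ : A →ₐ[K] T)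
    (ψ : T →ₐ[K] T') (a : Fin m × ι → T) :
    ψ (gam e θ a) = gam e (ψ.comp θ) fun v => ψ (a v) := by
  simp [gam, map_sum]

theorem gam_lin (e : ι → A) (θ : A →ₐ[K] T) (c : T) (g a : Fin m × ι → T) :
    (gam e θ fun v => g v + c * a v) = gam e θ g + c * gam e θ a := by
  simp only [gam, Finset.mul_sum, ← Finset.sum_add_distrib]
  exact Finset.sum_congr rfl fun v _ => by ring

theorem RT_map {T' : Type} [CommRing T'] [Algebra K T'] (θ : A →ₐ[K] T) (ψ : T →ₐ[K] T')
    (a a' : Fin m × ι → T) :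
    ψ (S.RT θ a a') = S.RT (ψ.comp θ) (fun v => ψ (a v)) fun v => ψ (a' v) := by
  unfold Su.RT
  rw [← AlgHom.comp_apply, MvPolynomial.comp_aeval]
  congr 2
  funext i
  fin_cases i <;> simp [gam_map]

theorem RR_eq (a a' : Fin m × ι → K) : S.RR a a' =
    S.RT (AlgHom.id K A) (fun v => algebraMap K A (a v)) fun v => algebraMap K A (a' v) := rfl

theorem RR_map (β : A →ₐ[K] K) (a a' : Fin m × ι → K) : β (S.RR a a') = S.RT β a a' := by
  rw [RR_eq, RT_map]
  simp

theorem fp_eval (θ : A →ₐ[K] T) (c : T) (g : Fin m × ι → T) (t : T) :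
    (S.fp θ c g).eval t = MvPolynomial.aeval ![θ (xA K A), t,
      algebraMap K T S.c0 * θ (xA K A) ^ S.M + gam S.e θ g + c * (t - θ (xA K A) ^ S.M)] S.P := by
  have h := MvPolynomial.comp_aeval_apply ![C (θ (xA K A)), X, S.wl θ c g]
    ((Polynomial.aeval t : T[X] →ₐ[T] T).restrictScalars K) S.P
  refine ((coe_aeval_eq_eval t ▸ rfl : _ = _).trans h).trans ?_
  congr 2
  funext i
  fin_cases i <;> simp [Su.wl]

theorem fp_thr {θ : A →ₐ[K] T} {t : T} {a : Fin m × ι → T} (h : S.Thr θ t a) (c : T)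
    (g : Fin m × ι → T) : (S.fp θ c g).eval t = S.RT θ a fun v => g v + c * a v := by
  rw [fp_eval, Su.RT, gam_lin, h]
  congr 2
  funext i
  fin_cases i <;> simp
  ring

theorem fp_map {T' : Type} [CommRing T'] [Algebra K T'] (θ : A →ₐ[K] T) (ψ : T →ₐ[K] T')
    (c : T) (g : Fin m × ι → T) (t : T) :
    ψ ((S.fp θ c g).eval t) = (S.fp (ψ.comp θ) (ψ c) fun v => ψ (g v)).eval (ψ t) := by
  rw [fp_eval, fp_eval, ← AlgHom.comp_apply, MvPolynomial.comp_aeval]
  congr 2
  funext i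
  fin_cases i <;> simp [gam_map]

theorem Nf_eval (θ : A →ₐ[K] T) (a a' : Fin m × ι → T) :
    algebraMap K T (pd S.P S.d S.c0) ^ Nat.card (A ≃ₐ[K[X]] A) * (S.Nf a a').eval (θ (xA K A)) =
      ∏ᶠ σ : A ≃ₐ[K[X]] A, S.RT (cj θ σ) a a' := by
  rw [Su.Nf, eval_map, S.hN T θ a a']
  refine finprod_congr fun σ => ?_
  rw [Su.RT, cj_x]
  rfl

theorem Nf_monic (a a' : Fin m × ι → T) : (S.Nf a a').Monic := S.hNm.map _

theorem Nf_deg [Nontrivial T] (a a' : Fin m × ι → T) : (S.Nf a a').natDegree = S.n :=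
  S.hNm.natDegree_map _

theorem Nf_map {T' : Type} [CommRing T'] [Algebra K T'] (ψ : T →ₐ[K] T')
    (a a' : Fin m × ι → T) :
    (S.Nf a a').map (ψ : T →+* T') = S.Nf (fun v => ψ (a v)) fun v => ψ (a' v) := by
  rw [Su.Nf, Su.Nf, Polynomial.map_map]
  congr 1
  refine MvPolynomial.ringHom_ext (fun r => by simp) fun i => ?_
  cases i <;> simp

theorem NH_monic (c : T) (g : Fin m × ι → T) : (S.NH c g).Monic := Nf_monic S _ _

theorem NH_aeval (c : K) (g : Fin m × ι → K) (a : Fin m × ι → T) :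
    (S.NH c g).map (MvPolynomial.aeval a : MvPolynomial (Fin m × ι) K →ₐ[K] T) =
      S.Nf a fun v => algebraMap K T (g v) + algebraMap K T c * a v := by
  rw [Su.NH, Nf_map]
  simp

theorem NH_eval (c : K) (g a : Fin m × ι → K) :
    (S.NH c g).map (MvPolynomial.eval a) = S.Nf a fun v => g v + c * a v := by
  have := NH_aeval S c g a
  simpa [MvPolynomial.coe_aeval_eq_eval] using this

/-- a zero of the function of the pencil is a root of the norm polynomial -/
theorem Nf_root [IsDomain T] {θ : A →ₐ[K] T} {a a' : Fin m × ι → T} (h : S.RT θ a a' = 0) :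
    (S.Nf a a').eval (θ (xA K A)) = 0 := by
  have := S.hfin
  have h1 := Nf_eval S θ a a'
  rw [finprod_eq_zero _ 1 (by rw [cj_one]; exact h) (Set.toFinite _)] at h1
  exact (mul_eq_zero.1 h1).resolve_left
    (pow_ne_zero _ ((map_ne_zero_iff _ (algebraMap K T).injective).2 S.h0))

end

end Pool.Agent.MP_a9d3bd_zz
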