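import Pool.Agent.MP_a9d3bd_zz.Defs

namespace Pool.Agent.MP_a9d3bd_zz

open Polynomial Su

theorem act2_pow {K : Type} [Field K] {p n : ℕ} {a : K} (h : a ^ p ^ n = a) (j : ℕ) :
    a ^ p ^ (n * j) = a := by
  induction j with
  | zero => simp
  | succ j ih => rw [Nat.mul_succ, pow_add, pow_mul, ih, h]

theorem act2_fin {K : Type} [Field K] {p : ℕ} (ht : ∀ a : K, ∃ n, 0 < n ∧ a ^ p ^ n = a)
    (s : Set K) (hs : s.Finite) : ∃ n, 0 < n ∧ ∀ a ∈ s, a ^ p ^ n = a := by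
  induction s, hs using Set.Finite.induction_on with
  | empty => exact ⟨1, one_pos, by simp⟩
  | @insert a s _ _ ih =>
    obtain ⟨n, hn, h⟩ := ih
    obtain ⟨k, hk, h'⟩ := ht a
    refine ⟨n * k, Nat.mul_pos hn hk, ?_⟩
    rintro b (rfl | hb)
    · rw [Nat.mul_comm]; exact act2_pow h' n
    · exact act2_pow (h b hb) k

theorem act2_coef {K σ : Type} [Field K] (D : (MvPolynomial σ K)[X]) :
    {a : K | ∃ i s, a = (D.coeff i).coeff s}.Finite := by
  classical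
  have h1 : (⋃ i ∈ D.support, ⋃ s ∈ (D.coeff i).support, ({(D.coeff i).coeff s} : Set K)).Finite :=
    Set.Finite.biUnion (Finset.finite_toSet _) fun i _ =>
      Set.Finite.biUnion (Finset.finite_toSet _) fun s _ => Set.finite_singleton _
  refine (h1.insert 0).subset ?_
  rintro a ⟨i, s, rfl⟩
  by_cases h0 : (D.coeff i).coeff s = 0
  · exact Or.inl h0
  · refine Or.inr ?_
    have hi : i ∈ D.support := by
      rw [Polynomial.mem_support_iff]
      intro hz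
      exact h0 (by rw [hz]; simp)
    have hs : s ∈ (D.coeff i).support := MvPolynomial.mem_support_iff.2 h0
    simp only [Set.mem_iUnion, Set.mem_singleton_iff]
    exact ⟨i, hi, s, hs, rfl⟩

theorem act2_div {K σ : Type} [Field K] (N : (MvPolynomial σ K)[X]) (hN : N ≠ 0) :
    {a : K | ∃ D : (MvPolynomial σ K)[X], D.Monic ∧ D ∣ N ∧
      ∃ i s, a = (D.coeff i).coeff s}.Finite := by
  have hf : Finite {g : (MvPolynomial σ K)[X] // g.Monic ∧ g ∣ N} :=
    @Finite.of_fintype _ (Polynomial.fintypeSubtypeMonicDvd N hN)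
  refine (Set.finite_iUnion fun D : {g : (MvPolynomial σ K)[X] // g.Monic ∧ g ∣ N} =>
    act2_coef D.1).subset ?_
  rintro a ⟨D, h1, h2, h3⟩
  exact Set.mem_iUnion.2 ⟨⟨D, h1, h2⟩, h3⟩

variable {K A ι : Type} [Field K] [IsAlgClosed K] [CommRing A] [IsDedekindDomain A] [Algebra K A]
  [Algebra K[X] A] [IsScalarTower K K[X] A] [Module.Finite K[X] A] [Module.IsTorsionFree K[X] A]
  [Fintype ι] [DecidableEq ι] {m : ℕ} (S : Su K A ι m) (p : ℕ) [Fact p.Prime] [CharP K p]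

theorem act2 (ht : ∀ a : K, ∃ n, 0 < n ∧ a ^ p ^ n = a) (h1 : S.Qk p S.q1) {c : K}
    {g : Fin m × ι → K} (h : S.Adm c g) :
    ∃ k0, 0 < k0 ∧ ∀ k, 0 < k → S.Act (S.q1 ^ (k0 * k)) c g := by
  obtain ⟨f, _, _, _, hq, _⟩ := h1
  have hN : S.NH c g ≠ 0 := (S.hNm.map _).ne_zero
  have hfin := ((act2_div (S.NH c g) hN).union (Set.finite_range g)).insert c
  obtain ⟨n, hn, hs⟩ := act2_fin ht _ hfin
  refine ⟨n, hn, fun k _ => ?_⟩
  have he : S.q1 ^ (n * k) = p ^ (n * (f * k)) := by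
    rw [hq, ← pow_mul]; congr 1; ring
  rw [he]
  refine ⟨act2_pow (hs c (Or.inl rfl)) _, fun v => act2_pow (hs _ (Or.inr (Or.inr ⟨v, rfl⟩))) _,
    h, fun D h1 h2 i s => act2_pow (hs _ (Or.inr (Or.inl ⟨D, h1, h2, i, s, rfl⟩))) _⟩

end Pool.Agent.MP_a9d3bd_zz
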