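import Pool.Agent.MP_a9d3bd_zz.HSt

namespace Pool.Agent.MP_a9d3bd_zz

open Polynomial Su

set_option linter.unusedSectionVars false

variable {K A ι : Type} [Field K] [IsAlgClosed K] [CommRing A] [IsDedekindDomain A] [Algebra K A]
  [Algebra K[X] A] [IsScalarTower K K[X] A] [Module.Finite K[X] A] [Module.IsTorsionFree K[X] A]
  [Fintype ι] [DecidableEq ι] {m : ℕ} (S : Su K A ι m) (p : ℕ) [Fact p.Prime] [CharP K p]

theorem alg_eq_H (f : K[X]) : algebraMap K[X] A f = aeval (xA K A) f := by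
  have h : (IsScalarTower.toAlgHom K K[X] A) = aeval (xA K A) := Polynomial.algHom_ext (by simp)
  exact DFunLike.congr_fun h f

theorem norm_RR (a a' : Fin m × ι → K) : Algebra.norm K[X] (S.RR a a') =
    C (pd S.P S.d S.c0 ^ Nat.card (A ≃ₐ[K[X]] A)) * S.Nf a a' := by
  have := S.hfin
  apply FaithfulSMul.algebraMap_injective K[X] A
  have h := Nf_eval S (AlgHom.id K A) (fun v => algebraMap K A (a v)) fun v => algebraMap K A (a' v)
  have h2 := Nf_map S (Algebra.ofId K A) a a'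
  simp only [Algebra.ofId_apply] at h2
  rw [← h2, eval_map] at h
  rw [S.hnorm, alg_eq_H, map_mul, aeval_C, map_pow]
  refine Eq.trans (finprod_congr fun σ => ?_) h.symm
  have h3 := RT_map S (AlgHom.id K A) (σ.restrictScalars K).toAlgHom
    (fun v => algebraMap K A (a v)) fun v => algebraMap K A (a' v)
  simp only [AlgHom.commutes] at h3
  exact h3

theorem root_pt {a a' : Fin m × ι → K} {x0 : K} (h : (S.Nf a a').IsRoot x0) :
    ∃ β : A →ₐ[K] K, β (S.RR a a') = 0 ∧ β (xA K A) = x0 := by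
  have := S.hfin
  have := Fintype.ofFinite (A ≃ₐ[K[X]] A)
  obtain ⟨β, rfl⟩ := pt_ex (A := A) x0
  have h1 := Nf_eval S β a a'
  rw [h.eq_zero, mul_zero, finprod_eq_prod_of_fintype] at h1
  obtain ⟨σ, -, hσ⟩ := Finset.prod_eq_zero_iff.1 h1.symm
  exact ⟨cj β σ, by rw [RR_map, hσ], cj_x _ _⟩

theorem pts_iff {c : K} {g a : Fin m × ι → K} (y : (A →ₐ[K] K) × K) : y ∈ S.pts c g a ↔
    S.Thr y.1 y.2 a ∧ y.1 (S.RR a fun v => g v + c * a v) = 0 :=
  and_congr_right fun h => by rw [fp_thr S h, RR_map]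

theorem ra_add_H {q : ℕ} (hq : S.Qk p q) : ∃ F : K →+* K, ∀ z, F z = z ^ q := by
  obtain ⟨f, k, -, -, h1, h2⟩ := hq
  exact ⟨iterateFrobenius K p (f * k), fun z => by rw [iterateFrobenius_def, h2, h1, pow_mul]⟩

theorem pts_bij {q : ℕ} {c : K} {g a : Fin m × ι → K} (ha : a ∈ S.Sp q c g) :
    (S.pts c g a).Finite ∧ (S.pts c g a).BijOn (fun y => y.1 (xA K A))
      {x | (S.Nf a fun v => g v + c * a v).IsRoot x} ∧
    ({β : A →ₐ[K] K | β (S.RR a fun v => g v + c * a v) = 0}.InjOn fun β => β (xA K A)) ∧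
    ∀ y ∈ S.pts c g a, S.RR a (fun v => g v + c * a v) ∉ RingHom.ker y.1 ^ 2 := by
  obtain ⟨s1, -⟩ := spl_iff (Nf_monic S _ _) ha.2
  have h1 : ∀ β : A →ₐ[K] K, β (S.RR a fun v => g v + c * a v) = 0 →
      (S.Nf a fun v => g v + c * a v).IsRoot (β (xA K A)) := fun β h =>
    Nf_root S (by rw [← RR_map, h])
  obtain ⟨d1, -, d3, d4⟩ := dim_pts _ _ _ (pow_ne_zero _ S.h0) (norm_RR S a _) (Nf_monic S _ _)
    s1 h1 fun x0 h => root_pt S h
  have hi : (S.pts c g a).InjOn Prod.fst := fun y hy y' hy' e =>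
    Prod.ext e (by rw [hy.1, hy'.1, e])
  refine ⟨Set.Finite.of_finite_image (d1.subset ?_) hi, ⟨fun y hy => ?_, fun y hy y' hy' e => ?_,
    fun x0 h => ?_⟩, d3, fun y hy => d4 _ ((pts_iff S y).1 hy).2⟩
  · rintro _ ⟨y, hy, rfl⟩
    exact ((pts_iff S y).1 hy).2
  · exact h1 _ ((pts_iff S y).1 hy).2
  · exact hi hy hy' (d3 ((pts_iff S y).1 hy).2 ((pts_iff S y').1 hy').2 e)
  · obtain ⟨β, b1, b2⟩ := root_pt S h
    exact ⟨(β, β (xA K A) ^ S.M + gam S.e β a), (pts_iff S _).2 ⟨rfl, b1⟩, b2⟩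

theorem spl_H {q : ℕ} (hq : S.Qk p q) {c : K} {g a : Fin m × ι → K} (hc : Ra q c) (hg : RaV q g)
    (ha : a ∈ S.Sp q c g) : (S.pts c g a).Finite ∧ (S.pts c g a).ncard = S.n ∧
    (S.pts c g a).InjOn (fun y => y.1 (xA K A)) ∧ ∀ y ∈ S.pts c g a, S.Inc q c g y.1 y.2 ∧
      S.RR a (fun v => g v + c * a v) ∉ RingHom.ker y.1 ^ 2 := by
  obtain ⟨b1, b2, b3, b4⟩ := pts_bij S ha
  obtain ⟨s1, s2, -⟩ := spl_iff (Nf_monic S _ _) ha.2
  obtain ⟨F, hF⟩ := ra_add_H S p hq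
  have hR : ∀ z, Ra q z ↔ F z = z := fun z => by rw [hF]; rfl
  refine ⟨b1, ?_, b2.injOn, fun y hy => ⟨?_, b4 y hy⟩⟩
  · rw [← Set.InjOn.ncard_image b2.injOn, b2.image_eq, s1, Nf_deg]
  have hx := s2 _ (b2.mapsTo hy)
  have ha' : RaV q fun v => g v + c * a v := fun v => by
    rw [hR, map_add, map_mul, (hR _).1 (hg v), (hR _).1 hc, (hR _).1 (ha.1 v)]
  obtain ⟨β', t1, t2, t3⟩ := tw S p hq y.1
  have hy0 := ((pts_iff S y).1 hy).2
  have hq0 : q ≠ 0 := by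
    rintro rfl
    have := hF 0
    simp at this
  have e : β' = y.1 := b3 (show β' _ = 0 by
    rw [RR_map, t3 _ _ ha.1 ha', ← RR_map, hy0, zero_pow hq0]) hy0 (t1.trans hx.1)
  have he : ∀ j, Ra q (y.1 (S.e j)) := fun j => by rw [Ra, ← t2, e]
  refine ⟨hx.1, he, ?_, hy.2, a, ha.1, hy.1, hx.2⟩
  rw [hR, hy.1]
  simp only [gam, map_add, map_pow, map_sum, map_mul, (hR _).1 hx.1, (hR _).1 (he _),
    (hR _).1 (ha.1 _)]

theorem rat_dvd {q : ℕ} (hq : S.Qk p q) {c : K} {g a : Fin m × ι → K} (hc : Ra q c)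
    (hg : RaV q g) (ha : a ∈ S.Sp q c g) (D : (MvPolynomial (Fin m × ι) K)[X]) (hD : D.Monic)
    (hd : D ∣ S.NH c g) (i : ℕ) (s : Fin m × ι →₀ ℕ) : Ra q ((D.coeff i).coeff s) := by
  obtain ⟨F, hF, hN⟩ := NH_rat S p hq hc hg
  obtain ⟨-, -, s3, s4⟩ := spl_iff (Nf_monic S _ _) ha.2
  rw [← NH_eval] at s3 s4
  have e : D.map (MvPolynomial.map F) = D := by
    refine dvd_eq (MvPolynomial.eval a) (NH_monic S c g) s3 (hD.map _) hD
      (hN ▸ Polynomial.map_dvd _ hd) hd ?_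
    have h1 := (s4 _ (hD.map _) (Polynomial.map_dvd (MvPolynomial.eval a) hd)).2 F hF
    rw [← h1, Polynomial.map_map, Polynomial.map_map]
    congr 1
    refine MvPolynomial.ringHom_ext (fun r => by simp) fun v => ?_
    simpa [hF] using (ha.1 v).symm
  have := congrArg (fun D => (coeff D i).coeff s) e
  simpa [MvPolynomial.coeff_map, hF, Ra] using this

theorem act_H {q : ℕ} (hq : S.Qk p q) {c : K} {g a : Fin m × ι → K} (hc : Ra q c) (hg : RaV q g)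
    (h : S.Adm c g) (ha : a ∈ S.Sp q c g) : S.Act q c g :=
  ⟨hc, hg, h, rat_dvd S p hq hc hg ha⟩

theorem fix_H {x : K} {q : ℕ} (h : x ^ q = x) (j : ℕ) : x ^ q ^ j = x := by
  induction j with
  | zero => simp
  | succ j ih => rw [pow_succ, pow_mul, ih, h]

theorem fin_fix_H (ht : ∀ a : K, ∃ n, 0 < n ∧ a ^ p ^ n = a) {s : Set K} (hs : s.Finite) :
    ∃ k0, 0 < k0 ∧ ∀ x ∈ s, ∀ j, x ^ p ^ (k0 * j) = x := by
  induction s, hs using Set.Finite.induction_on with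
  | empty => exact ⟨1, one_pos, fun _ h => h.elim⟩
  | @insert a s _ _ ih =>
    obtain ⟨k0, h0, h1⟩ := ih
    obtain ⟨n, n0, n1⟩ := ht a
    refine ⟨k0 * n, Nat.mul_pos h0 n0, fun x hx j => ?_⟩
    rcases hx with rfl | hx
    · rw [mul_comm k0, mul_assoc, pow_mul]
      exact fix_H n1 _
    · rw [mul_assoc]
      exact h1 x hx _

theorem act2_H (ht : ∀ a : K, ∃ n, 0 < n ∧ a ^ p ^ n = a) (h1 : S.Qk p S.q1) {c : K}
    {g : Fin m × ι → K} (h : S.Adm c g) :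
    ∃ k0, 0 < k0 ∧ ∀ k, 0 < k → S.Act (S.q1 ^ (k0 * k)) c g := by
  classical
  obtain ⟨f, -, -, -, hf, -⟩ := h1
  have := Polynomial.fintypeSubtypeMonicDvd (S.NH c g) (NH_monic S c g).ne_zero
  have hs : ({0, c} ∪ Set.range g ∪
      ⋃ D : {D : (MvPolynomial (Fin m × ι) K)[X] // D.Monic ∧ D ∣ S.NH c g},
        ⋃ i ∈ D.1.support, (fun s => (D.1.coeff i).coeff s) '' (D.1.coeff i).support).Finite :=
    ((Set.toFinite _).union (Set.finite_range g)).union (Set.finite_iUnion fun D =>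
      D.1.support.finite_toSet.biUnion fun i _ => (Finset.finite_toSet _).image _)
  obtain ⟨k0, h0, H⟩ := fin_fix_H p ht hs
  have e : ∀ k, S.q1 ^ (k0 * k) = p ^ (k0 * (f * k)) := fun k => by
    rw [hf, ← pow_mul]
    congr 1
    ring
  refine ⟨k0, h0, fun k _ => ⟨?_, fun v => ?_, h, fun D hD hd i s => ?_⟩⟩ <;> rw [Ra, e] <;>
    refine H _ ?_ _
  · simp
  · exact Or.inl (Or.inr ⟨v, rfl⟩)
  · by_cases h0 : (D.coeff i).coeff s = 0
    · simp [h0]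
    · refine Or.inr (Set.mem_iUnion.2 ⟨⟨D, hD, hd⟩, Set.mem_iUnion₂.2 ⟨i, ?_, s, ?_, rfl⟩⟩)
      · exact mem_support_iff.2 fun h => h0 (by simp only at h; rw [h]; simp)
      · exact MvPolynomial.mem_support_iff.2 h0

theorem not_two {c : K} {g a : Fin m × ι → K} {x : K} {D E : (MvPolynomial (Fin m × ι) K)[X]}
    (hDE : S.NH c g = D * E) (h : (derivative (S.Nf a fun v => g v + c * a v)).eval x ≠ 0)
    (hD : D.eval₂ (MvPolynomial.eval a) x = 0) (hE : E.eval₂ (MvPolynomial.eval a) x = 0) :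
    False := by
  apply h
  rw [← NH_eval, hDE, Polynomial.map_mul, derivative_mul, eval_add, eval_mul, eval_mul,
    eval_map, eval_map (p := D), hD, hE, mul_zero, zero_mul, add_zero]

theorem cls_sec_H {c : K} {g : Fin m × ι → K} {t : A} (ht : (S.fL c g).IsRoot (algebraMap A _ t))
    {β β' : A →ₐ[K] K} (h : S.Smp (fun _ => True) c g β (β t))
    (h' : S.Smp (fun _ => True) c g β' (β' t)) : S.cls c g β (β t) = S.cls c g β' (β' t) := by
  have h0 : (S.fp (AlgHom.id K A) (algebraMap K A c) fun v => algebraMap K A (g v)).eval t = 0 := by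
    apply IsFractionRing.injective A (FractionRing A)
    have := fp_map S (AlgHom.id K A) (gp K A) (algebraMap K A c) (fun v => algebraMap K A (g v)) t
    simp only [AlgHom.commutes] at this
    rw [map_zero]
    exact this.trans ht
  ext D
  refine and_congr_right fun _ => and_congr_right fun ⟨E, hE⟩ => ?_
  obtain ⟨-, a, -, a1, a2⟩ := h
  obtain ⟨-, a', -, a1', a2'⟩ := h'
  rcases van_or S (AlgHom.id K A) t h0 hE with H | H
  · exact ⟨fun _ => H β', fun _ => H β⟩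
  · exact ⟨fun h => (not_two S hE a2 (h a a1) (H β a a1)).elim,
      fun h => (not_two S hE a2' (h a' a1') (H β' a' a1')).elim⟩

theorem cls_iff {q : ℕ} {c : K} {g a : Fin m × ι → K} (ha : a ∈ S.Sp q c g)
    {y : (A →ₐ[K] K) × K} (hy : y ∈ S.pts c g a) {D₀ : (MvPolynomial (Fin m × ι) K)[X]}
    (m₀ : D₀.Monic) (d₀ : D₀ ∣ S.NH c g) (p₀ : Prime D₀) :
    S.cls c g y.1 y.2 = {D | D.Monic ∧ D ∣ S.NH c g ∧ D₀ ∣ D} ↔
      D₀.eval₂ (MvPolynomial.eval a) (y.1 (xA K A)) = 0 := by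
  obtain ⟨-, s2, -⟩ := spl_iff (Nf_monic S _ _) ha.2
  have hx := (s2 _ ((pts_bij S ha).2.1.mapsTo hy)).2
  constructor
  · intro h
    have : D₀ ∈ S.cls c g y.1 y.2 := h ▸ ⟨m₀, d₀, dvd_rfl⟩
    exact this.2.2 a hy.1
  intro h0
  have hz : ∀ {D}, D₀ ∣ D → D.eval₂ (MvPolynomial.eval a) (y.1 (xA K A)) = 0 := by
    rintro _ ⟨E, rfl⟩
    rw [eval₂_mul, h0, zero_mul]
  ext D
  refine and_congr_right fun _ => and_congr_right fun ⟨E, hE⟩ => ⟨fun h => ?_, fun h => ?_⟩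
  · exact (p₀.dvd_or_dvd (hE ▸ d₀)).resolve_right fun h' => not_two S hE hx (h a hy.1) (hz h')
  · rcases van_or S y.1 y.2 hy.2 hE with H | H
    · exact H (AlgHom.id K K)
    · exact (not_two S hE hx (hz h) (H (AlgHom.id K K) a hy.1)).elim

theorem ex_prime_H {W : Type} (ev : MvPolynomial W K →+* K) (x : K) (N : (MvPolynomial W K)[X])
    (hN : N.Monic) (h : N.eval₂ ev x = 0) :
    ∃ D : (MvPolynomial W K)[X], D.Monic ∧ D ∣ N ∧ Prime D ∧ D.eval₂ ev x = 0 := by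
  obtain ⟨s, s1, s2⟩ := UniqueFactorizationMonoid.exists_prime_factors N hN.ne_zero
  obtain ⟨E, hE⟩ := s2.symm.dvd
  have h1 : (s.map (eval₂RingHom ev x)).prod = 0 := by
    rw [← map_multiset_prod, hE, map_mul, coe_eval₂RingHom, h, zero_mul]
  obtain ⟨D, hD, h2⟩ := Multiset.mem_map.1 (Multiset.prod_eq_zero_iff.1 h1)
  have hd : D ∣ N := (Multiset.dvd_prod hD).trans s2.dvd
  obtain ⟨u, hu⟩ := hN.isUnit_leadingCoeff_of_dvd hd
  have ha : Associated D (D * C (↑u⁻¹ : MvPolynomial W K)) :=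
    associated_mul_unit_right _ _ (isUnit_C.2 (Units.isUnit _))
  refine ⟨_, monic_mul_C_of_leadingCoeff_mul_eq_one (by rw [← hu, Units.mul_inv]),
    ha.symm.dvd.trans hd, ha.prime (s1 D hD), ?_⟩
  rw [coe_eval₂RingHom] at h2
  rw [eval₂_mul, h2, zero_mul]

theorem cls_num {q : ℕ} {c : K} {g a : Fin m × ι → K} (ha : a ∈ S.Sp q c g)
    {D₀ : (MvPolynomial (Fin m × ι) K)[X]} (m₀ : D₀.Monic) (d₀ : D₀ ∣ S.NH c g) (p₀ : Prime D₀) :
    {y ∈ S.pts c g a | S.cls c g y.1 y.2 = {D | D.Monic ∧ D ∣ S.NH c g ∧ D₀ ∣ D}}.ncard =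
      D₀.natDegree := by
  obtain ⟨-, -, -, s4⟩ := spl_iff (Nf_monic S _ _) ha.2
  have hd : D₀.map (MvPolynomial.eval a) ∣ S.Nf a fun v => g v + c * a v :=
    NH_eval S c g a ▸ Polynomial.map_dvd _ d₀
  obtain ⟨-, b, -⟩ := pts_bij S ha
  rw [← m₀.natDegree_map (MvPolynomial.eval a), ← (s4 _ (m₀.map _) hd).1,
    ← Set.InjOn.ncard_image (b.injOn.mono (Set.sep_subset _ _))]
  congr 1
  ext x
  constructor
  · rintro ⟨y, hy, rfl⟩
    exact (eval_map _ _).trans ((cls_iff S ha hy.1 m₀ d₀ p₀).1 hy.2)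
  · intro hx
    obtain ⟨y, hy, rfl⟩ := b.surjOn (IsRoot.dvd hx hd)
    exact ⟨y, ⟨hy, (cls_iff S ha hy m₀ d₀ p₀).2 ((eval_map _ _).symm.trans hx)⟩, rfl⟩

theorem cls_cnt_H {q : ℕ} (_hq : S.Qk p q) {c : K} {g a a' : Fin m × ι → K} (_hc : Ra q c)
    (_hg : RaV q g) (ha : a ∈ S.Sp q c g) (ha' : a' ∈ S.Sp q c g)
    (l : Set (MvPolynomial (Fin m × ι) K)[X]) :
    {y ∈ S.pts c g a | S.cls c g y.1 y.2 = l}.ncard =
      {y ∈ S.pts c g a' | S.cls c g y.1 y.2 = l}.ncard := by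
  have key : ∀ b ∈ S.Sp q c g, ∀ y ∈ S.pts c g b, S.cls c g y.1 y.2 = l →
      {y ∈ S.pts c g a | S.cls c g y.1 y.2 = l}.ncard =
        {y ∈ S.pts c g a' | S.cls c g y.1 y.2 = l}.ncard := by
    intro b hb y hy hl
    have hr := (pts_bij S hb).2.1.mapsTo hy
    obtain ⟨D, d1, d2, d3, d4⟩ := ex_prime_H (MvPolynomial.eval b) (y.1 (xA K A)) (S.NH c g)
      (NH_monic S c g) (by rw [← eval_map, NH_eval]; exact hr)
    rw [← hl, (cls_iff S hb hy d1 d2 d3).2 d4, cls_num S ha d1 d2 d3, cls_num S ha' d1 d2 d3]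
  rcases Set.eq_empty_or_nonempty {y ∈ S.pts c g a | S.cls c g y.1 y.2 = l} with h | ⟨y, hy⟩
  · rcases Set.eq_empty_or_nonempty {y ∈ S.pts c g a' | S.cls c g y.1 y.2 = l} with h' | ⟨y, hy⟩
    · rw [h, h']
    · exact key a' ha' y hy.1 hy.2
  · exact key a ha y hy.1 hy.2

theorem fib_H {c : K} {g : Fin m × ι → K} (hc : pd S.P S.d c ≠ 0) (x : K) :
    ∃ Y : Finset ((A →ₐ[K] K) × K), Y.card ≤ Nat.card (A ≃ₐ[K[X]] A) * S.d ∧
      ∀ y : (A →ₐ[K] K) × K, (S.fp y.1 c g).eval y.2 = 0 → y.1 (xA K A) = x → y ∈ Y := by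
  classical
  have := S.hfin
  have := Fintype.ofFinite (A ≃ₐ[K[X]] A)
  obtain ⟨β, rfl⟩ := pt_ex (A := A) x
  refine ⟨Finset.univ.biUnion fun σ =>
    (S.fp (cj β σ) c g).roots.toFinset.image fun t => (cj β σ, t), ?_, ?_⟩
  · rw [Nat.card_eq_fintype_card]
    exact Finset.card_biUnion_le_card_mul _ _ _ fun σ _ => Finset.card_image_le.trans
      ((Multiset.toFinset_card_le _).trans ((card_roots' _).trans (fp_deg S _ c g).1))
  · rintro ⟨β', t⟩ h1 h2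
    obtain ⟨σ, rfl⟩ := pt_tr h2.symm S
    refine Finset.mem_biUnion.2 ⟨σ, Finset.mem_univ _, Finset.mem_image.2 ⟨t, ?_, rfl⟩⟩
    refine Multiset.mem_toFinset.2 ((mem_roots fun h => hc ?_).2 h1)
    rw [← (fp_deg S (cj β σ) c g).2, h, coeff_zero]

theorem pcount_H : ∃ B : ℕ, ∀ q, S.Qk p q → ∀ c g, S.Adm c g →
    {y : (A →ₐ[K] K) × K | S.Inc q c g y.1 y.2}.Finite ∧
    {y : (A →ₐ[K] K) × K | S.Inc q c g y.1 y.2}.ncard ≤ B * q ∧
    ∀ x : K, {y : (A →ₐ[K] K) × K | S.Inc q c g y.1 y.2 ∧ y.1 (xA K A) = x}.ncard ≤ B := by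
  classical
  refine ⟨Nat.card (A ≃ₐ[K[X]] A) * S.d, fun q hq c g h => ?_⟩
  choose Y hY1 hY2 using fib_H S (g := g) h.1
  have hq1 : 1 < q := by
    obtain ⟨f, k, hf, hk, h1, h2⟩ := hq
    rw [h2, h1, ← pow_mul]
    exact Nat.one_lt_pow (Nat.mul_pos hf hk).ne' (Fact.out : p.Prime).one_lt
  have hne := FiniteField.X_pow_card_sub_X_ne_zero K hq1
  have hsub : {y : (A →ₐ[K] K) × K | S.Inc q c g y.1 y.2} ⊆
      ((X ^ q - X : K[X]).roots.toFinset.biUnion Y : Finset _) := by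
    intro y hy
    refine Finset.mem_coe.2 (Finset.mem_biUnion.2 ⟨_, ?_, hY2 _ y hy.2.2.2.1 rfl⟩)
    refine Multiset.mem_toFinset.2 ((mem_roots hne).2 ?_)
    simpa [sub_eq_zero, Ra] using hy.1
  refine ⟨(Finset.finite_toSet _).subset hsub, ?_, fun x => ?_⟩
  · refine (Set.ncard_le_ncard hsub (Finset.finite_toSet _)).trans ?_
    rw [Set.ncard_coe_finset, mul_comm]
    refine (Finset.card_biUnion_le_card_mul _ _ _ fun x _ => hY1 x).trans
      (Nat.mul_le_mul_right _ ((Multiset.toFinset_card_le _).trans ((card_roots' _).trans ?_)))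
    exact (FiniteField.X_pow_card_sub_X_natDegree_eq K hq1).le
  · refine (Set.ncard_le_ncard (t := Y x) (fun y hy => hY2 x y hy.1.2.2.2.1 hy.2)
      (Finset.finite_toSet _)).trans ?_
    rw [Set.ncard_coe_finset]
    exact hY1 x

end Pool.Agent.MP_a9d3bd_zz
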