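import Pool.Agent.MP_a9d3bd_zz.Defs
import Pool.Agent.MP_a9d3bd_zz.HMain

namespace Pool.Agent.MP_a9d3bd_zz

open Polynomial Su

set_option linter.unusedSectionVars false

variable {K A ι : Type} [Field K] [IsAlgClosed K] [CommRing A] [IsDedekindDomain A] [Algebra K A]
  [Algebra K[X] A] [IsScalarTower K K[X] A] [Module.Finite K[X] A] [Module.IsTorsionFree K[X] A]
  [Fintype ι] [DecidableEq ι] {m : ℕ} (S : Su K A ι m) (p : ℕ) [Fact p.Prime] [CharP K p]

theorem cls_sec {c : K} {g : Fin m × ι → K} {t : A} (ht : (S.fL c g).IsRoot (algebraMap A _ t))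
    {β β' : A →ₐ[K] K} (h : S.Smp (fun _ => True) c g β (β t))
    (h' : S.Smp (fun _ => True) c g β' (β' t)) : S.cls c g β (β t) = S.cls c g β' (β' t) :=
  cls_sec_H S ht h h'

end Pool.Agent.MP_a9d3bd_zz
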