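import Pool.Agent.MP_a9d3bd_zz.Defs

namespace Pool.Agent.MP_a9d3bd_zz

open Polynomial Su

section
variable {K : Type} [Field K]

theorem pen_mon {T : Type} [CommRing T] (u : Fin 3 → T[X]) (hu : ∀ i, (u i).natDegree ≤ 1)
    (s : Fin 3 →₀ ℕ) : (∏ i, u i ^ s i).natDegree ≤ s.degree ∧
      (∏ i, u i ^ s i).coeff s.degree = ∏ i, (u i).coeff 1 ^ s i := by
  have hd : s.degree = s 0 + s 1 + s 2 := by
    rw [Finsupp.degree_eq_sum, Fin.sum_univ_three]
  have h1 : ∀ i, (u i ^ s i).natDegree ≤ s i := fun i => by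
    simpa using natDegree_pow_le_of_le (s i) (hu i)
  have h2 : ∀ i, (u i ^ s i).coeff (s i) = (u i).coeff 1 ^ s i := fun i => by
    simpa using coeff_pow_of_natDegree_le (m := s i) (hu i)
  have h3 : (u 0 ^ s 0 * u 1 ^ s 1).natDegree ≤ s 0 + s 1 :=
    natDegree_mul_le.trans (Nat.add_le_add (h1 0) (h1 1))
  rw [hd, Fin.prod_univ_three, Fin.prod_univ_three]
  refine ⟨natDegree_mul_le.trans (Nat.add_le_add h3 (h1 2)), ?_⟩
  rw [coeff_mul_add_eq_of_natDegree_le h3 (h1 2), coeff_mul_add_eq_of_natDegree_le (h1 0) (h1 1),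
    h2, h2, h2]

theorem pen_top {T : Type} [CommRing T] [Algebra K T] (P : MvPolynomial (Fin 3) K) (d : ℕ)
    (hP : P.totalDegree ≤ d) (u : Fin 3 → T[X]) (hu : ∀ i, (u i).natDegree ≤ 1) :
    (MvPolynomial.aeval u P).natDegree ≤ d ∧ (MvPolynomial.aeval u P).coeff d =
      MvPolynomial.aeval (fun i => (u i).coeff 1) (MvPolynomial.homogeneousComponent d P) := by
  have hs : ∀ s ∈ P.support, s.degree ≤ d := fun s hs =>
    le_trans (MvPolynomial.le_totalDegree hs) hP
  have e : MvPolynomial.aeval u P =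
      ∑ s ∈ P.support, C (algebraMap K T (P.coeff s)) * ∏ i, u i ^ s i := by
    rw [MvPolynomial.aeval_def, MvPolynomial.eval₂_eq']
    rfl
  rw [e]
  constructor
  · refine natDegree_sum_le_of_forall_le _ _ fun s h => ?_
    exact (natDegree_C_mul_le _ _).trans ((pen_mon u hu s).1.trans (hs s h))
  · rw [MvPolynomial.homogeneousComponent_apply, map_sum, finsetSum_coeff, Finset.sum_filter]
    refine Finset.sum_congr rfl fun s h => ?_
    rw [coeff_C_mul]
    split_ifs with k
    · rw [MvPolynomial.aeval_monomial, ← k, (pen_mon u hu s).2, Finsupp.prod_fintype _ _ (by simp)]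
    · rw [coeff_eq_zero_of_natDegree_lt
        (lt_of_le_of_lt (pen_mon u hu s).1 (lt_of_le_of_ne (hs s h) k)), mul_zero]

theorem pen_res (f : K[X]) (d : ℕ) (h1 : f.natDegree ≤ d) (h2 : f.coeff d ≠ 0) :
    f.Separable ↔ resultant f (derivative f) d (d - 1) ≠ 0 := by
  have hd : f.natDegree = d := natDegree_eq_of_le_of_coeff_ne_zero h1 h2
  have hf : f ≠ 0 := by
    rintro rfl
    simp at h2
  have h3 : (derivative f).natDegree ≤ d - 1 := hd ▸ natDegree_derivative_le f
  obtain ⟨k, hk⟩ := Nat.exists_eq_add_of_le h3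
  rw [hk, resultant_add_right_deg _ _ _ _ _ le_rfl, mul_ne_zero_iff, and_iff_right (pow_ne_zero _ h2)]
  subst hd
  rw [Ne, resultant_eq_zero_iff, separable_def]
  simp [hf]

/-- The equation along a line of the pencil. -/
noncomputable def penG {T : Type} [CommRing T] [Algebra K T] (P : MvPolynomial (Fin 3) K)
    (x t w c : T) : T[X] :=
  MvPolynomial.aeval ![C x, X, C w + C c * (X - C t)] P

theorem pen_map {T T' : Type} [CommRing T] [Algebra K T] [CommRing T'] [Algebra K T']
    (φ : T →ₐ[K] T') (P : MvPolynomial (Fin 3) K) (x t w c : T) :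
    (penG P x t w c).map (φ : T →+* T') = penG P (φ x) (φ t) (φ w) (φ c) := by
  have h := MvPolynomial.comp_aeval_apply ![C x, X, C w + C c * (X - C t)] (mapAlgHom φ) P
  rw [coe_mapAlgHom] at h
  unfold penG
  rw [h]
  congr 2
  funext i
  fin_cases i <;> simp

theorem pen_G {T : Type} [CommRing T] [Nontrivial T] [Algebra K T] (P : MvPolynomial (Fin 3) K)
    (d : ℕ) (hP : P.totalDegree ≤ d) (x t w c : T) :
    (penG P x t w c).natDegree ≤ d ∧ (penG P x t w c).coeff d = pd P d c := by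
  have h := pen_top P d hP ![C x, X, C w + C c * (X - C t)] (by
    intro i
    fin_cases i
    · simp
    · simp
    · show (C w + C c * (X - C t)).natDegree ≤ 1
      compute_degree)
  refine ⟨h.1, h.2.trans ?_⟩
  unfold pd
  congr 2
  funext i
  fin_cases i <;> simp [coeff_X]

theorem pen_pd (P : MvPolynomial (Fin 3) K) (d : ℕ) (c : K) :
    (pd P d (X : K[X])).eval c = pd P d c := by
  have h := MvPolynomial.comp_aeval_apply ![0, 1, (X : K[X])] (Polynomial.aeval (R := K) c)
    (MvPolynomial.homogeneousComponent d P)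
  rw [coe_aeval_eq_eval] at h
  unfold pd
  rw [h]
  congr 2
  funext i
  fin_cases i <;> simp

theorem pen_main (P : MvPolynomial (Fin 3) K) (d : ℕ) (hP : P.totalDegree ≤ d) :
    ∃ D : ℕ, ∀ x t w c1 : K, pd P d c1 ≠ 0 → (penG P x t w c1).Separable →
      ∃ B : Finset K, B.card ≤ D ∧ ∀ c ∉ B, pd P d c ≠ 0 ∧ (penG P x t w c).Separable := by
  classical
  let F : (MvPolynomial (Fin 3) K)[X][X] :=
    penG P (C (MvPolynomial.X 0)) (C (MvPolynomial.X 1)) (C (MvPolynomial.X 2)) X
  let R : (MvPolynomial (Fin 3) K)[X] := resultant F (derivative F) d (d - 1)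
  refine ⟨R.natDegree + (pd P d (X : K[X])).natDegree, fun x t w c1 h1 h2 => ?_⟩
  let ψ : MvPolynomial (Fin 3) K →ₐ[K] K := MvPolynomial.aeval ![x, t, w]
  have key : ∀ c : K, (R.map (ψ : MvPolynomial (Fin 3) K →+* K)).eval c =
      resultant (penG P x t w c) (derivative (penG P x t w c)) d (d - 1) := by
    intro c
    let φ : (MvPolynomial (Fin 3) K)[X] →ₐ[K] K := (Polynomial.aeval c).comp (mapAlgHom ψ)
    have e1 : F.map (φ : (MvPolynomial (Fin 3) K)[X] →+* K) = penG P x t w c := by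
      rw [pen_map]
      simp [φ, ψ]
    rw [← e1, derivative_map, resultant_map_map]
    simp [φ, R, coe_aeval_eq_eval]
  have hs : ∀ c : K, pd P d c ≠ 0 → ((penG P x t w c).Separable ↔
      (R.map (ψ : MvPolynomial (Fin 3) K →+* K)).eval c ≠ 0) := by
    intro c hc
    rw [key]
    exact pen_res _ d (pen_G P d hP x t w c).1 (by rw [(pen_G P d hP x t w c).2]; exact hc)
  have hne : R.map (ψ : MvPolynomial (Fin 3) K →+* K) * pd P d (X : K[X]) ≠ 0 := by
    intro h0
    have h3 := congrArg (eval c1) h0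
    rw [eval_mul, pen_pd, eval_zero] at h3
    exact mul_ne_zero ((hs c1 h1).1 h2) h1 h3
  refine ⟨(R.map (ψ : MvPolynomial (Fin 3) K →+* K) * pd P d (X : K[X])).roots.toFinset, ?_, ?_⟩
  · refine (Multiset.toFinset_card_le _).trans ((card_roots' _).trans (natDegree_mul_le.trans ?_))
    exact Nat.add_le_add_right natDegree_map_le _
  · intro c hc
    rw [Multiset.mem_toFinset, mem_roots hne, IsRoot.def, eval_mul, pen_pd, mul_eq_zero,
      not_or] at hc
    exact ⟨hc.2, (hs c hc.2).2 hc.1⟩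

end

variable {K A ι : Type} [Field K] [IsAlgClosed K] [CommRing A] [IsDedekindDomain A] [Algebra K A]
  [Algebra K[X] A] [IsScalarTower K K[X] A] [Module.Finite K[X] A] [Module.IsTorsionFree K[X] A]
  [Fintype ι] [DecidableEq ι] {m : ℕ} (S : Su K A ι m) (p : ℕ) [Fact p.Prime] [CharP K p]

theorem pen_fp (θ : A →ₐ[K] K) (a a' : Fin m × ι → K) (c : K) :
    S.fp θ c (fun v => a' v - c * a v) = penG S.P (θ (xA K A))
      (θ (xA K A) ^ S.M + gam S.e θ a) (S.c0 * θ (xA K A) ^ S.M + gam S.e θ a') c := by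
  have e : gam S.e θ (fun v => a' v - c * a v) = gam S.e θ a' - c * gam S.e θ a := by
    unfold gam
    rw [Finset.mul_sum, ← Finset.sum_sub_distrib]
    exact Finset.sum_congr rfl fun v _ => by ring
  have e2 : S.wl θ c (fun v => a' v - c * a v) = C (S.c0 * θ (xA K A) ^ S.M + gam S.e θ a') +
      C c * (X - C (θ (xA K A) ^ S.M + gam S.e θ a)) := by
    unfold Su.wl
    rw [e]
    simp only [Algebra.algebraMap_self, RingHom.id_apply, map_add, map_sub, map_mul]
    ring
  unfold Su.fp penG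
  rw [e2]

theorem pen : ∃ D : ℕ, ∀ (a a' : Fin m × ι → K) (c1 : K), S.Adm c1 (fun v => a' v - c1 * a v) →
    ∃ B : Finset K, B.card ≤ D ∧ ∀ c ∉ B, S.Adm c fun v => a' v - c * a v := by
  obtain ⟨D, hD⟩ := pen_main S.P S.d S.hP
  refine ⟨D, fun a a' c1 ⟨h1, θ, h2⟩ => ?_⟩
  rw [pen_fp] at h2
  obtain ⟨B, hB, h⟩ := hD _ _ _ c1 h1 h2
  exact ⟨B, hB, fun c hc => ⟨(h c hc).1, θ, by rw [pen_fp]; exact (h c hc).2⟩⟩

end Pool.Agent.MP_a9d3bd_zz
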