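import Pool.Agent.MP_a9d3bd_zz.Defs

namespace Pool.Agent.MP_a9d3bd_zz

open Polynomial Su

variable {K A ι : Type} [Field K] [IsAlgClosed K] [CommRing A] [IsDedekindDomain A] [Algebra K A]
  [Algebra K[X] A] [IsScalarTower K K[X] A] [Module.Finite K[X] A] [Module.IsTorsionFree K[X] A]
  [Fintype ι] [DecidableEq ι] {m : ℕ} (S : Su K A ι m) (p : ℕ) [Fact p.Prime] [CharP K p]

theorem pen2_top {K T : Type} [Field K] [CommRing T] [Algebra K T] (L : Fin 3 → T[X])
    (hL : ∀ i, (L i).natDegree ≤ 1) (P : MvPolynomial (Fin 3) K) {d : ℕ} (hP : P.totalDegree ≤ d) :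
    (MvPolynomial.aeval L P).natDegree ≤ d ∧ (MvPolynomial.aeval L P).coeff d =
      MvPolynomial.aeval (fun i => (L i).coeff 1) (MvPolynomial.homogeneousComponent d P) := by
  classical
  have k : ∀ (s : Fin 3 →₀ ℕ) (r : K),
      (MvPolynomial.aeval L (MvPolynomial.monomial s r)).natDegree ≤ s.degree ∧
      (MvPolynomial.aeval L (MvPolynomial.monomial s r)).coeff s.degree =
        MvPolynomial.aeval (fun i => (L i).coeff 1) (MvPolynomial.monomial s r) := fun s r => by
    have a : ∀ i, (L i ^ s i).natDegree ≤ s i := fun i => by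
      simpa using natDegree_pow_le_of_le (s i) (hL i)
    have b : ∀ i, (L i ^ s i).coeff (s i) = (L i).coeff 1 ^ s i := fun i => by
      simpa using coeff_pow_of_natDegree_le (m := s i) (hL i)
    have e := natDegree_mul_le_of_le (a 0) (a 1)
    rw [MvPolynomial.aeval_monomial, MvPolynomial.aeval_monomial,
      Finsupp.prod_fintype _ _ (by simp), Finsupp.prod_fintype _ _ (by simp),
      Finsupp.degree_eq_sum, Fin.prod_univ_three, Fin.prod_univ_three, Fin.sum_univ_three,
      Polynomial.algebraMap_apply, coeff_C_mul, coeff_mul_add_eq_of_natDegree_le e (a 2),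
      coeff_mul_add_eq_of_natDegree_le (a 0) (a 1), b, b, b]
    exact ⟨(natDegree_C_mul_le _ _).trans (natDegree_mul_le_of_le e (a 2)), rfl⟩
  have l : ∀ s ∈ P.support, s.degree ≤ d := fun s hs => (MvPolynomial.le_totalDegree hs).trans hP
  rw [MvPolynomial.homogeneousComponent_apply, map_sum, Finset.sum_filter]
  conv_lhs => rw [P.as_sum, map_sum]
  conv_rhs => lhs; rw [P.as_sum, map_sum]
  refine ⟨natDegree_sum_le_of_forall_le _ _ fun s hs => (k s _).1.trans (l s hs), ?_⟩
  rw [finsetSum_coeff]
  refine Finset.sum_congr rfl fun s hs => ?_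
  split_ifs with e
  · rw [← e]
    exact (k s _).2
  · exact coeff_eq_zero_of_natDegree_lt ((k s _).1.trans_lt ((l s hs).lt_of_ne e))

theorem pen2_lin {K T : Type} [Field K] [CommRing T] [Algebra K T] (x w c y : T)
    (P : MvPolynomial (Fin 3) K) {d : ℕ} (hP : P.totalDegree ≤ d) :
    (MvPolynomial.aeval ![C x, X, C w + C c * (X - C y)] P).natDegree ≤ d ∧
      (MvPolynomial.aeval ![C x, X, C w + C c * (X - C y)] P).coeff d = pd P d c := by
  have := pen2_top ![C x, X, C w + C c * (X - C y)] (fun i => by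
    fin_cases i
    · simp
    · exact natDegree_X_le
    · change (C w + C c * (X - C y)).natDegree ≤ 1
      compute_degree) P hP
  refine ⟨this.1, this.2.trans ?_⟩
  unfold pd
  congr 2
  funext i
  fin_cases i <;> simp [coeff_X]

theorem pen2_res {K : Type} [Field K] (F : K[X][X]) {d : ℕ} (d0 : 0 < d) (hd : F.natDegree ≤ d)
    (hc : (F.map (evalRingHom 0)).coeff d ≠ 0) (hs : (F.map (evalRingHom 0)).Separable) :
    {z : K | ¬ (F.map (evalRingHom z)).Separable}.Finite := by
  have hd' : (derivative F).natDegree ≤ d := (natDegree_derivative_le F).trans (by omega)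
  have r : ∀ z : K, (resultant F (derivative F) d d).eval z =
      resultant (F.map (evalRingHom z)) (derivative (F.map (evalRingHom z))) d d := fun z => by
    rw [derivative_map, resultant_map_map, coe_evalRingHom]
  have n0 : resultant F (derivative F) d d ≠ 0 := fun e => by
    have a := r 0
    have a1 : (F.map (evalRingHom 0)).natDegree ≤ d := natDegree_map_le.trans hd
    generalize F.map (evalRingHom 0) = f at a a1 hc hs
    have dg := natDegree_eq_of_le_of_coeff_ne_zero a1 hc
    subst dg
    obtain ⟨k, hk⟩ := Nat.exists_eq_add_of_le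
      ((natDegree_derivative_le f).trans (Nat.sub_le _ 1))
    have b := resultant_add_right_deg f (derivative f) f.natDegree _ k le_rfl
    rw [← hk] at b
    rw [e, eval_zero, b] at a
    exact mul_ne_zero (pow_ne_zero _ hc) (resultant_ne_zero _ _ hs) a.symm
  refine (finite_setOfPred_isRoot n0).subset fun z hz => by_contra fun hn => hz ?_
  have l : (derivative (F.map (evalRingHom z))).natDegree ≤ d := by
    rw [derivative_map]
    exact natDegree_map_le.trans hd'
  obtain ⟨a, b, -, -, e⟩ := exists_mul_add_mul_eq_C_resultant (F.map (evalRingHom z))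
    (derivative (F.map (evalRingHom z))) (natDegree_map_le.trans hd) l (Or.inl d0.ne')
  rw [← r] at e
  have hn' : eval z (resultant F (derivative F) d d) ≠ 0 := hn
  generalize eval z (resultant F (derivative F) d d) = t at e hn'
  refine ⟨C t⁻¹ * a, C t⁻¹ * b, ?_⟩
  rw [mul_assoc, mul_assoc, ← mul_add, mul_comm a, mul_comm b, e, ← C_mul, inv_mul_cancel₀ hn', C_1]

theorem pen2 {c : K} {g : Fin m × ι → K} (h : S.Adm c g) (u : Fin m × ι → K) :
    {z : K | ¬ S.Adm c fun v => g v + z * u v}.Finite := by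
  obtain ⟨hc, θ, hs⟩ := h
  obtain ⟨F, hF⟩ : ∃ F : K[X][X], F = MvPolynomial.aeval ![C (C (θ (xA K A))), X,
    C (C (algebraMap K K S.c0 * θ (xA K A) ^ S.M + gam S.e θ g) + X * C (gam S.e θ u)) +
      C (C c) * (X - C (C (θ (xA K A) ^ S.M)))] S.P := ⟨_, rfl⟩
  have hd : F.natDegree ≤ S.d := by
    rw [hF]
    exact (pen2_lin _ _ _ _ S.P S.hP).1
  have sp : ∀ z : K, F.map (evalRingHom z) = S.fp θ c fun v => g v + z * u v := fun z => by
    have e : gam S.e θ (fun v => g v + z * u v) = gam S.e θ g + z * gam S.e θ u := by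
      simp only [gam, add_mul, Finset.sum_add_distrib, Finset.mul_sum, mul_assoc]
    have := MvPolynomial.comp_aeval_apply ![C (C (θ (xA K A))), X,
      C (C (algebraMap K K S.c0 * θ (xA K A) ^ S.M + gam S.e θ g) + X * C (gam S.e θ u)) +
        C (C c) * (X - C (C (θ (xA K A) ^ S.M)))] (mapAlgHom (aeval z : K[X] →ₐ[K] K)) S.P
    rw [← hF, coe_mapAlgHom, coe_aeval_eq_evalRingHom] at this
    rw [this, Su.fp, Su.wl]
    refine congrArg (fun L => MvPolynomial.aeval L S.P) (funext fun i => ?_)
    fin_cases i <;> simp [e, add_assoc, mul_comm (C z)]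
  have f0 : F.map (evalRingHom 0) = S.fp θ c g := by simpa using sp 0
  refine (pen2_res F S.hd hd ?_ (by rwa [f0])).subset fun z hz hn => hz ⟨hc, θ, by rwa [← sp]⟩
  rw [f0, Su.fp, Su.wl, (pen2_lin _ _ _ _ S.P S.hP).2]
  exact hc

end Pool.Agent.MP_a9d3bd_zz
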