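import Pool.Agent.MP_a9d3bd_zz.Defs

namespace Pool.Agent.MP_a9d3bd_zz

open Polynomial Su

variable {K : Type} [Field K] [IsAlgClosed K] (p : ℕ) [Fact p.Prime] [CharP K p]

theorem sz_fq {f : ℕ} (hf : 0 < f) :
    ∃ Φ : Finset K, Φ.card = p ^ f ∧ ∀ x, x ∈ Φ ↔ Ra (p ^ f) x := by
  classical
  have h1 : 1 < p ^ f := Nat.one_lt_pow hf.ne' (Fact.out : p.Prime).one_lt
  have hs : (X ^ p ^ f - X : K[X]).Separable :=
    galois_poly_separable p (p ^ f) (dvd_pow_self p hf.ne')
  have hd : (X ^ p ^ f - X : K[X]).natDegree = p ^ f :=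
    FiniteField.X_pow_card_sub_X_natDegree_eq K h1
  have hn : (X ^ p ^ f - X : K[X]) ≠ 0 := FiniteField.X_pow_card_sub_X_ne_zero K h1
  refine ⟨(X ^ p ^ f - X : K[X]).roots.toFinset, ?_, fun x => ?_⟩
  · rw [Multiset.toFinset_card_of_nodup (nodup_roots hs), IsAlgClosed.card_roots_eq_natDegree, hd]
  · rw [Multiset.mem_toFinset, mem_roots hn, IsRoot.def, eval_sub, eval_pow, eval_X, sub_eq_zero]
    rfl

theorem sz {V : Type} [Fintype V] {f : ℕ} (hf : 0 < f) {Ψ : MvPolynomial V K} (h : Ψ ≠ 0) :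
    {a : V → K | ∀ v, Ra (p ^ f) (a v)}.Finite ∧
    {a : V → K | ∀ v, Ra (p ^ f) (a v)}.ncard = (p ^ f) ^ Fintype.card V ∧
    {a : V → K | (∀ v, Ra (p ^ f) (a v)) ∧ MvPolynomial.eval a Ψ = 0}.ncard * p ^ f ≤
      Ψ.totalDegree * (p ^ f) ^ Fintype.card V := by
  classical
  obtain ⟨Φ, hc, hΦ⟩ := sz_fq (K := K) p hf
  have h1 : {a : V → K | ∀ v, Ra (p ^ f) (a v)} = ↑(Fintype.piFinset fun _ : V => Φ) := by
    ext a
    simp only [Set.mem_ofPred_eq, Finset.mem_coe, Fintype.mem_piFinset, hΦ]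
  refine ⟨h1 ▸ Finset.finite_toSet _, ?_, ?_⟩
  · rw [h1, Set.ncard_coe_finset, Fintype.card_piFinset, Finset.prod_const, hc, Finset.card_univ]
  · let e : V ≃ Fin (Fintype.card V) := Fintype.equivFin V
    have h2 : MvPolynomial.rename e Ψ ≠ 0 := fun h0 =>
      h (MvPolynomial.rename_injective e e.injective (h0.trans (map_zero _).symm))
    have h3 := MvPolynomial.schwartz_zippel_totalDegree h2 Φ
    have hq : (0 : ℚ≥0) < Φ.card := by
      rw [hc]
      exact_mod_cast pow_pos (Fact.out : p.Prime).pos f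
    rw [div_le_div_iff₀ (pow_pos hq _) hq] at h3
    have h4 : ((Fintype.piFinset fun _ : Fin (Fintype.card V) => Φ).filter
        fun b => MvPolynomial.eval b (MvPolynomial.rename e Ψ) = 0).card * Φ.card ≤
        (MvPolynomial.rename e Ψ).totalDegree * Φ.card ^ Fintype.card V := by
      exact_mod_cast h3
    have h5 : {a : V → K | (∀ v, Ra (p ^ f) (a v)) ∧ MvPolynomial.eval a Ψ = 0}.ncard ≤
        ((Fintype.piFinset fun _ : Fin (Fintype.card V) => Φ).filter
          fun b => MvPolynomial.eval b (MvPolynomial.rename e Ψ) = 0).card := by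
      rw [← Set.ncard_coe_finset]
      refine Set.ncard_le_ncard_of_injOn (fun a => a ∘ e.symm) ?_ ?_ (Finset.finite_toSet _)
      · rintro a ⟨ha, hb⟩
        rw [Finset.mem_coe, Finset.mem_filter, Fintype.mem_piFinset]
        refine ⟨fun i => (hΦ _).2 (ha _), ?_⟩
        rw [MvPolynomial.eval_rename, Function.comp_assoc, e.symm_comp_self, Function.comp_id]
        exact hb
      · intro a _ b _ hab
        exact e.symm.surjective.injective_comp_right hab
    rw [hc] at h4
    exact (Nat.mul_le_mul_right _ h5).trans (h4.trans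
      (Nat.mul_le_mul_right _ (MvPolynomial.totalDegree_rename_le _ _)))

end Pool.Agent.MP_a9d3bd_zz
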