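import Pool.Agent.MP_a9d3bd_zz.Defs
import Pool.Agent.MP_a9d3bd_zz.Pen
import Pool.Agent.MP_a9d3bd_zz.Pen2
import Pool.Agent.MP_a9d3bd_zz.Sz

namespace Pool.Agent.MP_a9d3bd_zz

open Polynomial Su

theorem coc_dvd {K T : Type} [Field K] [CommRing T] [Algebra K T] (P : MvPolynomial (Fin 3) K)
    (x y w w' : T) :
    w - w' ∣ MvPolynomial.aeval ![x, y, w] P - MvPolynomial.aeval ![x, y, w'] P := by
  induction P using MvPolynomial.induction_on with
  | C a => simp
  | add p q hp hq =>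
    rw [map_add, map_add, add_sub_add_comm]
    exact dvd_add hp hq
  | mul_X p i hp =>
    rw [map_mul, map_mul, MvPolynomial.aeval_X, MvPolynomial.aeval_X]
    have h : w - w' ∣ ![x, y, w] i - ![x, y, w'] i := by
      fin_cases i <;> simp
    have e : ∀ a a' b b' : T, a * b - a' * b' = (a - a') * b + a' * (b - b') := fun _ _ _ _ => by
      ring
    rw [e]
    exact dvd_add (hp.mul_right _) (h.mul_left _)

theorem coc_symm {T : Type} [CommRing T] {f f' w w' : T} (h : IsCoprime f (w - w'))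
    (hd : w - w' ∣ f - f') : IsCoprime f' (w' - w) := by
  obtain ⟨k, hk⟩ := hd
  have e : f' = f + (w - w') * (-k) := by linear_combination -hk
  rw [e, ← neg_sub w w']
  exact (h.add_mul_left_left _).neg_right

theorem coc_fin {K L : Type} [Field K] [Field L] [Algebra K L] (f u : L[X]) (hf : f ≠ 0) :
    {z : K | ¬ IsCoprime f (u - C (algebraMap K L z))}.Finite := by
  classical
  have h1 : ∀ z : K, ¬ IsCoprime f (u - C (algebraMap K L z)) →
      ∃ h ∈ (UniqueFactorizationMonoid.factors f).toFinset, h ∣ u - C (algebraMap K L z) := by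
    intro z hz
    by_contra hc
    refine hz (isCoprime_of_irreducible_dvd (fun h => hf h.1) fun h hh h2 h3 => hc ?_)
    obtain ⟨h', h4, h5⟩ := UniqueFactorizationMonoid.exists_mem_factors_of_dvd hf hh h2
    exact ⟨h', Multiset.mem_toFinset.2 h4, h5.symm.dvd.trans h3⟩
  refine ((UniqueFactorizationMonoid.factors f).toFinset.finite_toSet.biUnion
    (t := fun h => {z : K | h ∣ u - C (algebraMap K L z)}) fun h hh => ?_).subset fun z hz => ?_
  · refine Set.Subsingleton.finite fun z hz z' hz' => ?_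
    by_contra hne
    have h2 : h ∣ C (algebraMap K L (z - z')) := by
      have := dvd_sub hz' hz
      rwa [sub_sub_sub_cancel_left, ← map_sub, ← map_sub] at this
    have h3 : IsUnit (C (algebraMap K L (z - z')) : L[X]) :=
      isUnit_C.2 (IsUnit.mk0 _ ((_root_.map_ne_zero _).2 (sub_ne_zero.2 hne)))
    exact (UniqueFactorizationMonoid.irreducible_of_factor h
      (Multiset.mem_toFinset.1 hh)).not_isUnit (isUnit_of_dvd_unit h2 h3)
  · obtain ⟨h, h2, h3⟩ := h1 z hz
    exact Set.mem_biUnion h2 h3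

variable {K A ι : Type} [Field K] [IsAlgClosed K] [CommRing A] [IsDedekindDomain A] [Algebra K A]
  [Algebra K[X] A] [IsScalarTower K K[X] A] [Module.Finite K[X] A] [Module.IsTorsionFree K[X] A]
  [Fintype ι] [DecidableEq ι] {m : ℕ} (S : Su K A ι m) (p : ℕ) [Fact p.Prime] [CharP K p]

/-- The function with coordinates `a`. -/
noncomputable def coc_G (a : Fin m × ι → K) : FractionRing A :=
  gam S.e (gp K A) fun v => algebraMap K _ (a v)

/-- The second coordinate on the curve. -/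
noncomputable def coc_w (c : K) (g : Fin m × ι → K) : (FractionRing A)[X] :=
  S.wl (gp K A) (algebraMap K _ c) fun v => algebraMap K _ (g v)

omit [IsAlgClosed K] [Module.Finite K[X] A] [Module.IsTorsionFree K[X] A] [DecidableEq ι] in
theorem coc_G_lin (a b : Fin m × ι → K) (c : K) :
    coc_G S (fun v => a v + c * b v) = coc_G S a + algebraMap K _ c * coc_G S b := by
  simp only [coc_G, gam, map_add, map_mul, Finset.mul_sum, ← Finset.sum_add_distrib]
  exact Finset.sum_congr rfl fun v _ => by ring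

omit [IsAlgClosed K] [Module.Finite K[X] A] [Module.IsTorsionFree K[X] A] [DecidableEq ι] in
theorem coc_G_sub (a b : Fin m × ι → K) (c : K) :
    coc_G S (fun v => a v - c * b v) = coc_G S a - algebraMap K _ c * coc_G S b := by
  simp only [coc_G, gam, map_sub, map_mul, Finset.mul_sum, ← Finset.sum_sub_distrib]
  exact Finset.sum_congr rfl fun v _ => by ring

omit [IsAlgClosed K] [Module.Finite K[X] A] [Module.IsTorsionFree K[X] A] [DecidableEq ι] in
theorem coc_gr (a : Fin m × ι → K) :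
    S.gr a = X - C (gp K A (xA K A) ^ S.M + coc_G S a) := by
  simp only [gr, coc_G, gam, gp, map_add, map_sum, map_mul, map_pow, AlgHom.id_apply,
    IsScalarTower.coe_toAlgHom', ← IsScalarTower.algebraMap_apply K A]

omit [IsAlgClosed K] [Module.Finite K[X] A] [Module.IsTorsionFree K[X] A] [DecidableEq ι] in
theorem coc_w_eq (c : K) (g : Fin m × ι → K) : coc_w S c g =
    C (algebraMap K _ S.c0 * gp K A (xA K A) ^ S.M + coc_G S g) +
      C (algebraMap K _ c) * (X - C (gp K A (xA K A) ^ S.M)) := rfl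

omit [IsAlgClosed K] [Module.Finite K[X] A] [Module.IsTorsionFree K[X] A] [DecidableEq ι] in
theorem coc_fL (c : K) (g : Fin m × ι → K) : S.fL c g =
    MvPolynomial.aeval ![C (gp K A (xA K A)), X, coc_w S c g] S.P := rfl

omit [IsAlgClosed K] [Module.Finite K[X] A] [Module.IsTorsionFree K[X] A] [DecidableEq ι] in
theorem coc_lr (c : K) (g : Fin m × ι → K) (c' : K) (g' : Fin m × ι → K) :
    S.lr c g c' g' = coc_w S c g - coc_w S c' g' := rfl

omit [IsAlgClosed K] [Module.Finite K[X] A] [Module.IsTorsionFree K[X] A] [DecidableEq ι] in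
theorem coc_cop {H H' : K × (Fin m × ι → K)}
    (h : IsCoprime (S.fL H.1 H.2) (S.lr H.1 H.2 H'.1 H'.2)) : S.Cop H H' := by
  refine ⟨h, ?_⟩
  rw [coc_lr, coc_fL] at h ⊢
  exact coc_symm h (coc_dvd _ _ _ _ _)

omit [IsAlgClosed K] [Module.Finite K[X] A] [Module.IsTorsionFree K[X] A] [DecidableEq ι] in
theorem coc_lr_pen (a a' : Fin m × ι → K) (c c' : K) :
    S.lr c (fun v => a' v - c * a v) c' (fun v => a' v - c' * a v) =
      C (algebraMap K _ (c - c')) * S.gr a := by
  rw [coc_lr, coc_w_eq, coc_w_eq, coc_gr, coc_G_sub, coc_G_sub]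
  simp only [map_add, map_sub, map_mul]
  ring

omit [IsAlgClosed K] [Module.Finite K[X] A] [DecidableEq ι] in
theorem coc_R (a a' : Fin m × ι → K) :
    MvPolynomial.aeval ![gp K A (xA K A), gp K A (xA K A) ^ S.M + coc_G S a,
      algebraMap K _ S.c0 * gp K A (xA K A) ^ S.M + coc_G S a'] S.P ≠ 0 := by
  have := S.hfin
  have := Fintype.ofFinite (A ≃ₐ[K[X]] A)
  have h := S.hN (FractionRing A) (gp K A) (fun v => algebraMap K _ (a v))
    (fun v => algebraMap K _ (a' v))
  have h1 : (MvPolynomial.aeval (Sum.elim (fun v => algebraMap K (FractionRing A) (a v))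
      (fun v => algebraMap K (FractionRing A) (a' v))) :
        MvPolynomial ((Fin m × ι) ⊕ (Fin m × ι)) K →ₐ[K] FractionRing A).toRingHom =
      (algebraMap K (FractionRing A)).comp (MvPolynomial.aeval (Sum.elim a a') :
        MvPolynomial ((Fin m × ι) ⊕ (Fin m × ι)) K →ₐ[K] K).toRingHom := by
    refine MvPolynomial.ringHom_ext (fun z => ?_) fun v => ?_
    · simp
    · rcases v with v | v <;> simp
  have h2 : aeval (gp K A (xA K A)) (S.Nf a a') ≠ 0 := by
    have e := aeval_algHom_apply ((gp K A).comp (IsScalarTower.toAlgHom K K[X] A)) X (S.Nf a a')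
    rw [aeval_X_left_apply] at e
    refine (e.trans_ne ?_ :)
    have h3 : algebraMap K[X] A (S.Nf a a') ≠ 0 :=
      (map_ne_zero_iff _ (FaithfulSMul.algebraMap_injective K[X] A)).2 (S.hNm.map _).ne_zero
    exact (map_ne_zero_iff _ (IsFractionRing.injective A (FractionRing A))).2 h3
  rw [h1, ← eval₂_map, finprod_eq_prod_of_fintype] at h
  have h4 := mul_ne_zero (pow_ne_zero (Nat.card (A ≃ₐ[K[X]] A))
    ((_root_.map_ne_zero (algebraMap K (FractionRing A))).2 S.h0)) h2
  exact Finset.prod_ne_zero_iff.1 (h.symm.trans_ne h4) 1 (Finset.mem_univ _)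

omit [IsAlgClosed K] [Module.Finite K[X] A] [DecidableEq ι] in
theorem coc_cop_gr (a a' : Fin m × ι → K) (c : K) :
    IsCoprime (S.fL c fun v => a' v - c * a v) (S.gr a) := by
  rw [coc_gr]
  refine ((irreducible_X_sub_C _).coprime_iff_not_dvd.2 fun h => coc_R S a a' ?_).symm
  rw [dvd_iff_isRoot, IsRoot, coc_fL] at h
  rw [← h]
  have e := MvPolynomial.comp_aeval_apply
    ![C (gp K A (xA K A)), X, coc_w S c fun v => a' v - c * a v]
    ((aeval (gp K A (xA K A) ^ S.M + coc_G S a) :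
      (FractionRing A)[X] →ₐ[FractionRing A] FractionRing A).restrictScalars K) S.P
  rw [AlgHom.restrictScalars_apply, coe_aeval_eq_eval] at e
  rw [e]
  congr 2
  funext i
  fin_cases i
  · simp
  · simp
  · simp only [Fin.reduceFinMk, Matrix.cons_val, AlgHom.restrictScalars_apply, coe_aeval_eq_eval,
      coc_w_eq, coc_G_sub, eval_add, eval_mul, eval_sub, eval_C, eval_X]
    ring

omit [IsAlgClosed K] [Module.Finite K[X] A] [DecidableEq ι] in
theorem coc_cop_pen (a a' : Fin m × ι → K) {c c' : K} (h : c ≠ c') :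
    S.Cop (c, fun v => a' v - c * a v) (c', fun v => a' v - c' * a v) := by
  refine coc_cop S ?_
  change IsCoprime (S.fL c _) (S.lr c _ c' _)
  rw [coc_lr_pen]
  exact (isCoprime_mul_unit_left_right
    (isUnit_C.2 (IsUnit.mk0 _ ((_root_.map_ne_zero _).2 (sub_ne_zero.2 h)))) _ _).2 (coc_cop_gr S a a' c)

omit [IsAlgClosed K] [Module.Finite K[X] A] [DecidableEq ι] in
theorem coc_MM {μ : Mu K A ι m} (hμ : S.Good μ) (a a' : Fin m × ι → K) {c c' : K} (h : c ≠ c') :
    S.MM μ c (fun v => a' v - c * a v)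
        (S.lr c (fun v => a' v - c * a v) c' fun v => a' v - c' * a v) =
      S.MM μ c (fun v => a' v - c * a v) (S.gr a) := by
  rw [coc_lr_pen, MM, MM]
  refine finsum_mem_congr rfl fun f hf => ?_
  have hc := sub_ne_zero.2 h
  rw [hμ.mul _ _ f hf, hμ.cst _ _ f hf _ hc, zero_add]
  · exact fun h1 => hf.2.1.not_isUnit (isUnit_of_dvd_unit h1
      (isUnit_C.2 (IsUnit.mk0 _ ((_root_.map_ne_zero _).2 hc))))
  · exact fun h1 => hf.2.1.not_isUnit ((coc_cop_gr S a a' c).isUnit_of_dvd' hf.2.2 h1)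

omit [IsAlgClosed K] [Module.Finite K[X] A] [Module.IsTorsionFree K[X] A] [DecidableEq ι] in
theorem coc_map {T : Type} [CommRing T] [Algebra K T] (θ : A →ₐ[K] T) (c : K)
    (g : Fin m × ι → K) :
    (S.fp (AlgHom.id K A) (algebraMap K A c) fun v => algebraMap K A (g v)).map θ.toRingHom =
      S.fp θ (algebraMap K T c) fun v => algebraMap K T (g v) := by
  have e := MvPolynomial.comp_aeval_apply
    ![C (AlgHom.id K A (xA K A)), X,
      S.wl (AlgHom.id K A) (algebraMap K A c) fun v => algebraMap K A (g v)]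
    (mapAlgHom θ) S.P
  rw [fp, fp]
  refine e.trans ?_
  congr 2
  funext i
  fin_cases i
  · simp
  · simp
  · simp [wl, gam, Polynomial.map_sum]

omit [IsAlgClosed K] [Module.Finite K[X] A] [Module.IsTorsionFree K[X] A] [DecidableEq ι] in
theorem coc_ne {c : K} {g : Fin m × ι → K} (h : S.Adm c g) : S.fL c g ≠ 0 := by
  obtain ⟨θ, hθ⟩ := h.2
  intro h0
  rw [fL, ← coc_map, Polynomial.map_eq_zero_iff
    (by exact IsFractionRing.injective A (FractionRing A))] at h0
  have e := coc_map S θ c g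
  rw [h0, Polynomial.map_zero] at e
  exact hθ.ne_zero e.symm

theorem coc_ref (F : Set (K × (Fin m × ι → K))) (hF : F.Finite) {c1 : K} {g1 : Fin m × ι → K}
    (h1 : S.Adm c1 g1) : ∃ H3 : K × (Fin m × ι → K), S.Adm H3.1 H3.2 ∧ H3.1 ≠ S.c0 ∧
      ∀ H ∈ F, S.Adm H.1 H.2 → S.Cop H H3 := by
  classical
  obtain ⟨D, hD⟩ := pen S
  obtain ⟨B, -, hB⟩ := hD 0 g1 c1 (by simpa using h1)
  obtain ⟨c, hc⟩ := Infinite.exists_notMem_finset (insert S.c0 B)
  rw [Finset.mem_insert, not_or] at hc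
  have h2 : S.Adm c g1 := by simpa using hB c hc.2
  have hm : 0 < m := lt_of_lt_of_le (by norm_num) S.hm
  let δ : Fin m × ι → K := Pi.single (⟨0, hm⟩, S.j0) 1
  have hδ : coc_G S δ = 1 := by
    rw [coc_G, gam, Finset.sum_eq_single (⟨0, hm⟩, S.j0)]
    · simp [δ, S.he0]
    · intro v _ hv
      simp [δ, Pi.single_eq_of_ne hv]
    · simp
  have h3 := (pen2 S h2 δ).union ((hF.subset (s := F) (t := {H ∈ F | S.Adm H.1 H.2})
    fun _ h => h.1).biUnion (t := fun H => {z : K | ¬ IsCoprime (S.fL H.1 H.2)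
      (S.lr H.1 H.2 c g1 - C (algebraMap K _ z))}) fun H hH => coc_fin _ _ (coc_ne S hH.2))
  obtain ⟨z, hz⟩ := h3.infinite_compl.nonempty
  rw [Set.mem_compl_iff, Set.mem_union, not_or] at hz
  refine ⟨(c, fun v => g1 v + z * δ v), not_not.1 hz.1, hc.1, fun H hH hA => coc_cop S ?_⟩
  have h4 : IsCoprime (S.fL H.1 H.2) (S.lr H.1 H.2 c g1 - C (algebraMap K _ z)) := by
    by_contra h
    exact hz.2 (Set.mem_biUnion (show H ∈ {H ∈ F | S.Adm H.1 H.2} from ⟨hH, hA⟩) h)
  have e : S.lr H.1 H.2 c (fun v => g1 v + z * δ v) =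
      S.lr H.1 H.2 c g1 - C (algebraMap K _ z) := by
    rw [coc_lr, coc_lr, coc_w_eq S c, coc_w_eq S c, coc_G_lin, hδ]
    simp only [map_add, mul_one]
    ring
  exact e ▸ h4

theorem coc {μ : Mu K A ι m} (hμ : S.Good μ) : ∃ q0, ∀ q, q0 ≤ q → S.Qk p q →
    ∃ (Af : K → (Fin m × ι → K) → ℝ) (r : (Fin m × ι → K) → (Fin m × ι → K) → ℝ),
      ∀ c g, Ra q c → RaV q g → S.Adm c g → ∀ a ∈ S.Sp q c g,
        S.MM μ c g (S.gr a) - Af c g = r a fun v => g v + c * a v := by
  classical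
  obtain ⟨D, hD⟩ := pen S
  refine ⟨D + 4, fun q hq hQ => ?_⟩
  obtain ⟨f, k, hf, hk, e1, e2⟩ := hQ
  have e3 : q = p ^ (f * k) := by rw [e2, e1, pow_mul]
  subst e3
  by_cases hex : ∃ (c : K) (g : Fin m × ι → K), S.Adm c g
  swap
  · exact ⟨0, 0, fun c g _ _ h => (hex ⟨c, g, h⟩).elim⟩
  obtain ⟨c1, g1, h1⟩ := hex
  obtain ⟨u1, u2, -⟩ := sz p (K := K) (V := Unit) (Nat.mul_pos hf hk) (Ψ := 1) one_ne_zero
  obtain ⟨u3, -, -⟩ := sz p (K := K) (V := Fin m × ι) (Nat.mul_pos hf hk) (Ψ := 1) one_ne_zero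
  have u4 : {c : K | Ra (p ^ (f * k)) c}.Finite :=
    (u1.image fun a => a ()).subset fun c hc => ⟨fun _ => c, fun _ => hc, rfl⟩
  have u5 : ∀ B : Finset K, B.card ≤ D + 3 → ∃ c, Ra (p ^ (f * k)) c ∧ c ∉ B := by
    intro B hB
    by_contra hc
    have h2 : {a : Unit → K | ∀ v, Ra (p ^ (f * k)) (a v)} ⊆
        (B.image fun c (_ : Unit) => c : Finset (Unit → K)) := fun a ha => by
      rw [Finset.coe_image]
      exact ⟨a (), by_contra fun h => hc ⟨a (), ha (), h⟩, rfl⟩
    have h3 := Set.ncard_le_ncard h2 (Finset.finite_toSet _)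
    rw [u2, Set.ncard_coe_finset, Fintype.card_unit, pow_one] at h3
    have h4 := Finset.card_image_le (s := B) (f := fun c (_ : Unit) => c)
    omega
  obtain ⟨H3, k1, k2, k3⟩ := coc_ref S _ (u4.prod u3) h1
  have hra : ∀ x y z : K, Ra (p ^ (f * k)) x → Ra (p ^ (f * k)) y → Ra (p ^ (f * k)) z →
      Ra (p ^ (f * k)) (x + y * z) ∧ Ra (p ^ (f * k)) (x - y * z) := fun x y z hx hy hz => by
    unfold Ra at *
    rw [add_pow_char_pow, sub_pow_char_pow, mul_pow, hx, hy, hz]
    exact ⟨rfl, rfl⟩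
  have key : ∀ a a' : Fin m × ι → K, RaV (p ^ (f * k)) a → RaV (p ^ (f * k)) a' → ∀ c c' : K,
      Ra (p ^ (f * k)) c → Ra (p ^ (f * k)) c' → S.Adm c (fun v => a' v - c * a v) →
      S.Adm c' (fun v => a' v - c' * a v) →
      S.MM μ c (fun v => a' v - c * a v) (S.gr a) - S.Ph μ (c, fun v => a' v - c * a v) H3 =
      S.MM μ c' (fun v => a' v - c' * a v) (S.gr a) -
        S.Ph μ (c', fun v => a' v - c' * a v) H3 := by
    intro a a' ha ha' c c' hc hc' hA hA'
    obtain ⟨B, hB, hB'⟩ := hD a a' c hA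
    obtain ⟨c'', -, h3⟩ := u5 (insert c (insert c' (insert S.c0 B)))
      ((Finset.card_insert_le _ _).trans (Nat.succ_le_succ ((Finset.card_insert_le _ _).trans
        (Nat.succ_le_succ ((Finset.card_insert_le _ _).trans (Nat.succ_le_succ hB))))))
    simp only [Finset.mem_insert, not_or] at h3
    obtain ⟨n1, n2, n3, n4⟩ := h3
    have h4 := hμ.rel (c', fun v => a' v - c' * a v) (c, fun v => a' v - c * a v)
      (c'', fun v => a' v - c'' * a v) H3 hA' hA (hB' c'' n4) k1 n3 k2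
      (coc_cop_pen S a a' (Ne.symm n1))
      (k3 _ ⟨hc, fun v => (hra _ _ _ (ha' v) hc (ha v)).2⟩ hA)
      (coc_cop_pen S a a' (Ne.symm n2))
      (k3 _ ⟨hc', fun v => (hra _ _ _ (ha' v) hc' (ha v)).2⟩ hA')
    have h5 : ∀ b : K, c'' ≠ b → S.Ph μ (b, fun v => a' v - b * a v)
        (c'', fun v => a' v - c'' * a v) = S.MM μ b (fun v => a' v - b * a v) (S.gr a) -
          S.MM μ c'' (fun v => a' v - c'' * a v) (S.gr a) := fun b hb => by
      rw [← coc_MM S hμ a a' hb, ← coc_MM S hμ a a' hb.symm]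
      rfl
    rw [h5 c n1, h5 c' n2] at h4
    linarith
  refine ⟨fun c g => S.Ph μ (c, g) H3, fun a a' =>
    if h : ∃ c, Ra (p ^ (f * k)) c ∧ S.Adm c (fun v => a' v - c * a v) then
      S.MM μ h.choose (fun v => a' v - h.choose * a v) (S.gr a) -
        S.Ph μ (h.choose, fun v => a' v - h.choose * a v) H3 else 0,
    fun c g hc hg hA a ha => ?_⟩
  have e : (fun v => g v + c * a v - c * a v) = g := funext fun v => add_sub_cancel_right _ _
  have h : ∃ c', Ra (p ^ (f * k)) c' ∧ S.Adm c' (fun v => g v + c * a v - c' * a v) :=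
    ⟨c, hc, e.symm ▸ hA⟩
  have h6 := key a (fun v => g v + c * a v) ha.1 (fun v => (hra _ _ _ (hg v) hc (ha.1 v)).1)
    c h.choose hc h.choose_spec.1 (e.symm ▸ hA) h.choose_spec.2
  rw [e] at h6
  beta_reduce
  rw [dif_pos h]
  exact h6

end Pool.Agent.MP_a9d3bd_zz
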