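import Pool.Agent.MP_a9d3bd_zz.ExtA

/-! Finite places. -/

namespace Pool.Agent.MP_a9d3bd_zz

open Polynomial

variable {K A E Γ : Type} [Field K] [CommRing A] [Algebra K A] [Field E] [Algebra K E]
  [LinearOrderedCommGroupWithZero Γ] (v : Valuation E Γ) (φ : A →ₐ[K] E)

theorem ext_int [Algebra K[X] A] [IsScalarTower K K[X] A] [Module.Finite K[X] A]
    (hK : ∀ a : K, v (algebraMap K E a) ≤ 1) (hx : v (φ (algebraMap K[X] A X)) ≤ 1) (a : A) :
    v (φ a) ≤ 1 := by
  have h1 : ∀ p : K[X], (φ.toRingHom.comp (algebraMap K[X] A)) p ∈ v.integer := by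
    intro p
    induction p using Polynomial.induction_on' with
    | add p q hp hq => rw [map_add]; exact add_mem hp hq
    | monomial n c =>
      rw [← C_mul_X_pow_eq_monomial, map_mul, map_pow]
      refine mul_mem ?_ (pow_mem hx n)
      have : algebraMap K[X] A (C c) = algebraMap K A c :=
        (IsScalarTower.algebraMap_apply K K[X] A c).symm
      change v (φ (algebraMap K[X] A (C c))) ≤ 1
      rw [this, φ.commutes]
      exact hK c
  have h2 : IsIntegral v.integer (φ.toRingHom a) :=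
    IsIntegral.map_of_comp_eq ((φ.toRingHom.comp (algebraMap K[X] A)).codRestrict v.integer h1)
      φ.toRingHom (RingHom.ext fun _ => rfl) (Algebra.IsIntegral.isIntegral a)
  exact (Valuation.integer.integers v).mem_of_integral h2

theorem ext_exb [IsAlgClosed K] [IsDedekindDomain A] [Algebra K[X] A] [IsScalarTower K K[X] A]
    [Module.Finite K[X] A] (hA : ∀ a, v (φ a) ≤ 1) {a₀ : A} (h0 : a₀ ≠ 0) (h1 : v (φ a₀) < 1) :
    ∃ β : A →ₐ[K] K, ∀ a : A, v (φ (a - algebraMap K A (β a))) < 1 := by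
  let P : Ideal A :=
    { carrier := {a | v (φ a) < 1}
      add_mem' := fun ha hb => by
        simp only [Set.mem_ofPred_eq, map_add] at ha hb ⊢
        exact v.map_add_lt ha hb
      zero_mem' := by simp
      smul_mem' := fun c a ha => by
        simp only [Set.mem_ofPred_eq, smul_eq_mul, map_mul] at ha ⊢
        exact lt_of_le_of_lt (mul_le_of_le_one_left' (hA c)) ha }
  have hP : ∀ a, a ∈ P ↔ v (φ a) < 1 := fun _ => Iff.rfl
  have hp : P.IsPrime := by
    refine ⟨fun h => ?_, fun {a b} h => ?_⟩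
    · have : (1 : A) ∈ P := h ▸ Submodule.mem_top
      simpa using (hP 1).1 this
    · by_contra hc
      push Not at hc
      have ha : v (φ a) = 1 := le_antisymm (hA a) (not_lt.1 hc.1)
      have hb : v (φ b) = 1 := le_antisymm (hA b) (not_lt.1 hc.2)
      rw [hP, map_mul, map_mul, ha, hb, mul_one] at h
      exact lt_irrefl _ h
  have hm : P.IsMaximal := hp.isMaximal fun h => h0 (by
    have := (hP a₀).2 h1
    rwa [h] at this)
  have : Algebra.FiniteType K A := Algebra.FiniteType.trans (S := K[X]) inferInstance inferInstance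
  let _ := Ideal.Quotient.field P
  have : Module.Finite K (A ⧸ P) := finite_of_finite_type_of_isJacobsonRing K (A ⧸ P)
  let e : K ≃ₐ[K] (A ⧸ P) := AlgEquiv.ofBijective (Algebra.ofId K (A ⧸ P))
    IsAlgClosed.algebraMap_bijective_of_isIntegral
  refine ⟨e.symm.toAlgHom.comp (Ideal.Quotient.mkₐ K P), fun a => (hP _).1 ?_⟩
  rw [← Ideal.Quotient.eq]
  exact (e.apply_symm_apply (Ideal.Quotient.mk P a)).symm

section

variable (hA : ∀ a, v (φ a) ≤ 1) {τ : E} (hτ : v τ ≤ 1)

include hA hτ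

theorem ext_ev (G : A[X]) : v (G.eval₂ φ.toRingHom τ) ≤ 1 := by
  induction G using Polynomial.induction_on' with
  | add p q hp hq => rw [eval₂_add]; exact v.map_add_le hp hq
  | monomial n c =>
    rw [eval₂_monomial, map_mul, map_pow]
    exact mul_le_one' (hA c) (pow_le_one' hτ n)

theorem ext_div (G : A[X]) (γ : A) :
    v (G.eval₂ φ.toRingHom τ - φ (G.eval γ)) ≤ v (τ - φ γ) := by
  obtain ⟨H, hH⟩ := X_sub_C_dvd_sub_C_eval (p := G) (a := γ)
  have := congrArg (eval₂ φ.toRingHom τ) hH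
  rw [eval₂_sub, eval₂_C, eval₂_mul, eval₂_sub, eval₂_X, eval₂_C] at this
  change G.eval₂ φ.toRingHom τ - φ (G.eval γ) = (τ - φ γ) * _ at this
  rw [this, map_mul]
  exact mul_le_of_le_one_right' (ext_ev v φ hA hτ H)

theorem ext_div0 {G : A[X]} (h0 : G.eval₂ φ.toRingHom τ = 0) (γ : A) :
    v (φ (G.eval γ)) ≤ v (τ - φ γ) := by
  have := ext_div v φ hA hτ G γ
  rwa [h0, zero_sub, v.map_neg] at this

end

section

variable (hK : ∀ a : K, v (algebraMap K E a) ≤ 1) {β : A →ₐ[K] K}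
  (hβ : ∀ a : A, v (φ (a - algebraMap K A (β a))) < 1)

include hK hβ

theorem ext_b1 {a : A} (h : β a ≠ 0) : v (φ a) = 1 := by
  have h1 := hβ a
  rw [map_sub, φ.commutes] at h1
  have h2 := ext_unit v hK h
  have : φ a = algebraMap K E (β a) + (φ a - algebraMap K E (β a)) := by ring
  rw [this, v.map_add_eq_of_lt_left (by rwa [h2]), h2]

theorem ext_b0 {a : A} : β a = 0 ↔ v (φ a) < 1 := by
  constructor
  · intro h
    simpa [h] using hβ a
  · intro h
    by_contra hc
    exact h.ne (ext_b1 v φ hK hβ hc)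

theorem ext_unif [IsDedekindDomain A] (hA : ∀ a, v (φ a) ≤ 1) {π b : A} (h0 : β π = 0)
    (h2 : π ∉ RingHom.ker β ^ 2) (hb : β b = 0) : v (φ b) ≤ v (φ π) := by
  have h1 : RingHom.ker β ∣ Ideal.span {π} :=
    Ideal.dvd_iff_le.2 ((Ideal.span_singleton_le_iff_mem _).2 h0)
  obtain ⟨I, hI⟩ := h1
  have h3 : ¬ I ≤ RingHom.ker β := fun h => h2 (by
    have : Ideal.span {π} ≤ RingHom.ker β ^ 2 := by
      rw [hI, pow_two]
      exact Ideal.mul_mono_right h
    exact this (Ideal.mem_span_singleton_self π))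
  obtain ⟨s, hs, hs'⟩ := SetLike.not_le_iff_exists.1 h3
  have h4 : b * s ∈ Ideal.span {π} := hI ▸ Ideal.mul_mem_mul hb hs
  obtain ⟨r, hr⟩ := Ideal.mem_span_singleton'.1 h4
  have h5 := congrArg (fun a => v (φ a)) hr
  simp only [map_mul, ext_b1 v φ hK hβ hs', mul_one] at h5
  rw [← h5]
  exact mul_le_of_le_one_left' (hA r)

variable [IsDedekindDomain A] (hA : ∀ a, v (φ a) ≤ 1) {τ : E} (hτ : v τ ≤ 1) {F : A[X]}
  (hF : F.eval₂ φ.toRingHom τ = 0)

include hA hτ hF

/-- A transversal graph through the centre is a uniformizer. -/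
theorem ext_two {γ γ' : A} (h0 : β (F.eval γ) = 0) (h2 : F.eval γ ∉ RingHom.ker β ^ 2)
    (h : β γ = β γ') : v (τ - φ γ') ≤ v (τ - φ γ) := by
  have h1 : τ - φ γ' = (τ - φ γ) + φ (γ - γ') := by rw [map_sub]; ring
  rw [h1]
  refine v.map_add_le le_rfl ((ext_unif v φ hK hβ hA h0 h2 ?_).trans (ext_div0 v φ hA hτ hF γ))
  rw [map_sub, h, sub_self]

theorem ext_sec {γ t : A} (h0 : β (F.eval γ) = 0) (h2 : F.eval γ ∉ RingHom.ker β ^ 2)
    (h : β γ = β t) (ht : τ = φ t) : v (φ (F.eval γ)) = v (τ - φ γ) := by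
  refine le_antisymm (ext_div0 v φ hA hτ hF γ) ?_
  rw [ht, ← map_sub]
  exact ext_unif v φ hK hβ hA h0 h2 (by rw [map_sub, h, sub_self])

omit [IsDedekindDomain A] in
/-- Only one branch passes through the centre. -/
theorem ext_one {γ t : A} (h1 : v (τ - φ γ) < 1) (h2 : F.eval γ ∉ RingHom.ker β ^ 2)
    (h : β γ = β t) (ht : F.IsRoot t) : τ = φ t := by
  by_contra hc
  obtain ⟨G, hG⟩ := dvd_iff_isRoot.2 ht
  have h3 : G.eval₂ φ.toRingHom τ = 0 := by
    rw [hG, eval₂_mul, eval₂_sub, eval₂_X, eval₂_C] at hF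
    exact (mul_eq_zero.1 hF).resolve_left (sub_ne_zero.2 hc)
  have h4 : β (G.eval γ) = 0 :=
    (ext_b0 v φ hK hβ).2 ((ext_div0 v φ hA hτ h3 γ).trans_lt h1)
  refine h2 ?_
  rw [hG, eval_mul, eval_sub, eval_X, eval_C, pow_two]
  refine Ideal.mul_mem_mul ?_ h4
  rw [RingHom.mem_ker, map_sub, h, sub_self]

end

end Pool.Agent.MP_a9d3bd_zz
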