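import Pool.Agent.MP_a9d3bd_zz.Defs
import Pool.Agent.MP_a9d3bd_zz.ExtB

/-! The equation of the curve over the base ring, and the places at infinity. -/

namespace Pool.Agent.MP_a9d3bd_zz

open Polynomial Su

variable {K A ι : Type} [Field K] [CommRing A] [IsDomain A] [Algebra K A]
  [Algebra K[X] A] [IsScalarTower K K[X] A] [Fintype ι] {m : ℕ} (S : Su K A ι m)

/-- The equation over the base ring. -/
noncomputable def ext_F (c : K) (g : Fin m × ι → K) : A[X] :=
  S.fp (AlgHom.id K A) (algebraMap K A c) fun v => algebraMap K A (g v)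

/-- The function with the given coordinates. -/
noncomputable def ext_G (a : Fin m × ι → K) : A :=
  gam S.e (AlgHom.id K A) fun v => algebraMap K A (a v)

/-- The function of a graph. -/
noncomputable def ext_g (a : Fin m × ι → K) : A := xA K A ^ S.M + ext_G S a

variable {T : Type} [CommRing T] [Algebra K T]

theorem ext_G_map (θ : A →ₐ[K] T) (a : Fin m × ι → K) :
    θ (ext_G S a) = gam S.e θ fun v => algebraMap K T (a v) := by
  simp [ext_G, gam, map_sum]

theorem ext_F_map (θ : A →ₐ[K] T) (c : K) (g : Fin m × ι → K) :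
    (ext_F S c g).map θ.toRingHom =
      S.fp θ (algebraMap K T c) fun v => algebraMap K T (g v) := by
  have h := MvPolynomial.comp_aeval (φ := Polynomial.mapAlgHom θ)
    ![C ((AlgHom.id K A) (xA K A)), X,
      S.wl (AlgHom.id K A) (algebraMap K A c) fun v => algebraMap K A (g v)]
  have h1 := DFunLike.congr_fun h S.P
  refine h1.trans ?_
  unfold Su.fp
  congr 2
  funext i
  fin_cases i
  · simp
  · simp
  · have := ext_G_map S θ g
    simp only [ext_G] at this
    simp [Su.wl, this]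

theorem ext_fp_eval (θ : A →ₐ[K] T) (c : T) (g : Fin m × ι → T) (t : T) :
    (S.fp θ c g).eval t = MvPolynomial.aeval ![θ (xA K A), t,
      algebraMap K T S.c0 * θ (xA K A) ^ S.M + gam S.e θ g + c * (t - θ (xA K A) ^ S.M)] S.P := by
  have h := MvPolynomial.comp_aeval (φ := (Polynomial.aeval t : T[X] →ₐ[T] T).restrictScalars K)
    ![C (θ (xA K A)), X, S.wl θ c g]
  have h1 := DFunLike.congr_fun h S.P
  refine Eq.trans ?_ (h1.trans ?_)
  · simp [Su.fp]
  · congr 2
    funext i
    fin_cases i <;> simp [Su.wl]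

theorem ext_F_ev (θ : A →ₐ[K] T) (c : K) (g : Fin m × ι → K) (t : T) :
    (ext_F S c g).eval₂ θ.toRingHom t = MvPolynomial.aeval ![θ (xA K A), t,
      algebraMap K T S.c0 * θ (xA K A) ^ S.M + θ (ext_G S g) +
        algebraMap K T c * (t - θ (xA K A) ^ S.M)] S.P := by
  rw [eval₂_eq_eval_map, ext_F_map, ext_fp_eval, ext_G_map]

theorem ext_RR (c : K) (g a : Fin m × ι → K) :
    S.RR a (fun v => g v + c * a v) = (ext_F S c g).eval (ext_g S a) := by
  rw [ext_F, ext_fp_eval, Su.RR]
  congr 2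
  funext i
  fin_cases i
  · simp
  · simp [ext_g, ext_G]
  · simp only [ext_g, ext_G, gam, map_add, map_mul, add_mul, Finset.sum_add_distrib, mul_assoc,
      ← Finset.mul_sum]
    simp [add_assoc]

theorem ext_pts (c : K) (g a : Fin m × ι → K) (y : (A →ₐ[K] K) × K) :
    y ∈ S.pts c g a ↔ y.2 = y.1 (ext_g S a) ∧ y.1 ((ext_F S c g).eval (ext_g S a)) = 0 := by
  have h1 : S.Thr y.1 y.2 a ↔ y.2 = y.1 (ext_g S a) := by
    rw [Su.Thr, ext_g, map_add, map_pow, ext_G_map]
    rfl
  have h2 : S.fp y.1 c g = (ext_F S c g).map y.1.toRingHom := (ext_F_map S y.1 c g).symm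
  change S.Thr y.1 y.2 a ∧ _ ↔ _
  rw [h1, h2]
  refine and_congr_right fun h => ?_
  rw [h, eval_map]
  exact Eq.congr_left (eval₂_at_apply y.1.toRingHom _)

theorem ext_fL (c : K) (g : Fin m × ι → K) :
    S.fL c g = (ext_F S c g).map (algebraMap A (FractionRing A)) :=
  (ext_F_map S (gp K A) c g).symm

section

variable {E Γ : Type} [Field E] [Algebra K E] [LinearOrderedCommGroupWithZero Γ]
  (v : Valuation E Γ) (φ : A →ₐ[K] E) (hK : ∀ a : K, v (algebraMap K E a) ≤ 1)
  {c : K} {g : Fin m × ι → K} {τ : E} (hF : (ext_F S c g).eval₂ φ.toRingHom τ = 0)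

include hK

theorem ext_pd {c : K} (hc : pd S.P S.d c ≠ 0) :
    ¬ v (MvPolynomial.aeval ![0, 1, algebraMap K E c]
      (MvPolynomial.homogeneousComponent S.d S.P)) < 1 := by
  have h := MvPolynomial.aeval_algebraMap_apply E ![0, 1, c]
    (MvPolynomial.homogeneousComponent S.d S.P)
  have h1 : (algebraMap K E ∘ ![0, 1, c]) = ![0, 1, algebraMap K E c] := by
    funext i
    fin_cases i <;> simp
  rw [h1] at h
  rw [h]
  exact (ext_unit v hK hc).not_lt

theorem ext_sm (a : K) {z : E} {r : Γ} (h : v z < r) : v (algebraMap K E a * z) < r := by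
  rw [map_mul]
  exact lt_of_le_of_lt (mul_le_of_le_one_left' (hK a)) h

include hF

theorem ext_big (hc : pd S.P S.d c ≠ 0) (h1 : 1 < v τ) (hx : v (φ (xA K A)) < v τ)
    (hs : v (φ (xA K A) ^ S.M) < v τ) (hG : v (φ (ext_G S g)) < v τ) : False := by
  rw [ext_F_ev] at hF
  refine ext_pd S v hK hc (ext_top v hK S.P S.d S.hP τ h1 _ _ (fun i => ?_) (fun i => ?_) hF)
  · fin_cases i
    · simp
    · simp
    · exact hK c
  · fin_cases i
    · simpa using hx
    · simpa using zero_lt_one.trans h1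
    · have : algebraMap K E S.c0 * φ (xA K A) ^ S.M + φ (ext_G S g) +
          algebraMap K E c * (τ - φ (xA K A) ^ S.M) - τ * algebraMap K E c =
          algebraMap K E S.c0 * φ (xA K A) ^ S.M + φ (ext_G S g) -
            algebraMap K E c * φ (xA K A) ^ S.M := by ring
      change v (_ - τ * algebraMap K E c) < v τ
      exact this ▸ v.map_sub_lt (v.map_add_lt (ext_sm v hK _ hs) hG) (ext_sm v hK _ hs)

theorem ext_inf (hc : pd S.P S.d c ≠ 0) (hi : ∀ (i : Fin m) (j : ι),
    v (φ (xA K A ^ (i : ℕ) * S.e j)) < v (φ (xA K A ^ S.M))) (a : Fin m × ι → K) :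
    1 < v (φ (xA K A) ^ S.M) ∧ v (τ - φ (ext_g S a)) = v (φ (xA K A) ^ S.M) := by
  have hm := S.hm
  have h1 : 1 < v (φ (xA K A) ^ S.M) := by simpa [S.he0] using hi ⟨0, by omega⟩ S.j0
  have hx : v (φ (xA K A)) < v (φ (xA K A) ^ S.M) := by
    simpa [S.he0] using hi ⟨1, by omega⟩ S.j0
  have hG : ∀ a, v (φ (ext_G S a)) < v (φ (xA K A) ^ S.M) := fun a => by
    rw [ext_G_map, gam]
    refine v.map_sum_lt (zero_lt_one.trans h1).ne' fun u _ => ext_sm v hK _ ?_
    simpa using hi u.1 u.2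
  have h2 : v τ ≤ v (φ (xA K A) ^ S.M) := by
    by_contra h
    rw [not_le] at h
    exact ext_big S v φ hK hF hc (h1.trans h) (hx.trans h) h ((hG g).trans h)
  have h3 : v (τ - φ (xA K A) ^ S.M) = v (φ (xA K A) ^ S.M) := by
    refine le_antisymm (v.map_sub_le h2 le_rfl) (not_lt.1 fun h => ?_)
    rw [ext_F_ev] at hF
    refine ext_pd S v hK S.h0 (ext_top v hK S.P S.d S.hP _ h1 _ _ (fun i => ?_) (fun i => ?_) hF)
    · fin_cases i
      · simp
      · simp
      · exact hK S.c0
    · fin_cases i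
      · simpa using hx
      · simpa using h
      · have : algebraMap K E S.c0 * φ (xA K A) ^ S.M + φ (ext_G S g) +
            algebraMap K E c * (τ - φ (xA K A) ^ S.M) -
            φ (xA K A) ^ S.M * algebraMap K E S.c0 =
            φ (ext_G S g) + algebraMap K E c * (τ - φ (xA K A) ^ S.M) := by ring
        change v (_ - φ (xA K A) ^ S.M * algebraMap K E S.c0) < _
        exact this ▸ v.map_add_lt (hG g) (ext_sm v hK _ h)
  refine ⟨h1, ?_⟩
  rw [ext_g, map_add, map_pow φ, ← sub_sub, v.map_sub_eq_of_lt_left (h3 ▸ hG a), h3]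

theorem ext_tau (hc : pd S.P S.d c ≠ 0) (hA : ∀ a, v (φ a) ≤ 1) : v τ ≤ 1 := by
  by_contra h
  rw [not_le] at h
  refine ext_big S v φ hK hF hc h ((hA _).trans_lt h) ?_ ((hA _).trans_lt h)
  rw [← map_pow φ]
  exact (hA _).trans_lt h

end

end Pool.Agent.MP_a9d3bd_zz
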