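import Pool.Agent.MP_a9d3bd_zz.Defs

namespace Pool.Agent.MP_a9d3bd_zz

open Polynomial Su

theorem spl_ext {R B K : Type} [CommRing R] [CommRing B] [Field K] [IsAlgClosed K] [Algebra R B]
    [Algebra.IsIntegral R B] (hi : Function.Injective (algebraMap R B)) (e : R →+* K)
    (he : Function.Surjective e) : ∃ φ : B →+* K, ∀ r, φ (algebraMap R B r) = e r := by
  have hP := RingHom.ker_isMaximal_of_surjective e he
  obtain ⟨Q, hQ, hc⟩ := Ideal.exists_ideal_over_maximal_of_isIntegral (S := B) (RingHom.ker e)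
    (by rw [(RingHom.injective_iff_ker_eq_bot _).1 hi]; exact bot_le)
  have hk : ∀ r, e r = 0 → ((Ideal.Quotient.mk Q).comp (algebraMap R B)) r = 0 := by
    intro r hr
    have : r ∈ Q.comap (algebraMap R B) := by
      rw [hc]
      exact hr
    exact Ideal.Quotient.eq_zero_iff_mem.2 this
  obtain ⟨ψ, hψ⟩ : ∃ ψ : K →+* B ⧸ Q, ∀ r, ψ (e r) = Ideal.Quotient.mk Q (algebraMap R B r) :=
    ⟨e.liftOfSurjective he ⟨_, fun r hr => hk r hr⟩, fun r =>
      e.liftOfRightInverse_comp_apply _ _ _ r⟩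
  have hint : ψ.IsIntegral := by
    intro x
    obtain ⟨b, rfl⟩ := Ideal.Quotient.mk_surjective x
    obtain ⟨p, hp, h0⟩ := Algebra.IsIntegral.isIntegral (R := R) b
    refine ⟨p.map e, hp.map e, ?_⟩
    have h1 : ψ.comp e = (Ideal.Quotient.mk Q).comp (algebraMap R B) := RingHom.ext hψ
    rw [eval₂_map, h1, ← hom_eval₂, h0, map_zero]
  have hb := IsAlgClosed.ringHom_bijective_of_isIntegral ψ hint
  refine ⟨(RingEquiv.ofBijective ψ hb).symm.toRingHom.comp (Ideal.Quotient.mk Q), fun r => ?_⟩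
  change (RingEquiv.ofBijective ψ hb).symm (Ideal.Quotient.mk Q (algebraMap R B r)) = e r
  rw [← hψ]
  exact (RingEquiv.ofBijective ψ hb).symm_apply_apply (e r)

theorem spl_abs {K A : Type} [Field K] [CommRing A] [Algebra K A] (R : A)
    [FiniteDimensional K (A ⧸ Ideal.span ({R} : Set A))] (f : (A →ₐ[K] K) → K) (Z : Set K)
    (hZ : Z.ncard = Module.finrank K (A ⧸ Ideal.span ({R} : Set A)))
    (hs : ∀ z ∈ Z, ∃ θ : A →ₐ[K] K, θ R = 0 ∧ f θ = z) :
    {θ : A →ₐ[K] K | θ R = 0}.Finite ∧ {θ : A →ₐ[K] K | θ R = 0}.ncard = Z.ncard ∧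
      {θ : A →ₐ[K] K | θ R = 0}.InjOn f ∧ (∀ θ : A →ₐ[K] K, θ R = 0 → f θ ∈ Z) ∧
      ∀ b : A, (∀ θ : A →ₐ[K] K, θ R = 0 → θ b = 0) → b ∈ Ideal.span ({R} : Set A) := by
  classical
  let u : ((A ⧸ Ideal.span ({R} : Set A)) →ₐ[K] K) → (A →ₐ[K] K) :=
    fun β => β.comp (Ideal.Quotient.mkₐ K _)
  have hu : Function.Injective u := fun β β' h => Ideal.Quotient.algHom_ext K h
  have hr : {θ : A →ₐ[K] K | θ R = 0} = Set.range u := by
    ext θ
    constructor
    · intro h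
      refine ⟨Ideal.Quotient.liftₐ _ θ fun a ha => ?_, Ideal.Quotient.liftₐ_comp _ _ _⟩
      obtain ⟨r, rfl⟩ := Ideal.mem_span_singleton'.1 ha
      rw [map_mul, show θ R = 0 from h, mul_zero]
    · rintro ⟨β, rfl⟩
      change β (Ideal.Quotient.mk _ R) = 0
      rw [Ideal.Quotient.eq_zero_iff_mem.2 (Ideal.mem_span_singleton_self R), map_zero]
  have hfin : {θ : A →ₐ[K] K | θ R = 0}.Finite := by
    rw [hr]
    exact Set.finite_range u
  have hc : {θ : A →ₐ[K] K | θ R = 0}.ncard =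
      Nat.card ((A ⧸ Ideal.span ({R} : Set A)) →ₐ[K] K) := by
    rw [hr, ← Nat.card_coe_set_eq, Nat.card_range_of_injective hu]
  have h1 : {θ : A →ₐ[K] K | θ R = 0}.ncard ≤ Z.ncard := by
    rw [hc, hZ]
    exact card_algHom_le_finrank K _ K
  have hsub : Z ⊆ f '' {θ : A →ₐ[K] K | θ R = 0} := fun z hz => hs z hz
  have h2 := Set.ncard_le_ncard hsub (hfin.image f)
  have h3 : (f '' {θ : A →ₐ[K] K | θ R = 0}).ncard ≤ {θ : A →ₐ[K] K | θ R = 0}.ncard :=
    Set.ncard_image_le hfin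
  have h4 : Z = f '' {θ : A →ₐ[K] K | θ R = 0} :=
    Set.eq_of_subset_of_ncard_le hsub (h3.trans h1) (hfin.image f)
  refine ⟨hfin, le_antisymm h1 (h2.trans h3),
    Set.injOn_of_ncard_image_eq (le_antisymm h3 (h1.trans h2)) hfin, fun θ h => ?_, fun b hb => ?_⟩
  · rw [h4]
    exact ⟨θ, h, rfl⟩
  · have := Fintype.ofFinite ((A ⧸ Ideal.span ({R} : Set A)) →ₐ[K] K)
    have h5 := (linearIndependent_algHom_toLinearMap K (A ⧸ Ideal.span ({R} : Set A))
      K).span_eq_top_of_card_eq_finrank' (by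
        rw [← Nat.card_eq_fintype_card, ← hc, le_antisymm h1 (h2.trans h3), hZ]
        exact Subspace.dual_finrank_eq.symm)
    rw [← Ideal.Quotient.eq_zero_iff_mem, ← Module.forall_dual_apply_eq_zero_iff K]
    intro φ
    have h6 : φ ∈ Submodule.span K (Set.range (AlgHom.toLinearMap :
        ((A ⧸ Ideal.span ({R} : Set A)) →ₐ[K] K) → (A ⧸ Ideal.span ({R} : Set A)) →ₗ[K] K)) := by
      rw [h5]
      trivial
    induction h6 using Submodule.span_induction with
    | mem x hx =>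
      obtain ⟨β, rfl⟩ := hx
      have h7 : u β ∈ {θ : A →ₐ[K] K | θ R = 0} := by
        rw [hr]
        exact ⟨β, rfl⟩
      exact hb (u β) h7
    | zero => rfl
    | add x y _ _ hx hy => rw [LinearMap.add_apply, hx, hy, add_zero]
    | smul c x _ hx => rw [LinearMap.smul_apply, hx, smul_zero]

theorem spl_sq {K A : Type} [Field K] [CommRing A] [IsDedekindDomain A] [Algebra K A] (R : A)
    (hR : R ≠ 0) (hfin : {θ : A →ₐ[K] K | θ R = 0}.Finite)
    (hk : ∀ b : A, (∀ θ : A →ₐ[K] K, θ R = 0 → θ b = 0) → b ∈ Ideal.span ({R} : Set A))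
    (θ : A →ₐ[K] K) (hθ : θ R = 0) : R ∉ RingHom.ker θ ^ 2 := by
  classical
  intro h
  have hp : (RingHom.ker θ).IsPrime := RingHom.ker_isPrime θ
  have h0 : RingHom.ker θ ≠ ⊥ := fun h0 => hR (by
    have : R ∈ RingHom.ker θ := hθ
    rwa [h0] at this)
  obtain ⟨π, hπ, hπ2⟩ := Ideal.exists_mem_pow_notMem_pow_succ (RingHom.ker θ) h0 hp.ne_top 1
  rw [pow_one] at hπ
  have hu : ∀ θ' : A →ₐ[K] K, ∃ u : A, θ' ≠ θ → θ' u = 0 ∧ θ u ≠ 0 := by
    intro θ'
    by_cases he : θ' = θ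
    · exact ⟨0, fun h => absurd he h⟩
    · obtain ⟨a, ha⟩ := DFunLike.ne_iff.1 he
      refine ⟨a - algebraMap K A (θ' a), fun _ => ⟨?_, ?_⟩⟩
      · rw [map_sub, AlgHom.commutes]
        exact sub_self _
      · rw [map_sub, AlgHom.commutes]
        exact sub_ne_zero.2 (Ne.symm ha)
  choose u hu using hu
  have hb : π * ∏ θ' ∈ hfin.toFinset.erase θ, u θ' ∈ RingHom.ker θ ^ 2 := by
    refine (Ideal.span_singleton_le_iff_mem _).2 h (hk _ fun θ' h' => ?_)
    rw [map_mul]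
    by_cases he : θ' = θ
    · rw [he, show θ π = 0 from hπ, zero_mul]
    · rw [map_prod, Finset.prod_eq_zero
        (Finset.mem_erase.2 ⟨he, hfin.mem_toFinset.2 h'⟩) (hu θ' he).1, mul_zero]
  rcases Ideal.IsPrime.mem_pow_mul _ hb with h1 | h1
  · exact hπ2 h1
  · rw [RingHom.mem_ker, map_prod, Finset.prod_eq_zero_iff] at h1
    obtain ⟨θ', h2, h3⟩ := h1
    exact (hu θ' (Finset.mem_erase.1 h2).1).2 h3

theorem spl_sep {K : Type} [Field K] [IsAlgClosed K] {q : ℕ} {N : K[X]} (hN : N ≠ 0)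
    (h : Spl q N) : N.Separable := by
  classical
  rw [← nodup_roots_iff_of_splits hN (IsAlgClosed.splits N),
    ← Multiset.toFinset_card_eq_card_iff_nodup]
  refine le_antisymm (Multiset.toFinset_card_le _) ((card_roots' N).trans ?_)
  rw [← h, ← Set.ncard_coe_finset]
  refine Set.ncard_le_ncard (fun x hx => ?_) (Finset.finite_toSet _)
  exact Finset.mem_coe.2 (Multiset.mem_toFinset.2 ((mem_roots hN).2 hx.2))

variable {K A ι : Type} [Field K] [IsAlgClosed K] [CommRing A] [IsDedekindDomain A] [Algebra K A]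
  [Algebra K[X] A] [IsScalarTower K K[X] A] [Module.Finite K[X] A] [Module.IsTorsionFree K[X] A]
  [Fintype ι] [DecidableEq ι] {m : ℕ} (S : Su K A ι m) (p : ℕ) [Fact p.Prime] [CharP K p]

omit [IsAlgClosed K] [Module.Finite K[X] A] [Module.IsTorsionFree K[X] A] [DecidableEq ι] in
theorem spl_RR {T : Type} [CommRing T] [Algebra K T] (θ : A →ₐ[K] T) (a a' : Fin m × ι → K) :
    θ (S.RR a a') = MvPolynomial.aeval ![θ (xA K A),
      θ (xA K A) ^ S.M + gam S.e θ (fun v => algebraMap K T (a v)),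
      algebraMap K T S.c0 * θ (xA K A) ^ S.M + gam S.e θ fun v => algebraMap K T (a' v)] S.P := by
  rw [RR, MvPolynomial.comp_aeval_apply]
  congr 2
  funext i
  fin_cases i <;> simp [gam, map_sum]

omit [IsAlgClosed K] [Module.Finite K[X] A] [Module.IsTorsionFree K[X] A] [DecidableEq ι] in
theorem spl_fp (θ : A →ₐ[K] K) (t c : K) (g a : Fin m × ι → K) (h : S.Thr θ t a) :
    (S.fp θ c g).eval t = θ (S.RR a fun v => g v + c * a v) := by
  rw [spl_RR, fp, ← coe_aeval_eq_eval, MvPolynomial.comp_aeval_apply]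
  congr 2
  funext i
  rw [Thr] at h
  fin_cases i
  · simp
  · simpa using h
  · have h1 : gam S.e θ (fun v => g v + c * a v) = gam S.e θ g + c * gam S.e θ a := by
      simp only [gam, Finset.mul_sum, ← Finset.sum_add_distrib]
      exact Finset.sum_congr rfl fun v _ => by ring
    simp [wl, h1, h, add_assoc]

omit [IsAlgClosed K] [IsDedekindDomain A] [Module.Finite K[X] A] [Module.IsTorsionFree K[X] A] in
theorem spl_alg (f : K[X]) : algebraMap K[X] A f = aeval (xA K A) f := by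
  rw [aeval_algebraMap_apply, aeval_X_left_apply]

omit [IsAlgClosed K] [Module.Finite K[X] A] [Module.IsTorsionFree K[X] A] [DecidableEq ι] in
theorem spl_prod (a a' : Fin m × ι → K) : ∏ᶠ g : A ≃ₐ[K[X]] A, g (S.RR a a') =
    algebraMap K[X] A (C (pd S.P S.d S.c0 ^ Nat.card (A ≃ₐ[K[X]] A)) * S.Nf a a') := by
  have h := S.hN A (AlgHom.id K A) (fun v => algebraMap K A (a v)) fun v => algebraMap K A (a' v)
  have h1 : (MvPolynomial.aeval (R := K) (Sum.elim (fun v => algebraMap K A (a v))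
      fun v => algebraMap K A (a' v))).toRingHom =
      (algebraMap K A).comp (MvPolynomial.aeval (R := K) (Sum.elim a a')).toRingHom := by
    refine MvPolynomial.ringHom_ext (fun r => by simp) fun i => ?_
    cases i <;> simp
  rw [spl_alg, map_mul, aeval_C, map_pow, Nf, aeval_def, eval₂_map, ← h1]
  refine Eq.trans (finprod_congr fun g => ?_) h.symm
  have h2 := spl_RR S (g.restrictScalars K).toAlgHom a a'
  have h3 : (g.restrictScalars K).toAlgHom (xA K A) = xA K A := g.commutes X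
  rw [h3] at h2
  exact h2

omit [IsAlgClosed K] [Module.Finite K[X] A] [Module.IsTorsionFree K[X] A] [DecidableEq ι] in
theorem spl_fr (k : ℕ) : (∃ F : A ≃+* A,
    (∀ a : K, F (algebraMap K A a) = algebraMap K A (a ^ S.q1 ^ k)) ∧ F (xA K A) = xA K A ∧
      ∀ j, F (S.e j) = S.e j) ∧ (∀ s, S.P.coeff s ^ S.q1 ^ k = S.P.coeff s) ∧
      S.c0 ^ S.q1 ^ k = S.c0 := by
  induction k with
  | zero => exact ⟨⟨RingEquiv.refl A, by simp, rfl, fun _ => rfl⟩, by simp, by simp⟩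
  | succ k ih =>
    obtain ⟨⟨F, h1, h2, h3⟩, h4, h5⟩ := ih
    refine ⟨⟨F.trans S.fr, fun a => ?_, ?_, fun j => ?_⟩, fun s => ?_, ?_⟩
    · rw [RingEquiv.trans_apply, h1, S.hfrK, pow_succ, pow_mul]
    · rw [RingEquiv.trans_apply, h2, S.hfrx]
    · rw [RingEquiv.trans_apply, h3, S.hfre]
    · rw [pow_succ, pow_mul, h4, S.hq1P]
    · rw [pow_succ, pow_mul, h5, S.hq1c]

omit [Module.Finite K[X] A] [Module.IsTorsionFree K[X] A] [DecidableEq ι] in
theorem spl_conj {q : ℕ} (hq : S.Qk p q) {a a' : Fin m × ι → K} (ha : RaV q a) (ha' : RaV q a')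
    (θ : A →ₐ[K] K) : ∃ θ' : A →ₐ[K] K, θ' (xA K A) = θ (xA K A) ^ q ∧
      (∀ j, θ' (S.e j) = θ (S.e j) ^ q) ∧ θ' (S.RR a a') = θ (S.RR a a') ^ q := by
  obtain ⟨f, k, -, -, h1, h2⟩ := hq
  obtain ⟨⟨F, hK, hx, he⟩, hP, hc⟩ := spl_fr S k
  rw [← h2] at hK hP hc
  have hq : q = p ^ (f * k) := by rw [h2, h1, pow_mul]
  have hq0 : 0 < q := by
    rw [hq]
    exact pow_pos (Fact.out : p.Prime).pos _
  have hfix : ∀ b : K, b ^ q = b → algebraMap K A b ∈ F.toRingHom.eqLocus (RingHom.id A) := by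
    intro b hb
    change F (algebraMap K A b) = algebraMap K A b
    rw [hK, hb]
  have hx' : xA K A ∈ F.toRingHom.eqLocus (RingHom.id A) := hx
  have hg : ∀ b : Fin m × ι → K, RaV q b → (gam S.e (AlgHom.id K A) fun v => algebraMap K A (b v)) ∈
      F.toRingHom.eqLocus (RingHom.id A) := fun b hb =>
    sum_mem fun v _ => mul_mem (hfix _ (hb v)) (mul_mem (pow_mem hx' _) (he v.2))
  have hR : S.RR a a' ∈ F.toRingHom.eqLocus (RingHom.id A) := by
    rw [RR, MvPolynomial.aeval_def]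
    refine MvPolynomial.eval₂_mem (fun s _ => hfix _ (hP s)) fun i => ?_
    fin_cases i
    · exact hx'
    · exact add_mem (pow_mem hx' _) (hg a ha)
    · exact add_mem (mul_mem (hfix _ hc) (pow_mem hx' _)) (hg a' ha')
  let φ : A →+* K := (iterateFrobenius K p (f * k)).comp (θ.toRingHom.comp F.symm.toRingHom)
  have hφ : ∀ b : A, φ (F b) = θ b ^ q := by
    intro b
    change iterateFrobenius K p (f * k) (θ (F.symm (F b))) = θ b ^ q
    rw [F.symm_apply_apply, iterateFrobenius_def, hq]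
  have hφ' : ∀ b : A, F b = b → φ b = θ b ^ q := fun b hb => by rw [← hφ, hb]
  refine ⟨⟨φ, fun c => ?_⟩, hφ' _ hx, fun j => hφ' _ (he j), hφ' _ hR⟩
  obtain ⟨b, rfl⟩ := IsAlgClosed.exists_pow_nat_eq c hq0
  change φ (algebraMap K A (b ^ q)) = b ^ q
  rw [← hK, hφ, AlgHom.commutes]
  rfl

theorem spl {q : ℕ} (hq : S.Qk p q) {c : K} {g a : Fin m × ι → K} (hc : Ra q c) (hg : RaV q g)
    (ha : a ∈ S.Sp q c g) : (S.pts c g a).Finite ∧ (S.pts c g a).ncard = S.n ∧
    (S.pts c g a).InjOn (fun y => y.1 (xA K A)) ∧ ∀ y ∈ S.pts c g a, S.Inc q c g y.1 y.2 ∧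
      S.RR a (fun v => g v + c * a v) ∉ RingHom.ker y.1 ^ 2 := by
  classical
  obtain ⟨ha1, ha2⟩ := ha
  have hq' : ∃ r, q = p ^ r := by
    obtain ⟨f, k, -, -, h1, h2⟩ := hq
    exact ⟨f * k, by rw [h2, h1, pow_mul]⟩
  obtain ⟨r, hr⟩ := hq'
  have hfix : ∀ b : K, Ra q b ↔ b ∈ (iterateFrobenius K p r).eqLocus (RingHom.id K) := by
    intro b
    rw [Ra, hr]
    rfl
  have ha' : RaV q fun v => g v + c * a v := fun v =>
    (hfix _).2 (add_mem ((hfix _).1 (hg v)) (mul_mem ((hfix _).1 hc) ((hfix _).1 (ha1 v))))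
  set a' : Fin m × ι → K := fun v => g v + c * a v with ha'def
  have hi : Function.Injective (algebraMap K[X] A) := FaithfulSMul.algebraMap_injective K[X] A
  have hNm : (S.Nf a a').Monic := S.hNm.map _
  have hNd : (S.Nf a a').natDegree = S.n := S.hNm.natDegree_map _
  have hκ : pd S.P S.d S.c0 ^ Nat.card (A ≃ₐ[K[X]] A) ≠ 0 := pow_ne_zero _ S.h0
  have hnorm : Algebra.norm K[X] (S.RR a a') =
      C (pd S.P S.d S.c0 ^ Nat.card (A ≃ₐ[K[X]] A)) * S.Nf a a' :=
    hi (by rw [S.hnorm, spl_prod])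
  have hG := S.hfin
  have hG' := Fintype.ofFinite (A ≃ₐ[K[X]] A)
  have hR0 : S.RR a a' ≠ 0 := by
    intro h0
    have h1 := spl_prod S a a'
    rw [h0, finprod_eq_prod_of_fintype, Finset.prod_eq_zero (Finset.mem_univ 1) (map_zero _),
      eq_comm, map_eq_zero_iff _ hi] at h1
    exact mul_ne_zero (C_ne_zero.2 hκ) hNm.ne_zero h1
  let b := Module.Free.chooseBasis K[X] A
  have hfd : FiniteDimensional K (A ⧸ Ideal.span ({S.RR a a'} : Set A)) :=
    Module.Finite.equiv (Ideal.quotientEquivDirectSum K b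
      (Ideal.span_singleton_eq_bot.not.2 hR0)).symm
  obtain ⟨h1, h2, h3, h4, h5⟩ := spl_abs (K := K) (S.RR a a') (fun θ => θ (xA K A))
    {x | Ra q x ∧ (S.Nf a a').IsRoot x} (by
      rw [finrank_quotient_span_eq_natDegree_norm b hR0, hnorm, natDegree_C_mul hκ]
      exact ha2) (by
      intro z hz
      obtain ⟨φ, hφ⟩ := spl_ext hi (evalRingHom z) fun y => ⟨C y, eval_C⟩
      let θ : A →ₐ[K] K := ⟨φ, fun y => by
        change φ (algebraMap K A y) = y
        rw [IsScalarTower.algebraMap_apply K K[X] A, hφ]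
        exact eval_C⟩
      have h6 := congrArg φ (spl_prod S a a')
      rw [hφ, finprod_eq_prod_of_fintype, map_prod, coe_evalRingHom, eval_mul, hz.2.eq_zero,
        mul_zero, Finset.prod_eq_zero_iff] at h6
      obtain ⟨γ, -, hγ⟩ := h6
      refine ⟨θ.comp (γ.restrictScalars K).toAlgHom, hγ, ?_⟩
      change φ (γ (algebraMap K[X] A X)) = z
      rw [γ.commutes, hφ]
      exact eval_X)
  have hmem : ∀ y ∈ S.pts c g a, y.1 (S.RR a a') = 0 := fun y hy => by
    rw [← spl_fp S y.1 y.2 c g a hy.1]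
    exact hy.2
  have hpts : S.pts c g a = (fun θ : A →ₐ[K] K => (θ, θ (xA K A) ^ S.M + gam S.e θ a)) ''
      {θ : A →ₐ[K] K | θ (S.RR a a') = 0} := by
    ext y
    constructor
    · intro hy
      exact ⟨y.1, hmem y hy, Prod.ext rfl hy.1.symm⟩
    · rintro ⟨θ, hθ, rfl⟩
      exact ⟨rfl, (spl_fp S θ _ c g a rfl).trans hθ⟩
  refine ⟨?_, ?_, fun y hy y' hy' h => ?_, fun y hy => ⟨?_, spl_sq _ hR0 h1 h5 _ (hmem y hy)⟩⟩
  · rw [hpts]
    exact h1.image _
  · rw [hpts, Set.ncard_image_of_injective _ fun θ θ' h => congrArg Prod.fst h, h2, ← hNd]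
    exact ha2
  · have h6 : y.1 = y'.1 := h3 (hmem y hy) (hmem y' hy') h
    refine Prod.ext h6 ?_
    rw [show y.2 = _ from hy.1, show y'.2 = _ from hy'.1, h6]
  · obtain ⟨hx, hroot⟩ := h4 y.1 (hmem y hy)
    obtain ⟨θ', e1, e2, e3⟩ := spl_conj S p hq ha1 ha' y.1
    have hq0 : q ≠ 0 := by
      rw [hr]
      exact (pow_pos (Fact.out : p.Prime).pos _).ne'
    rw [hmem y hy, zero_pow hq0] at e3
    have h6 : θ' = y.1 := h3 e3 (hmem y hy) (e1.trans hx)
    have he : ∀ j, Ra q (y.1 (S.e j)) := fun j => by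
      rw [Ra, ← e2, h6]
    refine ⟨hx, he, ?_, hy.2, a, ha1, hy.1, ?_⟩
    · rw [show y.2 = _ from hy.1]
      exact (hfix _).2 (add_mem (pow_mem ((hfix _).1 hx) _) (sum_mem fun v _ =>
        mul_mem ((hfix _).1 (ha1 v)) (mul_mem (pow_mem ((hfix _).1 hx) _) ((hfix _).1 (he v.2)))))
    · exact (spl_sep hNm.ne_zero ha2).eval₂_derivative_ne_zero (RingHom.id K) hroot

end Pool.Agent.MP_a9d3bd_zz
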