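import Pool.Agent.MP_a9d3bd_zz.Defs
import Pool.Agent.MP_a9d3bd_zz.Spl
import Pool.Agent.MP_a9d3bd_zz.ExtC

namespace Pool.Agent.MP_a9d3bd_zz

open Polynomial Su

variable {K A ι : Type} [Field K] [IsAlgClosed K] [CommRing A] [IsDedekindDomain A] [Algebra K A]
  [Algebra K[X] A] [IsScalarTower K K[X] A] [Module.Finite K[X] A] [Module.IsTorsionFree K[X] A]
  [Fintype ι] [DecidableEq ι] {m : ℕ} (S : Su K A ι m) (p : ℕ) [Fact p.Prime] [CharP K p]

theorem ext_ne {q : ℕ} (hq : S.Qk p q) {c : K} {g : Fin m × ι → K}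
    (hc : Ra q c) (hg : RaV q g) (h : S.Adm c g) {a : Fin m × ι → K} (ha : a ∈ S.Sp q c g) :
    (ext_F S c g).eval (ext_g S a) ≠ 0 := by
  intro h0
  obtain ⟨θ, -⟩ := h.2
  have h1 : (θ, θ (ext_g S a)) ∈ S.pts c g a := (ext_pts S c g a _).2 ⟨rfl, by simp [h0]⟩
  have h2 := ((spl S p hq hc hg ha).2.2.2 _ h1).2
  rw [ext_RR, h0] at h2
  exact h2 (zero_mem _)

open Classical in
theorem ext_key {q : ℕ} (hq : S.Qk p q) {c : K} {g : Fin m × ι → K}
    (hc : Ra q c) (hg : RaV q g) (h : S.Adm c g) {J : Type} (t : J → A) (u : J → FractionRing A)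
    (ν : J → (A →ₐ[K] K) →₀ ℤ) (ht : ∀ j, (ext_F S c g).IsRoot (t j))
    (hu : ∀ j, Dvs K (u j) (ν j))
    (hs : ∀ j, ∀ β ∈ (ν j).support, ∃ a ∈ S.Sp q c g, (β, β (t j)) ∈ S.pts c g a)
    {E : Type} [Field E] [Algebra K E] (ψ : FractionRing A →ₐ[K] E) (φ : A →ₐ[K] E)
    (hφ : ∀ a, φ a = ψ (algebraMap A _ a)) {τ : E}
    (hF : (ext_F S c g).eval₂ φ.toRingHom τ = 0) (O : ValuationSubring E)
    (hO : ∀ a : K, algebraMap K E a ∈ O) :
    (0 < S.n ∧ ∃ ρ, ρ ≠ 0 ∧ (∀ a, O.valuation (τ - φ (ext_g S a)) = ρ) ∧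
      ∀ j, O.valuation (ψ (u j)) = 1) ∨
    ((∀ a ∈ S.Sp q c g, O.valuation (τ - φ (ext_g S a)) = 1) ∧
      ∀ j, τ = φ (t j) → O.valuation (ψ (u j)) = 1) ∨
    ∃ (y : (A →ₐ[K] K) × K) (ρ : O.ValueGroup), ρ ≠ 0 ∧
      (∀ a ∈ S.Sp q c g,
        O.valuation (τ - φ (ext_g S a)) = if y ∈ S.pts c g a then ρ else 1) ∧
      ∀ j, (τ = φ (t j) ↔ y.1 (t j) = y.2) ∧
        (τ = φ (t j) → O.valuation (ψ (u j)) = ρ ^ ν j y.1) := by
  have hK : ∀ a : K, O.valuation (algebraMap K E a) ≤ 1 := fun a =>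
    (O.valuation_le_one_iff _).2 (hO a)
  have hE := ext_equiv ψ.toRingHom O
  have hO' : ∀ a : K, algebraMap K (FractionRing A) a ∈ O.comap ψ.toRingHom := fun a => by
    rw [ValuationSubring.mem_comap]
    exact (ψ.commutes a).symm ▸ hO a
  by_cases hx : φ (xA K A) ∈ O
  swap
  · have hx' : algebraMap A (FractionRing A) (xA K A) ∉ O.comap ψ.toRingHom := fun e =>
      hx (hφ _ ▸ e)
    have hi : ∀ (i : Fin m) (j : ι), O.valuation (φ (xA K A ^ (i : ℕ) * S.e j)) <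
        O.valuation (φ (xA K A ^ S.M)) := fun i j => by
      rw [hφ, hφ]
      exact hE.lt_iff_lt.1 (S.hinf _ hO' hx' i j)
    have h1 := ext_inf S O.valuation φ hK hF h.1 hi
    refine Or.inl ⟨?_, _, (zero_lt_one.trans (h1 g).1).ne', fun a => (h1 a).2, fun j =>
      hE.eq_one_iff_eq_one.1 (((hu j).2 _ hO').1 hx')⟩
    have := S.hfin
    have hM : S.M ≠ 0 := fun e => by simpa [e] using (h1 g).1
    rw [Su.n, S.hNd]
    exact Nat.mul_pos Nat.card_pos (Nat.mul_pos S.hd (Nat.pos_of_ne_zero hM))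
  right
  have hA := ext_int O.valuation φ hK ((O.valuation_le_one_iff _).2 hx)
  have hτ := ext_tau S O.valuation φ hK hF h.1 hA
  have hle : ∀ a, O.valuation (τ - φ a) ≤ 1 := fun a => O.valuation.map_sub_le hτ (hA a)
  by_cases h0 : ∃ a₀ : A, a₀ ≠ 0 ∧ O.valuation (φ a₀) < 1
  swap
  · push Not at h0
    refine Or.inl ⟨fun a ha => le_antisymm (hle _) ((h0 _ (ext_ne S p hq hc hg h ha)).trans
      (ext_div0 O.valuation φ hA hτ hF _)), fun j _ => ?_⟩
    obtain ⟨a, b, hb, hab⟩ := IsFractionRing.div_surjective A (u j)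
    have hb0 := nonZeroDivisors.ne_zero hb
    have ha0 : a ≠ 0 := fun e => (hu j).1 (by rw [← hab, e, map_zero, zero_div])
    rw [← hab, map_div₀, map_div₀, ← hφ, ← hφ, le_antisymm (hA a) (h0 a ha0),
      le_antisymm (hA b) (h0 b hb0), div_one]
  obtain ⟨a₀, ha₀, hv₀⟩ := h0
  obtain ⟨β, hβ⟩ := ext_exb O.valuation φ hA ha₀ hv₀
  have hd : ∀ j (π : A), β π = 0 → π ∉ RingHom.ker β ^ 2 →
      O.valuation (ψ (u j)) = O.valuation (φ π) ^ ν j β := fun j π h1 h2 => by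
    have := ((hu j).2 _ hO').2 β (fun a => hE.lt_one_iff_lt_one.2 (by
      have := hβ a
      rwa [hφ] at this)) π h1 h2
    rw [← map_zpow₀] at this
    have h3 := hE.eq_iff.1 this
    rw [hφ, ← map_zpow₀, ← map_zpow₀]
    exact h3
  have hlt : ∀ a b : A, O.valuation (τ - φ a) < 1 → (O.valuation (τ - φ b) < 1 ↔ β a = β b) := by
    intro a b ha
    rw [← sub_eq_zero (a := β a), ← map_sub, ext_b0 O.valuation φ hK hβ, map_sub φ]
    constructor
    · intro hb
      have := O.valuation.map_sub_lt hb ha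
      rwa [sub_sub_sub_cancel_left] at this
    · intro hb
      have := O.valuation.map_add_lt ha hb
      rwa [sub_add_sub_cancel] at this
  by_cases h1 : ∃ a ∈ S.Sp q c g, O.valuation (τ - φ (ext_g S a)) < 1
  swap
  · push Not at h1
    refine Or.inl ⟨fun a ha => le_antisymm (hle _) (h1 a ha), fun j hj => ?_⟩
    have hν : ν j β = 0 := by
      by_contra hν
      obtain ⟨a, ha, hy⟩ := hs j β (Finsupp.mem_support_iff.2 hν)
      refine (h1 a ha).not_gt ((hlt (t j) _ ?_).2 ((ext_pts S c g a _).1 hy).1)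
      simp [hj]
    obtain ⟨π, hπ, hπ2⟩ := Ideal.exists_mem_pow_notMem_pow_succ (RingHom.ker β)
      (fun e => ha₀ (by
        have : a₀ ∈ RingHom.ker β := (ext_b0 O.valuation φ hK hβ).2 hv₀
        rwa [e] at this)) (RingHom.ker_ne_top β) 1
    rw [pow_one] at hπ
    rw [hd j π hπ hπ2, hν, zpow_zero]
  obtain ⟨a₁, ha₁, hv₁⟩ := h1
  have hz : ∀ a, O.valuation (τ - φ (ext_g S a)) < 1 →
      β ((ext_F S c g).eval (ext_g S a)) = 0 := fun a ha =>
    (ext_b0 O.valuation φ hK hβ).2 ((ext_div0 O.valuation φ hA hτ hF _).trans_lt ha)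
  have hq2 : ∀ a ∈ S.Sp q c g, (β, β (ext_g S a₁)) ∈ S.pts c g a →
      (ext_F S c g).eval (ext_g S a) ∉ RingHom.ker β ^ 2 := fun a ha hy => by
    have := ((spl S p hq hc hg ha).2.2.2 _ hy).2
    rwa [ext_RR] at this
  have hy₁ : (β, β (ext_g S a₁)) ∈ S.pts c g a₁ := (ext_pts S c g a₁ _).2 ⟨rfl, hz _ hv₁⟩
  have hne : φ ((ext_F S c g).eval (ext_g S a₁)) ≠ 0 := by
    rw [hφ]
    exact (map_ne_zero ψ).2 ((map_ne_zero_iff _ (IsFractionRing.injective A _)).2
      (ext_ne S p hq hc hg h ha₁))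
  refine Or.inr ⟨(β, β (ext_g S a₁)), O.valuation (τ - φ (ext_g S a₁)), fun e => ?_,
    fun a ha => ?_, fun j => ⟨⟨fun hj => ?_, fun hj => ?_⟩, fun hj => ?_⟩⟩
  · have := ext_div0 O.valuation φ hA hτ hF (ext_g S a₁)
    rw [e, le_zero_iff, Valuation.zero_iff] at this
    exact hne this
  · split_ifs with hy
    · obtain ⟨e1, e2⟩ := (ext_pts S c g a _).1 hy
      exact le_antisymm (ext_two O.valuation φ hK hβ hA hτ hF (hz _ hv₁) (hq2 _ ha₁ hy₁) e1)
        (ext_two O.valuation φ hK hβ hA hτ hF e2 (hq2 _ ha hy) e1.symm)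
    · refine le_antisymm (hle _) (not_lt.1 fun e => hy ?_)
      exact (ext_pts S c g a _).2 ⟨(hlt _ _ hv₁).1 e, hz _ e⟩
  · exact ((hlt _ (t j) hv₁).1 (by simp [hj])).symm
  · exact ext_one O.valuation φ hK hβ hA hτ hF hv₁ (hq2 _ ha₁ hy₁) hj.symm (ht j)
  · rw [hd j _ (hz _ hv₁) (hq2 _ ha₁ hy₁), ext_sec O.valuation φ hK hβ hA hτ hF (hz _ hv₁)
      (hq2 _ ha₁ hy₁) ((hlt _ (t j) hv₁).1 (by simp [hj])) hj]

theorem ext {μ : Mu K A ι m} (hμ : S.Good μ) {q : ℕ} (hq : S.Qk p q) {c : K} {g : Fin m × ι → K}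
    (hc : Ra q c) (hg : RaV q g) (h : S.Adm c g) {J : Type} (t : J → A) (u : J → FractionRing A)
    (ν : J → (A →ₐ[K] K) →₀ ℤ) (ht : ∀ j, (S.fL c g).IsRoot (algebraMap A _ (t j)))
    (hu : ∀ j, Dvs K (u j) (ν j)) (hdeg : ∀ j, ((ν j).sum fun _ z => z) = 0)
    (hs : ∀ j, ∀ β ∈ (ν j).support, ∃ a ∈ S.Sp q c g, (β, β (t j)) ∈ S.pts c g a) :
    ∃ φ : (A →ₐ[K] K) × K → ℝ,
      (∀ a ∈ S.Sp q c g, S.MM μ c g (S.gr a) = ∑ᶠ y ∈ S.pts c g a, φ y) ∧
      ∀ j, μ c g (X - C (algebraMap A _ (t j))) (C (u j)) =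
        (ν j).sum fun β z => (z : ℝ) * φ (β, β (t j)) := by
  classical
  have hfin : ∀ a : S.Sp q c g, (S.pts c g a).Finite := fun a => (spl S p hq hc hg a.2).1
  let D : S.Sp q c g ⊕ J → ((A →ₐ[K] K) × K →₀ ℤ) := Sum.elim
    (fun a => ∑ y ∈ (hfin a).toFinset, Finsupp.single y 1)
    fun j => (ν j).mapDomain fun β => (β, β (t j))
  let val : S.Sp q c g ⊕ J → ℝ := Sum.elim (fun a => S.MM μ c g (S.gr a))
    fun j => μ c g (X - C (algebraMap A _ (t j))) (C (u j))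
  have hinj : ∀ j, Function.Injective fun β : A →ₐ[K] K => (β, β (t j)) := fun j _ _ e =>
    congrArg Prod.fst e
  suffices H : ∀ w : S.Sp q c g ⊕ J →₀ ℤ, (∑ i ∈ w.support, w i • D i) = 0 →
      ∑ i ∈ w.support, (w i : ℝ) * val i = 0 by
    obtain ⟨φ, hφ⟩ := ext_lin D val H
    refine ⟨φ, fun a ha => ?_, fun j => ?_⟩
    · refine (hφ (Sum.inl ⟨a, ha⟩)).trans ?_
      rw [finsum_mem_eq_finite_toFinset_sum _ (hfin ⟨a, ha⟩)]
      simp only [D, Sum.elim_inl]
      rw [← Finsupp.sum_finsetSum_index (by simp) (by intros; push_cast; ring)]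
      simp
    · refine (hφ (Sum.inr j)).trans ?_
      exact Finsupp.sum_mapDomain_index_inj (hinj j)
  intro w hw
  have hD1 : ∀ (a : S.Sp q c g) y, D (Sum.inl a) y = if y ∈ S.pts c g a then 1 else 0 := by
    intro a y
    simp [D, Finsupp.finsetSum_apply, Finsupp.single_apply]
  have hD2 : ∀ j y, D (Sum.inr j) y = if y.1 (t j) = y.2 then ν j y.1 else 0 := by
    rintro j ⟨β, t0⟩
    simp only [D, Sum.elim_inr]
    split_ifs with e
    · subst e
      exact Finsupp.mapDomain_apply (hinj j) (ν j) β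
    · refine Finsupp.mapDomain_of_notMem_range _ _ ?_
      rintro ⟨β', e'⟩
      obtain ⟨rfl, rfl⟩ := Prod.mk.inj e'
      exact e rfl
  have hw1 : ∀ y, ∑ i ∈ w.support, w i * D i y = 0 := fun y => by
    have := DFunLike.congr_fun hw y
    simpa [Finsupp.finsetSum_apply] using this
  have hw2 : ∑ i ∈ w.support, w i * (S.n * Sum.elim (fun _ => 1) (fun _ => 0) i) = 0 := by
    have := congrArg (Finsupp.linearCombination ℤ fun _ => (1 : ℤ)) hw
    rw [map_sum, map_zero] at this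
    refine Eq.trans (Finset.sum_congr rfl fun i _ => ?_) this
    rw [map_zsmul, smul_eq_mul]
    congr 1
    rcases i with a | j
    · simp [D, map_sum, ← (spl S p hq hc hg a.2).2.1, Set.ncard_eq_toFinset_card _ (hfin a)]
    · simp only [D, Sum.elim_inr, mul_zero, Finsupp.linearCombination_apply]
      rw [Finsupp.sum_mapDomain_index_inj (hinj j)]
      simpa using (hdeg j).symm
  have hinjA := IsFractionRing.injective A (FractionRing A)
  have ht' : ∀ j, (ext_F S c g).IsRoot (t j) := fun j => by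
    have := ht j
    rwa [ext_fL, isRoot_map_iff hinjA] at this
  have hF0 : S.fL c g ≠ 0 := by
    obtain ⟨θ, hθ⟩ := h.2
    rw [ext_fL, Polynomial.map_ne_zero_iff hinjA]
    intro e
    have h2 : S.fp θ c g = (ext_F S c g).map θ.toRingHom := (ext_F_map S θ c g).symm
    rw [h2, e, Polynomial.map_zero] at hθ
    exact not_separable_zero hθ
  have hCp : (S.Cp c g).Finite := by
    refine (UniqueFactorizationMonoid.normalizedFactors (S.fL c g)).toFinset.finite_toSet.subset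
      fun f hf => ?_
    rw [Finset.mem_coe, Multiset.mem_toFinset, Polynomial.mem_normalizedFactors_iff hF0]
    exact ⟨hf.2.1, hf.1, hf.2.2⟩
  let r : (FractionRing A)[X] → S.Sp q c g ⊕ J → (FractionRing A)[X] := fun f => Sum.elim
    (fun a => S.gr a) fun j => if X - C (algebraMap A _ (t j)) = f then C (u j) else 1
  have hone : ∀ f ∈ S.Cp c g, μ c g f 1 = 0 := fun f hf => by
    simpa using hμ.cst c g f hf 1 one_ne_zero
  have hval : ∀ i, val i = ∑ f ∈ hCp.toFinset, μ c g f (r f i) := by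
    rintro (a | j)
    · exact finsum_mem_eq_finite_toFinset_sum _ hCp
    · have hm : X - C (algebraMap A (FractionRing A) (t j)) ∈ hCp.toFinset :=
        hCp.mem_toFinset.2 ⟨monic_X_sub_C _, irreducible_X_sub_C _, dvd_iff_isRoot.2 (ht j)⟩
      rw [Finset.sum_eq_single_of_mem _ hm fun f hf hne => by
        simp only [r, Sum.elim_inr, if_neg hne.symm]
        exact hone f (hCp.mem_toFinset.1 hf)]
      simp [r, val]
  simp only [hval, Finset.mul_sum]
  rw [Finset.sum_comm]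
  refine Finset.sum_eq_zero fun f hf => ?_
  rw [Set.Finite.mem_toFinset] at hf
  have := Fact.mk hf.2.1
  let ψ : FractionRing A →ₐ[K] AdjoinRoot f := IsScalarTower.toAlgHom K _ _
  let φ : A →ₐ[K] AdjoinRoot f := ψ.comp (gp K A)
  have hφ : ∀ a, φ a = ψ (algebraMap A _ a) := fun _ => rfl
  have hmk : ∀ a : A, AdjoinRoot.mk f (X - C (algebraMap A _ a)) = AdjoinRoot.root f - φ a :=
    fun a => by rw [map_sub, AdjoinRoot.mk_X, AdjoinRoot.mk_C]; rfl
  have hF : (ext_F S c g).eval₂ φ.toRingHom (AdjoinRoot.root f) = 0 := by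
    have h1 := AdjoinRoot.mk_eq_zero.2 hf.2.2
    rw [← AdjoinRoot.aeval_eq, aeval_def, ext_fL, eval₂_map] at h1
    exact h1
  have hj : ∀ j, X - C (algebraMap A _ (t j)) = f ↔ AdjoinRoot.root f = φ (t j) := fun j => by
    rw [← sub_eq_zero (a := AdjoinRoot.root f), ← hmk, AdjoinRoot.mk_eq_zero]
    refine ⟨fun e => e ▸ dvd_rfl, fun e => ?_⟩
    exact (eq_of_monic_of_associated hf.1 (monic_X_sub_C _)
      (hf.2.1.associated_of_dvd (irreducible_X_sub_C _) e)).symm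
  let e : S.Sp q c g ⊕ J → AdjoinRoot f := fun i => AdjoinRoot.mk f (r f i)
  have he1 : ∀ a : S.Sp q c g, e (Sum.inl a) = AdjoinRoot.root f - φ (ext_g S a) := fun a =>
    hmk _
  have he2 : ∀ j, e (Sum.inr j) = if AdjoinRoot.root f = φ (t j) then ψ (u j) else 1 := fun j => by
    simp only [e, r, Sum.elim_inr, hj]
    split_ifs
    · rfl
    · exact map_one _
  have he : ∀ i, e i ≠ 0 := by
    rintro (a | j)
    · rw [he1, sub_ne_zero]
      intro e'
      rw [e'] at hF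
      have h1 : φ ((ext_F S c g).eval (ext_g S a)) = 0 :=
        (eval₂_at_apply φ.toRingHom _).symm.trans hF
      rw [hφ, map_eq_zero, map_eq_zero_iff _ hinjA] at h1
      exact ext_ne S p hq hc hg h a.2 h1
    · rw [he2]
      split_ifs
      · exact (map_ne_zero ψ).2 (hu j).1
      · exact one_ne_zero
  let χ : AdjoinRoot f → ℝ := fun z => μ c g f (Function.surjInv AdjoinRoot.mk_surjective z)
  have hχ : ∀ s, χ (AdjoinRoot.mk f s) = μ c g f s := fun s =>
    hμ.con c g f hf _ _ (AdjoinRoot.mk_eq_mk.1 (Function.surjInv_eq _ _))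
  have hχ2 : ∀ a b, a ≠ 0 → b ≠ 0 → χ (a * b) = χ a + χ b := by
    intro a b ha hb
    obtain ⟨a, rfl⟩ := AdjoinRoot.mk_surjective a
    obtain ⟨b, rfl⟩ := AdjoinRoot.mk_surjective b
    rw [← map_mul, hχ, hχ, hχ]
    exact hμ.mul c g f hf _ _ (fun e => ha (AdjoinRoot.mk_eq_zero.2 e))
      fun e => hb (AdjoinRoot.mk_eq_zero.2 e)
  have hsum := ext_hom χ hχ2 w.support e he w
  simp only [e, hχ] at hsum
  rw [← hsum]
  obtain ⟨k, hk⟩ := ext_const (K := K) (∏ i ∈ w.support, e i ^ w i) fun O hO => by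
    rw [← O.valuation_le_one_iff]
    refine le_of_eq ?_
    rcases ext_key S p hq hc hg h t u ν ht' hu hs ψ φ hφ hF O hO with
      ⟨hn, ρ, h0, h1, h2⟩ | ⟨h1, h2⟩ | ⟨y, ρ, h0, h1, h2⟩
    · refine ext_vprod _ _ _ _ (Sum.elim (fun _ => 1) fun _ => 0) h0 ?_ ?_
      · rintro (a | j)
        · simp [he1, h1]
        · rw [he2]
          split_ifs <;> simp [h2]
      · refine mul_left_cancel₀ (a := (S.n : ℤ)) (by exact_mod_cast hn.ne') ?_
        rw [Finset.mul_sum, mul_zero]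
        exact (Finset.sum_congr rfl fun i _ => by ring).trans hw2
    · refine ext_vprod _ _ _ _ (fun _ => 0) one_ne_zero ?_ (by simp)
      rintro (a | j)
      · simp [he1, h1 a a.2]
      · rw [he2]
        split_ifs with e'
        · simp [h2 j e']
        · simp
    · refine ext_vprod _ _ _ _ (fun i => D i y) h0 ?_ (hw1 y)
      rintro (a | j)
      · rw [he1, h1 a a.2, hD1]
        split_ifs <;> simp
      · rw [he2, hD2]
        by_cases e' : AdjoinRoot.root f = φ (t j)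
        · rw [if_pos e', if_pos ((h2 j).1.1 e'), (h2 j).2 e']
        · rw [if_neg e', if_neg fun e'' => e' ((h2 j).1.2 e'')]
          simp
  have hk0 : k ≠ 0 := by
    rintro rfl
    rw [map_zero] at hk
    exact Finset.prod_ne_zero_iff.2 (fun i _ => zpow_ne_zero _ (he i)) hk.symm
  change χ (∏ i ∈ w.support, e i ^ w i) = 0
  rw [← hk, ← hμ.cst c g f hf k hk0, ← hχ]
  rfl

end Pool.Agent.MP_a9d3bd_zz
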