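import Pool.Agent.MP_a9d3bd_zz.Defs

namespace Pool.Agent.MP_a9d3bd_zz

open Polynomial Su

theorem act_res {R T : Type} [CommRing R] [CommRing T] [Nontrivial T] (φ : R →+* T) {f g : R[X]}
    (hf : f.Monic) (hg : g.Monic) : resultant (f.map φ) (g.map φ) = φ (resultant f g) := by
  rw [hf.natDegree_map, hg.natDegree_map, resultant_map_map]

theorem act_uniq {R K : Type} [CommRing R] [IsDomain R] [Field K] (ev : R →+* K) {N D D' : R[X]}
    (hN : N.Monic) (hs : (N.map ev).Separable) (hD : D.Monic) (hD' : D'.Monic) (h1 : D ∣ N)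
    (h2 : D' ∣ N) (h : D.map ev = D'.map ev) : D' = D := by
  obtain ⟨B, hB⟩ := h2
  have hBm : B.Monic := hD'.of_mul_monic_left (hB ▸ hN)
  have hc : IsCoprime (D.map ev) (B.map ev) := by
    rw [hB, Polynomial.map_mul, ← h] at hs
    exact hs.isCoprime
  have h3 := resultant_ne_zero _ _ hc
  rw [act_res ev hD hBm] at h3
  have h4 : resultant D B ≠ 0 := fun c => h3 (by rw [c, map_zero])
  have hi := IsFractionRing.injective R (FractionRing R)
  have h5 : IsCoprime (D.map (algebraMap R (FractionRing R)))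
      (B.map (algebraMap R (FractionRing R))) := by
    by_contra c
    have h6 := resultant_eq_zero_iff.2 ⟨Or.inl (hD.map _).ne_zero, c⟩
    rw [act_res _ hD hBm] at h6
    exact h4 (hi (h6.trans (map_zero _).symm))
  have h7 : D ∣ D' := by
    rw [← map_dvd_map _ hi hD]
    refine h5.dvd_of_dvd_mul_right ?_
    rw [← Polynomial.map_mul, ← hB]
    exact Polynomial.map_dvd _ h1
  refine eq_of_monic_of_dvd_of_natDegree_le hD hD' h7 (le_of_eq ?_)
  rw [← hD.natDegree_map ev, h, hD'.natDegree_map]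

theorem act_spl {K : Type} [Field K] [IsAlgClosed K] {q : ℕ} {N : K[X]} (hN : N.Monic)
    (h : Spl q N) : N.Separable ∧ ∀ x ∈ N.roots, Ra q x := by
  classical
  have hs : {x | Ra q x ∧ N.IsRoot x} ⊆ (N.roots.toFinset : Set K) := fun x hx => by
    simpa [hN.ne_zero] using hx.2
  have h1 : N.roots.toFinset.card ≤ N.roots.card := Multiset.toFinset_card_le _
  have h2 := card_roots' N
  have h3 := Set.ncard_le_ncard hs (Finset.finite_toSet _)
  rw [Set.ncard_coe_finset, h] at h3
  have h4 := Set.eq_of_subset_of_ncard_le hs (by rw [Set.ncard_coe_finset, h]; omega)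
    (Finset.finite_toSet _)
  refine ⟨(nodup_roots_iff_of_splits hN.ne_zero (IsAlgClosed.splits N)).1
    (Multiset.toFinset_card_eq_card_iff_nodup.1 (by omega)), fun x hx => ?_⟩
  have h5 : x ∈ (N.roots.toFinset : Set K) := by simpa using hx
  rw [← h4] at h5
  exact h5.1

theorem act_fix {K : Type} [Field K] [IsAlgClosed K] (φ : K →+* K) {D : K[X]} (hD : D.Monic)
    (h : ∀ x ∈ D.roots, φ x = x) : D.map φ = D := by
  have e := (IsAlgClosed.splits D).eq_prod_roots_of_monic hD
  conv_lhs => rw [e]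
  rw [Polynomial.map_multiset_prod, Multiset.map_map]
  refine Eq.trans (congrArg _ (Multiset.map_congr rfl fun x hx => ?_)) e.symm
  simp [h x hx]

theorem act_pow {K : Type} [Field K] {x : K} {n : ℕ} (h : x ^ n = x) (k : ℕ) : x ^ n ^ k = x := by
  induction k with
  | zero => simp
  | succ k ih => rw [pow_succ, pow_mul, ih, h]

variable {K A ι : Type} [Field K] [IsAlgClosed K] [CommRing A] [IsDedekindDomain A] [Algebra K A]
  [Algebra K[X] A] [IsScalarTower K K[X] A] [Module.Finite K[X] A] [Module.IsTorsionFree K[X] A]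
  [Fintype ι] [DecidableEq ι] {m : ℕ} (S : Su K A ι m) (p : ℕ) [Fact p.Prime] [CharP K p]

theorem act {q : ℕ} (hq : S.Qk p q) {c : K} {g a : Fin m × ι → K} (hc : Ra q c) (hg : RaV q g)
    (h : S.Adm c g) (ha : a ∈ S.Sp q c g) : S.Act q c g := by
  obtain ⟨f, k, -, -, hq1, hqk⟩ := hq
  refine ⟨hc, hg, h, fun D hD hdvd i s => ?_⟩
  obtain ⟨φ, hφ⟩ : ∃ φ : K →+* K, ∀ x, φ x = x ^ q :=
    ⟨iterateFrobenius K p (f * k), fun x => by rw [iterateFrobenius_def, hqk, hq1, ← pow_mul]⟩
  have hNN : S.NN.map (MvPolynomial.map φ) = S.NN := by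
    ext i s
    rw [coeff_map, MvPolynomial.coeff_map, hφ, hqk, act_pow (S.hq1N i s)]
  have hm : (S.NH c g).Monic := S.hNm.map _
  have hτ : (S.NH c g).map (MvPolynomial.map φ) = S.NH c g := by
    unfold NH Nf
    conv_rhs => rw [← hNN]
    rw [map_map, map_map]
    congr 1
    refine MvPolynomial.ringHom_ext (fun x => by simp) fun v => ?_
    have h1 : φ c = c := (hφ c).trans hc
    have h2 : ∀ v, φ (g v) = g v := fun v => (hφ _).trans (hg v)
    rcases v with v | v <;> simp [h1, h2]
  have hev : (S.NH c g).map (MvPolynomial.eval a) = S.Nf a fun v => g v + c * a v := by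
    unfold NH Nf
    rw [map_map]
    congr 1
    refine MvPolynomial.ringHom_ext (fun x => by simp) fun v => ?_
    rcases v with v | v <;> simp
  obtain ⟨hsep, hr⟩ := act_spl (hev ▸ hm.map _) ha.2
  rw [← hev] at hsep hr
  have hcm : (MvPolynomial.eval a).comp (MvPolynomial.map φ) = φ.comp (MvPolynomial.eval a) := by
    refine MvPolynomial.ringHom_ext (fun x => by simp) fun v => ?_
    have h1 : φ (a v) = a v := (hφ _).trans (ha.1 v)
    simp [h1]
  have key : D.map (MvPolynomial.map φ) = D := by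
    refine act_uniq (MvPolynomial.eval a) hm hsep hD (hD.map _) hdvd
      (hτ ▸ Polynomial.map_dvd _ hdvd) ?_
    rw [map_map, hcm, ← map_map]
    refine (act_fix φ (hD.map _) fun x hx => (hφ x).trans (hr x ?_)).symm
    exact Multiset.mem_of_le (roots.le_of_dvd (hm.map _).ne_zero (Polynomial.map_dvd _ hdvd)) hx
  have h3 := congrArg (fun E => (E.coeff i).coeff s) key
  simp only [coeff_map, MvPolynomial.coeff_map, hφ] at h3
  exact h3

end Pool.Agent.MP_a9d3bd_zz
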