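import Pool.Agent.MP_a9d3bd_zz.Defs

namespace Pool.Agent.MP_a9d3bd_zz

open Polynomial Su

variable {K A ι : Type} [Field K] [IsAlgClosed K] [CommRing A] [IsDedekindDomain A] [Algebra K A]
  [Algebra K[X] A] [IsScalarTower K K[X] A] [Module.Finite K[X] A] [Module.IsTorsionFree K[X] A]
  [Fintype ι] [DecidableEq ι] {m : ℕ} (S : Su K A ι m) (p : ℕ) [Fact p.Prime] [CharP K p]

open Classical in
theorem lagt_basis {T : Type} [Field T] {k m : ℕ} (hk : k ≤ m) (x : Fin k → T)
    (hx : Function.Injective x) (l i : Fin k) :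
    ∑ s : Fin m, (Lagrange.basis Finset.univ x l).coeff s * x i ^ (s : ℕ) =
      if l = i then 1 else 0 := by
  have h1 : (Lagrange.basis Finset.univ x l).natDegree < m := by
    rw [Lagrange.natDegree_basis hx.injOn (Finset.mem_univ l), Finset.card_univ, Fintype.card_fin]
    have := l.pos
    omega
  rw [Fin.sum_univ_eq_sum_range (fun s => (Lagrange.basis Finset.univ x l).coeff s * x i ^ s) m,
    ← eval_eq_sum_range' h1]
  split_ifs with h
  · rw [← h]
    exact Lagrange.eval_basis_self hx.injOn (Finset.mem_univ l)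
  · exact Lagrange.eval_basis_of_ne h (Finset.mem_univ i)

theorem lag_thr {T : Type} [Field T] [Algebra K T] {k : ℕ} (hk : k ≤ 2)
    (y : Fin k → (A →ₐ[K] T) × T) (hy : Function.Injective fun i => (y i).1 (xA K A))
    (a : Fin m × ι → T) :
    (∀ i, S.Thr (y i).1 (y i).2 fun v => MvPolynomial.eval a (S.lag y v)) ∧
    ((∀ i, S.Thr (y i).1 (y i).2 a) → ∀ v, MvPolynomial.eval a (S.lag y v) = a v) := by
  classical
  have hm := S.hm
  have ev : ∀ v, MvPolynomial.eval a (S.lag y v) = a v + if v.2 = S.j0 then ∑ l,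
      (Lagrange.basis Finset.univ (fun l => (y l).1 (xA K A)) l).coeff v.1 *
        ((y l).2 - (y l).1 (xA K A) ^ S.M - gam S.e (y l).1 a) else 0 := fun v => by
    unfold Su.lag gam
    split_ifs <;> simp only [map_add, map_sum, map_mul, map_sub, map_zero, MvPolynomial.eval_X,
      MvPolynomial.eval_C]
  refine ⟨fun i => ?_, fun h v => ?_⟩
  · have h1 : gam S.e (y i).1 (fun v => MvPolynomial.eval a (S.lag y v)) = gam S.e (y i).1 a +
        ∑ l, (∑ s : Fin m, (Lagrange.basis Finset.univ (fun l => (y l).1 (xA K A)) l).coeff s *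
          (y i).1 (xA K A) ^ (s : ℕ)) *
            ((y l).2 - (y l).1 (xA K A) ^ S.M - gam S.e (y l).1 a) := by
      rw [gam]
      simp only [ev, add_mul, Finset.sum_add_distrib]
      congr 1
      simp only [Fintype.sum_prod_type, ite_mul, zero_mul, Finset.sum_ite_eq', Finset.mem_univ,
        if_true, S.he0, map_one, mul_one, Finset.sum_mul]
      rw [Finset.sum_comm]
      exact Finset.sum_congr rfl fun l _ => Finset.sum_congr rfl fun s _ => by ring
    have h2 := fun l => lagt_basis (m := m) (by omega) _ hy l i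
    rw [Su.Thr, h1]
    simp only [h2, ite_mul, one_mul, zero_mul, Finset.sum_ite_eq', Finset.mem_univ, if_true]
    ring
  · have h0 : ∀ l, (y l).2 - (y l).1 (xA K A) ^ S.M - gam S.e (y l).1 a = 0 := fun l => by
      have := h l
      rw [Su.Thr] at this
      linear_combination this
    simp [ev, h0]

end Pool.Agent.MP_a9d3bd_zz
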