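import Pool.Agent.MP_a9d3bd_zz.Defs
import Pool.Agent.MP_a9d3bd_zz.Spl
import Pool.Agent.MP_a9d3bd_zz.LagT

namespace Pool.Agent.MP_a9d3bd_zz

open Polynomial Su

variable {K A ι : Type} [Field K] [IsAlgClosed K] [CommRing A] [IsDedekindDomain A] [Algebra K A]
  [Algebra K[X] A] [IsScalarTower K K[X] A] [Module.Finite K[X] A] [Module.IsTorsionFree K[X] A]
  [Fintype ι] [DecidableEq ι] {m : ℕ} (S : Su K A ι m) (p : ℕ) [Fact p.Prime] [CharP K p]

/-- The polynomials that vanish on the graphs through a point form a prime ideal. -/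
theorem clsc_phi (θ : A →ₐ[K] K) (t : K) :
    ∃ Φ : (MvPolynomial (Fin m × ι) K)[X] →+* MvPolynomial (Fin m × ι) K,
      ∀ D, S.Van D θ t ↔ Φ D = 0 := by
  have hl := lag_thr S (T := K) (k := 1) one_le_two (fun _ => (θ, t))
    (Function.injective_of_subsingleton _)
  refine ⟨eval₂RingHom (MvPolynomial.aeval (S.lag fun _ : Fin 1 => (θ, t))).toRingHom
    (MvPolynomial.C (θ (xA K A))), fun D => ?_⟩
  have key : ∀ a : Fin m × ι → K, MvPolynomial.eval a
      (eval₂RingHom (MvPolynomial.aeval (S.lag fun _ : Fin 1 => (θ, t))).toRingHom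
        (MvPolynomial.C (θ (xA K A))) D) =
      D.eval₂ (MvPolynomial.eval fun v => MvPolynomial.eval a (S.lag (fun _ : Fin 1 => (θ, t)) v))
        (θ (xA K A)) := by
    intro a
    rw [coe_eval₂RingHom, hom_eval₂, MvPolynomial.eval_C]
    congr 1
    refine MvPolynomial.ringHom_ext (fun r => ?_) fun v => ?_
    · simp
    · simp
  constructor
  · intro h
    refine MvPolynomial.funext fun a => ?_
    rw [key, map_zero]
    exact h _ ((hl a).1 0)
  · intro h a ha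
    have h1 := key a
    rw [h, map_zero, funext ((hl a).2 fun _ => ha)] at h1
    exact h1.symm

theorem clsc_van {c : K} {g : Fin m × ι → K} {θ : A →ₐ[K] K} {t : K}
    (h : (S.fp θ c g).eval t = 0) : S.Van (S.NH c g) θ t := by
  intro a ha
  have := S.hfin
  have h1 := S.hN K θ a fun v => g v + c * a v
  have h2 : (S.NH c g).eval₂ (MvPolynomial.eval a) (θ (xA K A)) =
      S.NN.eval₂ (MvPolynomial.aeval (Sum.elim a fun v => g v + c * a v)).toRingHom
        (θ (xA K A)) := by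
    rw [Su.NH, Su.Nf, eval₂_map]
    congr 1
    refine MvPolynomial.ringHom_ext (fun r => ?_) fun v => ?_
    · simp
    · rcases v with v | v <;> simp
  have h3 : θ.comp ((1 : A ≃ₐ[K[X]] A).restrictScalars K).toAlgHom = θ := by
    ext x
    rfl
  have h4 : gam S.e θ (fun v => g v + c * a v) = gam S.e θ g + c * gam S.e θ a := by
    simp only [gam, add_mul, Finset.sum_add_distrib, Finset.mul_sum, mul_assoc]
  rw [finprod_eq_zero _ (1 : A ≃ₐ[K[X]] A) ?_ (Set.toFinite _)] at h1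
  · rw [h2]
    exact (mul_eq_zero.1 h1).resolve_left (pow_ne_zero _ S.h0)
  · rw [h3, ← h, Su.fp, ← coe_aeval_eq_eval, ← AlgHom.comp_apply, MvPolynomial.comp_aeval]
    congr 2
    have ha' : t = θ (xA K A) ^ S.M + gam S.e θ a := ha
    funext i
    fin_cases i
    · simp
    · simp [ha']
    · simp [Su.wl, ha', h4, add_assoc]

theorem clsc_le {c : K} {g a : Fin m × ι → K}
    (hi : (S.pts c g a).InjOn fun y => y.1 (xA K A)) {D : (MvPolynomial (Fin m × ι) K)[X]}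
    (hD : D.Monic) : {y ∈ S.pts c g a | S.Van D y.1 y.2}.ncard ≤ D.natDegree := by
  classical
  have h0 : D.map (MvPolynomial.eval a) ≠ 0 := (hD.map _).ne_zero
  refine (Set.ncard_le_ncard_of_injOn (t := ((D.map (MvPolynomial.eval a)).roots.toFinset : Set K))
    (fun y => y.1 (xA K A)) (fun y hy => ?_) (hi.mono (Set.sep_subset _ _))
    (Finset.finite_toSet _)).trans ?_
  · rw [Finset.mem_coe, Multiset.mem_toFinset, mem_roots h0, IsRoot.def, eval_map]
    exact hy.2 a hy.1.1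
  · rw [Set.ncard_coe_finset]
    exact (Multiset.toFinset_card_le _).trans ((card_roots' _).trans natDegree_map_le)

theorem clsc_key {c : K} {g a : Fin m × ι → K} (hf : (S.pts c g a).Finite)
    (hn : (S.pts c g a).ncard = S.n) (hi : (S.pts c g a).InjOn fun y => y.1 (xA K A))
    {D E : (MvPolynomial (Fin m × ι) K)[X]} (hD : D.Monic) (h : S.NH c g = D * E) :
    {y ∈ S.pts c g a | S.Van D y.1 y.2}.ncard = D.natDegree ∧
      ∀ y ∈ S.pts c g a, S.Van D y.1 y.2 → ¬ S.Van E y.1 y.2 := by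
  have hN : (S.NH c g).Monic := S.hNm.map _
  have hE : E.Monic := hD.of_mul_monic_left (h ▸ hN)
  have hd : D.natDegree + E.natDegree = S.n := by
    rw [← hD.natDegree_mul hE, ← h]
    exact S.hNm.natDegree_map _
  have h1 := clsc_le S hi hD
  have h2 := clsc_le S hi hE
  have h3 : {y ∈ S.pts c g a | S.Van D y.1 y.2} ∪ {y ∈ S.pts c g a | S.Van E y.1 y.2} =
      S.pts c g a := by
    refine Set.Subset.antisymm (Set.union_subset (Set.sep_subset _ _) (Set.sep_subset _ _))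
      fun y hy => ?_
    obtain ⟨Φ, hΦ⟩ := clsc_phi S y.1 y.2
    have h4 := (hΦ _).1 (clsc_van S hy.2)
    rw [h, map_mul, mul_eq_zero, ← hΦ, ← hΦ] at h4
    exact h4.imp (fun h5 => ⟨hy, h5⟩) fun h5 => ⟨hy, h5⟩
  have h4 := Set.ncard_union_add_ncard_inter {y ∈ S.pts c g a | S.Van D y.1 y.2}
    {y ∈ S.pts c g a | S.Van E y.1 y.2} (hf.subset (Set.sep_subset _ _))
    (hf.subset (Set.sep_subset _ _))
  rw [h3, hn] at h4
  refine ⟨by omega, fun y hy h5 h6 => ?_⟩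
  have h7 : ({y ∈ S.pts c g a | S.Van D y.1 y.2} ∩
      {y ∈ S.pts c g a | S.Van E y.1 y.2}).ncard = 0 := by omega
  rw [Set.ncard_eq_zero ((hf.subset (Set.sep_subset _ _)).inter_of_left _)] at h7
  exact (Set.eq_empty_iff_forall_notMem.1 h7) y ⟨⟨hy, h5⟩, hy, h6⟩

theorem clsc_prime {c : K} {g : Fin m × ι → K} {θ : A →ₐ[K] K} {t : K}
    (h : (S.fp θ c g).eval t = 0) :
    ∃ D, Prime D ∧ D.Monic ∧ D ∣ S.NH c g ∧ S.Van D θ t := by
  obtain ⟨Φ, hΦ⟩ := clsc_phi S θ t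
  have hN : (S.NH c g).Monic := S.hNm.map _
  have h1 : ∀ N : (MvPolynomial (Fin m × ι) K)[X], N ≠ 0 → Φ N = 0 →
      ∃ D, Prime D ∧ D ∣ N ∧ Φ D = 0 := by
    intro N
    induction N using UniqueFactorizationMonoid.induction_on_prime with
    | h₁ => exact fun h0 => absurd rfl h0
    | h₂ x hx => exact fun _ h0 => absurd h0 (hx.map Φ).ne_zero
    | h₃ x y hx hy ih =>
      intro _ h0
      rw [map_mul, mul_eq_zero] at h0
      rcases h0 with h0 | h0
      · exact ⟨y, hy, dvd_mul_right _ _, h0⟩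
      · obtain ⟨D, h2, h3, h4⟩ := ih hx h0
        exact ⟨D, h2, h3.mul_left _, h4⟩
  obtain ⟨D, h2, h3, h4⟩ := h1 _ hN.ne_zero ((hΦ _).1 (clsc_van S h))
  obtain ⟨u, hu⟩ := hN.isUnit_leadingCoeff_of_dvd h3
  have h5 : IsUnit (C ((u⁻¹ : (MvPolynomial (Fin m × ι) K)ˣ) : MvPolynomial (Fin m × ι) K)) :=
    (Units.isUnit _).map C
  refine ⟨C ((u⁻¹ : (MvPolynomial (Fin m × ι) K)ˣ) : MvPolynomial (Fin m × ι) K) * D,
    (associated_unit_mul_right _ _ h5).prime h2,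
    monic_C_mul_of_mul_leadingCoeff_eq_one (by rw [← hu, Units.inv_mul]),
    h5.mul_left_dvd.2 h3, (hΦ _).2 (by rw [map_mul, h4, mul_zero])⟩

theorem clsc_cls {c : K} {g a : Fin m × ι → K} (hf : (S.pts c g a).Finite)
    (hn : (S.pts c g a).ncard = S.n) (hi : (S.pts c g a).InjOn fun y => y.1 (xA K A))
    {D : (MvPolynomial (Fin m × ι) K)[X]} (hp : Prime D) (hd : D ∣ S.NH c g)
    {y : (A →ₐ[K] K) × K} (hy : y ∈ S.pts c g a) (hv : S.Van D y.1 y.2) :
    S.cls c g y.1 y.2 = {D' | D'.Monic ∧ D' ∣ S.NH c g ∧ D ∣ D'} := by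
  obtain ⟨Φ, hΦ⟩ := clsc_phi S y.1 y.2
  have h0 : ∀ E, D ∣ E → S.Van E y.1 y.2 := by
    rintro _ ⟨E, rfl⟩
    rw [hΦ, map_mul, (hΦ _).1 hv, zero_mul]
  ext D'
  refine and_congr_right fun h1 => and_congr_right fun h2 => ⟨fun h3 => ?_, h0 _⟩
  obtain ⟨E, hE⟩ := h2
  refine (hp.dvd_or_dvd (hE ▸ hd)).resolve_right fun h4 => ?_
  exact (clsc_key S hf hn hi h1 hE).2 y hy h3 (h0 _ h4)

theorem clsc_cnt {c : K} {g a : Fin m × ι → K} (hf : (S.pts c g a).Finite)
    (hn : (S.pts c g a).ncard = S.n) (hi : (S.pts c g a).InjOn fun y => y.1 (xA K A))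
    {D : (MvPolynomial (Fin m × ι) K)[X]} (hp : Prime D) (hm : D.Monic) (hd : D ∣ S.NH c g) :
    {y ∈ S.pts c g a | S.cls c g y.1 y.2 = {D' | D'.Monic ∧ D' ∣ S.NH c g ∧ D ∣ D'}}.ncard =
      D.natDegree := by
  obtain ⟨E, hE⟩ := id hd
  rw [← (clsc_key S hf hn hi hm hE).1]
  congr 1
  ext y
  refine and_congr_right fun hy => ⟨fun h => ?_, clsc_cls S hf hn hi hp hd hy⟩
  have h1 : D ∈ S.cls c g y.1 y.2 := by
    rw [h]
    exact ⟨hm, hd, dvd_rfl⟩
  exact h1.2.2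

theorem cls_cnt {q : ℕ} (hq : S.Qk p q) {c : K} {g a a' : Fin m × ι → K} (hc : Ra q c)
    (hg : RaV q g) (ha : a ∈ S.Sp q c g) (ha' : a' ∈ S.Sp q c g)
    (l : Set (MvPolynomial (Fin m × ι) K)[X]) :
    {y ∈ S.pts c g a | S.cls c g y.1 y.2 = l}.ncard =
      {y ∈ S.pts c g a' | S.cls c g y.1 y.2 = l}.ncard := by
  obtain ⟨hf, hn, hi, -⟩ := spl S p hq hc hg ha
  obtain ⟨hf', hn', hi', -⟩ := spl S p hq hc hg ha'
  by_cases h : ∃ D, Prime D ∧ D.Monic ∧ D ∣ S.NH c g ∧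
      l = {D' | D'.Monic ∧ D' ∣ S.NH c g ∧ D ∣ D'}
  · obtain ⟨D, hp, hm, hd, rfl⟩ := h
    rw [clsc_cnt S hf hn hi hp hm hd, clsc_cnt S hf' hn' hi' hp hm hd]
  · have h1 : ∀ b : Fin m × ι → K, (S.pts c g b).Finite → (S.pts c g b).ncard = S.n →
        ((S.pts c g b).InjOn fun y => y.1 (xA K A)) →
        {y ∈ S.pts c g b | S.cls c g y.1 y.2 = l} = ∅ := by
      intro b h2 h3 h4
      refine Set.eq_empty_iff_forall_notMem.2 fun y hy => h ?_
      obtain ⟨D, hp, hm, hd, hv⟩ := clsc_prime S hy.1.2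
      exact ⟨D, hp, hm, hd, hy.2.symm.trans (clsc_cls S h2 h3 h4 hp hd hy.1 hv)⟩
    rw [h1 a hf hn hi, h1 a' hf' hn' hi']

end Pool.Agent.MP_a9d3bd_zz
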