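import Pool.Agent.MP_a9d3bd_zz.Defs

namespace Pool.Agent.MP_a9d3bd_zz

open Polynomial Su

theorem pc_mon {T : Type} [CommRing T] (f : Fin 3 → T[X]) (hf : ∀ i, (f i).natDegree ≤ 1)
    (s : Fin 3 → ℕ) : (∏ i, f i ^ s i).natDegree ≤ s 0 + s 1 + s 2 ∧
      (∏ i, f i ^ s i).coeff (s 0 + s 1 + s 2) = ∏ i, (f i).coeff 1 ^ s i := by
  have h1 : ∀ i, (f i ^ s i).natDegree ≤ s i := fun i =>
    (natDegree_pow_le_of_le (s i) (hf i)).trans (by rw [mul_one])
  have h2 : ∀ i, (f i ^ s i).coeff (s i) = (f i).coeff 1 ^ s i := fun i => by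
    have := coeff_pow_of_natDegree_le (m := s i) (hf i)
    rwa [mul_one] at this
  have h3 : (f 0 ^ s 0 * f 1 ^ s 1).natDegree ≤ s 0 + s 1 :=
    natDegree_mul_le_of_le (h1 0) (h1 1)
  rw [Fin.prod_univ_three, Fin.prod_univ_three]
  refine ⟨natDegree_mul_le_of_le h3 (h1 2), ?_⟩
  rw [coeff_mul_add_eq_of_natDegree_le h3 (h1 2), coeff_mul_add_eq_of_natDegree_le (h1 0) (h1 1),
    h2, h2, h2]

/-- Substitution of linear polynomials: degree and top coefficient. -/
theorem pc_top {K T : Type} [Field K] [CommRing T] [Algebra K T] (f : Fin 3 → T[X])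
    (hf : ∀ i, (f i).natDegree ≤ 1) (P : MvPolynomial (Fin 3) K) (d : ℕ)
    (hP : P.totalDegree ≤ d) : (MvPolynomial.aeval f P).natDegree ≤ d ∧
      (MvPolynomial.aeval f P).coeff d =
        MvPolynomial.aeval (fun i => (f i).coeff 1) (MvPolynomial.homogeneousComponent d P) := by
  classical
  have hs : ∀ s : Fin 3 →₀ ℕ, s.degree = s 0 + s 1 + s 2 := fun s => by
    rw [Finsupp.degree_eq_sum, Fin.sum_univ_three]
  have hd : ∀ s ∈ P.support, s 0 + s 1 + s 2 ≤ d := fun s h => by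
    have := (MvPolynomial.le_totalDegree h).trans hP
    rwa [Finsupp.sum_fintype _ _ (fun _ => rfl), Fin.sum_univ_three] at this
  have e : MvPolynomial.aeval f P =
      ∑ s ∈ P.support, C (algebraMap K T (P.coeff s)) * ∏ i, f i ^ s i := by
    conv_lhs => rw [P.as_sum]
    rw [map_sum]
    refine Finset.sum_congr rfl fun s _ => ?_
    rw [MvPolynomial.aeval_monomial, Finsupp.prod_fintype _ _ (fun _ => pow_zero _),
      Polynomial.algebraMap_apply]
  rw [e]
  refine ⟨natDegree_sum_le_of_forall_le _ _ fun s h =>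
    (natDegree_C_mul_le _ _).trans ((pc_mon f hf s).1.trans (hd s h)), ?_⟩
  rw [MvPolynomial.homogeneousComponent_apply, map_sum, finsetSum_coeff, Finset.sum_filter]
  refine Finset.sum_congr rfl fun s h => ?_
  rw [coeff_C_mul]
  split_ifs with h1
  · rw [MvPolynomial.aeval_monomial, Finsupp.prod_fintype _ _ (fun _ => pow_zero _), ← h1, hs,
      (pc_mon f hf s).2]
  · rw [coeff_eq_zero_of_natDegree_lt, mul_zero]
    rw [hs] at h1
    exact (pc_mon f hf s).1.trans_lt (lt_of_le_of_ne (hd s h) h1)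

theorem pc_fib {α β : Type} (s : Set α) (f : α → β) (t : Finset β) (B : ℕ)
    (h1 : ∀ a ∈ s, f a ∈ t)
    (h2 : ∀ b, {a | a ∈ s ∧ f a = b}.Finite ∧ {a | a ∈ s ∧ f a = b}.ncard ≤ B) :
    s.Finite ∧ s.ncard ≤ B * t.card := by
  classical
  have hf : s.Finite := (Set.Finite.biUnion t.finite_toSet fun b _ => (h2 b).1).subset
    fun a ha => Set.mem_biUnion (h1 a ha) ⟨ha, rfl⟩
  refine ⟨hf, ?_⟩
  rw [Set.ncard_eq_toFinset_card s hf]
  refine Finset.card_le_mul_card_image_of_maps_to (f := f)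
    (fun a ha => h1 a (hf.mem_toFinset.1 ha)) B fun b _ => le_trans (le_of_eq ?_) (h2 b).2
  rw [← Set.ncard_coe_finset]
  congr 1
  ext a
  simp

variable {K A ι : Type} [Field K] [IsAlgClosed K] [CommRing A] [IsDedekindDomain A] [Algebra K A]
  [Algebra K[X] A] [IsScalarTower K K[X] A] [Module.Finite K[X] A] [Module.IsTorsionFree K[X] A]
  [Fintype ι] [DecidableEq ι] {m : ℕ} (S : Su K A ι m) (p : ℕ) [Fact p.Prime] [CharP K p]

omit [IsAlgClosed K] [Module.Finite K[X] A] [Module.IsTorsionFree K[X] A] [DecidableEq ι] in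
/-- The equation of the curve over a point has degree at most `d` and top coefficient `pd c`. -/
theorem pc_fp {T : Type} [CommRing T] [Algebra K T] (θ : A →ₐ[K] T) (c : T) (g : Fin m × ι → T) :
    (S.fp θ c g).natDegree ≤ S.d ∧ (S.fp θ c g).coeff S.d = pd S.P S.d c := by
  have h1 : (S.wl θ c g).natDegree ≤ 1 := by
    unfold Su.wl
    refine natDegree_add_le_of_degree_le (by rw [natDegree_C]; omega) ?_
    exact (natDegree_C_mul_le _ _).trans (natDegree_X_sub_C_le _)
  have h2 : (S.wl θ c g).coeff 1 = c := by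
    unfold Su.wl
    rw [coeff_add, coeff_C_mul, coeff_sub, coeff_X_one, coeff_C_succ, coeff_C_succ, zero_add,
      sub_zero, mul_one]
  have h := pc_top ![C (θ (xA K A)), X, S.wl θ c g] (fun i => by
    fin_cases i
    · exact (natDegree_C _).le.trans zero_le_one
    · exact natDegree_X_le
    · exact h1) S.P S.d S.hP
  refine ⟨h.1, h.2.trans ?_⟩
  unfold pd
  congr 2
  funext i
  fin_cases i
  · exact coeff_C_succ
  · exact coeff_X_one
  · exact h2

include S in
omit [IsAlgClosed K] [Module.Finite K[X] A] [Module.IsTorsionFree K[X] A] [DecidableEq ι] in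
/-- At most `card ι` points over a point of the line. -/
theorem pc_pts (x : K) : {θ : A →ₐ[K] K | θ (xA K A) = x}.Finite ∧
    {θ : A →ₐ[K] K | θ (xA K A) = x}.ncard ≤ Fintype.card ι := by
  have hl : LinearIndependent K
      (fun θ : {θ : A →ₐ[K] K | θ (xA K A) = x} => fun j : ι => θ.1 (S.e j)) := by
    rw [linearIndependent_iff']
    intro s c hc
    refine linearIndependent_iff'.1
      ((linearIndependent_algHom_toLinearMap K A K).comp
        (fun θ : {θ : A →ₐ[K] K | θ (xA K A) = x} => θ.1) Subtype.val_injective) s c ?_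
    ext a
    have ha : a ∈ Submodule.span K[X] (Set.range S.e) := S.hspan ▸ Submodule.mem_top
    rw [LinearMap.sum_apply, LinearMap.zero_apply]
    change ∑ i ∈ s, c i * i.1 a = 0
    induction ha using Submodule.span_induction with
    | mem a h =>
      obtain ⟨j, rfl⟩ := h
      have := congrFun hc j
      rwa [Finset.sum_apply] at this
    | zero => simp
    | add a b _ _ h1 h2 =>
      simp only [map_add, mul_add, Finset.sum_add_distrib, h1, h2, add_zero]
    | smul r a _ h1 =>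
      have e : ∀ i : {θ : A →ₐ[K] K | θ (xA K A) = x}, i.1 (r • a) = aeval x r * i.1 a := by
        intro i
        have e1 : i.1.comp (IsScalarTower.toAlgHom K K[X] A) = aeval x :=
          Polynomial.algHom_ext (by rw [aeval_X]; exact i.2)
        rw [Algebra.smul_def, map_mul, ← e1]
        rfl
      simp only [e, mul_left_comm _ (aeval x r), ← Finset.mul_sum, h1, mul_zero]
  have hf : Finite {θ : A →ₐ[K] K | θ (xA K A) = x} := hl.finite
  refine ⟨hf, ?_⟩
  have := Fintype.ofFinite {θ : A →ₐ[K] K | θ (xA K A) = x}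
  have h2 := hl.fintype_card_le_finrank
  rw [Module.finrank_fintype_fun_eq_card] at h2
  rw [← Nat.card_coe_set_eq, Nat.card_eq_fintype_card]
  exact h2

theorem pcount : ∃ B : ℕ, ∀ q, S.Qk p q → ∀ c g, S.Adm c g →
    {y : (A →ₐ[K] K) × K | S.Inc q c g y.1 y.2}.Finite ∧
    {y : (A →ₐ[K] K) × K | S.Inc q c g y.1 y.2}.ncard ≤ B * q ∧
    ∀ x : K, {y : (A →ₐ[K] K) × K | S.Inc q c g y.1 y.2 ∧ y.1 (xA K A) = x}.ncard ≤ B := by
  classical
  refine ⟨S.d * Fintype.card ι, fun q hq c g hc => ?_⟩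
  obtain ⟨f, k, hf, hk, h1, h2⟩ := hq
  have hq1 : 1 < q := by
    rw [h2, h1]
    exact Nat.one_lt_pow hk.ne' (Nat.one_lt_pow hf.ne' (Fact.out : p.Prime).one_lt)
  have hx : ∀ x : K, {y : (A →ₐ[K] K) × K | S.Inc q c g y.1 y.2 ∧ y.1 (xA K A) = x}.Finite ∧
      {y : (A →ₐ[K] K) × K | S.Inc q c g y.1 y.2 ∧ y.1 (xA K A) = x}.ncard ≤
        S.d * Fintype.card ι := by
    intro x
    obtain ⟨a1, a2⟩ := pc_pts S x
    have h := pc_fib {y : (A →ₐ[K] K) × K | S.Inc q c g y.1 y.2 ∧ y.1 (xA K A) = x} Prod.fst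
      a1.toFinset S.d (fun y hy => a1.mem_toFinset.2 hy.2) fun θ => by
        obtain ⟨b1, b2⟩ := pc_fp S θ c g
        have hn : S.fp θ c g ≠ 0 := fun e => hc.1 (by rw [← b2, e, coeff_zero])
        have hsub : {a | a ∈ {y : (A →ₐ[K] K) × K | S.Inc q c g y.1 y.2 ∧ y.1 (xA K A) = x} ∧
            a.1 = θ} ⊆ ↑((S.fp θ c g).roots.toFinset.image fun t => (θ, t)) := by
          rintro ⟨θ', t⟩ ⟨hy, rfl⟩
          exact Finset.mem_coe.2 (Finset.mem_image.2
            ⟨t, Multiset.mem_toFinset.2 ((mem_roots hn).2 hy.1.2.2.2.1), rfl⟩)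
        refine ⟨(Finset.finite_toSet _).subset hsub,
          (Set.ncard_le_ncard hsub (Finset.finite_toSet _)).trans ?_⟩
        rw [Set.ncard_coe_finset]
        exact Finset.card_image_le.trans ((Multiset.toFinset_card_le _).trans
          ((card_roots' _).trans b1))
    refine ⟨h.1, h.2.trans (Nat.mul_le_mul_left _ ?_)⟩
    rwa [← Set.ncard_eq_toFinset_card _ a1]
  have hn : (X ^ q - X : K[X]) ≠ 0 := FiniteField.X_pow_card_sub_X_ne_zero K hq1
  have h := pc_fib {y : (A →ₐ[K] K) × K | S.Inc q c g y.1 y.2} (fun y => y.1 (xA K A))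
    (X ^ q - X : K[X]).roots.toFinset (S.d * Fintype.card ι) (fun y hy => by
      rw [Multiset.mem_toFinset, mem_roots hn, IsRoot.def, eval_sub, eval_pow, eval_X, sub_eq_zero]
      exact hy.1) hx
  refine ⟨h.1, h.2.trans (Nat.mul_le_mul_left _ ?_), fun x => (hx x).2⟩
  exact (Multiset.toFinset_card_le _).trans ((card_roots' _).trans
    (FiniteField.X_pow_card_sub_X_natDegree_eq K hq1).le)

end Pool.Agent.MP_a9d3bd_zz
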