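import Pool.Agent.MP_a9d3bd_zz.Spl
import Pool.Agent.MP_a9d3bd_zz.Pc
import Pool.Agent.MP_a9d3bd_zz.ClsC

namespace Pool.Agent.MP_a9d3bd_zz.FinB

open Polynomial Su Finset

open Classical in
/-- a finite set as a finset -/
noncomputable def tf {α : Type} (s : Set α) : Finset α := if h : s.Finite then h.toFinset else ∅

theorem coe_tf {α : Type} {s : Set α} (h : s.Finite) : (tf s : Set α) = s := by simp [tf, h]

theorem mem_tf {α : Type} {s : Set α} (h : s.Finite) {x} : x ∈ tf s ↔ x ∈ s := by simp [tf, h]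

theorem of_mem_tf {α : Type} {s : Set α} {x} (hx : x ∈ tf s) : x ∈ s := by
  by_cases h : s.Finite
  · exact (mem_tf h).1 hx
  · simp [tf, h] at hx

variable {K A ι : Type} [Field K] [CommRing A] [IsDedekindDomain A] [Algebra K A]
  [Algebra K[X] A] [IsScalarTower K K[X] A]
  [Fintype ι] [DecidableEq ι] {m : ℕ} (S : Su K A ι m)

/-- a point of a curve as a point of the surface -/
noncomputable def up (c : K) (g : Fin m × ι → K) (y : (A →ₐ[K] K) × K) :
    ((A →ₐ[K] K) × K) × K := (y, (S.wl y.1 c g).eval y.2)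

/-- the points of a curve -/
noncomputable def on (q : ℕ) (H : K × (Fin m × ι → K)) : Finset (((A →ₐ[K] K) × K) × K) :=
  tf (up S H.1 H.2 '' {y | S.Inc q H.1 H.2 y.1 y.2})

/-- the pencil passes through the point -/
def Th (l : (Fin m × ι → K) × (Fin m × ι → K)) (x : ((A →ₐ[K] K) × K) × K) : Prop :=
  S.Thr x.1.1 x.1.2 l.1 ∧ x.2 = S.c0 * x.1.1 (xA K A) ^ S.M + gam S.e x.1.1 l.2

/-- the base points of a pencil -/
noncomputable def pt (l : (Fin m × ι → K) × (Fin m × ι → K)) : Finset (((A →ₐ[K] K) × K) × K) :=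
  tf {x | Th S l x ∧ MvPolynomial.aeval ![x.1.1 (xA K A), x.1.2, x.2] S.P = 0}

omit [DecidableEq ι] in
theorem up_inj (c : K) (g : Fin m × ι → K) : Function.Injective (up S c g) :=
  fun _ _ h => congrArg Prod.fst h

omit [DecidableEq ι] in
theorem gam_lin (θ : A →ₐ[K] K) (c : K) (g a : Fin m × ι → K) :
    gam S.e θ (fun v => g v + c * a v) = gam S.e θ g + c * gam S.e θ a := by
  simp only [gam, add_mul, sum_add_distrib, mul_sum, mul_assoc]

omit [DecidableEq ι] in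
theorem wl_eval (θ : A →ₐ[K] K) (c t : K) (g : Fin m × ι → K) : (S.wl θ c g).eval t =
    S.c0 * θ (xA K A) ^ S.M + gam S.e θ g + c * (t - θ (xA K A) ^ S.M) := by
  simp [Su.wl]

omit [DecidableEq ι] in
theorem fp_eval (θ : A →ₐ[K] K) (c t : K) (g : Fin m × ι → K) : (S.fp θ c g).eval t =
    MvPolynomial.aeval ![θ (xA K A), t, (S.wl θ c g).eval t] S.P := by
  have := MvPolynomial.comp_aeval_apply ![C (θ (xA K A)), X, S.wl θ c g] (Polynomial.aeval t) S.P
  rw [coe_aeval_eq_eval] at this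
  rw [Su.fp, this]
  congr 2
  ext i
  fin_cases i <;> simp

omit [DecidableEq ι] in
theorem th_up {c : K} {g a : Fin m × ι → K} {x : ((A →ₐ[K] K) × K) × K}
    (h : S.Thr x.1.1 x.1.2 a) : Th S (a, fun v => g v + c * a v) x ↔ x = up S c g x.1 := by
  have h' : x.1.2 - x.1.1 (xA K A) ^ S.M = gam S.e x.1.1 a := by rw [sub_eq_iff_eq_add']; exact h
  rw [Th, and_iff_right h, gam_lin, up, wl_eval, h', add_assoc, Prod.ext_iff]
  simp

omit [DecidableEq ι] in
theorem pt_eq (c : K) (g a : Fin m × ι → K) :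
    pt S (a, fun v => g v + c * a v) = tf (up S c g '' S.pts c g a) := by
  rw [pt]
  congr 1
  ext x
  constructor
  · rintro ⟨h1, h2⟩
    have h3 := (th_up S h1.1).1 h1
    refine ⟨x.1, ⟨h1.1, ?_⟩, h3.symm⟩
    rw [fp_eval, ← h2]
    exact congrArg (fun w => MvPolynomial.aeval ![x.1.1 (xA K A), x.1.2, w] S.P)
      (congrArg Prod.snd h3).symm
  · rintro ⟨y, ⟨h1, h2⟩, rfl⟩
    exact ⟨(th_up S (x := up S c g y) h1).2 rfl, (fp_eval S _ _ _ _).symm.trans h2⟩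

variable [IsAlgClosed K] [Module.Finite K[X] A] [Module.IsTorsionFree K[X] A] {p : ℕ}
  [Fact p.Prime] [CharP K p] {q : ℕ} (hq : S.Qk p q) {c : K} {g : Fin m × ι → K}

include hq

theorem mem_on (h : S.Adm c g) {x} :
    x ∈ on S q (c, g) ↔ S.Inc q c g x.1.1 x.1.2 ∧ x = up S c g x.1 := by
  obtain ⟨B, hB⟩ := pcount S p
  rw [on, mem_tf ((hB q hq c g h).1.image _)]
  constructor
  · rintro ⟨y, hy, rfl⟩
    exact ⟨hy, rfl⟩
  · rintro ⟨h1, h2⟩
    exact ⟨x.1, h1, h2.symm⟩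

theorem mem_pt (hc : Ra q c) (hg : RaV q g) {a} (ha : a ∈ S.Sp q c g) {x} :
    x ∈ pt S (a, fun v => g v + c * a v) ↔ x.1 ∈ S.pts c g a ∧ x = up S c g x.1 := by
  rw [pt_eq, mem_tf ((spl S p hq hc hg ha).1.image _)]
  constructor
  · rintro ⟨y, hy, rfl⟩
    exact ⟨hy, rfl⟩
  · rintro ⟨h1, h2⟩
    exact ⟨x.1, h1, h2.symm⟩

open Classical in
theorem card_pt (hc : Ra q c) (hg : RaV q g) {a} (ha : a ∈ S.Sp q c g)
    (R : (A →ₐ[K] K) × K → Prop) :
    #{x ∈ pt S (a, fun v => g v + c * a v) | R x.1} = {y ∈ S.pts c g a | R y}.ncard := by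
  rw [← Set.ncard_coe_finset, ← Set.ncard_image_of_injective _ (up_inj S c g)]
  congr 1
  ext x
  simp only [coe_filter, mem_pt S hq hc hg ha, Set.mem_ofPred_eq, Set.mem_image]
  constructor
  · rintro ⟨⟨h1, h2⟩, h3⟩
    exact ⟨x.1, ⟨h1, h3⟩, h2.symm⟩
  · rintro ⟨y, ⟨h1, h2⟩, rfl⟩
    exact ⟨⟨h1, rfl⟩, h2⟩

theorem sum_pt (hc : Ra q c) (hg : RaV q g) {a} (ha : a ∈ S.Sp q c g)
    (φ : (A →ₐ[K] K) × K → ℝ) :
    ∑ x ∈ pt S (a, fun v => g v + c * a v), φ x.1 = ∑ᶠ y ∈ S.pts c g a, φ y := by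
  rw [← finsum_mem_coe_finset, pt_eq, coe_tf ((spl S p hq hc hg ha).1.image _),
    finsum_mem_image (up_inj S c g).injOn]
  rfl

end Pool.Agent.MP_a9d3bd_zz.FinB
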