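import Pool.Agent.MP_a9d3bd_zz.Defs

namespace Pool.Agent.MP_a9d3bd_zz

open Polynomial Su Finset

theorem fin_lin {K W : Type} [Field K] [Fintype W] [DecidableEq W] (w a b : W → K) (I : Finset W)
    (h : ∀ v, v ∉ I → a v = b v) :
    ∑ v, a v * w v - ∑ v, b v * w v = ∑ v ∈ I, (a v - b v) * w v := by
  rw [← sum_sub_distrib]
  refine (sum_subset (subset_univ I) fun v _ hv => by rw [h v hv, sub_self]).symm.trans ?_
  exact sum_congr rfl fun v _ => by ring

open Classical in
theorem fin_c1 {K W : Type} [Fintype W] [DecidableEq W] (F : Finset K) (v0 : W)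
    (R : (W → K) → Prop) (h : ∀ a b, R a → R b → (∀ v, v ≠ v0 → a v = b v) → a v0 = b v0) :
    #{a ∈ Fintype.piFinset fun _ : W => F | R a} * #F ≤ #F ^ Fintype.card W := by
  have e : #F ^ Fintype.card W = #(Fintype.piFinset fun _ : W => F) := by simp
  rw [e, ← card_product]
  refine card_le_card_of_injOn (fun z => Function.update z.1 v0 z.2) (fun z hz => ?_)
    fun z hz z' hz' e => ?_
  · obtain ⟨h1, h2⟩ := mem_product.1 (mem_coe.1 hz)
    refine mem_coe.2 (Fintype.mem_piFinset.2 fun v => ?_)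
    by_cases c : v = v0
    · simpa [c] using h2
    · simpa [c] using Fintype.mem_piFinset.1 (mem_filter.1 h1).1 v
  · have k : ∀ v, v ≠ v0 → z.1 v = z'.1 v := fun v c => by simpa [c] using congrFun e v
    refine Prod.ext (funext fun v => ?_) (by simpa using congrFun e v0)
    by_cases c : v = v0
    · rw [c]
      exact h _ _ (mem_filter.1 (mem_product.1 (mem_coe.1 hz)).1).2
        (mem_filter.1 (mem_product.1 (mem_coe.1 hz')).1).2 k
    · exact k v c

open Classical in
theorem fin_c2 {K W : Type} [Fintype W] [DecidableEq W] (F : Finset K) (v0 v1 : W) (n : v0 ≠ v1)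
    (R : (W → K) → Prop) (h : ∀ a b, R a → R b → (∀ v, v ≠ v0 → v ≠ v1 → a v = b v) →
      a v0 = b v0 ∧ a v1 = b v1) :
    #{a ∈ Fintype.piFinset fun _ : W => F | R a} * #F ^ 2 ≤ #F ^ Fintype.card W := by
  have e : #F ^ Fintype.card W = #(Fintype.piFinset fun _ : W => F) := by simp
  rw [e, sq, ← card_product, ← card_product]
  refine card_le_card_of_injOn
    (fun z => Function.update (Function.update z.1 v0 z.2.1) v1 z.2.2) (fun z hz => ?_)
    fun z hz z' hz' e => ?_
  · obtain ⟨h1, h2⟩ := mem_product.1 (mem_coe.1 hz)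
    obtain ⟨h2, h3⟩ := mem_product.1 h2
    refine mem_coe.2 (Fintype.mem_piFinset.2 fun v => ?_)
    by_cases c : v = v1
    · simpa [c] using h3
    by_cases c' : v = v0
    · simpa [c', n] using h2
    · simpa [c, c'] using Fintype.mem_piFinset.1 (mem_filter.1 h1).1 v
  · have k : ∀ v, v ≠ v0 → v ≠ v1 → z.1 v = z'.1 v := fun v c c' => by
      simpa [c, c'] using congrFun e v
    have k' := h _ _ (mem_filter.1 (mem_product.1 (mem_coe.1 hz)).1).2
      (mem_filter.1 (mem_product.1 (mem_coe.1 hz')).1).2 k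
    refine Prod.ext (funext fun v => ?_)
      (Prod.ext (by simpa [n] using congrFun e v0) (by simpa using congrFun e v1))
    by_cases c : v = v0
    · rw [c]
      exact k'.1
    by_cases c' : v = v1
    · rw [c']
      exact k'.2
    · exact k v c c'

variable {K A ι : Type} [Field K] [CommRing A] [IsDomain A] [Algebra K A]
  [Algebra K[X] A] [IsScalarTower K K[X] A] [Fintype ι] [DecidableEq ι] {m : ℕ} (S : Su K A ι m)

theorem fin_dif {θ : A →ₐ[K] K} {t : K} {a b : Fin m × ι → K} (ha : S.Thr θ t a)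
    (hb : S.Thr θ t b) (I : Finset (Fin m × ι)) (h : ∀ v, v ∉ I → a v = b v) :
    ∑ v ∈ I, (a v - b v) * (θ (xA K A) ^ (v.1 : ℕ) * θ (S.e v.2)) = 0 := by
  rw [← fin_lin _ a b I h]
  exact sub_eq_zero.2 (add_left_cancel (ha.symm.trans hb))

open Classical in
theorem thr1 (F : Finset K) (θ : A →ₐ[K] K) (t : K) :
    #{a ∈ Fintype.piFinset fun _ : Fin m × ι => F | S.Thr θ t a} * #F ≤
      #F ^ Fintype.card (Fin m × ι) := by
  have hm := S.hm
  convert fin_c1 F ((⟨0, by omega⟩, S.j0) : Fin m × ι) (S.Thr θ t) fun a b ha hb h => ?_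
  have := fin_dif S ha hb {((⟨0, by omega⟩, S.j0) : Fin m × ι)} fun v hv => h v (by simpa using hv)
  simpa [S.he0, sub_eq_zero] using this

open Classical in
theorem thr2 (F : Finset K) (θ θ2 : A →ₐ[K] K) (t t2 : K) (hx : θ (xA K A) ≠ θ2 (xA K A)) :
    #{a ∈ Fintype.piFinset fun _ : Fin m × ι => F | S.Thr θ t a ∧ S.Thr θ2 t2 a} * #F ^ 2 ≤
      #F ^ Fintype.card (Fin m × ι) := by
  have hm := S.hm
  have n : ((⟨0, by omega⟩, S.j0) : Fin m × ι) ≠ (⟨1, by omega⟩, S.j0) := by simp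
  convert fin_c2 F _ _ n (fun a => S.Thr θ t a ∧ S.Thr θ2 t2 a) fun a b ha hb h => ?_
  have k : ∀ v, v ∉ ({(⟨0, by omega⟩, S.j0), (⟨1, by omega⟩, S.j0)} : Finset (Fin m × ι)) →
      a v = b v := fun v hv => by
    rw [mem_insert, mem_singleton, not_or] at hv
    exact h v hv.1 hv.2
  have h1 := fin_dif S ha.1 hb.1 _ k
  have h2 := fin_dif S ha.2 hb.2 _ k
  rw [sum_pair n] at h1 h2
  simp only [S.he0, map_one, pow_zero, pow_one, mul_one] at h1 h2
  have h3 : (a (⟨1, by omega⟩, S.j0) - b (⟨1, by omega⟩, S.j0)) * (θ (xA K A) - θ2 (xA K A)) = 0 := by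
    linear_combination h1 - h2
  have h4 := (mul_eq_zero.1 h3).resolve_right (sub_ne_zero.2 hx)
  rw [h4, zero_mul, add_zero] at h1
  exact ⟨sub_eq_zero.1 h1, sub_eq_zero.1 h4⟩

end Pool.Agent.MP_a9d3bd_zz
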