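import Pool.Agent.MP_a9d3bd_zz.FinA
import Pool.Agent.MP_a9d3bd_zz.FinB
import Pool.Agent.MP_a9d3bd_zz.FinC

namespace Pool.Agent.MP_a9d3bd_zz.FinB

open Polynomial Su Finset

variable {K A ι : Type} [Field K] [CommRing A] [IsDedekindDomain A] [Algebra K A]
  [Algebra K[X] A] [IsScalarTower K K[X] A]
  [Fintype ι] [DecidableEq ι] {m : ℕ} (S : Su K A ι m)

/-- rational coordinates -/
noncomputable def gd (ι : Type) [Fintype ι] [DecidableEq ι] (m : ℕ) (F : Finset K) :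
    Finset (Fin m × ι → K) := Fintype.piFinset fun _ => F

open Classical in
/-- active curves -/
noncomputable def GG (q : ℕ) (F : Finset K) : Finset (K × (Fin m × ι → K)) :=
  (F ×ˢ gd ι m F).filter fun H => S.Act q H.1 H.2

open Classical in
/-- split pencils -/
noncomputable def SP (q : ℕ) (F : Finset K) : Finset ((Fin m × ι → K) × (Fin m × ι → K)) :=
  (gd ι m F ×ˢ gd ι m F).filter fun l => Spl q (S.Nf l.1 l.2)

open Classical in
/-- members of a pencil -/
noncomputable def mm (F : Finset K) (l : (Fin m × ι → K) × (Fin m × ι → K)) :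
    Finset (K × (Fin m × ι → K)) := F.image fun c => (c, fun v => l.2 v - c * l.1 v)

theorem mem_mm {F : Finset K} {l : (Fin m × ι → K) × (Fin m × ι → K)} {c : K}
    {g : Fin m × ι → K} : (c, g) ∈ mm F l ↔ c ∈ F ∧ l = (l.1, fun v => g v + c * l.1 v) := by
  simp only [mm, mem_image, Prod.mk.injEq, Prod.ext_iff, true_and, funext_iff]
  constructor
  · rintro ⟨c', h1, rfl, h2⟩
    exact ⟨h1, fun v => by rw [← h2 v]; ring⟩
  · rintro ⟨h1, h2⟩
    exact ⟨c, h1, rfl, fun v => by rw [h2 v]; ring⟩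

variable {q : ℕ} {F : Finset K} (hF : ∀ x, x ∈ F ↔ Ra q x)

include hF

theorem mem_gd {a : Fin m × ι → K} : a ∈ gd ι m F ↔ RaV q a := by
  simp only [gd, Fintype.mem_piFinset, hF, RaV]

theorem mem_GG {c : K} {g : Fin m × ι → K} : (c, g) ∈ GG S q F ↔ S.Act q c g := by
  simp only [GG, mem_filter, mem_product, hF, mem_gd hF]
  exact ⟨fun h => h.2, fun h => ⟨⟨h.1, h.2.1⟩, h⟩⟩

theorem sp_of {l} (hl : l ∈ SP S q F) {c : K} {g : Fin m × ι → K} (h : (c, g) ∈ mm F l) :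
    l.1 ∈ S.Sp q c g := by
  simp only [SP, mem_filter, mem_product, mem_gd hF] at hl
  rw [(mem_mm.1 h).2] at hl
  exact ⟨hl.1.1, hl.2⟩

variable [IsAlgClosed K] [Module.Finite K[X] A] [Module.IsTorsionFree K[X] A] {p : ℕ}
  [Fact p.Prime] [CharP K p] (hq : S.Qk p q)

include hq

omit hF [IsAlgClosed K] [Module.Finite K[X] A] [Module.IsTorsionFree K[X] A] [DecidableEq ι] in
theorem ra_lin {x y z : K} (hx : Ra q x) (hy : Ra q y) (hz : Ra q z) :
    Ra q (x + y * z) ∧ Ra q (x - y * z) ∧ Ra q ((x - y) / z) ∧ Ra q (x - y) := by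
  obtain ⟨f, k, -, -, h1, h2⟩ := hq
  rw [h1, ← pow_mul] at h2
  subst h2
  simp only [Ra] at *
  simp only [add_pow_char_pow, sub_pow_char_pow, mul_pow, div_pow, hx, hy, hz, and_self]

open Classical in
theorem cnt_eq {c : K} {g : Fin m × ι → K} (h : S.Act q c g) {k : ℕ}
    (y : Fin k → ((A →ₐ[K] K) × K) × K) (hy : ∀ i, y i ∈ on S q (c, g)) :
    #{l ∈ (SP S q F).filter fun l => (c, g) ∈ mm F l | ∀ i, y i ∈ pt S l} =
      S.cnt q c g fun i => (y i).1 := by
  rw [Su.cnt, ← Set.ncard_coe_finset]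
  have key : ∀ a ∈ S.Sp q c g, (∀ i, y i ∈ pt S (a, fun v => g v + c * a v)) ↔
      ∀ i, S.Thr (y i).1.1 (y i).1.2 a := fun a ha => forall_congr' fun i => by
    have := (mem_on S hq h.2.2.1).1 (hy i)
    rw [mem_pt S hq h.1 h.2.1 ha, and_iff_left this.2]
    exact and_iff_left this.1.2.2.2.1
  refine Set.ncard_congr (fun l _ => l.1) ?_ ?_ ?_
  · intro l hl
    simp only [coe_filter, mem_filter, Set.mem_ofPred_eq] at hl
    have ha := sp_of S hF hl.1.1 hl.1.2
    exact ⟨ha, (key _ ha).1 ((mem_mm.1 hl.1.2).2 ▸ hl.2)⟩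
  · intro l l' hl hl' e
    simp only [coe_filter, mem_filter, Set.mem_ofPred_eq] at hl hl'
    rw [(mem_mm.1 hl.1.2).2, (mem_mm.1 hl'.1.2).2, e]
  · rintro a ⟨ha, h2⟩
    refine ⟨(a, fun v => g v + c * a v), ?_, rfl⟩
    simp only [coe_filter, mem_filter, Set.mem_ofPred_eq, SP, mem_product, mem_gd hF]
    exact ⟨⟨⟨⟨ha.1, fun v => (ra_lin S hq (h.2.1 v) h.1 (ha.1 v)).1⟩, ha.2⟩,
      mem_mm.2 ⟨(hF _).2 h.1, rfl⟩⟩, (key a ha).2 h2⟩

open Classical in
theorem radonX (r : ℝ) (hr : ∀ θ t, (#{a ∈ gd ι m F | S.Thr θ t a} : ℝ) ≤ r)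
    (x : ((A →ₐ[K] K) × K) × K) (f : K × (Fin m × ι → K) → ℝ)
    (hs : ∀ H, f H ≠ 0 → H ∈ GG S q F ∧ x ∈ on S q H) (h0 : ∑ H ∈ GG S q F, f H = 0) :
    ∑ l ∈ SP S q F with x ∈ pt S l, (∑ H ∈ mm F l, f H) ^ 2 ≤ r * ∑ H ∈ GG S q F, f H ^ 2 := by
  have r0 : 0 ≤ r := (Nat.cast_nonneg _).trans (hr x.1.1 x.1.2)
  have hw : ∀ c g, (c, g) ∈ (GG S q F).filter (fun H => x ∈ on S q H) →
      S.Act q c g ∧ x = up S c g x.1 := fun c g h => by
    rw [mem_filter, mem_GG S hF] at h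
    exact ⟨h.1, ((mem_on S hq h.1.2.2.1).1 h.2).2⟩
  have key := FinA.radon_abs ((gd ι m F ×ˢ gd ι m F).filter fun l => Th S l x)
    ((GG S q F).filter fun H => x ∈ on S q H) (mm F) Prod.fst r f
    (fun H h => mem_filter.2 (hs H h)) (by rw [sum_filter_of_ne fun H _ h => (hs H h).2, h0])
    (by
      rintro ⟨c, g⟩ -
      refine le_trans (Nat.cast_le.2 (card_le_card_of_injOn Prod.fst ?_ ?_)) (hr x.1.1 x.1.2)
      · intro l hl
        simp only [coe_filter, mem_filter, Set.mem_ofPred_eq, mem_product] at hl ⊢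
        exact ⟨hl.1.1.1, hl.1.2.1⟩
      · intro l hl l' hl' e
        simp only [coe_filter, mem_filter, Set.mem_ofPred_eq] at hl hl'
        rw [(mem_mm.1 hl.2).2, (mem_mm.1 hl'.2).2, e])
    (by
      rintro ⟨c, g⟩ h ⟨c', g'⟩ h' hne
      obtain ⟨a1, e1⟩ := hw c g h
      obtain ⟨a2, e2⟩ := hw c' g' h'
      have uq : ∀ l, (c, g) ∈ mm F l → (c', g') ∈ mm F l →
          ∀ v, g v + c * l.1 v = g' v + c' * l.1 v := fun l h1 h2 v =>
        congrFun (congrArg Prod.snd ((mem_mm.1 h1).2.symm.trans (mem_mm.1 h2).2)) v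
      split_ifs with hc
      · rw [card_eq_zero, filter_eq_empty_iff]
        rintro l - ⟨h1, h2⟩
        obtain rfl : c = c' := hc
        exact hne (Prod.ext rfl (funext fun v => add_right_cancel (uq l h1 h2 v)))
      have hc' : c' - c ≠ 0 := sub_ne_zero.2 (Ne.symm hc)
      set a : Fin m × ι → K := fun v => (g v - g' v) / (c' - c) with ha
      have e3 : (fun v => g v + c * a v) = fun v => g' v + c' * a v := by
        ext v
        rw [ha]
        field_simp
        ring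
      have ra : RaV q a := fun v =>
        (ra_lin S hq (a1.2.1 v) (a2.2.1 v) (ra_lin S hq a2.1 a1.1 a1.1).2.2.2).2.2.1
      have th : S.Thr x.1.1 x.1.2 a := by
        have h1 := congrArg Prod.snd (e1.symm.trans e2)
        have h2 := congrArg (gam S.e x.1.1) e3
        simp only [up, wl_eval] at h1
        rw [gam_lin, gam_lin] at h2
        rw [Su.Thr, ← sub_eq_iff_eq_add']
        refine mul_left_cancel₀ hc' ?_
        linear_combination -h1 + h2
      rw [card_eq_one]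
      refine ⟨(a, fun v => g v + c * a v), eq_singleton_iff_unique_mem.2 ⟨?_, ?_⟩⟩
      · simp only [mem_filter, mem_product, mem_gd hF]
        exact ⟨⟨⟨ra, fun v => (ra_lin S hq (a1.2.1 v) a1.1 (ra v)).1⟩, (th_up S th).2 e1⟩,
          mem_mm.2 ⟨(hF _).2 a1.1, rfl⟩, mem_mm.2 ⟨(hF _).2 a2.1, by rw [e3]⟩⟩
      · intro l hl
        rw [mem_filter] at hl
        have : l.1 = a := funext fun v => by
          rw [ha, eq_div_iff hc']
          linear_combination -uq l hl.2.1 hl.2.2 v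
        rw [(mem_mm.1 hl.2.1).2, this])
  refine le_trans (sum_le_sum_of_subset_of_nonneg (fun l hl => ?_) fun _ _ _ => sq_nonneg _)
    (key.trans (mul_le_mul_of_nonneg_left (sum_le_sum_of_subset_of_nonneg (filter_subset _ _)
      fun _ _ _ => sq_nonneg _) r0))
  rw [mem_filter] at hl ⊢
  exact ⟨(mem_filter.1 hl.1).1, (of_mem_tf hl.2).1⟩

end Pool.Agent.MP_a9d3bd_zz.FinB
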