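import Pool.Agent.MP_a9d3bd_zz.Defs
import Pool.Agent.MP_a9d3bd_g.ACT2

namespace Pool.Agent.MP_a9d3bd_zz

open Polynomial MP_a9d3bd_g

variable {K : Type} [Field K]

theorem ct2_bij (φ : K →+* K) {e M : ℕ} (J : Finset K) (hM : M + J.card = e)
    (hJ : ∀ r ∈ J, φ r = r) {b : K[X]} (hbe : b.degree < e) (hφ : b.map φ = b) (Q : K[X] → Prop) :
    {t : Fin e → K | (∀ i, φ (t i) = t i) ∧ (∀ r ∈ J, (CT_gm t).eval r = b.eval r) ∧
        Q (CT_gm t)}.ncard =
      {t : Fin M → K | (∀ i, φ (t i) = t i) ∧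
        Q (b + (∏ r ∈ J, (X - C r)) * CT_gm t)}.ncard := by
  set w : K[X] := ∏ r ∈ J, (X - C r) with hw
  have hwm : w.Monic := monic_prod_of_monic _ _ fun r _ => monic_X_sub_C r
  have hwd : w.degree = J.card := by
    rw [degree_eq_natDegree hwm.ne_zero, hw, natDegree_finsetProd_X_sub_C_eq_card]
  have hwφ : w.map φ = w := CT_w_map hJ
  have i2 : Function.Injective fun t : Fin M → K => b + w * CT_gm t := fun t t' h =>
    CT_gm_inj (mul_left_cancel₀ hwm.ne_zero (add_left_cancel h))
  rw [← Set.ncard_image_of_injective _ CT_gm_inj, ← Set.ncard_image_of_injective _ i2]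
  congr 1
  ext P
  constructor
  · rintro ⟨t, ⟨h1, h2, h3⟩, rfl⟩
    obtain ⟨g, hg⟩ : w ∣ CT_gm t - b := by
      refine CT_dvd (A := K) _ fun r hr => ?_
      simpa [sub_eq_zero] using h2 r hr
    have hd : g.degree < M := by
      have h5 : (w * g).degree < e := hg ▸ (degree_sub_le _ _).trans_lt (max_lt (CT_gm_deg t) hbe)
      rw [degree_mul, hwd, ← hM, add_comm M, Nat.cast_add] at h5
      exact lt_of_add_lt_add_left h5
    have hP : b + w * CT_gm (fun k : Fin M => g.coeff k) = CT_gm t := by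
      rw [CT_gm_self hd, ← hg]
      ring
    refine ⟨fun k => g.coeff k, ⟨(CT_gm_rat φ _).1 ?_, hP ▸ h3⟩, hP⟩
    rw [CT_gm_self hd]
    refine mul_left_cancel₀ hwm.ne_zero ?_
    rw [← hg, ← hwφ, ← Polynomial.map_mul, ← hg, Polynomial.map_sub, hφ, (CT_gm_rat φ t).2 h1]
  · rintro ⟨t, ⟨h1, h3⟩, rfl⟩
    have hd : (b + w * CT_gm t).degree < e := by
      refine (degree_add_le _ _).trans_lt (max_lt hbe ?_)
      rw [degree_mul, hwd, ← hM, add_comm M, Nat.cast_add]
      exact WithBot.add_lt_add_left (WithBot.natCast_ne_bot _) (CT_gm_deg t)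
    have hP : CT_gm (fun k : Fin e => (b + w * CT_gm t).coeff k) = b + w * CT_gm t :=
      CT_gm_self hd
    refine ⟨fun k => (b + w * CT_gm t).coeff k, ⟨(CT_gm_rat φ _).1 ?_, fun r hr => ?_,
      (congrArg Q hP).mpr h3⟩, hP⟩
    · rw [CT_gm_self hd, Polynomial.map_add, Polynomial.map_mul, hφ, hwφ, (CT_gm_rat φ t).2 h1]
    · have : w.eval r = 0 := by
        rw [hw, eval_prod]
        exact Finset.prod_eq_zero hr (by simp)
      rw [hP, eval_add, eval_mul, this, zero_mul, add_zero]

theorem ct2_td {σ τ : Type} {g : σ → MvPolynomial τ K} (hg : ∀ i, (g i).totalDegree ≤ 1)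
    (P : MvPolynomial σ K) : (MvPolynomial.aeval g P).totalDegree ≤ P.totalDegree := by
  rw [MvPolynomial.aeval_def, MvPolynomial.eval₂_eq]
  refine MvPolynomial.totalDegree_finsetSum_le fun d hd => ?_
  refine (MvPolynomial.totalDegree_mul _ _).trans ?_
  rw [MvPolynomial.algebraMap_eq, MvPolynomial.totalDegree_C, zero_add]
  refine (MvPolynomial.totalDegree_finsetProd _ _).trans
    (le_trans ?_ (MvPolynomial.le_totalDegree hd))
  exact Finset.sum_le_sum fun i _ => (MvPolynomial.totalDegree_pow _ _).trans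
    (by simpa using Nat.mul_le_mul_left (d i) (hg i))

theorem ct2_tdvd {σ : Type} {D : ℕ} {F G : (MvPolynomial σ K)[X]} (hF : F ≠ 0) (h : CT_TD D F)
    (hG : G ∣ F) : CT_TD (D + F.natDegree) G := by
  intro a
  set e := MvPolynomial.optionEquivLeft K σ
  have hC : ∀ c : MvPolynomial σ K, e.symm (C c) = MvPolynomial.rename some c := fun c => by
    induction c using MvPolynomial.induction_on with
    | C r => simp [e]
    | add p q hp hq => rw [C_add, map_add, hp, hq, map_add]
    | mul_X p i hp => rw [C_mul, map_mul, hp, map_mul]; simp [e]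
  have h1 : (e.symm F).totalDegree ≤ D + F.natDegree := by
    conv_lhs => rw [F.as_sum_range_C_mul_X_pow, map_sum]
    refine MvPolynomial.totalDegree_finsetSum_le fun i hi => ?_
    rw [map_mul, map_pow, hC]
    refine (MvPolynomial.totalDegree_mul _ _).trans (add_le_add
      ((MvPolynomial.totalDegree_rename_le _ _).trans (h i)) ?_)
    refine (MvPolynomial.totalDegree_pow _ _).trans ?_
    have := Finset.mem_range.1 hi
    simp only [e, MvPolynomial.optionEquivLeft_symm_X, MvPolynomial.totalDegree_X]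
    omega
  have h2 := MvPolynomial.totalDegree_le_of_dvd_of_isDomain (map_dvd e.symm hG)
    ((map_ne_zero_iff _ e.symm.injective).2 hF)
  have h3 := MvPolynomial.totalDegree_coeff_optionEquivLeft_le K σ (e.symm G) a
  rw [AlgEquiv.apply_symm_apply] at h3
  exact h3.trans (h2.trans h1)

theorem ct2_spl {q : ℕ} {N : K[X]} (hN : N.Monic) : Spl q N ↔ MP_a9d3bd_g.Spl q N.natDegree N := by
  classical
  constructor
  · intro h
    have e : {x | Ra q x ∧ N.IsRoot x} = ↑(N.roots.toFinset.filter fun x => x ^ q = x) := by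
      ext x
      simp [Ra, hN.ne_zero, and_comm]
    rw [Spl, e, Set.ncard_coe_finset] at h
    refine ⟨_, h, fun x hx => (Finset.mem_filter.1 hx).2, 1, one_ne_zero, ?_⟩
    rw [C_1, one_mul]
    refine eq_of_monic_of_dvd_of_natDegree_le
      (monic_prod_of_monic _ _ fun r _ => monic_X_sub_C r) hN (CT_dvd (A := K) _ fun r hr => ?_) ?_
    · have := (Finset.mem_filter.1 hr).1
      simpa [hN.ne_zero] using this
    · rw [natDegree_finsetProd_X_sub_C_eq_card, h]
  · rintro ⟨s, h1, h2, c, hc, h3⟩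
    have e : {x | Ra q x ∧ N.IsRoot x} = ↑s := by
      ext x
      rw [h3]
      simp only [Set.mem_ofPred_eq, IsRoot, eval_mul, eval_C, eval_prod, mul_eq_zero, hc, false_or,
        Finset.prod_eq_zero_iff, eval_sub, eval_X, sub_eq_zero, Finset.mem_coe]
      exact ⟨fun ⟨_, r, hr, e⟩ => e ▸ hr, fun hx => ⟨h2 x hx, x, hx, rfl⟩⟩
    rw [Spl, e, Set.ncard_coe_finset, h1]

theorem ct2_two {ι : Type} [Fintype ι] [DecidableEq ι] {H : ι → K[X][X]} {x y : K} {i j : ι}
    (hi : (H i).evalEval x y = 0) (hj : (H j).evalEval x y = 0) (h : Grd (∏ i, H i) x y) :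
    i = j := by
  refine h.elim (CT_two hi hj) fun h => ?_
  by_contra hij
  refine h ?_
  rw [← Finset.mul_prod_erase _ _ (Finset.mem_univ i),
    ← Finset.mul_prod_erase _ _ (Finset.mem_erase.2 ⟨Ne.symm hij, Finset.mem_univ j⟩)]
  have hi' : ((H i).eval (C y)).eval x = 0 := hi
  have hj' : ((H j).eval (C y)).eval x = 0 := hj
  simp only [eval_mul, derivative_mul, eval_add, hi', hj', zero_mul, mul_zero, add_zero]

theorem ct2_ne {M : ℕ} (hM : 0 < M) {H : K[X][X]} {a : K[X]} {J : Finset K} {c : K}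
    {h : (MvPolynomial (Fin M) K)[X]}
    (hh : ∀ t : Fin M → K, H.eval (a + (∏ r ∈ J, (X - C r)) * CT_gm t) =
      C c * (∏ r ∈ J, (X - C r)) * h.map (MvPolynomial.eval t)) {r : K} (hr : r ∈ J)
    (hd : Grd H r (a.eval r)) : h.eval (MvPolynomial.C r) ≠ 0 := by
  intro h0
  have hy : (derivative H).evalEval r (a.eval r) = 0 := by
    by_contra hy
    exact CT_ne hM hh hr hy h0
  refine hd.elim (fun h => h hy) fun hx => hx ?_
  have h1 : ∀ t : Fin M → K, (h.map (MvPolynomial.eval t)).eval r = 0 := fun t => by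
    have := eval_map_apply (p := h) (MvPolynomial.eval t) (MvPolynomial.C r)
    rw [h0] at this
    simpa using this
  have h2 := hh fun k => (0 : K[X]).coeff k
  rw [CT_gm_self (by simp), mul_zero, add_zero] at h2
  have hw : (∏ r ∈ J, (X - C r)).eval r = 0 := by
    rw [eval_prod]
    exact Finset.prod_eq_zero hr (by simp)
  have h3 : (derivative (H.eval a)).eval r = 0 := by
    rw [h2]
    simp only [derivative_mul, eval_add, eval_mul, h1, hw, mul_zero, zero_mul, add_zero]
  obtain ⟨k, hk⟩ := binomExpansion H (C (a.eval r)) (a - C (a.eval r))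
  rw [add_sub_cancel] at hk
  have hz : (a - C (a.eval r)).eval r = 0 := by simp
  have hy' : ((derivative H).eval (C (a.eval r))).eval r = 0 := hy
  rw [hk, sq] at h3
  simpa only [derivative_add, derivative_mul, eval_add, eval_mul, hz, hy', mul_zero, zero_mul,
    add_zero] using h3

theorem ct2_sub {m M' : ℕ} (M : ℕ) (H : K[X][X]) {β : (MvPolynomial (Fin M') K)[X]}
    (hβ : β.degree < m) :
    (grf M H (MvPolynomial.X : Fin m → MvPolynomial (Fin m) K)).map
      (MvPolynomial.aeval fun l : Fin m => β.coeff l).toRingHom =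
      (H.map (mapRingHom MvPolynomial.C)).eval (X ^ M + β) := by
  set σ := (MvPolynomial.aeval (R := K) fun l : Fin m => β.coeff l).toRingHom with hσ
  have hcm : σ.comp (algebraMap K (MvPolynomial (Fin m) K)) = MvPolynomial.C :=
    RingHom.ext fun a => by simp [hσ]
  rw [grf, eval_map, eval_map]
  refine (hom_eval₂ H (mapRingHom _) (mapRingHom σ) _).trans ?_
  rw [mapRingHom_comp, hcm, coe_mapRingHom, Polynomial.map_add]
  congr 2
  · simp
  · refine (CT_gm_map _ σ).trans ?_
    simpa [hσ] using CT_gm_self hβ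

open Classical in
theorem ct2_h (φ : K →+* K) {m M' : ℕ} (M : ℕ) (H : K[X][X])
    (hm : (grf M H (MvPolynomial.X : Fin m → MvPolynomial (Fin m) K)).Monic)
    (hr : (grf M H (MvPolynomial.X : Fin m → MvPolynomial (Fin m) K)).map (MvPolynomial.map φ) =
      grf M H MvPolynomial.X) (J : Finset K) (hJ : ∀ r ∈ J, φ r = r) {b : K[X]} (hφ : b.map φ = b)
    (hβ : (b.map MvPolynomial.C + (∏ r ∈ J, (X - C (MvPolynomial.C r))) * CT_gm MvPolynomial.X :
      (MvPolynomial (Fin M') K)[X]).degree < m) :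
    ∃ h : (MvPolynomial (Fin M') K)[X], h.Monic ∧
      (H.map (mapRingHom (MvPolynomial.C : K →+* MvPolynomial (Fin M') K))).eval
        ((X ^ M + b).map MvPolynomial.C + (∏ r ∈ J, (X - C (MvPolynomial.C r))) *
          CT_gm MvPolynomial.X) =
      C (MvPolynomial.C 1) * (∏ r ∈ J.filter (fun r => H.evalEval r ((X ^ M + b).eval r) = 0),
        (X - C (MvPolynomial.C r))) * h ∧
      h.natDegree + (J.filter (fun r => H.evalEval r ((X ^ M + b).eval r) = 0)).card =
        (grf M H (MvPolynomial.X : Fin m → MvPolynomial (Fin m) K)).natDegree ∧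
      h.map (MvPolynomial.map φ) = h := by
  set A := MvPolynomial (Fin M') K
  set J' := J.filter (fun r => H.evalEval r ((X ^ M + b).eval r) = 0) with hJ'
  set w : A[X] := ∏ r ∈ J, (X - C (MvPolynomial.C r)) with hw
  set w' : A[X] := ∏ r ∈ J', (X - C (MvPolynomial.C r)) with hw'
  set α : A[X] := (X ^ M + b).map MvPolynomial.C + w * CT_gm MvPolynomial.X with hα
  set F : A[X] := (H.map (mapRingHom MvPolynomial.C)).eval α with hF
  have hwm' : w'.Monic := monic_prod_of_monic _ _ fun r _ => monic_X_sub_C _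
  have hα' : α = X ^ M + (b.map MvPolynomial.C + w * CT_gm MvPolynomial.X) := by
    simp [hα, add_assoc]
  have hs := ct2_sub M H hβ
  rw [← hα', ← hF] at hs
  have hFm : F.Monic := hs ▸ hm.map _
  have hFd : F.natDegree = _ := hs ▸ hm.natDegree_map _
  obtain ⟨G, hG⟩ : w' ∣ F := by
    refine CT_dvd (A := A) J' fun r hr => ?_
    obtain ⟨h1, h2⟩ := Finset.mem_filter.1 hr
    have h3 : α.eval (MvPolynomial.C r) = MvPolynomial.C ((X ^ M + b).eval r) := by
      rw [hα, eval_add, eval_mul, hw, eval_prod, Finset.prod_eq_zero h1 (by simp), zero_mul,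
        add_zero, eval_map_apply]
    change F.eval (MvPolynomial.C r) = 0
    rw [hF, CT_ev, h3, map_mapRingHom_evalEval, h2, map_zero]
  have hmon : G.Monic := hwm'.of_mul_monic_left (hG ▸ hFm)
  refine ⟨G, hmon, by rw [hG]; simp, ?_, ?_⟩
  · rw [← hFd, hG, hwm'.natDegree_mul hmon, hw', natDegree_finsetProd_X_sub_C_eq_card, add_comm]
  · have hww : ∀ I : Finset K, I ⊆ J → (∏ r ∈ I, (X - C (MvPolynomial.C r)) : A[X]).map
        (MvPolynomial.map φ) = ∏ r ∈ I, (X - C (MvPolynomial.C r)) := fun I hI => by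
      rw [Polynomial.map_prod]
      exact Finset.prod_congr rfl fun r hr => by simp [hJ r (hI hr)]
    have hcm : (MvPolynomial.map φ : A →+* A).comp MvPolynomial.C = MvPolynomial.C.comp φ :=
      RingHom.ext fun a => by simp
    have h1 : (b.map MvPolynomial.C + w * CT_gm MvPolynomial.X : A[X]).map (MvPolynomial.map φ) =
        b.map MvPolynomial.C + w * CT_gm MvPolynomial.X := by
      rw [Polynomial.map_add, Polynomial.map_mul, hww J le_rfl, CT_gm_map, Polynomial.map_map,
        hcm, ← Polynomial.map_map, hφ]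
      simp [hw]
    have h2 : F.map (MvPolynomial.map φ) = F := by
      conv_rhs => rw [← hs, ← hr]
      rw [← hs, Polynomial.map_map, Polynomial.map_map]
      congr 1
      refine MvPolynomial.ringHom_ext (fun r => by simp) fun l => ?_
      have := congrArg (coeff · l) h1
      simp only [coeff_map] at this
      simpa using this
    rw [hG, Polynomial.map_mul, hww J' (Finset.filter_subset _ _)] at h2
    exact mul_left_cancel₀ hwm'.ne_zero h2

end Pool.Agent.MP_a9d3bd_zz
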