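import Pool.Agent.MP_a9d3bd_zz.Defs
import Pool.Agent.MP_a9d3bd_g.GAL

namespace Pool.Agent.MP_a9d3bd_g.Gx

open Polynomial

variable {K : Type} [Field K]

structure gal2_Dat {M : ℕ} {ι : Type} [Fintype ι] (H : ι → K[X][X]) (J : Finset K) (a : K[X])
    (h : ι → (MP M K)[X]) (u : ι → K[X]) : Prop where
  crv : Crv H
  mon : ∀ i, (h i).Monic
  eq : ∀ i, sub (H i) a (wJ J) (MvPolynomial.X : Fin M → MP M K) =
    (u i).map (algebraMap K (MP M K)) * h i
  u0 : ∀ i, ∀ r ∈ J, (H i).evalEval r (a.eval r) = 0 → (u i).eval r = 0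
  u1 : ∀ i r, r ∉ J → (u i).eval r ≠ 0
  smo : ∀ r ∈ J, (∏ i, H i).evalEval r (a.eval r) = 0 →
    MP_a9d3bd_zz.Grd (∏ i, H i) r (a.eval r)

def gal2_NJ_st : Prop := ∀ (K W : Type) [Field K] [Field W] [Algebra K W] (P : K[X][X])
  (a w U : K[X]) (J : Finset K) (M : ℕ) (t : Fin M → W) (f : W[X]), 1 ≤ M →
  AlgebraicIndependent K t → (∀ r ∈ J, w.eval r ≠ 0) →
  (∀ r ∈ J, P.evalEval r (a.eval r) = 0 →
    MP_a9d3bd_zz.Grd P r (a.eval r) ∧ U.eval r = 0) →
  sub P a (wJ J * w) t = U.map (algebraMap K W) * f → ∀ z, f.eval z = 0 → aeval z (wJ J) ≠ 0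

def gal2_SEPH_st : Prop := ∀ (K ι : Type) [Field K] [Fintype ι] (M : ℕ) (H : ι → K[X][X])
  (J : Finset K) (a : K[X]) (h : ι → (MP M K)[X]) (u : ι → K[X]), gal2_Dat H J a h u → 2 ≤ M →
  ((∏ i, h i).map (algebraMap (MP M K) (FP M K))).Separable ∧
  ∀ (L : Type) [Field L] [Algebra K L] [Algebra (MP M K) L] [IsScalarTower K (MP M K) L],
    Function.Injective (algebraMap (MP M K) L) → ∀ i z,
    ((h i).map (algebraMap (MP M K) L)).eval z = 0 → aeval z (wJ J) ≠ 0 ∧
      (sub (H i) a (wJ J) fun k => algebraMap (MP M K) L (MvPolynomial.X k)).eval z = 0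

def gal2_TG2_st : Prop := ∀ (K ι : Type) [Field K] [Fintype ι] (H : ι → K[X][X]) (J : Finset K)
  (b U : K[X]) (x : K) (g : (MP 2 K)[X]), Crv H → x ∉ J →
  (derivative (∏ i, H i)).evalEval x (b.eval x) ≠ 0 →
  (∀ r ∈ J, (∏ i, H i).evalEval r (b.eval r) = 0 →
    MP_a9d3bd_zz.Grd (∏ i, H i) r (b.eval r) ∧ U.eval r = 0) →
  sub (∏ i, H i) b (wJ J * (X - C x) ^ 2) (MvPolynomial.X : Fin 2 → MP 2 K) =
    U.map (algebraMap K (MP 2 K)) * ((X - C (MvPolynomial.C x)) * g) →
  (g.map (algebraMap (MP 2 K) (FP 2 K))).Separable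

def gal2_TANG_st : Prop := ∀ (K ι : Type) [Field K] [IsAlgClosed K] [Fintype ι] (M : ℕ)
  (H : ι → K[X][X]) (J : Finset K) (a : K[X]) (h : ι → (MP M K)[X]) (u : ι → K[X]),
  gal2_Dat H J a h u → 4 ≤ M → ∀ i, ∃ (t : Fin M → K) (s : K) (g : K[X]),
    (∏ j, h j).map (MvPolynomial.eval t) = (X - C s) * g ∧ g.Separable ∧ g.eval s = 0 ∧
    (∀ j, j ≠ i → ((h j).map (MvPolynomial.eval t)).eval s ≠ 0) ∧
    ∃ k, MvPolynomial.eval t (MvPolynomial.pderiv k ((∏ j, h j).eval (MvPolynomial.C s))) ≠ 0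

theorem gal2_nj (h1 : MULT_st) : gal2_NJ_st := by
  classical
  intro K W _ _ _ P a w U J M t f hM ht hw hP he z hz h0
  obtain ⟨r, hr, rfl⟩ : ∃ r ∈ J, z = algebraMap K W r := by
    rw [wJ, map_prod, Finset.prod_eq_zero_iff] at h0
    obtain ⟨r, hr, e⟩ := h0
    refine ⟨r, hr, ?_⟩
    simpa [sub_eq_zero] using e
  have hal : (alp a (wJ J * w) t).eval (algebraMap K W r) = algebraMap K W (a.eval r) := by
    rw [alp, eval_add, eval_mul, eval_map_algebraMap, eval_map_algebraMap, map_mul, h0,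
      zero_mul, zero_mul, add_zero, aeval_algebraMap_apply, coe_aeval_eq_eval]
  by_cases hp : P.evalEval r (a.eval r) = 0
  · obtain ⟨hd, hU⟩ := hP r hr hp
    have hdv : (X - C (algebraMap K W r)) ^ 2 ∣ sub P a (wJ J * w) t := by
      rw [he, sq]
      refine mul_dvd_mul (dvd_iff_isRoot.2 ?_) (dvd_iff_isRoot.2 hz)
      rw [IsRoot, eval_map_algebraMap, aeval_algebraMap_apply, coe_aeval_eq_eval, hU, map_zero]
    by_cases hd0 : (derivative P).evalEval r (a.eval r) = 0
    · have h3 := der_GSEPG _ _ _ hdv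
      rw [hal, derivative_map, map_mapRingHom_evalEval, hd0, map_zero, zero_mul, add_zero,
        ← map_C, ← coe_mapRingHom, eval_map_apply, coe_mapRingHom, derivative_map,
        eval_map_apply] at h3
      exact hd.resolve_left (not_not.2 hd0) ((algebraMap K W).injective (by rw [h3, map_zero]))
    have e : wJ J * w = (X - C r) ^ 1 * (wJ (J.erase r) * w) := by
      rw [pow_one, ← mul_assoc, wJ, wJ, Finset.mul_prod_erase J (fun r => X - C r) hr]
    refine h1 K W P a (wJ (J.erase r) * w) r 1 M t le_rfl hM ht ?_ hd0 ?_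
    · rw [eval_mul]
      refine mul_ne_zero ?_ (hw r hr)
      rw [wJ, eval_prod, Finset.prod_ne_zero_iff]
      intro s hs
      rw [eval_sub, eval_X, eval_C, sub_ne_zero]
      exact (Finset.ne_of_mem_erase hs).symm
    · rw [← e]
      exact hdv
  · apply hp
    have := congrArg (eval (algebraMap K W r)) he
    rw [sub_eval, hal, eval_mul, hz, mul_zero, ev, map_mapRingHom_evalEval] at this
    exact (algebraMap K W).injective (by rw [this, map_zero])

theorem gal2_eq {K ι L : Type} [Field K] [Fintype ι] {M : ℕ} {H : ι → K[X][X]} {J : Finset K}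
    {a : K[X]} {h : ι → (MP M K)[X]} {u : ι → K[X]} (D : gal2_Dat H J a h u) [Field L] [Algebra K L]
    [Algebra (MP M K) L] [IsScalarTower K (MP M K) L] (i : ι) :
    (sub (H i) a (wJ J) fun k => algebraMap (MP M K) L (MvPolynomial.X k)) =
      (u i).map (algebraMap K L) * (h i).map (algebraMap (MP M K) L) := by
  have hf : (algebraMap (MP M K) L).comp (algebraMap K (MP M K)) = algebraMap K L :=
    (IsScalarTower.algebraMap_eq K (MP M K) L).symm
  rw [← sub_map _ hf, D.eq i, Polynomial.map_mul, map_map, hf]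

theorem gal2_prod {K ι L : Type} [Field K] [Fintype ι] {M : ℕ} {H : ι → K[X][X]} {J : Finset K}
    {a : K[X]} {h : ι → (MP M K)[X]} {u : ι → K[X]} (D : gal2_Dat H J a h u) [Field L] [Algebra K L]
    [Algebra (MP M K) L] [IsScalarTower K (MP M K) L] :
    (sub (∏ i, H i) a (wJ J) fun k => algebraMap (MP M K) L (MvPolynomial.X k)) =
      (∏ i, u i).map (algebraMap K L) * (∏ i, h i).map (algebraMap (MP M K) L) := by
  rw [sub_prod, Polynomial.map_prod, Polynomial.map_prod, ← Finset.prod_mul_distrib]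
  exact Finset.prod_congr rfl fun i _ => gal2_eq D i

theorem gal2_root (h2 : gal2_NJ_st) {K ι L : Type} [Field K] [Fintype ι] {M : ℕ} {H : ι → K[X][X]}
    {J : Finset K} {a : K[X]} {h : ι → (MP M K)[X]} {u : ι → K[X]} (D : gal2_Dat H J a h u)
    (hM : 2 ≤ M) [Field L] [Algebra K L] [Algebra (MP M K) L] [IsScalarTower K (MP M K) L]
    (hi : Function.Injective (algebraMap (MP M K) L)) (z : L)
    (hz : ((∏ i, h i).map (algebraMap (MP M K) L)).eval z = 0) : aeval z (wJ J) ≠ 0 := by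
  refine h2 K L (∏ i, H i) a 1 (∏ i, u i) J M _ _ (by omega) (ind_X hi) (fun r _ => by simp)
    (fun r hr h0 => ⟨D.smo r hr h0, ?_⟩) (by rw [mul_one]; exact gal2_prod D) z hz
  rw [evalEval_prod] at h0
  obtain ⟨i, -, h3⟩ := Finset.prod_eq_zero_iff.1 h0
  rw [eval_prod]
  exact Finset.prod_eq_zero (Finset.mem_univ i) (D.u0 i r hr h3)

theorem gal2_seph (h1 : SEPG_st) (h2 : gal2_NJ_st) : gal2_SEPH_st := by
  intro K ι _ _ M H J a h u D hM
  refine ⟨?_, fun L _ _ _ _ hi i z hz => ⟨gal2_root h2 D hM hi z ?_, ?_⟩⟩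
  · have hf := IsScalarTower.algebraMap_eq (MP M K) (FP M K) (AlgebraicClosure (FP M K))
    have hi : Function.Injective (algebraMap (MP M K) (AlgebraicClosure (FP M K))) := by
      rw [hf]
      exact (algebraMap (FP M K) (AlgebraicClosure (FP M K))).injective.comp
        (IsFractionRing.injective (MP M K) (FP M K))
    rw [← separable_map (algebraMap (FP M K) (AlgebraicClosure (FP M K))), map_map, ← hf]
    refine sep_GSEPH ((monic_prod_of_monic _ _ fun i _ => D.mon i).map _).ne_zero fun z hz => ?_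
    refine h1 K (AlgebraicClosure (FP M K)) ι H a (wJ J) M _ z D.crv hM (ind_X hi)
      (gal2_root h2 D hM hi z ?_) ?_
    · exact dvd_iff_isRoot.1 ((dvd_pow_self _ two_ne_zero).trans hz)
    · rw [gal2_prod D]
      exact hz.mul_left _
  · rw [Polynomial.map_prod, eval_prod]
    exact Finset.prod_eq_zero (Finset.mem_univ i) hz
  · rw [gal2_eq D i, eval_mul, hz, mul_zero]

theorem gal2_tg2 (h1 : SEPG_st) (h2 : MULT_st) (h3 : gal2_NJ_st) : gal2_TG2_st := by
  intro K ι _ _ H J b U x g hH hx hd hJ he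
  by_contra hs
  let W := AlgebraicClosure (FP 2 K)
  have hinj : Function.Injective (algebraMap (MP 2 K) W) := by
    rw [IsScalarTower.algebraMap_eq (MP 2 K) (FP 2 K) W, RingHom.coe_comp]
    exact (algebraMap (FP 2 K) W).injective.comp (IsFractionRing.injective (MP 2 K) (FP 2 K))
  have hc : (algebraMap (MP 2 K) W).comp (algebraMap K (MP 2 K)) = algebraMap K W :=
    (IsScalarTower.algebraMap_eq K (MP 2 K) W).symm
  have ht := ind_X (K := K) hinj
  have hx' : algebraMap (MP 2 K) W (MvPolynomial.C x) = algebraMap K W x := by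
    rw [← hc]; rfl
  have he' := congrArg (Polynomial.map (algebraMap (MP 2 K) W)) he
  rw [sub_map _ hc, Polynomial.map_mul, Polynomial.map_mul, map_map, hc, Polynomial.map_sub,
    map_X, map_C, hx'] at he'
  rw [← separable_map (algebraMap (FP 2 K) W), map_map,
    ← IsScalarTower.algebraMap_eq (MP 2 K) (FP 2 K) W] at hs
  obtain ⟨z, hz⟩ := dbl_GTG2 _ hs
  by_cases hzx : z = algebraMap K W x
  · refine h2 K W (∏ i, H i) b (wJ J) x 2 2 _ (by norm_num) (by norm_num) ht ?_ hd ?_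
    · rw [wJ, eval_prod]
      refine Finset.prod_ne_zero_iff.2 fun r hr => ?_
      rw [eval_sub, eval_X, eval_C, sub_ne_zero]
      rintro rfl
      exact hx hr
    · rw [mul_comm _ (wJ J), he', ← hzx, pow_succ']
      exact (mul_dvd_mul_left _ hz).mul_left _
  by_cases hzJ : aeval z (wJ J) = 0
  · refine h3 K W (∏ i, H i) b ((X - C x) ^ 2) U J 2 _ _ (by norm_num) ht ?_ hJ he' z ?_ hzJ
    · intro r hr
      rw [eval_pow, eval_sub, eval_X, eval_C]
      refine pow_ne_zero _ (sub_ne_zero.2 ?_)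
      rintro rfl
      exact hx hr
    · obtain ⟨q, hq⟩ := hz
      rw [hq]
      simp
  · refine h1 K W ι H b (wJ J * (X - C x) ^ 2) 2 _ z hH le_rfl ht ?_ ?_
    · rw [map_mul, map_pow, map_sub, aeval_X, aeval_C]
      exact mul_ne_zero hzJ (pow_ne_zero _ (sub_ne_zero.2 hzx))
    · rw [he']
      exact (hz.mul_left _).mul_left _

theorem gal2_tang (h1 : PT_st) (h2 : SPEC_st) (h3 : TG1_st) (h4 : gal2_TG2_st) (h5 : DER_st) :
    gal2_TANG_st := by
  intro K ι _ _ _ M H J a h u D hM i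
  have hw : ∀ r, (wJ J).eval r = 0 ↔ r ∈ J := fun r => by
    simp [wJ, eval_prod, Finset.prod_eq_zero_iff, sub_eq_zero]
  have hw0 : wJ J ≠ 0 := (monic_prod_of_monic _ _ fun r _ => monic_X_sub_C r).ne_zero
  obtain ⟨x, y, p1, p2, p3, -, p5⟩ := h1 K ι H (wJ J) i D.crv hw0
  have hx : x ∉ J := fun hx => p2 ((hw x).2 hx)
  have hP : (∏ j, H j).evalEval x y = 0 := by
    rw [evalEval_prod]
    exact Finset.prod_eq_zero (Finset.mem_univ i) p1
  obtain ⟨b, τ, b1, b2, b3, b4⟩ := h3 K (∏ j, H j) a (wJ J) x y M hM hP p2 p3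
  have E0 : sub (∏ j, H j) a (wJ J) (MvPolynomial.X : Fin M → MP M K) =
      (∏ j, u j).map (algebraMap K (MP M K)) * ∏ j, h j := by
    rw [sub_prod, Polynomial.map_prod, ← Finset.prod_mul_distrib]
    exact Finset.prod_congr rfl fun j _ => D.eq j
  obtain ⟨φ, φ1, φ2⟩ : ∃ φ : MP M K →+* MP 2 K, φ.comp (algebraMap K _) = algebraMap K _ ∧
      ∀ k, φ (MvPolynomial.X k) = τ k :=
    ⟨(MvPolynomial.aeval τ : MP M K →ₐ[K] MP 2 K), AlgHom.comp_algebraMap _,
      fun k => MvPolynomial.aeval_X τ k⟩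
  have E1 : sub (∏ j, H j) a (wJ J) τ =
      (∏ j, u j).map (algebraMap K (MP 2 K)) * (∏ j, h j).map φ := by
    have e := congrArg (Polynomial.map φ) E0
    rwa [sub_map φ φ1, Polynomial.map_mul, map_map, φ1, funext φ2] at e
  have c1 : IsCoprime (X - C x) (∏ j, u j) := by
    rw [(irreducible_X_sub_C x).coprime_iff_not_dvd, dvd_iff_isRoot, IsRoot.def, eval_prod]
    exact Finset.prod_ne_zero_iff.2 fun j _ => D.u1 j x hx
  have c2 : IsCoprime (X - C (MvPolynomial.C x) : (MP 2 K)[X])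
      ((∏ j, u j).map (algebraMap K (MP 2 K))) := by
    have e := c1.map (mapRingHom (algebraMap K (MP 2 K)))
    rwa [coe_mapRingHom, Polynomial.map_sub, map_X, map_C] at e
  rw [E1] at b4
  obtain ⟨g0, hg0⟩ := c2.pow_left.dvd_of_dvd_mul_left b4
  rw [sq, mul_assoc] at hg0
  have m0 : ((∏ j, h j).map φ).Monic := (monic_prod_of_monic _ _ fun j _ => D.mon j).map φ
  rw [hg0] at m0
  have m1 := (monic_X_sub_C (MvPolynomial.C x : MP 2 K)).of_mul_monic_left m0
  obtain ⟨v, hv⟩ := h2 K 2 _ m1 (h4 K ι H J b (∏ j, u j) x _ D.crv hx (by rw [b1]; exact p3)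
    (fun r hr h0 => by
      rw [b2 r ((hw r).2 hr)] at h0 ⊢
      refine ⟨D.smo r hr h0, ?_⟩
      rw [evalEval_prod] at h0
      obtain ⟨j, hj, e⟩ := Finset.prod_eq_zero_iff.1 h0
      rw [eval_prod]
      exact Finset.prod_eq_zero hj (D.u0 j r hr e))
    (by rw [← hg0, ← E1, sub, sub, b3]))
  obtain ⟨t, ht⟩ : ∃ t : Fin M → K, t = fun k => MvPolynomial.eval v (τ k) := ⟨_, rfl⟩
  have e1 : (MvPolynomial.eval v).comp φ = MvPolynomial.eval t :=
    MvPolynomial.ringHom_ext (fun c => by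
      have e := RingHom.congr_fun φ1 c
      simp only [RingHom.comp_apply, MvPolynomial.algebraMap_eq] at e
      simp [e]) fun k => by simp [φ2, ht]
  have e2 : (alp a (wJ J) t).eval x = y := by
    rw [ht, ← alp_map _ (ev_GTANG v), b3, alp_map _ (ev_GTANG v)]
    simp [alp, b1]
  have e3 := h5 K M (∏ j, H j) a (wJ J) (∏ j, u j) (∏ j, h j) t x (le_trans (by norm_num) hM) E0
    p2 (by rw [e2]; exact p3)
  have e4 : (((X - C (MvPolynomial.C x)) * g0).map (MvPolynomial.eval v)).eval x = 0 := by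
    rw [Polynomial.map_mul, Polynomial.map_sub, map_X, map_C, MvPolynomial.eval_C, eval_mul,
      eval_sub, eval_X, eval_C, sub_self, zero_mul]
  refine ⟨t, x, _, ?_, hv, e4, fun j hj h0 => p5 j hj ?_, e3⟩
  · rw [← e1, ← map_map, hg0]
    simp
  · have e := congrArg (fun p => (Polynomial.map (MvPolynomial.eval t) p).eval x) (D.eq j)
    simp only [sub_map _ (ev_GTANG t), Polynomial.map_mul, eval_mul, h0, mul_zero,
      MvPolynomial.eval_X, sub_eval, e2] at e
    simpa [ev] using e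

theorem gal2_main (hSEPH : gal2_SEPH_st) (hTANG : gal2_TANG_st) (hSWP : SWP_st) (hT2 : T2_st)
    (hENUM : ENUM_st) (hGRP : GRP_st) {K : Type} [Field K] [IsAlgClosed K] {M : ℕ} (hM : 4 ≤ M)
    {ι : Type} [Fintype ι] [DecidableEq ι] {H : ι → K[X][X]} {J : Finset K} {a : K[X]}
    {h : ι → (MP M K)[X]} {u : ι → K[X]} (hD : gal2_Dat H J a h u)
    (hGI : ∀ (i : ι) (W : Type) [Field W] (f : K →+* W), Irreducible ((H i).map (mapRingHom f))) :
    Full (∑ i, (h i).natDegree) h := by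
  obtain ⟨s1, s2⟩ := hSEPH K ι M H J a h u hD (by omega)
  set p := (∏ i, h i).map (algebraMap (MP M K) (FP M K)) with hp
  have : IsGalois (FP M K) p.SplittingField := IsGalois.of_separable_splitting_field s1
  have : IsScalarTower K (MP M K) p.SplittingField := IsScalarTower.of_algebraMap_eq fun x => by
    rw [IsScalarTower.algebraMap_apply (MP M K) (FP M K) p.SplittingField,
      ← IsScalarTower.algebraMap_apply K (MP M K) (FP M K),
      ← IsScalarTower.algebraMap_apply K (FP M K) p.SplittingField]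
  have inj : Function.Injective (algebraMap (MP M K) p.SplittingField) := by
    rw [IsScalarTower.algebraMap_eq (MP M K) (FP M K) p.SplittingField, RingHom.coe_comp]
    exact (algebraMap (FP M K) p.SplittingField).injective.comp (IsFractionRing.injective _ _)
  have e0 : (∏ i, h i).map (algebraMap (MP M K) p.SplittingField) =
      p.map (algebraMap (FP M K) p.SplittingField) := by
    rw [hp, map_map, ← IsScalarTower.algebraMap_eq]
  have e1 : ∏ i, (h i).map (algebraMap (MP M K) p.SplittingField) =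
      p.map (algebraMap (FP M K) p.SplittingField) := by
    rw [← e0, Polynomial.map_prod]
  have e2 : ∑ i, (h i).natDegree =
      ∑ i, ((h i).map (algebraMap (MP M K) p.SplittingField)).natDegree :=
    Finset.sum_congr rfl fun i _ => ((hD.mon i).natDegree_map _).symm
  obtain ⟨z, bl, z1, z2, z3, z4⟩ := hENUM p.SplittingField ι
    (fun i => (h i).map (algebraMap (MP M K) p.SplittingField)) (fun i => (hD.mon i).map _)
    (by rw [e1]; exact SplittingField.splits p) (by rw [e1]; exact s1.map)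
  rw [e2]
  rw [e1] at z2
  refine ⟨p.SplittingField, inferInstance, inferInstance, inferInstance, inferInstance, z, bl, z1,
    fun i => by rw [← IsScalarTower.algebraMap_eq]; exact z3 i, ?_⟩
  let S : Subgroup (Equiv.Perm
      (Fin (∑ i, ((h i).map (algebraMap (MP M K) p.SplittingField)).natDegree))) :=
    { carrier := {σ | ∃ g : p.SplittingField ≃ₐ[FP M K] p.SplittingField,
        ∀ j, g (z j) = z (σ j)}
      one_mem' := ⟨1, fun _ => rfl⟩
      mul_mem' := by
        rintro σ τ ⟨g, hg⟩ ⟨g', hg'⟩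
        exact ⟨g * g', fun j => by rw [AlgEquiv.mul_apply, hg', hg, Equiv.Perm.mul_apply]⟩
      inv_mem' := by
        rintro σ ⟨g, hg⟩
        refine ⟨g.symm, fun j => g.injective ?_⟩
        rw [AlgEquiv.apply_symm_apply, hg, Equiv.Perm.coe_inv, Equiv.apply_symm_apply] }
  refine hGRP ι _ bl S (fun b c b' c' h1 h2 h3 h4 h5 => ?_) fun c => ?_
  · obtain ⟨g, g1, g2⟩ := hT2 K p.SplittingField M (H (bl b)) a (wJ J) (by omega)
      (hD.crv.lead _) (hGI _) (z b) (z c) (z b') (z c') (z1.ne h1) (z1.ne h2) (by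
        intro x hx
        refine s2 p.SplittingField inj (bl b) x ?_
        rcases hx with rfl | rfl | rfl | rfl
        exacts [(z4 _ _).2 rfl, (z4 _ _).2 h3, (z4 _ _).2 h4, (z4 _ _).2 h5])
    obtain ⟨σ, hσ⟩ := perm_GMain z1 z2 g
    exact ⟨σ, ⟨g, hσ⟩, z1 (by rw [← hσ, g1]), z1 (by rw [← hσ, g2])⟩
  · obtain ⟨t, s, g, t1, t2, t3, t4, t5⟩ := hTANG K ι M H J a h u hD hM (bl c)
    obtain ⟨b, b', b1, b2, b3⟩ := hSWP K p.SplittingField M _ (∏ i, h i) z t s g
      (monic_prod_of_monic _ _ fun i _ => hD.mon i) z1 (e0.trans z2) (fun γ hγ => by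
        refine Gal.ext p (σ := γ) (τ := 1) fun x hx => ?_
        have hx' := (mem_rootSet.1 hx).2
        rw [← eval_map_algebraMap, z2, eval_prod, Finset.prod_eq_zero_iff] at hx'
        obtain ⟨j, -, hj⟩ := hx'
        rw [eval_sub, eval_X, eval_C, sub_eq_zero] at hj
        rw [hj]
        exact hγ j) t1 t2 t3 t5
    refine ⟨b, b', b1, ?_, ?_, b2⟩
    · by_contra e
      exact t4 _ e (b3 _ (Or.inl ((z4 _ _).2 rfl)))
    · by_contra e
      exact t4 _ e (b3 _ (Or.inr ((z4 _ _).2 rfl)))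

end Pool.Agent.MP_a9d3bd_g.Gx

namespace Pool.Agent.MP_a9d3bd_zz

open Polynomial Su

variable {K : Type} [Field K] [IsAlgClosed K]

open MP_a9d3bd_g MP_a9d3bd_g.Gx in
open Classical in
theorem gal2 {M : ℕ} (hM : 4 ≤ M) {ι : Type} [Fintype ι]
    [DecidableEq ι] {H : ι → K[X][X]} (hH : MP_a9d3bd_g.Crv H) (J : Finset K) (a₀ : K[X])
    (hJ : ∀ r ∈ J, (∏ i, H i).evalEval r (a₀.eval r) = 0 → Grd (∏ i, H i) r (a₀.eval r))
    (h : ι → (MvPolynomial (Fin M) K)[X]) (hm : ∀ i, (h i).Monic) (c : ι → K) (hc : ∀ i, c i ≠ 0)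
    (hh : ∀ i, ((H i).map (mapRingHom (MvPolynomial.C : K →+* MvPolynomial (Fin M) K))).eval
        (a₀.map MvPolynomial.C + (∏ r ∈ J, (X - C (MvPolynomial.C r))) *
          ∑ k : Fin M, C (MvPolynomial.X k) * X ^ (k : ℕ)) =
      C (MvPolynomial.C (c i)) * (∏ r ∈ J.filter (fun r => (H i).evalEval r (a₀.eval r) = 0),
        (X - C (MvPolynomial.C r))) * h i) :
    MP_a9d3bd_g.Full (∑ i, (h i).natDegree) h := by
  have e : ∀ s : Finset K, (wJ s).map (MvPolynomial.C : K →+* MvPolynomial (Fin M) K) =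
      ∏ r ∈ s, (X - C (MvPolynomial.C r)) := fun s => by
    simp only [wJ, Polynomial.map_prod, Polynomial.map_sub, map_X, map_C]
  refine gal2_main (gal2_seph (gSEPG gKER gTRD gLIN) (gal2_nj gMULT))
    (gal2_tang gPT gSPEC gTG1 (gal2_tg2 (gSEPG gKER gTRD gLIN) gMULT (gal2_nj gMULT)) gDER)
    (gSWP gINE gPHI gDBL) (gT2 (gEXT gKER) gAUT (gTWO gTRD gLIN) (gFIX gLIN)) gENUM gGRP hM (H := H) (J := J) (a := a₀)
    (u := fun i => C (c i) * wJ (J.filter fun r => (H i).evalEval r (a₀.eval r) = 0))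
    ⟨hH, hm, fun i => ?_, fun i r hr h0 => ?_, fun i r hr => ?_, hJ⟩ fun i W _ f => ?_
  · rw [Gx.sub, alp, Gx.gam, MvPolynomial.algebraMap_eq, e, hh, Polynomial.map_mul, map_C, e]
  · rw [eval_mul, wJ, eval_prod, Finset.prod_eq_zero (i := r) (Finset.mem_filter.2 ⟨hr, h0⟩)
      (by simp), mul_zero]
  · rw [eval_mul, eval_C, wJ, eval_prod]
    refine mul_ne_zero (hc i) (Finset.prod_ne_zero_iff.2 fun s hs => ?_)
    rw [eval_sub, eval_X, eval_C, sub_ne_zero]
    exact fun e => hr (e ▸ (Finset.mem_filter.1 hs).1)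
  · obtain ⟨x, y, h1, -, -, h2, -⟩ := gPT K ι H 1 i hH one_ne_zero
    let := f.toAlgebra
    exact GI2 (hH.lead i) (hH.irr i) h1 h2

end Pool.Agent.MP_a9d3bd_zz
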