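import Pool.Agent.MP_a9d3bd_zz.Defs
import Pool.Agent.MP_a9d3bd_zz.Gal2
import Pool.Agent.MP_a9d3bd_zz.Ct2A
import Pool.Agent.MP_a9d3bd_g.ACC

namespace Pool.Agent.MP_a9d3bd_zz

open Polynomial Su

variable {K : Type} [Field K] [IsAlgClosed K] (p : ℕ) [Fact p.Prime] [CharP K p]

open Classical in
theorem ct2 (n D M m : ℕ) (hm : 6 ≤ m) (ε : ℝ) (hε : 0 < ε) : ∃ q0 : ℕ, ∀ f : ℕ, q0 ≤ p ^ f →
    ∀ (s : ℕ) (H : Fin s → K[X][X]), MP_a9d3bd_g.Crv H →
    (∀ j, (grf M (H j) (MvPolynomial.X : Fin m → MvPolynomial (Fin m) K)).Monic) →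
    ∑ j, (grf M (H j) (MvPolynomial.X : Fin m → MvPolynomial (Fin m) K)).natDegree = n →
    (∀ i, ((grf M (∏ j, H j)
      (MvPolynomial.X : Fin m → MvPolynomial (Fin m) K)).coeff i).totalDegree ≤ D) →
    (∀ j i d, Ra (p ^ f) (((grf M (H j)
      (MvPolynomial.X : Fin m → MvPolynomial (Fin m) K)).coeff i).coeff d)) →
    ∀ k ≤ 2, ∀ (x y : Fin k → K) (bl : Fin k → Fin s), Function.Injective x →
    (∀ i, Ra (p ^ f) (x i) ∧ Ra (p ^ f) (y i) ∧ (H (bl i)).evalEval (x i) (y i) = 0 ∧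
      Grd (∏ j, H j) (x i) (y i)) →
    |({α : Fin m → K | (∀ i, Ra (p ^ f) (α i)) ∧ (∀ i, y i = x i ^ M + ∑ l, α l * x i ^ (l : ℕ)) ∧
        Spl (p ^ f) (grf M (∏ j, H j) α)}.ncard : ℝ) *
      ∏ j, (((grf M (H j) (MvPolynomial.X : Fin m → MvPolynomial (Fin m) K)).natDegree -
        (Finset.univ.filter fun i => bl i = j).card).factorial : ℝ) - ((p : ℝ) ^ f) ^ (m - k)| ≤
      ε * ((p : ℝ) ^ f) ^ (m - k) := by
  choose Q hQ using fun (z : ℕ × ℕ) =>
    MP_a9d3bd_g.CC p z.1 (D + n) (z.2 + 1) (Nat.succ_pos _) (ε / 2) (by positivity) K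
  obtain ⟨q₁, hq₁⟩ := exists_nat_ge (4 * ((D + n : ℕ) : ℝ) * n.factorial / ε : ℝ)
  refine ⟨max (max 2 q₁) ((Finset.range (n + 1) ×ˢ Finset.range m).sup Q), ?_⟩
  intro f hf s H hH hmo hn hD hra k hk x y bl hx hJ
  have hq : 1 < p ^ f := (le_max_left _ _).trans ((le_max_left _ _).trans hf)
  obtain ⟨S, hSc, hS⟩ := MP_a9d3bd_g.CT_fix (K := K) p f hq
  set φ : K →+* K := iterateFrobenius K p f with hφd
  have hφa : ∀ a : K, φ a = a ^ p ^ f := fun a => iterateFrobenius_def p f a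
  obtain ⟨N, hN⟩ : ∃ N, N + 1 + k = m := ⟨m - k - 1, by omega⟩
  set J : Finset K := Finset.univ.image x with hJd
  have hI : ∀ {r}, r ∈ J → ∃ i, x i = r := fun hr => by simpa [hJd] using hr
  have hI' : ∀ i, x i ∈ J := fun i => Finset.mem_image_of_mem _ (Finset.mem_univ i)
  have hIc : J.card = k := by rw [hJd, Finset.card_image_of_injective _ hx]; simp
  have hIφ : ∀ r ∈ J, φ r = r := fun r hr => by
    obtain ⟨i, rfl⟩ := hI hr
    exact (hφa _).trans (hJ i).1
  obtain ⟨b, hb, hbφ, hv⟩ : ∃ b : K[X], b.degree < k ∧ b.map φ = b ∧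
      ∀ i, (X ^ M + b).eval (x i) = y i := by
    have hi : Set.InjOn x (Finset.univ : Finset (Fin k)) := hx.injOn
    have h1 := Lagrange.degree_interpolate_lt (fun i => y i - x i ^ M) hi
    have h2 := fun i => Lagrange.eval_interpolate_at_node (fun i => y i - x i ^ M) hi
      (Finset.mem_univ i)
    refine ⟨_, by simpa using h1, eq_of_degrees_lt_of_eval_index_eq _ hi
      (degree_map_le.trans_lt h1) h1 fun i _ => ?_, fun i => by rw [eval_add, h2 i]; simp⟩
    conv_lhs => rw [← hIφ _ (hI' i), eval_map_apply, h2 i]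
    rw [h2 i, map_sub, map_pow, hIφ _ (hI' i), (hφa _).trans (hJ i).2.1]
  have hbm : b.degree < m := hb.trans_le (by exact_mod_cast (by omega : k ≤ m))
  have hβ : (b.map MvPolynomial.C + (∏ r ∈ J, (X - C (MvPolynomial.C r))) *
      MP_a9d3bd_g.CT_gm MvPolynomial.X : (MvPolynomial (Fin (N + 1)) K)[X]).degree < m := by
    refine (degree_add_le _ _).trans_lt (max_lt (degree_map_le.trans_lt hbm) ?_)
    rw [degree_mul, degree_eq_natDegree (monic_prod_of_monic _ _ fun r _ =>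
      monic_X_sub_C _).ne_zero, natDegree_finsetProd_X_sub_C_eq_card, hIc, ← hN, add_comm (N + 1),
      Nat.cast_add]
    exact WithBot.add_lt_add_left (WithBot.natCast_ne_bot _) (MP_a9d3bd_g.CT_gm_deg _)
  choose h hm' hh hd hφ using fun j => ct2_h φ (M' := N + 1) M (H j) (hmo j)
    (by ext i d; simpa [MvPolynomial.coeff_map, hφa, Ra] using hra j i d) J hIφ hbφ hβ
  set a : K[X] := X ^ M + b with ha
  have hfil : ∀ j, J.filter (fun r => (H j).evalEval r (a.eval r) = 0) =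
      (Finset.univ.filter fun i => bl i = j).image x := fun j => by
    rw [hJd, Finset.filter_image]
    refine congrArg _ (Finset.filter_congr fun i _ => ?_)
    rw [hv i]
    exact ⟨fun h => ct2_two (hJ i).2.2.1 h (hJ i).2.2.2, fun h => h ▸ (hJ i).2.2.1⟩
  have hcard : ∀ j, (h j).natDegree + (Finset.univ.filter fun i => bl i = j).card =
      (grf M (H j) (MvPolynomial.X : Fin m → MvPolynomial (Fin m) K)).natDegree := fun j => by
    rw [← hd j, hfil, Finset.card_image_of_injective _ hx]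
  have hn' : ∑ j, (h j).natDegree + J.card = n := by
    rw [hIc, ← hn, ← Finset.sum_congr rfl fun j _ => hcard j, Finset.sum_add_distrib,
      ← Finset.card_eq_sum_card_fiberwise (fun i _ => Finset.mem_univ (bl i))]
    simp
  have hsp : ∀ t : Fin (N + 1) → K, (∏ j, H j).eval (a + (∏ r ∈ J, (X - C r)) *
      MP_a9d3bd_g.CT_gm t) = C 1 * (∏ r ∈ J, (X - C r)) *
        (∏ j, h j).map (MvPolynomial.eval t) := fun t => by
    have e : ∏ r ∈ J, (X - C r) =
        ∏ j, ∏ i ∈ Finset.univ.filter fun i => bl i = j, (X - C (x i)) := by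
      rw [Finset.prod_fiberwise, hJd, Finset.prod_image hx.injOn]
    rw [eval_prod, Polynomial.map_prod, C_1, one_mul]
    conv_rhs => rw [e, ← Finset.prod_mul_distrib]
    refine Finset.prod_congr rfl fun j _ => ?_
    rw [← MP_a9d3bd_g.CT_spec, hh j, hfil, Finset.prod_image hx.injOn]
    simp [Polynomial.map_prod]
  have hpm : (∏ j, h j).Monic := monic_prod_of_monic _ _ fun j _ => hm' j
  have hpd : (∏ j, h j).natDegree = ∑ j, (h j).natDegree :=
    natDegree_prod_of_monic _ _ fun j _ => hm' j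
  have htd : ∀ G, G ∣ ∏ j, h j → MP_a9d3bd_g.CT_TD (D + n) G := by
    have e1 : grf M (∏ j, H j) (MvPolynomial.X : Fin m → MvPolynomial (Fin m) K) =
        ∏ j, grf M (H j) MvPolynomial.X := by
      simp only [grf, Polynomial.map_prod, eval_prod]
    have m1 : (grf M (∏ j, H j) (MvPolynomial.X : Fin m → MvPolynomial (Fin m) K)).Monic :=
      e1 ▸ monic_prod_of_monic _ _ fun j _ => hmo j
    have d1 : (grf M (∏ j, H j) (MvPolynomial.X : Fin m → MvPolynomial (Fin m) K)).natDegree =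
        n := by rw [e1, natDegree_prod_of_monic _ _ fun j _ => hmo j, hn]
    have hs := ct2_sub M (∏ j, H j) hβ
    have h1 : MP_a9d3bd_g.CT_TD 1 (b.map MvPolynomial.C + (∏ r ∈ J, (X - C (MvPolynomial.C r))) *
        MP_a9d3bd_g.CT_gm MvPolynomial.X : (MvPolynomial (Fin (N + 1)) K)[X]) :=
      ((MP_a9d3bd_g.CT_TD.const _).mono (Nat.zero_le 1)).add (by
        have := (MP_a9d3bd_g.CT_TD.const (σ := Fin (N + 1)) (∏ r ∈ J, (X - C r))).mul
          MP_a9d3bd_g.CT_TD.gm
        simpa [Polynomial.map_prod] using this)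
    intro G hG
    have h2 := ct2_tdvd (D := D) (G := G) (m1.map (MvPolynomial.aeval fun l : Fin m =>
      (b.map MvPolynomial.C + (∏ r ∈ J, (X - C (MvPolynomial.C r))) *
        MP_a9d3bd_g.CT_gm MvPolynomial.X : (MvPolynomial (Fin (N + 1)) K)[X]).coeff l).toRingHom).ne_zero
      (fun i => by
        rw [coeff_map]
        exact (ct2_td (fun l : Fin m => h1 l) _).trans (hD i)) (hG.trans (by
        rw [hs, Polynomial.map_prod, eval_prod]
        refine Finset.prod_dvd_prod_of_dvd _ _ fun j _ => ?_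
        have h3 := hh j
        rw [ha, Polynomial.map_add, Polynomial.map_pow, map_X, add_assoc] at h3
        rw [h3]
        exact dvd_mul_left _ _))
    rwa [m1.natDegree_map, d1] at h2
  have hle : ∑ j, (h j).natDegree ≤ n := (Nat.le_add_right _ _).trans hn'.le
  have hfull := gal2 (M := N + 1) (by omega) hH J a (fun r hr _ => by
    obtain ⟨i, rfl⟩ := hI hr
    rw [hv i]
    exact (hJ i).2.2.2) h hm' (fun _ => 1) (fun _ => one_ne_zero) hh
  have hcc := hQ (∑ j, (h j).natDegree, N) f ((Finset.le_sup (f := Q) (by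
      simp only [Finset.mem_product, Finset.mem_range]; omega)).trans ((le_max_right _ _).trans hf))
    (Fin s) h hm' hfull (fun j a => htd _ (Finset.dvd_prod_of_mem _ (Finset.mem_univ j)) a)
    fun j a d => by
      have := congrArg (fun P => MvPolynomial.coeff d (coeff P a)) (hφ j)
      simpa [MvPolynomial.coeff_map, hφa] using this
  have hbij := ct2_bij φ J (hIc ▸ hN) hIφ hbm hbφ
    fun P => Spl (p ^ f) ((∏ j, H j).eval (X ^ M + P))
  have hset : {α : Fin m → K | (∀ i, Ra (p ^ f) (α i)) ∧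
      (∀ i, y i = x i ^ M + ∑ l, α l * x i ^ (l : ℕ)) ∧ Spl (p ^ f) (grf M (∏ j, H j) α)} =
      {t : Fin m → K | (∀ i, φ (t i) = t i) ∧
        (∀ r ∈ J, (MP_a9d3bd_g.CT_gm t).eval r = b.eval r) ∧
        Spl (p ^ f) ((∏ j, H j).eval (X ^ M + MP_a9d3bd_g.CT_gm t))} := by
    ext α
    refine and_congr (by simp only [hφa, Ra]) (and_congr ?_ ?_)
    · have e : ∀ r, (MP_a9d3bd_g.CT_gm α).eval r = ∑ l, α l * r ^ (l : ℕ) := fun r => by
        simp [MP_a9d3bd_g.CT_gm, eval_finsetSum]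
      have e2 : ∀ i, y i = x i ^ M + b.eval (x i) := fun i => by
        rw [← hv i, ha]
        simp
      refine ⟨fun h r hr => ?_, fun h i => by rw [← e, h _ (hI' i), e2]⟩
      obtain ⟨i, rfl⟩ := hI hr
      rw [e]
      exact add_left_cancel ((h i).symm.trans (e2 i))
    · simp [grf, MP_a9d3bd_g.CT_gm]
  have hspl : ∀ t : Fin (N + 1) → K, Spl (p ^ f) ((∏ j, H j).eval (X ^ M + (b +
      (∏ r ∈ J, (X - C r)) * MP_a9d3bd_g.CT_gm t))) ↔ MP_a9d3bd_g.Spl (p ^ f)
        (∑ j, (h j).natDegree + J.card) (C 1 * (∏ r ∈ J, (X - C r)) *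
          (∏ j, h j).map (MvPolynomial.eval t)) := fun t => by
    have hwm : (∏ r ∈ J, (X - C r) : K[X]).Monic := monic_prod_of_monic _ _ fun r _ =>
      monic_X_sub_C r
    rw [← add_assoc, ← ha, hsp, C_1, one_mul, ct2_spl (hwm.mul (hpm.map _)),
      hwm.natDegree_mul (hpm.map _), hpm.natDegree_map, hpd,
      natDegree_finsetProd_X_sub_C_eq_card, add_comm]
  have hsub' : ∀ j, (grf M (H j) (MvPolynomial.X : Fin m → MvPolynomial (Fin m) K)).natDegree -
      (Finset.univ.filter fun i => bl i = j).card = (h j).natDegree :=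
    fun j => by rw [← hcard j, Nat.add_sub_cancel]
  rw [hset, hbij, show m - k = N + 1 by omega]
  simp only [hspl, hsub', hφa]
  have hq0 : (0 : ℝ) < (p : ℝ) ^ f := by exact_mod_cast (zero_lt_one.trans hq)
  refine MP_a9d3bd_g.CT_num (B := n.factorial) (D := (D + n : ℕ)) hq0 (by positivity) ?_ ?_ ?_ hcc
    (by positivity) ?_
  · exact_mod_cast (Nat.le_of_dvd (Nat.factorial_pos _)
      (Nat.prod_factorial_dvd_factorial_sum _ _)).trans (Nat.factorial_le hle)
  · exact Nat.cast_le.2 (Set.ncard_le_ncard (fun t ht => ⟨ht.1, MP_a9d3bd_g.CT_spl1 ht.2⟩)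
      (MP_a9d3bd_g.CT_fin hS _))
  · set Z : K → Set (Fin (N + 1) → K) := fun r => {t | (∀ i, t i ^ p ^ f = t i) ∧
      MvPolynomial.eval t ((∏ j, h j).eval (MvPolynomial.C r)) = 0}
    have hZ : ∀ r ∈ J, ((Z r).ncard : ℝ) * (p ^ f : ℝ) ≤ (D + n : ℕ) * (p ^ f : ℝ) ^ (N + 1) :=
      fun r hr => by
        obtain ⟨i, rfl⟩ := hI hr
        have := MP_a9d3bd_g.CT_sz (zero_lt_one.trans hq) hSc hS (ct2_ne (Nat.succ_pos N) hsp hr
          (by rw [hv i]; exact (hJ i).2.2.2)) ((htd _ dvd_rfl).at (x i))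
        exact_mod_cast this
    have hsub : {t : Fin (N + 1) → K | (∀ i, t i ^ p ^ f = t i) ∧
        MP_a9d3bd_g.Spl (p ^ f) (∑ j, (h j).natDegree) ((∏ j, h j).map (MvPolynomial.eval t))} ⊆
        {t : Fin (N + 1) → K | (∀ i, t i ^ p ^ f = t i) ∧
          MP_a9d3bd_g.Spl (p ^ f) (∑ j, (h j).natDegree + J.card) (C 1 *
            (∏ r ∈ J, (X - C r)) * (∏ j, h j).map (MvPolynomial.eval t))} ∪
          ⋃ r ∈ J, Z r := fun t ht => by
      by_cases h0 : ∀ r ∈ J, ((∏ j, h j).map (MvPolynomial.eval t)).eval r ≠ 0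
      · exact Or.inl ⟨ht.1, MP_a9d3bd_g.CT_spl2 (fun r hr => (hφa r).symm.trans (hIφ r hr))
          one_ne_zero ht.2 h0⟩
      · push Not at h0
        obtain ⟨r, hr, h0⟩ := h0
        refine Or.inr (Set.mem_biUnion hr ⟨ht.1, ?_⟩)
        rw [← eval_map_apply]
        simpa using h0
    have h1 := (Set.ncard_le_ncard hsub ((MP_a9d3bd_g.CT_fin hS _).union
      ((Finset.finite_toSet _).biUnion fun r _ => MP_a9d3bd_g.CT_fin hS _))).trans
        ((Set.ncard_union_le _ _).trans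
          (Nat.add_le_add_left (Finset.set_ncard_biUnion_le _ _) _))
    have h2 := (Nat.cast_le (α := ℝ)).2 h1
    rw [Nat.cast_add, Nat.cast_sum, ← sub_le_iff_le_add'] at h2
    refine (mul_le_mul_of_nonneg_right h2 hq0.le).trans ?_
    rw [Finset.sum_mul]
    refine (Finset.sum_le_card_nsmul _ _ _ hZ).trans ?_
    rw [nsmul_eq_mul, hIc]
    exact mul_le_mul_of_nonneg_right (by exact_mod_cast hk) (by positivity)
  · rw [div_le_iff₀ hε, mul_comm _ ε] at hq₁
    refine hq₁.trans (mul_le_mul_of_nonneg_left ?_ hε.le)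
    exact_mod_cast (le_max_right _ _).trans ((le_max_left _ _).trans hf)

end Pool.Agent.MP_a9d3bd_zz
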