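import Pool.Agent.MP_a9d3bd_zz.Defs
import Pool.Agent.MP_a9d3bd_g.ADefs

namespace Pool.Agent.MP_a9d3bd_zz

open Polynomial Su

section

variable {K A ι : Type} [Field K] [CommRing A] [IsDedekindDomain A] [Algebra K A]
  [Algebra K[X] A] [IsScalarTower K K[X] A] [Fintype ι] [DecidableEq ι] {m : ℕ} (S : Su K A ι m)

/-- `u * D` is the norm of `f` on the generic graph. -/
def fac_Rep (u : K) (f : A[X]) (D : (MvPolynomial (Fin m × ι) K)[X]) : Prop :=
  ∀ (T : Type) [CommRing T] [Algebra K T] (θ : A →ₐ[K] T) (a : Fin m × ι → T),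
    algebraMap K T u * D.eval₂ (MvPolynomial.aeval a).toRingHom (θ (xA K A)) =
      ∏ᶠ g : A ≃ₐ[K[X]] A, f.eval₂ (θ.comp (g.restrictScalars K).toAlgHom).toRingHom
        (θ (xA K A) ^ S.M + gam S.e (θ.comp (g.restrictScalars K).toAlgHom) a)

/-- The equation of the curve over `A`. -/
noncomputable def fac_f (c : K) (g : Fin m × ι → K) : A[X] :=
  S.fp (AlgHom.id K A) (algebraMap K A c) fun v => algebraMap K A (g v)

def fac_S1 : Prop := ∀ (c : K) (g : Fin m × ι → K),
  fac_Rep S (pd S.P S.d S.c0 ^ Nat.card (A ≃ₐ[K[X]] A)) (fac_f S c g) (S.NH c g)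

def fac_S2 : Prop := ∀ f : A[X], ∃ E, fac_Rep S 1 f E

def fac_S3 (K A ι : Type) [Field K] [CommRing A] [Algebra K A] [Algebra K[X] A] (m : ℕ) : Prop :=
  ∀ D E : (MvPolynomial (Fin m × ι) K)[X],
    D.eval₂ (MvPolynomial.aeval (MvPolynomial.X : Fin m × ι → MvPolynomial (Fin m × ι) A)).toRingHom
      (MvPolynomial.C (xA K A)) =
    E.eval₂ (MvPolynomial.aeval (MvPolynomial.X : Fin m × ι → MvPolynomial (Fin m × ι) A)).toRingHom
      (MvPolynomial.C (xA K A)) → D = E

def fac_S4 : Prop := ∀ (c : K) (g : Fin m × ι → K), pd S.P S.d c ≠ 0 →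
  ∃ (s : ℕ) (f : Fin s → A[X]), (∀ j, (f j).Monic ∧
    Irreducible ((f j).map (algebraMap A (FractionRing A)))) ∧
    fac_f S c g = C (algebraMap K A (pd S.P S.d c)) * ∏ j, f j

def fac_S5 : Prop := ∀ (u : K) (f : A[X]) (D : (MvPolynomial (Fin m × ι) K)[X]), u ≠ 0 →
  fac_Rep S u f D → ∀ (a : Fin m × ι → K) (T : Type) [CommRing T] [Algebra K T] (α : Fin m → T),
    grf S.M (S.Sl D a) α =
      D.map (MvPolynomial.aeval fun v => algebraMap K T (a v) + S.emb α v).toRingHom

def fac_S6 : Prop := ∀ (u : K) (f : A[X]) (D : (MvPolynomial (Fin m × ι) K)[X]),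
  fac_Rep S u f D → ∀ a : Fin m × ι → K,
    (C (C u) * S.Sl D a).map (algebraMap K[X] A) = ∏ᶠ g : A ≃ₐ[K[X]] A,
      (f.comp (X + C (gam S.e (AlgHom.id K A) fun v => algebraMap K A (a v)))).map (g : A →+* A)

def fac_S7 (K A : Type) [Field K] [CommRing A] [Algebra K[X] A] : Prop :=
  ∀ (H : K[X][X]) (φ : A[X]), φ.Monic → Irreducible (φ.map (algebraMap A (FractionRing A))) →
    H.map (algebraMap K[X] A) = ∏ᶠ g : A ≃ₐ[K[X]] A, φ.map (g : A →+* A) →
    (H.map (algebraMap K[X] (FractionRing K[X]))).Separable → H.Monic ∧ Irreducible H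

end

section

variable {K A ι : Type} [Field K] [CommRing A] [IsDedekindDomain A] [Algebra K A]
  [Algebra K[X] A] [IsScalarTower K K[X] A] [Fintype ι] [DecidableEq ι] {m : ℕ} (S : Su K A ι m)

omit [DecidableEq ι] in
theorem facS1_NH (c : K) (g : Fin m × ι → K) {T : Type} [CommRing T] [Algebra K T]
    (a : Fin m × ι → T) (t : T) :
    (S.NH c g).eval₂ (MvPolynomial.aeval a).toRingHom t =
      S.NN.eval₂ (MvPolynomial.aeval (Sum.elim a fun v =>
        algebraMap K T (g v) + algebraMap K T c * a v)).toRingHom t := by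
  unfold NH Nf
  rw [eval₂_map]
  congr 1
  refine MvPolynomial.ringHom_ext (fun r => ?_) fun v => ?_
  · simp
  · rcases v with v | v <;> simp

omit [IsDedekindDomain A] [Algebra K[X] A] [IsScalarTower K K[X] A] in
theorem facS1_ev {T : Type} [CommRing T] [Algebra K T] (φ : A →ₐ[K] T) (t : T)
    (w : Fin 3 → A[X]) (P : MvPolynomial (Fin 3) K) :
    (MvPolynomial.aeval w P).eval₂ φ.toRingHom t =
      MvPolynomial.aeval (fun i => (w i).eval₂ φ.toRingHom t) P := by
  induction P using MvPolynomial.induction_on with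
  | C r => simp
  | add p q hp hq => rw [map_add, map_add, eval₂_add, hp, hq]
  | mul_X p i hp => rw [map_mul, map_mul, eval₂_mul, hp, MvPolynomial.aeval_X, MvPolynomial.aeval_X]

omit [IsDedekindDomain A] [IsScalarTower K K[X] A] [DecidableEq ι] in
theorem facS1_gam {T : Type} [CommRing T] [Algebra K T] (e : ι → A) (φ : A →ₐ[K] T) (c : K)
    (g : Fin m × ι → K) (a : Fin m × ι → T) :
    gam e φ (fun v => algebraMap K T (g v) + algebraMap K T c * a v) =
      φ (gam e (AlgHom.id K A) fun v => algebraMap K A (g v)) + algebraMap K T c * gam e φ a := by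
  unfold gam
  rw [map_sum, Finset.mul_sum, ← Finset.sum_add_distrib]
  refine Finset.sum_congr rfl fun v _ => ?_
  simp only [map_mul, map_pow, AlgHom.commutes, AlgHom.id_apply]
  ring

theorem fac_s1 : fac_S1 S := by
  intro c g T _ _ θ a
  rw [facS1_NH, map_pow, S.hN T θ a]
  refine finprod_congr fun σ => ?_
  have hx : (θ.comp (σ.restrictScalars K).toAlgHom) (xA K A) = θ (xA K A) :=
    congrArg θ (σ.commutes X)
  generalize θ.comp (σ.restrictScalars K).toAlgHom = φ at hx
  unfold fac_f fp wl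
  rw [facS1_ev, facS1_gam, ← hx]
  congr 2
  funext i
  fin_cases i
  · simp
  · simp
  · simp [eval₂_add, eval₂_mul, eval₂_sub, eval₂_pow]
    ring

end

section

variable {K A ι : Type} [Field K] [CommRing A] [IsDedekindDomain A] [Algebra K A]
  [Algebra K[X] A] [IsScalarTower K K[X] A] [Fintype ι] [DecidableEq ι] {m : ℕ} (S : Su K A ι m)

theorem facS2_desc {R B V : Type} [CommRing R] [CommRing B] [Algebra R B]
    [Fintype (B ≃ₐ[R] B)]
    (hinv : ∀ a : B, (∀ g : B ≃ₐ[R] B, g a = a) → a ∈ Set.range (algebraMap R B))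
    (w : MvPolynomial V B) : ∃ W0 : MvPolynomial V R, MvPolynomial.map (algebraMap R B) W0 =
      ∏ g : B ≃ₐ[R] B, MvPolynomial.map (g : B →+* B) w := by
  refine (MvPolynomial.mem_range_map_iff_coeffs_subset
    (f := algebraMap R B)).2 fun b hb => ?_
  obtain ⟨s, -, rfl⟩ := MvPolynomial.mem_coeffs_iff.1 (Finset.mem_coe.1 hb)
  refine hinv _ fun h => ?_
  have h1 : MvPolynomial.map (h : B →+* B) (∏ g : B ≃ₐ[R] B, MvPolynomial.map (g : B →+* B) w) =
      ∏ g : B ≃ₐ[R] B, MvPolynomial.map (g : B →+* B) w := by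
    rw [map_prod, ← Equiv.prod_comp (Equiv.mulLeft h)
      (fun g : B ≃ₐ[R] B => MvPolynomial.map (g : B →+* B) w)]
    refine Finset.prod_congr rfl fun g _ => ?_
    rw [MvPolynomial.map_map]
    rfl
  conv_rhs => rw [← h1, MvPolynomial.coeff_map]
  rfl

theorem fac_s2 : fac_S2 S := by
  intro f
  have := S.hfin
  have := Fintype.ofFinite (A ≃ₐ[K[X]] A)
  obtain ⟨W0, hW⟩ := facS2_desc S.hinv
    (f.eval₂ MvPolynomial.C (MvPolynomial.C (xA K A ^ S.M) + ∑ v : Fin m × ι,
      MvPolynomial.X v * MvPolynomial.C (xA K A ^ (v.1 : ℕ) * S.e v.2)))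
  refine ⟨MvPolynomial.eval₂Hom (mapRingHom MvPolynomial.C) (fun v => C (MvPolynomial.X v)) W0,
    fun T _ _ θ a => ?_⟩
  have h1 : (eval₂RingHom (MvPolynomial.aeval a : MvPolynomial (Fin m × ι) K →ₐ[K] T).toRingHom
      (θ (xA K A))).comp (MvPolynomial.eval₂Hom (mapRingHom MvPolynomial.C)
        (fun v => C (MvPolynomial.X v))) =
      (MvPolynomial.eval₂Hom θ.toRingHom a).comp (MvPolynomial.map (algebraMap K[X] A)) := by
    refine MvPolynomial.ringHom_ext' (Polynomial.ringHom_ext (fun c => ?_) ?_) fun v => ?_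
    · have h2 : algebraMap K[X] A (C c) = algebraMap K A c :=
        (IsScalarTower.algebraMap_apply K K[X] A c).symm
      simp [h2]
    · simp
    · simp
  have h3 := RingHom.congr_fun h1 W0
  rw [RingHom.comp_apply, RingHom.comp_apply, coe_eval₂RingHom, hW, map_prod] at h3
  rw [map_one, one_mul, finprod_eq_prod_of_fintype, h3]
  refine Finset.prod_congr rfl fun g _ => ?_
  have h4 : g (xA K A) = xA K A := g.commutes X
  rw [MvPolynomial.eval₂Hom_map_hom, hom_eval₂, MvPolynomial.eval₂Hom_comp_C]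
  congr 1
  simp [gam, h4]

end

section

variable {K A ι : Type} [Field K] [CommRing A] [IsDedekindDomain A] [Algebra K A]
  [Algebra K[X] A] [IsScalarTower K K[X] A] [Fintype ι] [DecidableEq ι] {m : ℕ} (S : Su K A ι m)

theorem facS3_inj (K V : Type) [Field K] : Function.Injective
    (eval₂RingHom (MvPolynomial.map (C : K →+* K[X])) (MvPolynomial.C X) :
      (MvPolynomial V K)[X] →+* MvPolynomial V K[X]) := by
  have h : (MvPolynomial.eval₂Hom (mapRingHom (MvPolynomial.C : K →+* MvPolynomial V K))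
      (fun v => C (MvPolynomial.X v))).comp
      (eval₂RingHom (MvPolynomial.map (C : K →+* K[X])) (MvPolynomial.C X) :
        (MvPolynomial V K)[X] →+* MvPolynomial V K[X]) = RingHom.id _ := by
    refine Polynomial.ringHom_ext' (MvPolynomial.ringHom_ext (fun a => ?_) fun v => ?_) ?_ <;> simp
  intro D E hDE
  refine (RingHom.congr_fun h D).symm.trans (Eq.trans ?_ (RingHom.congr_fun h E))
  rw [RingHom.comp_apply, RingHom.comp_apply, hDE]

omit [IsDedekindDomain A] in
theorem facS3_gen (hinj : Function.Injective (algebraMap K[X] A)) {V : Type}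
    (D E : (MvPolynomial V K)[X])
    (h : D.eval₂ (MvPolynomial.aeval (MvPolynomial.X : V → MvPolynomial V A)).toRingHom
        (MvPolynomial.C (xA K A)) =
      E.eval₂ (MvPolynomial.aeval (MvPolynomial.X : V → MvPolynomial V A)).toRingHom
        (MvPolynomial.C (xA K A))) : D = E := by
  have e : (eval₂RingHom (MvPolynomial.aeval (MvPolynomial.X : V → MvPolynomial V A)).toRingHom
      (MvPolynomial.C (xA K A)) : (MvPolynomial V K)[X] →+* MvPolynomial V A) =
      (MvPolynomial.map (algebraMap K[X] A)).comp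
        (eval₂RingHom (MvPolynomial.map (C : K →+* K[X])) (MvPolynomial.C X)) := by
    refine Polynomial.ringHom_ext' (MvPolynomial.ringHom_ext (fun a => ?_) fun v => ?_) ?_
    · have : algebraMap K A a = algebraMap K[X] A (C a) :=
        IsScalarTower.algebraMap_apply K K[X] A a
      simp [this]
    · simp
    · simp
  apply facS3_inj K V
  apply MvPolynomial.map_injective _ hinj
  exact (RingHom.congr_fun e D).symm.trans (h.trans (RingHom.congr_fun e E))

omit [IsDedekindDomain A] [Fintype ι] [DecidableEq ι] in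
theorem fac_s3 (hinj : Function.Injective (algebraMap K[X] A)) : fac_S3 K A ι m :=
  fun D E h => facS3_gen hinj D E h

end

section

variable {K A ι : Type} [Field K] [CommRing A] [IsDedekindDomain A] [Algebra K A]
  [Algebra K[X] A] [IsScalarTower K K[X] A] [Fintype ι] [DecidableEq ι] {m : ℕ} (S : Su K A ι m)

theorem facS4_deg {T : Type} [CommRing T] (x : T) (w : T[X]) (hw : w.natDegree ≤ 1)
    (a b c : ℕ) : (C x ^ a * X ^ b * w ^ c).natDegree ≤ b + c := by
  have h1 : (C x ^ a).natDegree ≤ 0 := by rw [← C_pow, natDegree_C]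
  have h2 : (X ^ b : T[X]).natDegree ≤ b := natDegree_X_pow_le b
  have h3 : (w ^ c).natDegree ≤ c := by
    have := natDegree_pow_le_of_le c hw
    simpa using this
  have h4 := natDegree_mul_le_of_le (natDegree_mul_le_of_le h1 h2) h3
  simpa using h4

theorem facS4_co {T : Type} [CommRing T] (x : T) (w : T[X]) (hw : w.natDegree ≤ 1)
    (a b c d : ℕ) (h : a + b + c ≤ d) : (C x ^ a * X ^ b * w ^ c).coeff d =
      if a + b + c = d then 0 ^ a * 1 ^ b * w.coeff 1 ^ c else 0 := by
  by_cases h1 : b + c < d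
  · rw [coeff_eq_zero_of_natDegree_lt (lt_of_le_of_lt (facS4_deg x w hw a b c) h1)]
    split_ifs with h2
    · rw [zero_pow (by omega), zero_mul, zero_mul]
    · rfl
  · have ha : a = 0 := by omega
    have hd : d = c + b := by omega
    subst ha hd
    rw [if_pos (by omega), pow_zero, one_mul, coeff_X_pow_mul]
    have h3 := coeff_pow_of_natDegree_le (m := c) hw
    rw [mul_one] at h3
    rw [h3]
    simp

theorem facS4_top {T : Type} [CommRing T] [Algebra K T] (x : T) (w : T[X]) (hw : w.natDegree ≤ 1)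
    (P : MvPolynomial (Fin 3) K) (d : ℕ) (hP : P.totalDegree ≤ d) :
    (MvPolynomial.aeval ![C x, X, w] P).natDegree ≤ d ∧
      (MvPolynomial.aeval ![C x, X, w] P).coeff d = pd P d (w.coeff 1) := by
  classical
  have hs : ∀ s ∈ P.support, s 0 + s 1 + s 2 ≤ d := by
    intro s hs
    have h1 := (MvPolynomial.le_totalDegree hs).trans hP
    rw [Finsupp.sum_fintype _ _ (by simp), Fin.sum_univ_three] at h1
    exact h1
  have hF : MvPolynomial.aeval ![C x, X, w] P = ∑ s ∈ P.support,
      C (algebraMap K T (P.coeff s)) * (C x ^ s 0 * X ^ s 1 * w ^ s 2) := by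
    rw [MvPolynomial.aeval_def, MvPolynomial.eval₂_eq']
    refine Finset.sum_congr rfl fun s _ => ?_
    rw [Fin.prod_univ_three, Polynomial.algebraMap_apply]
    rfl
  rw [hF]
  constructor
  · refine natDegree_sum_le_of_forall_le _ _ fun s h => (natDegree_C_mul_le _ _).trans ?_
    have h1 := hs s h
    exact (facS4_deg x w hw _ _ _).trans (by omega)
  · rw [finsetSum_coeff, pd, MvPolynomial.homogeneousComponent_apply, map_sum, Finset.sum_filter]
    refine Finset.sum_congr rfl fun s h => ?_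
    rw [coeff_C_mul, facS4_co x w hw _ _ _ _ (hs s h)]
    have h1 : s.degree = s 0 + s 1 + s 2 := by
      rw [Finsupp.degree_eq_sum, Fin.sum_univ_three]
    rw [h1]
    split_ifs with h2
    · rw [MvPolynomial.aeval_monomial, Finsupp.prod_fintype _ _ (by simp), Fin.prod_univ_three]
      rfl
    · rw [mul_zero]

theorem facS4_list {R : Type} [CommRing R] [IsDomain R] (n : ℕ) :
    ∀ F : R[X], F.natDegree = n → F.Monic →
      ∃ l : List R[X], (∀ f ∈ l, f.Monic ∧ Irreducible f) ∧ l.prod = F := by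
  induction n using Nat.strong_induction_on with
  | _ n ih =>
    intro F hn hF
    by_cases h1 : F = 1
    · exact ⟨[], by simp, by simp [h1]⟩
    by_cases h2 : Irreducible F
    · exact ⟨[F], by simpa using ⟨hF, h2⟩, by simp⟩
    rw [hF.irreducible_iff_natDegree] at h2
    have h3 : ∃ f g : R[X], f.Monic ∧ g.Monic ∧ f * g = F ∧ f.natDegree ≠ 0 ∧ g.natDegree ≠ 0 := by
      by_contra h4
      refine h2 ⟨h1, fun f g hf hg hfg => ?_⟩
      by_contra h5
      exact h4 ⟨f, g, hf, hg, hfg, fun h => h5 (Or.inl h), fun h => h5 (Or.inr h)⟩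
    obtain ⟨f, g, hf, hg, hfg, hf0, hg0⟩ := h3
    have h4 : F.natDegree = f.natDegree + g.natDegree := by rw [← hfg, hf.natDegree_mul hg]
    obtain ⟨l1, h5, h6⟩ := ih f.natDegree (by omega) f rfl hf
    obtain ⟨l2, h7, h8⟩ := ih g.natDegree (by omega) g rfl hg
    refine ⟨l1 ++ l2, fun p hp => ?_, by rw [List.prod_append, h6, h8, hfg]⟩
    rcases List.mem_append.1 hp with h | h
    · exact h5 p h
    · exact h7 p h

theorem fac_s4 : fac_S4 S := by
  intro c g hc
  have hw : (S.wl (AlgHom.id K A) (algebraMap K A c) fun v => algebraMap K A (g v)).natDegree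
      ≤ 1 := by
    unfold Su.wl
    refine natDegree_add_le_of_degree_le (by rw [natDegree_C]; exact zero_le_one) ?_
    exact (natDegree_C_mul_le _ _).trans (natDegree_X_sub_C_le _)
  have hw1 : (S.wl (AlgHom.id K A) (algebraMap K A c) fun v => algebraMap K A (g v)).coeff 1 =
      algebraMap K A c := by
    unfold Su.wl
    rw [coeff_add, coeff_C_mul, coeff_sub, coeff_X_one, coeff_C_of_ne_zero one_ne_zero,
      coeff_C_of_ne_zero one_ne_zero]
    ring
  obtain ⟨h1, h2⟩ := facS4_top (K := K) (AlgHom.id K A (xA K A)) _ hw S.P S.d S.hP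
  have h3 : pd S.P S.d (algebraMap K A c) = algebraMap K A (pd S.P S.d c) := by
    unfold pd
    rw [← MvPolynomial.aeval_algebraMap_apply]
    have h4 : (![0, 1, algebraMap K A c] : Fin 3 → A) = fun i => algebraMap K A (![0, 1, c] i) := by
      funext i
      fin_cases i <;> simp
    rw [h4]
    rfl
  rw [hw1, h3] at h2
  have h1' : (fac_f S c g).natDegree ≤ S.d := h1
  have h2' : (fac_f S c g).coeff S.d = algebraMap K A (pd S.P S.d c) := h2
  have hu : algebraMap K A (pd S.P S.d c) * algebraMap K A (pd S.P S.d c)⁻¹ = 1 := by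
    rw [← map_mul, mul_inv_cancel₀ hc, map_one]
  have hm : (C (algebraMap K A (pd S.P S.d c)⁻¹) * fac_f S c g).Monic := by
    refine monic_of_natDegree_le_of_coeff_eq_one S.d ((natDegree_C_mul_le _ _).trans h1') ?_
    rw [coeff_C_mul, h2', mul_comm, hu]
  obtain ⟨l, h5, h6⟩ := facS4_list _ _ rfl hm
  refine ⟨l.length, fun j => l.get j, fun j => ?_, ?_⟩
  · obtain ⟨h7, h8⟩ := h5 _ (List.get_mem l j)
    exact ⟨h7, (h7.irreducible_iff_irreducible_map_fraction_map).1 h8⟩
  · rw [← List.prod_ofFn, List.ofFn_get, h6, ← mul_assoc, ← C_mul, hu, C_1, one_mul]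

end

section

variable {K A ι : Type} [Field K] [CommRing A] [IsDedekindDomain A] [Algebra K A]
  [Algebra K[X] A] [IsScalarTower K K[X] A] [Fintype ι] [DecidableEq ι] {m : ℕ} (S : Su K A ι m)

omit [IsDedekindDomain A] in
theorem facS5_emb (hinj : Function.Injective (algebraMap K[X] A)) (T : Type) [CommRing T]
    [Algebra K T] : ∃ (W : Type) (_ : CommRing W) (_ : Algebra K W) (Φ : T[X] →ₐ[K] W)
      (θ : A →ₐ[K] W), Function.Injective Φ ∧ θ (xA K A) = Φ X := by
  refine ⟨TensorProduct K T A, inferInstance, inferInstance,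
    (Algebra.TensorProduct.map (AlgHom.id K T) (IsScalarTower.toAlgHom K K[X] A)).comp
      (polyEquivTensor K T).toAlgHom, Algebra.TensorProduct.includeRight, ?_, ?_⟩
  · have h1 : Function.Injective
        (Algebra.TensorProduct.map (AlgHom.id K T) (IsScalarTower.toAlgHom K K[X] A)) :=
      Module.Flat.lTensor_preserves_injective_linearMap (M := T)
        (IsScalarTower.toAlgHom K K[X] A).toLinearMap hinj
    exact h1.comp (polyEquivTensor K T).injective
  · simp [polyEquivTensor_apply]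

omit [DecidableEq ι] in
theorem facS5_rep {u : K} {f : A[X]} {D : (MvPolynomial (Fin m × ι) K)[X]} (hu : u ≠ 0)
    (h : fac_Rep S u f D) {W : Type} [CommRing W] [Algebra K W] (θ : A →ₐ[K] W)
    (a b : Fin m × ι → W)
    (hab : ∀ φ : A →ₐ[K] W, φ (xA K A) = θ (xA K A) → gam S.e φ a = gam S.e φ b) :
    D.eval₂ (MvPolynomial.aeval a).toRingHom (θ (xA K A)) =
      D.eval₂ (MvPolynomial.aeval b).toRingHom (θ (xA K A)) := by
  refine ((IsUnit.mk0 u hu).map (algebraMap K W)).mul_left_cancel ?_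
  rw [h W θ a, h W θ b]
  refine finprod_congr fun g => ?_
  rw [hab]
  change θ (g (algebraMap K[X] A X)) = _
  rw [g.commutes]

theorem facS5_gam {W : Type} [CommRing W] [Algebra K W] (φ : A →ₐ[K] W) (a : Fin m × ι → W)
    (β : Fin m → W) :
    (gam S.e φ fun v => a v + if (v.1 : ℕ) = 0 ∧ v.2 = S.j0 then
      ∑ i, β i * φ (xA K A) ^ (i : ℕ) else 0) = gam S.e φ fun v => a v + S.emb β v := by
  have hm : 0 < m := lt_of_lt_of_le (by norm_num) S.hm
  simp only [gam, add_mul, Finset.sum_add_distrib]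
  congr 1
  rw [Finset.sum_eq_single ((⟨0, hm⟩ : Fin m), S.j0), Fintype.sum_prod_type]
  · simp [Su.emb, S.he0]
  · intro v _ hv
    rw [if_neg, zero_mul]
    exact fun h => hv (Prod.ext (Fin.ext h.1) h.2)
  · intro h
    exact absurd (Finset.mem_univ _) h

theorem fac_s5 (hinj : Function.Injective (algebraMap K[X] A)) : fac_S5 S := by
  intro u f D hu h a T _ _ α
  obtain ⟨W, _, _, Φ, θ, hΦ, hx⟩ := facS5_emb hinj T
  apply hΦ
  have key := facS5_rep S hu h θ
    (fun v => algebraMap K W (a v) + if (v.1 : ℕ) = 0 ∧ v.2 = S.j0 then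
      ∑ i, Φ (C (α i)) * θ (xA K A) ^ (i : ℕ) else 0)
    (fun v => algebraMap K W (a v) + S.emb (fun i => Φ (C (α i))) v)
    (fun φ hφ => by rw [← hφ]; exact facS5_gam S φ _ _)
  have hC : ∀ r : K, Φ (C (algebraMap K T r)) = algebraMap K W r := fun r => Φ.commutes r
  refine Eq.trans ?_ (key.trans ?_)
  · have e1 := hom_eval₂ D (MvPolynomial.aeval fun v : Fin m × ι => (C (C (a v)) +
      if (v.1 : ℕ) = 0 ∧ v.2 = S.j0 then X - C (X ^ S.M) else 0 : K[X][X])).toRingHom
      ((Φ : T[X] →+* W).comp (eval₂RingHom (mapRingHom (algebraMap K T))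
        (X ^ S.M + ∑ i, C (α i) * X ^ (i : ℕ)))) (C X)
    rw [grf, eval_map, Su.Sl]
    refine e1.trans ?_
    congr 1
    · refine MvPolynomial.ringHom_ext (fun r => ?_) fun v => ?_
      · simp [hC]
      · by_cases hv : (v.1 : ℕ) = 0 ∧ v.2 = S.j0
        · simp [hv, hC, hx, eval₂_pow]
        · simp [hv, hC]
    · simp [hx]
  · have e2 := hom_eval₂ (D.map (MvPolynomial.aeval fun v =>
      algebraMap K T (a v) + S.emb α v).toRingHom) C (Φ : T[X] →+* W) X
    rw [eval₂_C_X, eval₂_map] at e2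
    refine Eq.trans ?_ e2.symm
    congr 1
    refine MvPolynomial.ringHom_ext (fun r => ?_) fun v => ?_
    · simp [hC]
    · by_cases hv : v.2 = S.j0
      · simp [Su.emb, hv, hC]
      · simp [Su.emb, hv, hC]

end

section

variable {K A ι : Type} [Field K] [CommRing A] [IsDedekindDomain A] [Algebra K A]
  [Algebra K[X] A] [IsScalarTower K K[X] A] [Fintype ι] [DecidableEq ι] {m : ℕ} (S : Su K A ι m)

/-- The coordinates of the slice, over `A[X]`. -/
noncomputable def facS6_a (a : Fin m × ι → K) (v : Fin m × ι) : A[X] :=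
  C (algebraMap K A (a v)) + if (v.1 : ℕ) = 0 ∧ v.2 = S.j0 then X - C (xA K A ^ S.M) else 0

theorem facS6_left (D : (MvPolynomial (Fin m × ι) K)[X]) (a : Fin m × ι → K) :
    (S.Sl D a).map (algebraMap K[X] A) =
      D.eval₂ (MvPolynomial.aeval (facS6_a S a)).toRingHom (C (xA K A)) := by
  have h := Polynomial.hom_eval₂ D (MvPolynomial.aeval fun v => (C (C (a v)) +
    if (v.1 : ℕ) = 0 ∧ v.2 = S.j0 then X - C (X ^ S.M) else 0 : K[X][X])).toRingHom
    (mapRingHom (algebraMap K[X] A)) (C X)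
  have hC : ∀ k : K, algebraMap K[X] A (C k) = algebraMap K A k := fun k => by
    rw [IsScalarTower.algebraMap_apply K K[X] A, Polynomial.algebraMap_apply]; rfl
  have h2 : (mapRingHom (algebraMap K[X] A)).comp (MvPolynomial.aeval fun v => (C (C (a v)) +
      if (v.1 : ℕ) = 0 ∧ v.2 = S.j0 then X - C (X ^ S.M) else 0 : K[X][X])).toRingHom =
      (MvPolynomial.aeval (R := K) (facS6_a S a)).toRingHom := by
    refine MvPolynomial.ringHom_ext (fun k => ?_) (fun v => ?_)
    · simp [Polynomial.algebraMap_apply, hC]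
    · by_cases hv : (v.1 : ℕ) = 0 ∧ v.2 = S.j0
      · simp [facS6_a, hv, hC]
      · simp [facS6_a, hv, hC]
  rw [h2] at h
  simpa [Sl] using h

theorem facS6_gam (g : A ≃ₐ[K[X]] A) (a : Fin m × ι → K) :
    (C (xA K A) : A[X]) ^ S.M + gam S.e ((IsScalarTower.toAlgHom K A A[X]).comp
      (g.restrictScalars K).toAlgHom) (facS6_a S a) =
    X + C (g (gam S.e (AlgHom.id K A) fun v => algebraMap K A (a v))) := by
  have hm : 0 < m := lt_of_lt_of_le (by norm_num) S.hm
  have hx : g (xA K A) = xA K A := g.commutes X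
  have hk : ∀ k : K, g (algebraMap K A k) = algebraMap K A k := fun k =>
    (g.restrictScalars K).commutes k
  have hθ : ∀ y : A, ((IsScalarTower.toAlgHom K A A[X]).comp
      (g.restrictScalars K).toAlgHom) y = C (g y) := fun y => rfl
  simp only [gam, hθ, facS6_a, add_mul, Finset.sum_add_distrib, map_sum, map_mul, map_pow, hx, hk,
    AlgHom.id_apply]
  rw [Finset.sum_eq_single (f := fun v : Fin m × ι => (if (v.1 : ℕ) = 0 ∧ v.2 = S.j0 then
    (X - C (xA K A) ^ S.M : A[X]) else 0) * (C (xA K A) ^ (v.1 : ℕ) * C (g (S.e v.2))))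
    ((⟨0, hm⟩ : Fin m), S.j0)]
  · simp [S.he0]
    ring
  · intro v _ hv
    rw [if_neg, zero_mul]
    rintro ⟨h1, h2⟩
    exact hv (Prod.ext (Fin.ext h1) h2)
  · intro h
    exact absurd (Finset.mem_univ _) h

theorem fac_s6 : fac_S6 S := by
  intro u f D hR a
  have h := hR A[X] (IsScalarTower.toAlgHom K A A[X]) (facS6_a S a)
  have hx : IsScalarTower.toAlgHom K A A[X] (xA K A) = C (xA K A) := rfl
  have hC : algebraMap K[X] A (C u) = algebraMap K A u := by
    rw [IsScalarTower.algebraMap_apply K K[X] A, Polynomial.algebraMap_apply]; rfl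
  rw [hx] at h
  rw [Polynomial.map_mul, Polynomial.map_C, facS6_left, hC, ← Polynomial.algebraMap_apply, h]
  refine finprod_congr fun g => ?_
  rw [facS6_gam, Polynomial.map_comp, Polynomial.comp, Polynomial.eval₂_map, Polynomial.map_add,
    Polynomial.map_X, Polynomial.map_C]
  rfl

end

section

variable {K A ι : Type} [Field K] [CommRing A] [IsDedekindDomain A] [Algebra K A]
  [Algebra K[X] A] [IsScalarTower K K[X] A] [Fintype ι] [DecidableEq ι] {m : ℕ} (S : Su K A ι m)

theorem fac_s7 (hfin : Finite (A ≃ₐ[K[X]] A)) (hinj : Function.Injective (algebraMap K[X] A)) :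
    fac_S7 K A := by
  classical
  intro H φ hφ hirr hH hsep
  have := Fintype.ofFinite (A ≃ₐ[K[X]] A)
  rw [finprod_eq_prod_of_fintype] at hH
  set j := algebraMap A (FractionRing A) with hjd
  have hj : Function.Injective j := IsFractionRing.injective _ _
  have hm : H.Monic :=
    monic_of_injective hinj (hH ▸ monic_prod_of_monic _ _ fun g _ => hφ.map _)
  have hψ : Function.Injective (j.comp (algebraMap K[X] A)) := hj.comp hinj
  have hHL : (H.map (algebraMap K[X] A)).map j =
      ∏ g : A ≃ₐ[K[X]] A, (φ.map (g : A →+* A)).map j := by rw [hH, Polynomial.map_prod]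
  have hs : (∏ g : A ≃ₐ[K[X]] A, (φ.map (g : A →+* A)).map j).Separable := by
    obtain ⟨ψ, e⟩ : ∃ ψ : FractionRing K[X] →+* FractionRing A,
        ψ.comp (algebraMap K[X] (FractionRing K[X])) = j.comp (algebraMap K[X] A) :=
      ⟨IsFractionRing.lift hψ, RingHom.ext fun s => by
        rw [RingHom.comp_apply, IsFractionRing.lift_algebraMap]⟩
    have h1 := hsep.map (f := ψ)
    rwa [Polynomial.map_map, e, ← Polynomial.map_map, hHL] at h1
  have hc : ∀ g g' : A ≃ₐ[K[X]] A, g ≠ g' →
      IsCoprime ((φ.map (g : A →+* A)).map j) ((φ.map (g' : A →+* A)).map j) := fun g g' h => by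
    refine (hs.of_dvd ?_).isCoprime
    rw [← Finset.prod_pair (f := fun g : A ≃ₐ[K[X]] A => (φ.map (g : A →+* A)).map j) h]
    exact Finset.prod_dvd_prod_of_subset _ _ _ (Finset.subset_univ _)
  have h1 : φ.map j ∣ (H.map (algebraMap K[X] A)).map j := by
    rw [hHL]
    have h2 := Finset.dvd_prod_of_mem (fun g : A ≃ₐ[K[X]] A => (φ.map (g : A →+* A)).map j)
      (Finset.mem_univ (AlgEquiv.refl : A ≃ₐ[K[X]] A))
    have h3 : ((AlgEquiv.refl : A ≃ₐ[K[X]] A) : A →+* A) = RingHom.id A := rfl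
    rwa [h3, Polynomial.map_id] at h2
  have key : ∀ p r : K[X][X], p.Monic → r.Monic → p * r = H →
      φ.map j ∣ (p.map (algebraMap K[X] A)).map j → r.natDegree = 0 := fun p r hp hr e hd => by
    have h2 : φ ∣ p.map (algebraMap K[X] A) := (map_dvd_map j hj hφ).1 hd
    have h3 : ∀ g : A ≃ₐ[K[X]] A, (φ.map (g : A →+* A)).map j ∣
        (p.map (algebraMap K[X] A)).map j := fun g => by
      have h4 := Polynomial.map_dvd (g : A →+* A) h2
      have h5 : (g : A →+* A).comp (algebraMap K[X] A) = algebraMap K[X] A :=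
        RingHom.ext fun s => g.commutes s
      rw [Polynomial.map_map, h5] at h4
      exact Polynomial.map_dvd j h4
    have h6 := Finset.prod_dvd_of_coprime (t := Finset.univ) (fun g _ g' _ h => hc g g' h)
      fun g _ => h3 g
    rw [← hHL] at h6
    have h7 := natDegree_le_of_dvd h6 ((hp.map _).map j).ne_zero
    rw [(hm.map _).natDegree_map, hm.natDegree_map, (hp.map _).natDegree_map, hp.natDegree_map,
      ← e, hp.natDegree_mul hr] at h7
    omega
  refine ⟨hm, hm.irreducible_iff_natDegree.2 ⟨fun e => ?_, fun p r hp hr e => ?_⟩⟩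
  · rw [e, Polynomial.map_one, Polynomial.map_one] at h1
    exact hirr.not_isUnit (isUnit_of_dvd_one h1)
  · rw [← e, Polynomial.map_mul, Polynomial.map_mul] at h1
    rcases hirr.prime.dvd_or_dvd h1 with h | h
    · exact Or.inr (key p r hp hr e h)
    · exact Or.inl (key r p hr hp ((mul_comm r p).trans e) h)

end

section

variable {K A ι : Type} [Field K] [CommRing A] [IsDedekindDomain A] [Algebra K A]
  [Algebra K[X] A] [IsScalarTower K K[X] A] [Fintype ι] [DecidableEq ι] {m : ℕ} (S : Su K A ι m)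

theorem facM_nu (P : K[X][X]) (hi : Irreducible P) (hl : IsUnit P.leadingCoeff) :
    ¬ IsUnit (P.map (algebraMap K[X] (FractionRing K[X]))) := by
  intro hu
  have h0 := natDegree_eq_zero_of_isUnit hu
  rw [natDegree_map_eq_of_injective (IsFractionRing.injective _ _)] at h0
  apply hi.not_isUnit
  rw [eq_C_of_natDegree_eq_zero h0]
  refine IsUnit.map C ?_
  rwa [leadingCoeff, h0] at hl

theorem facM_crv {s : ℕ} (P : Fin s → K[X][X])
    (h : ∀ j, Irreducible (P j) ∧ IsUnit (P j).leadingCoeff)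
    (hs : ((∏ j, P j).map (algebraMap K[X] (FractionRing K[X]))).Separable) :
    MP_a9d3bd_g.Crv P := by
  refine ⟨fun i => (h i).1, fun i => (h i).2, fun i hd => ?_, fun i j hij hd => ?_⟩
  · have h1 : ((P i).map (algebraMap K[X] (FractionRing K[X]))).Separable :=
      hs.of_dvd (Polynomial.map_dvd _ (Finset.dvd_prod_of_mem _ (Finset.mem_univ i)))
    rw [Separable, derivative_map, hd, Polynomial.map_zero, isCoprime_zero_right] at h1
    exact facM_nu _ (h i).1 (h i).2 h1
  · have h1 : P i * P j ∣ ∏ j, P j := by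
      rw [← Finset.prod_pair hij]
      exact Finset.prod_dvd_prod_of_subset _ _ _ (Finset.subset_univ _)
    have h2 : P i * P i ∣ ∏ j, P j := (mul_dvd_mul_left _ hd).trans h1
    have h3 := Polynomial.map_dvd (algebraMap K[X] (FractionRing K[X])) h2
    rw [Polynomial.map_mul] at h3
    exact facM_nu _ (h i).1 (h i).2 (hs.squarefree _ h3)

theorem facM_ev {V T : Type} [CommRing T] [Algebra K T] (a : V → T) (x : T) (k : K)
    (D : (MvPolynomial V K)[X]) :
    (C (MvPolynomial.C k) * D).eval₂ (MvPolynomial.aeval a).toRingHom x =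
      algebraMap K T k * D.eval₂ (MvPolynomial.aeval a).toRingHom x := by
  rw [eval₂_mul, eval₂_C]
  congr 1
  exact MvPolynomial.aeval_C a k

omit [DecidableEq ι] in
theorem facM_prod {s : ℕ} (f : Fin s → A[X]) (E : Fin s → (MvPolynomial (Fin m × ι) K)[X])
    (hE : ∀ j, fac_Rep S 1 (f j) (E j)) (b : K) :
    fac_Rep S (b ^ Nat.card (A ≃ₐ[K[X]] A)) (C (algebraMap K A b) * ∏ j, f j) (∏ j, E j) := by
  intro T _ _ θ a
  have := S.hfin
  have := Fintype.ofFinite (A ≃ₐ[K[X]] A)
  have h := fun j => hE j T θ a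
  simp only [map_one, one_mul, finprod_eq_prod_of_fintype] at h
  rw [finprod_eq_prod_of_fintype, eval₂_finsetProd, Finset.prod_congr rfl fun j _ => h j,
    Finset.prod_comm, map_pow, Nat.card_eq_fintype_card, ← Finset.card_univ, ← Finset.prod_const,
    ← Finset.prod_mul_distrib]
  refine Finset.prod_congr rfl fun g _ => ?_
  rw [eval₂_mul, eval₂_C, eval₂_finsetProd]
  congr 1
  exact ((θ.comp (g.restrictScalars K).toAlgHom).commutes b).symm

theorem facM_can {R : Type} [CommRing R] [IsDomain R] {x y : R} {P Q : R[X]} (hP : P.Monic)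
    (hQ : Q.Monic) (hy : y ≠ 0) (h : C x * P = C y * Q) : P = Q := by
  have h1 := congrArg leadingCoeff h
  rw [leadingCoeff_mul, leadingCoeff_mul, hP.leadingCoeff, hQ.leadingCoeff, leadingCoeff_C,
    leadingCoeff_C, mul_one, mul_one] at h1
  rw [h1] at h
  exact mul_left_cancel₀ (C_ne_zero.2 hy) h

theorem facM_main (h1 : fac_S1 S) (h2 : fac_S2 S) (h3 : fac_S3 K A ι m) (h4 : fac_S4 S)
    (h5 : fac_S5 S) (h6 : fac_S6 S) (h7 : fac_S7 K A) {c : K} {g : Fin m × ι → K}
    (h : S.Adm c g) :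
    ∃ (s : ℕ) (D : Fin s → (MvPolynomial (Fin m × ι) K)[X]), (∀ j, (D j).Monic) ∧
      ∏ j, D j = S.NH c g ∧
      (∀ j a (T : Type) [CommRing T] [Algebra K T] (α : Fin m → T), grf S.M (S.Sl (D j) a) α =
        (D j).map (MvPolynomial.aeval fun v => algebraMap K T (a v) + S.emb α v).toRingHom) ∧
      ∀ a, ((S.Sl (S.NH c g) a).map (algebraMap K[X] (FractionRing K[X]))).Separable →
        MP_a9d3bd_g.Crv fun j => S.Sl (D j) a := by
  obtain ⟨s, f, hf, hfac⟩ := h4 c g h.1
  choose E hE using fun j => h2 (f j)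
  have hA := facM_prod S f E hE (pd S.P S.d c)
  rw [← hfac] at hA
  have hB := h1 c g
  set u := pd S.P S.d c ^ Nat.card (A ≃ₐ[K[X]] A) with hu
  set u0 := pd S.P S.d S.c0 ^ Nat.card (A ≃ₐ[K[X]] A) with hu0
  have hu0' : u0 ≠ 0 := pow_ne_zero _ S.h0
  have hN : (S.NH c g).Monic := S.hNm.map _
  have hEq : C (MvPolynomial.C u) * ∏ j, E j = C (MvPolynomial.C u0) * S.NH c g := by
    apply h3
    rw [facM_ev, facM_ev]
    exact (hA (MvPolynomial (Fin m × ι) A) (IsScalarTower.toAlgHom K A _) MvPolynomial.X).trans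
      (hB (MvPolynomial (Fin m × ι) A) (IsScalarTower.toAlgHom K A _) MvPolynomial.X).symm
  have hk : ∀ j, ∃ k : K, k ≠ 0 ∧ (E j).leadingCoeff = MvPolynomial.C k := by
    intro j
    have h1 := congrArg leadingCoeff hEq
    rw [leadingCoeff_mul, leadingCoeff_mul, hN.leadingCoeff, leadingCoeff_C, leadingCoeff_C,
      mul_one, leadingCoeff_prod] at h1
    have h2 : IsUnit (E j).leadingCoeff := by
      refine isUnit_of_dvd_unit ?_ ((IsUnit.mk0 u0 hu0').map (MvPolynomial.C (σ := Fin m × ι)))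
      rw [← h1]
      exact Dvd.dvd.mul_left (Finset.dvd_prod_of_mem (fun i => (E i).leadingCoeff)
        (Finset.mem_univ j)) _
    obtain ⟨r, hr, he⟩ := MvPolynomial.isUnit_iff_eq_C_of_isReduced.1 h2
    exact ⟨r, hr.ne_zero, he⟩
  choose k hk0 hk using hk
  set D : Fin s → (MvPolynomial (Fin m × ι) K)[X] :=
    fun j => C (MvPolynomial.C (k j)⁻¹) * E j with hD
  have hED : ∀ j, E j = C (MvPolynomial.C (k j)) * D j := by
    intro j
    rw [hD, ← mul_assoc, ← map_mul, ← map_mul, mul_inv_cancel₀ (hk0 j), map_one, map_one, one_mul]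
  have hDm : ∀ j, (D j).Monic := by
    intro j
    rw [hD, Monic, leadingCoeff_mul, leadingCoeff_C, hk, ← map_mul, inv_mul_cancel₀ (hk0 j),
      map_one]
  have hR : ∀ j, fac_Rep S (k j) (f j) (D j) := by
    intro j T _ _ θ a
    rw [← facM_ev, ← hED, ← hE j T θ a, map_one, one_mul]
  have hP : ∏ j, D j = S.NH c g := by
    rw [Finset.prod_congr rfl fun j _ => hED j, Finset.prod_mul_distrib, ← map_prod, ← mul_assoc,
      ← map_mul] at hEq
    exact facM_can (monic_prod_of_monic _ _ fun j _ => hDm j) hN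
      (fun h0 => hu0' (MvPolynomial.C_injective (Fin m × ι) K (h0.trans (map_zero _).symm))) hEq
  refine ⟨s, D, hDm, hP, fun j a T _ _ α => h5 _ _ _ (hk0 j) (hR j) a T α, fun a hs => ?_⟩
  have hS : S.Sl (S.NH c g) a = ∏ j, S.Sl (D j) a := by
    rw [← hP]
    exact eval₂_finsetProd _ _ _ _
  rw [hS] at hs
  refine facM_crv _ (fun j => ?_) hs
  have hun : IsUnit (C (C (k j)) : K[X][X]) := ((IsUnit.mk0 _ (hk0 j)).map C).map C
  have hs1 : ((S.Sl (D j) a).map (algebraMap K[X] (FractionRing K[X]))).Separable :=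
    hs.of_dvd (Polynomial.map_dvd _ (Finset.dvd_prod_of_mem (fun j => S.Sl (D j) a)
      (Finset.mem_univ j)))
  obtain ⟨hm, hi⟩ := h7 _ _ ((hf j).1.comp_X_add_C _) (by
      rw [Polynomial.map_comp, Polynomial.map_add, map_X, map_C]
      exact (MulEquiv.irreducible_iff (taylorEquiv _)).2 (hf j).2) (h6 _ _ _ (hR j) a) (by
      rw [Polynomial.map_mul]
      exact hs1.unit_mul (hun.map (mapRingHom _)))
  refine ⟨(irreducible_isUnit_mul hun).1 hi, ?_⟩
  rw [Monic, leadingCoeff_mul] at hm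
  exact IsUnit.of_mul_eq_one_right _ hm

end

variable {K A ι : Type} [Field K] [IsAlgClosed K] [CommRing A] [IsDedekindDomain A] [Algebra K A]
  [Algebra K[X] A] [IsScalarTower K K[X] A] [Module.Finite K[X] A] [Module.IsTorsionFree K[X] A]
  [Fintype ι] [DecidableEq ι] {m : ℕ} (S : Su K A ι m) (p : ℕ) [Fact p.Prime] [CharP K p]

theorem fac {c : K} {g : Fin m × ι → K} (h : S.Adm c g) :
    ∃ (s : ℕ) (D : Fin s → (MvPolynomial (Fin m × ι) K)[X]), (∀ j, (D j).Monic) ∧
      ∏ j, D j = S.NH c g ∧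
      (∀ j a (T : Type) [CommRing T] [Algebra K T] (α : Fin m → T), grf S.M (S.Sl (D j) a) α =
        (D j).map (MvPolynomial.aeval fun v => algebraMap K T (a v) + S.emb α v).toRingHom) ∧
      ∀ a, ((S.Sl (S.NH c g) a).map (algebraMap K[X] (FractionRing K[X]))).Separable →
        MP_a9d3bd_g.Crv fun j => S.Sl (D j) a :=
  have hinj : Function.Injective (algebraMap K[X] A) := FaithfulSMul.algebraMap_injective K[X] A
  facM_main S (fac_s1 S) (fac_s2 S) (fac_s3 hinj) (fac_s4 S) (fac_s5 S hinj) (fac_s6 S)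
    (fac_s7 S.hfin hinj) h

end Pool.Agent.MP_a9d3bd_zz
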