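import Pool.Agent.MP_a9d3bd_zz.Defs

namespace Pool.Agent.MP_a9d3bd_zz

open Polynomial Su

theorem sepa_top {K T : Type} [Field K] [CommRing T] [Algebra K T] (P : MvPolynomial (Fin 3) K)
    (d : ℕ) (hP : P.totalDegree ≤ d) (u : Fin 3 → T[X]) (hu : ∀ i, (u i).natDegree ≤ 1) :
    (MvPolynomial.aeval u P).natDegree ≤ d ∧ (MvPolynomial.aeval u P).coeff d =
      MvPolynomial.aeval (fun i => (u i).coeff 1) (MvPolynomial.homogeneousComponent d P) := by
  have k : ∀ (s : Fin 3 →₀ ℕ) (a : K),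
      (MvPolynomial.aeval u (MvPolynomial.monomial s a)).natDegree ≤ s.degree ∧
      (MvPolynomial.aeval u (MvPolynomial.monomial s a)).coeff s.degree =
        MvPolynomial.aeval (fun i => (u i).coeff 1) (MvPolynomial.monomial s a) := fun s a => by
    have p1 : ∀ i, (u i ^ s i).natDegree ≤ s i := fun i =>
      natDegree_pow_le.trans ((Nat.mul_le_mul_left _ (hu i)).trans_eq (mul_one _))
    have p2 : ∀ i, (u i ^ s i).coeff (s i) = (u i).coeff 1 ^ s i := fun i => by
      rw [← coeff_pow_of_natDegree_le (hu i), mul_one]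
    have p3 := natDegree_mul_le_of_le (p1 0) (p1 1)
    simp only [MvPolynomial.aeval_monomial, Finsupp.degree_eq_sum, Fin.sum_univ_three,
      Finsupp.prod_pow, Fin.prod_univ_three, Polynomial.algebraMap_apply]
    refine ⟨(natDegree_C_mul_le _ _).trans (natDegree_mul_le_of_le p3 (p1 2)), ?_⟩
    rw [coeff_C_mul, coeff_mul_add_eq_of_natDegree_le p3 (p1 2),
      coeff_mul_add_eq_of_natDegree_le (p1 0) (p1 1), p2, p2, p2]
  have l : ∀ s ∈ P.support, s.degree ≤ d := fun s hs => (MvPolynomial.le_totalDegree hs).trans hP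
  constructor
  · rw [P.as_sum, map_sum]
    exact natDegree_sum_le_of_forall_le _ _ fun s hs => (k s _).1.trans (l s hs)
  · rw [MvPolynomial.homogeneousComponent_apply, Finset.sum_filter, map_sum]
    conv_lhs => rw [P.as_sum, map_sum, finsetSum_coeff]
    refine Finset.sum_congr rfl fun s hs => ?_
    split_ifs with h
    · rw [← h]
      exact (k s _).2
    · rw [map_zero]
      exact coeff_eq_zero_of_natDegree_lt ((k s _).1.trans_lt (lt_of_le_of_ne (l s hs) h))

theorem sepa_res {T : Type} [Field T] {f : T[X]} {n : ℕ} (h0 : f ≠ 0) (hn : f.natDegree = n) :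
    resultant f (derivative f) n n ≠ 0 ↔ f.Separable := by
  obtain ⟨k, hk⟩ := Nat.exists_eq_add_of_le ((natDegree_derivative_le f).trans (Nat.sub_le _ 1))
  have e := resultant_add_right_deg f (derivative f) f.natDegree _ k le_rfl
  rw [← hk, hn] at e
  rw [e, ← hn, mul_ne_zero_iff, Ne, Ne, resultant_eq_zero_iff, separable_def]
  simp [h0]

theorem sepa_pt {K A : Type} [Field K] [IsAlgClosed K] [CommRing A] [IsDomain A] [Algebra K A]
    [Algebra.FiniteType K A] {b : A} (hb : b ≠ 0) : ∃ θ : A →ₐ[K] K, θ b ≠ 0 := by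
  have := isJacobsonRing_of_finiteType (A := K) (B := A)
  have h : b ∉ (⊥ : Ideal A).jacobson := by
    rwa [IsJacobsonRing.out inferInstance Ideal.isPrime_bot.isRadical, Ideal.mem_bot]
  obtain ⟨M, h1, h2⟩ : ∃ M : Ideal A, M.IsMaximal ∧ b ∉ M := by
    by_contra k
    exact h (Ideal.mem_sInf.2 fun {M} hM => by_contra fun k' => k ⟨M, hM.2, k'⟩)
  let := Ideal.Quotient.field M
  have := finite_of_finite_type_of_isJacobsonRing K (A ⧸ M)
  refine ⟨(IsAlgClosed.lift : (A ⧸ M) →ₐ[K] K).comp (Ideal.Quotient.mkₐ K M), fun e => h2 ?_⟩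
  exact Ideal.Quotient.eq_zero_iff_mem.1 ((map_eq_zero (IsAlgClosed.lift : (A ⧸ M) →ₐ[K] K)).1 e)

variable {K A ι : Type} [Field K] [IsAlgClosed K] [CommRing A] [IsDedekindDomain A] [Algebra K A]
  [Algebra K[X] A] [IsScalarTower K K[X] A] [Module.Finite K[X] A] [Module.IsTorsionFree K[X] A]
  [Fintype ι] [DecidableEq ι] {m : ℕ} (S : Su K A ι m) (p : ℕ) [Fact p.Prime] [CharP K p]

section
variable {T T' : Type} [CommRing T] [Algebra K T] [CommRing T'] [Algebra K T']

omit [IsAlgClosed K] [Module.Finite K[X] A] [Module.IsTorsionFree K[X] A] [DecidableEq ι]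

theorem sepa_fp (θ : A →ₐ[K] T) (c : T) (g : Fin m × ι → T) :
    (S.fp θ c g).natDegree ≤ S.d ∧ (S.fp θ c g).coeff S.d = pd S.P S.d c := by
  have h := sepa_top S.P S.d S.hP ![C (θ (xA K A)), X, S.wl θ c g] fun i => by
    fin_cases i
    · simp
    · exact natDegree_X_le
    · simp only [wl, Fin.reduceFinMk, Matrix.cons_val]
      compute_degree
  refine ⟨h.1, h.2.trans (congrArg (fun u => MvPolynomial.aeval u _) (funext fun i => ?_))⟩
  fin_cases i
  · simp
  · simp
  · simp only [wl, Fin.reduceFinMk, Matrix.cons_val, coeff_add, coeff_C_mul, coeff_sub, coeff_X_one,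
      coeff_C_succ]
    simp

theorem sepa_map (φ : T →ₐ[K] T') (θ : A →ₐ[K] T) (c : T) (g : Fin m × ι → T) :
    (S.fp θ c g).map φ.toRingHom = S.fp (φ.comp θ) (φ c) fun v => φ (g v) := by
  refine (MvPolynomial.comp_aeval_apply _ (mapAlgHom φ) S.P).trans
    (congrArg (fun u => MvPolynomial.aeval u _) (funext fun i => ?_))
  fin_cases i <;> simp [wl, gam, Polynomial.map_sum]

theorem sepa_pd (φ : T →ₐ[K] T') (c : T) : φ (pd S.P S.d c) = pd S.P S.d (φ c) := by
  refine (MvPolynomial.comp_aeval_apply _ φ _).trans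
    (congrArg (fun u => MvPolynomial.aeval u _) (funext fun i => ?_))
  fin_cases i <;> simp

end

omit [IsAlgClosed K] [Module.Finite K[X] A] [Module.IsTorsionFree K[X] A] in
theorem sepa_kf {T : Type} [CommRing T] [Algebra K T] (θ : A →ₐ[K] T) (c : K)
    (g a : Fin m × ι → K) :
    C (algebraMap K T (pd S.P S.d S.c0)) ^ Nat.card (A ≃ₐ[K[X]] A) *
      (S.Sl (S.NH c g) a).map (θ.comp (IsScalarTower.toAlgHom K K[X] A)).toRingHom =
    ∏ᶠ σ : A ≃ₐ[K[X]] A, (S.fp (θ.comp (σ.restrictScalars K).toAlgHom) (algebraMap K T c)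
      fun v => algebraMap K T (g v)).comp (X + C (gam S.e (θ.comp (σ.restrictScalars K).toAlgHom)
        fun v => algebraMap K T (a v))) := by
  obtain ⟨α, hα⟩ : ∃ α : Fin m × ι → T[X], α = fun v => C (algebraMap K T (a v)) +
    if (v.1 : ℕ) = 0 ∧ v.2 = S.j0 then X - C (θ (xA K A) ^ S.M) else 0 := ⟨_, rfl⟩
  have h := S.hN T[X] ((CAlgHom (R := K)).comp θ) α
    fun v => C (algebraMap K T (g v)) + C (algebraMap K T c) * α v
  refine Eq.trans ?_ (h.trans (finprod_congr fun σ => ?_))
  · congr 1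
    refine (hom_eval₂ _ _ (mapRingHom _) _).trans ?_
    rw [NH, Nf, eval₂_map]
    congr 1
    · refine congrArg AlgHom.toRingHom (a₁ := ((mapAlgHom (θ.comp
        (IsScalarTower.toAlgHom K K[X] A))).comp (MvPolynomial.aeval _)).comp
          (MvPolynomial.aeval _)) (MvPolynomial.algHom_ext fun v => ?_)
      have e : ∀ r, θ (algebraMap K[X] A (C r)) = algebraMap K T r := fun r => by
        rw [← algebraMap_eq, ← IsScalarTower.algebraMap_apply, AlgHom.commutes]
      rcases v with v | v <;> simp [hα, e, apply_ite (Polynomial.map _)]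
    · simp
  · have ex : σ (xA K A) = xA K A := σ.commutes _
    have m0 : 0 < m := lt_of_lt_of_le (by norm_num) S.hm
    have e1 : gam S.e (((CAlgHom (R := K)).comp θ).comp (σ.restrictScalars K).toAlgHom) α =
        C (gam S.e (θ.comp (σ.restrictScalars K).toAlgHom) fun v => algebraMap K T (a v)) +
          (X - C (θ (xA K A) ^ S.M)) := by
      simp only [gam, hα, add_mul, Finset.sum_add_distrib, map_sum]
      congr 1
      · simp
      · rw [Finset.sum_eq_single (⟨0, m0⟩, S.j0)]
        · simp [S.he0]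
        · exact fun v _ hv => by
            rw [if_neg fun k => hv (Prod.ext (Fin.ext k.1) k.2), zero_mul]
        · simp
    have e2 : gam S.e (((CAlgHom (R := K)).comp θ).comp (σ.restrictScalars K).toAlgHom)
        (fun v => C (algebraMap K T (g v)) + C (algebraMap K T c) * α v) =
        C (gam S.e (θ.comp (σ.restrictScalars K).toAlgHom) fun v => algebraMap K T (g v)) +
          C (algebraMap K T c) *
            gam S.e (((CAlgHom (R := K)).comp θ).comp (σ.restrictScalars K).toAlgHom) α := by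
      simp only [gam, add_mul, Finset.sum_add_distrib, map_sum, Finset.mul_sum, mul_assoc]
      simp
    rw [e2, e1]
    refine Eq.trans (congrArg (fun u => MvPolynomial.aeval u _) (funext fun i => ?_))
      (MvPolynomial.comp_aeval_apply _ ((aeval (X + C (gam S.e (θ.comp
        (σ.restrictScalars K).toAlgHom) fun v => algebraMap K T (a v)))).restrictScalars K)
          S.P).symm
    fin_cases i
    · simp [ex]
    · simp
      ring
    · simp [ex, wl]
      ring

theorem sepa : ∃ D : ℕ, ∀ (c : K) (g : Fin m × ι → K), S.Adm c g →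
    ∃ Ψ : MvPolynomial (Fin m × ι) K, Ψ ≠ 0 ∧ Ψ.totalDegree ≤ D ∧ ∀ a, MvPolynomial.eval a Ψ ≠ 0 →
      ((S.Sl (S.NH c g) a).map (algebraMap K[X] (FractionRing K[X]))).Separable := by
  classical
  have := S.hfin
  let := Fintype.ofFinite (A ≃ₐ[K[X]] A)
  have : Algebra.FiniteType K A := .trans (S := K[X]) inferInstance inferInstance
  have m0 : 0 < m := lt_of_lt_of_le (by norm_num) S.hm
  refine ⟨(Finset.univ : Finset (A ≃ₐ[K[X]] A)).offDiag.card * (S.d * S.d),
    fun c g ⟨hc, θ1, h1⟩ => ?_⟩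
  have dg : ∀ θ : A →ₐ[K] K, S.fp θ c g ≠ 0 ∧ (S.fp θ c g).natDegree = S.d := fun θ =>
    have k : (S.fp θ c g).coeff S.d ≠ 0 := (sepa_fp S θ c g).2 ▸ hc
    ⟨fun e => k (by rw [e, coeff_zero]), natDegree_eq_of_le_of_coeff_ne_zero (sepa_fp S θ c g).1 k⟩
  obtain ⟨r, hr⟩ : ∃ r : A, ∀ θ : A →ₐ[K] K, θ r ≠ 0 ↔ (S.fp θ c g).Separable := by
    obtain ⟨F, hF⟩ : ∃ F, F = S.fp (AlgHom.id K A) (algebraMap K A c)
      fun v => algebraMap K A (g v) := ⟨_, rfl⟩
    refine ⟨resultant F (derivative F) S.d S.d, fun θ => ?_⟩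
    have e : F.map θ.toRingHom = S.fp θ c g := by rw [hF, sepa_map]; simp
    rw [← sepa_res (dg θ).1 (dg θ).2, ← e, derivative_map, resultant_map_map]
    rfl
  have r0 : r ≠ 0 := fun e => (hr θ1).2 h1 (by rw [e, map_zero])
  have ne : ∀ σ τ : A ≃ₐ[K[X]] A, σ ≠ τ → ∃ j, σ (S.e j) - τ (S.e j) ≠ 0 := fun σ τ h => by
    by_contra k
    refine h (AlgEquiv.ext fun x => LinearMap.congr_fun (LinearMap.ext_on_range
      (f := σ.toLinearMap) (g := τ.toLinearMap) S.hspan fun j => ?_) x)
    exact sub_eq_zero.1 (not_not.1 (not_exists.1 k j))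
  have : Nonempty ι := ⟨S.j0⟩
  choose! j hj using ne
  obtain ⟨θ, hθ⟩ := sepa_pt (K := K) (b := (∏ σ : A ≃ₐ[K[X]] A, σ r) *
    ∏ z ∈ (Finset.univ : Finset (A ≃ₐ[K[X]] A)).offDiag,
      (z.1 (S.e (j z.1 z.2)) - z.2 (S.e (j z.1 z.2))))
    (mul_ne_zero (Finset.prod_ne_zero_iff.2 fun σ _ => (map_ne_zero_iff _ σ.injective).2 r0)
      (Finset.prod_ne_zero_iff.2 fun z hz => hj _ _ (Finset.mem_offDiag.1 hz).2.2))
  rw [map_mul, map_prod, map_prod, mul_ne_zero_iff, Finset.prod_ne_zero_iff,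
    Finset.prod_ne_zero_iff] at hθ
  obtain ⟨t, ht⟩ : ∃ t : (A ≃ₐ[K[X]] A) → A →ₐ[K] K,
    t = fun σ => θ.comp (σ.restrictScalars K).toAlgHom := ⟨_, rfl⟩
  have sp : ∀ σ, (S.fp (t σ) c g).Separable := fun σ =>
    (hr _).1 (by rw [ht]; exact hθ.1 σ (Finset.mem_univ _))
  obtain ⟨l, l1, l2⟩ : ∃ l : (A ≃ₐ[K[X]] A) → MvPolynomial (Fin m × ι) K,
      (∀ σ, (l σ).totalDegree ≤ 1) ∧ ∀ σ a, MvPolynomial.eval a (l σ) = gam S.e (t σ) a :=
    ⟨fun σ => ∑ v, MvPolynomial.X v * MvPolynomial.C (t σ (xA K A) ^ (v.1 : ℕ) * t σ (S.e v.2)),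
      fun σ => MvPolynomial.totalDegree_finsetSum_le fun v _ =>
        (MvPolynomial.totalDegree_mul _ _).trans (by
          rw [MvPolynomial.totalDegree_X, MvPolynomial.totalDegree_C]),
      fun σ a => by simp only [map_sum, map_mul (MvPolynomial.eval a), MvPolynomial.eval_X,
        MvPolynomial.eval_C, gam]⟩
  have rc : ∀ σ, (S.fp (t σ) c g).roots.toFinset.card ≤ S.d := fun σ =>
    (Multiset.toFinset_card_le _).trans ((card_roots' _).trans (dg _).2.le)
  refine ⟨∏ z ∈ (Finset.univ : Finset (A ≃ₐ[K[X]] A)).offDiag,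
    ∏ y ∈ (S.fp (t z.1) c g).roots.toFinset ×ˢ (S.fp (t z.2) c g).roots.toFinset,
      (l z.1 - l z.2 - MvPolynomial.C (y.1 - y.2)), Finset.prod_ne_zero_iff.2 fun z hz =>
      Finset.prod_ne_zero_iff.2 fun y _ e => hθ.2 z hz ?_, ?_, fun a ha => ?_⟩
  · have e0 := congrArg (MvPolynomial.eval 0) e
    have e1 := congrArg (MvPolynomial.eval (Pi.single (⟨0, m0⟩, j z.1 z.2) 1)) e
    simp only [map_sub (MvPolynomial.eval _), l2, MvPolynomial.eval_C, map_zero] at e0 e1
    simp [gam, Pi.single_apply, ht] at e0 e1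
    rw [map_sub]
    linear_combination e1 - e0
  · refine (MvPolynomial.totalDegree_finsetProd _ _).trans
      (Finset.sum_le_card_nsmul _ _ _ fun z _ => (MvPolynomial.totalDegree_finsetProd _ _).trans
        ((Finset.sum_le_card_nsmul _ _ 1 fun y _ => ?_).trans ?_))
    · exact (MvPolynomial.totalDegree_sub_C_le _ _).trans
        ((MvPolynomial.totalDegree_sub _ _).trans (max_le (l1 _) (l1 _)))
    · rw [smul_eq_mul, mul_one, Finset.card_product]
      exact Nat.mul_le_mul (rc _) (rc _)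
  · have k1 := sepa_kf S θ c g a
    have k2 := sepa_kf S (AlgHom.id K A) c g a
    rw [finprod_eq_prod_of_fintype] at k1 k2
    simp only [Algebra.algebraMap_self, RingHom.id_apply] at k1
    obtain ⟨f, hf⟩ : ∃ f, f = S.Sl (S.NH c g) a := ⟨_, rfl⟩
    obtain ⟨ev, hev⟩ : ∃ ev, ev = (θ.comp (IsScalarTower.toAlgHom K K[X] A)).toRingHom := ⟨_, rfl⟩
    rw [← hf] at k1 k2 ⊢
    rw [← hev] at k1
    replace k1 := k1.trans (show _ = ∏ σ, (S.fp (t σ) c g).comp (X + C (gam S.e (t σ) a)) by
      rw [ht])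
    have s1 : (f.map ev).Separable := by
      refine Separable.of_mul_right (k1 ▸ separable_prod' (fun σ _ τ _ h => ?_) fun σ _ => ?_)
      · refine (isCoprime_iff_aeval_ne_zero_of_isAlgClosed K K _ _).2 fun x => ?_
        rw [← not_and_or]
        rintro ⟨u1, u2⟩
        simp only [coe_aeval_eq_eval, eval_comp, eval_add, eval_X, eval_C] at u1 u2
        rw [map_prod, Finset.prod_ne_zero_iff] at ha
        have u3 := ha (σ, τ) (Finset.mem_offDiag.2 ⟨Finset.mem_univ _, Finset.mem_univ _, h⟩)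
        rw [map_prod, Finset.prod_ne_zero_iff] at u3
        refine u3 (_, _) (Finset.mem_product.2
          ⟨Multiset.mem_toFinset.2 ((mem_roots (dg _).1).2 u1),
            Multiset.mem_toFinset.2 ((mem_roots (dg _).1).2 u2)⟩) ?_
        simp only [map_sub (MvPolynomial.eval _), l2, MvPolynomial.eval_C]
        ring
      · have u := IsCoprime.map (sp σ) (compRingHom (X + C (gam S.e (t σ) a)))
        rw [separable_def, derivative_comp]
        simpa using u
    have n1 : (f.map ev).natDegree = Fintype.card (A ≃ₐ[K[X]] A) * S.d := by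
      have u := congrArg natDegree k1
      rw [← map_pow, natDegree_C_mul (pow_ne_zero _ S.h0), natDegree_prod _ _ fun σ _ e =>
        (dg (t σ)).1 ((comp_X_add_C_eq_zero_iff).1 e)] at u
      simpa [natDegree_comp, dg] using u
    have i1 : Function.Injective (algebraMap K[X] A) := FaithfulSMul.algebraMap_injective _ _
    have n2 : f.natDegree ≤ Fintype.card (A ≃ₐ[K[X]] A) * S.d := by
      have u := congrArg natDegree k2
      rw [← map_pow, natDegree_C_mul (pow_ne_zero _
        ((map_ne_zero_iff _ (FaithfulSMul.algebraMap_injective K A)).2 S.h0)),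
        natDegree_map_eq_of_injective (by exact i1)] at u
      rw [u]
      refine (natDegree_prod_le _ _).trans (Finset.sum_le_card_nsmul _ _ _ fun σ _ => ?_)
      refine natDegree_comp_le.trans ?_
      rw [natDegree_X_add_C, mul_one]
      exact (sepa_fp S _ _ _).1
    have n3 : f.natDegree = (f.map ev).natDegree := le_antisymm (n1 ▸ n2) natDegree_map_le
    have i2 := IsFractionRing.injective K[X] (FractionRing K[X])
    have u := (sepa_res s1.ne_zero n3.symm).2 s1
    rw [derivative_map, resultant_map_map] at u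
    refine (sepa_res ((Polynomial.map_ne_zero_iff i2).2 fun e => s1.ne_zero (by
      rw [e, Polynomial.map_zero])) (natDegree_map_eq_of_injective i2 f)).1 ?_
    rw [derivative_map, resultant_map_map]
    exact (map_ne_zero_iff _ i2).2 fun e => u (by rw [e, map_zero])

end Pool.Agent.MP_a9d3bd_zz
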