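import Pool.Agent.MP_a9d3bd_zz.Defs
import Pool.Agent.MP_a9d3bd_zz.LagT

namespace Pool.Agent.MP_a9d3bd_zz

open Polynomial Su

theorem smpp_chain {K : Type} [Field K] (P : K[X][X]) (q : K[X]) (x : K) :
    (derivative (P.eval q)).eval x = (derivative P).evalEval x (q.eval x) * (derivative q).eval x +
      (derivative (P.eval (C (q.eval x)))).eval x := by
  induction P using Polynomial.induction_on' with
  | add P Q hP hQ =>
    simp only [eval_add, derivative_add, evalEval_add, hP, hQ]
    ring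
  | monomial n a =>
    simp only [eval_monomial, derivative_mul, derivative_monomial, evalEval, derivative_pow,
      derivative_C, eval_add, eval_mul, eval_pow, eval_C, eval_natCast, eval_zero]
    ring

theorem smpp_deg {σ τ K : Type} [Field K] (s : σ → MvPolynomial τ K)
    (hs : ∀ z, (s z).totalDegree ≤ 1) (f : MvPolynomial σ K) :
    (MvPolynomial.aeval s f).totalDegree ≤ f.totalDegree := by
  classical
  rw [MvPolynomial.aeval_def, MvPolynomial.eval₂_eq]
  refine MvPolynomial.totalDegree_finsetSum_le fun d hd => ?_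
  refine (MvPolynomial.totalDegree_mul _ _).trans ?_
  rw [MvPolynomial.algebraMap_eq, MvPolynomial.totalDegree_C, zero_add]
  refine (MvPolynomial.totalDegree_finsetProd _ _).trans ?_
  refine le_trans (Finset.sum_le_sum fun i _ => ?_) (MvPolynomial.le_totalDegree hd)
  exact (MvPolynomial.totalDegree_pow _ _).trans (by simpa using Nat.mul_le_mul_left (d i) (hs i))

variable {K A ι : Type} [Field K] [IsAlgClosed K] [CommRing A] [IsDedekindDomain A] [Algebra K A]
  [Algebra K[X] A] [IsScalarTower K K[X] A] [Module.Finite K[X] A] [Module.IsTorsionFree K[X] A]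
  [Fintype ι] [DecidableEq ι] {m : ℕ} (S : Su K A ι m) (p : ℕ) [Fact p.Prime] [CharP K p]

theorem smpp_sl (c z : K) (g a : Fin m × ι → K) :
    (S.Sl (S.NH c g) a).eval (X ^ S.M + C z) =
      S.Nf (fun v => a v + if (v.1 : ℕ) = 0 ∧ v.2 = S.j0 then z else 0)
        fun v => g v + c * (a v + if (v.1 : ℕ) = 0 ∧ v.2 = S.j0 then z else 0) := by
  rw [← coe_evalRingHom, Sl, hom_eval₂, NH, Nf, eval₂_map, Nf, Polynomial.map]
  congr 1
  · refine MvPolynomial.ringHom_ext (fun r => ?_) fun v => ?_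
    · simp [Polynomial.algebraMap_apply]
    · rcases v with v | v
      · by_cases h : (v.1 : ℕ) = 0 ∧ v.2 = S.j0 <;> simp [h]
      · by_cases h : (v.1 : ℕ) = 0 ∧ v.2 = S.j0 <;> simp [h, Polynomial.algebraMap_apply]
  · simp

theorem smpp : ∃ D : ℕ, ∀ (c : K) (g : Fin m × ι → K) (θ : A →ₐ[K] K) (t : K),
    S.Smp (fun _ => True) c g θ t →
    ∃ Ψ : MvPolynomial (Fin m × ι) K, Ψ ≠ 0 ∧ Ψ.totalDegree ≤ D ∧ ∀ a, MvPolynomial.eval a Ψ ≠ 0 →
      Grd (S.Sl (S.NH c g) a) (θ (xA K A)) (t - gam S.e θ a) := by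
  refine ⟨(derivative S.NN).support.sup fun i => ((derivative S.NN).coeff i).totalDegree,
    fun c g θ t ⟨_, a0, _, hT, h0⟩ => ?_⟩
  obtain ⟨Z, hZ⟩ : ∃ Z : MvPolynomial (Fin m × ι) K, Z = MvPolynomial.C (t - θ (xA K A) ^ S.M) -
      ∑ u, MvPolynomial.X u * MvPolynomial.C (θ (xA K A) ^ (u.1 : ℕ) * θ (S.e u.2)) := ⟨_, rfl⟩
  have Z1 : Z.totalDegree ≤ 1 := by
    rw [hZ]
    refine (MvPolynomial.totalDegree_sub _ _).trans (max_le (by
      rw [MvPolynomial.totalDegree_C]; omega) ?_)
    refine MvPolynomial.totalDegree_finsetSum_le fun u _ => ?_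
    refine (MvPolynomial.totalDegree_mul _ _).trans ?_
    rw [MvPolynomial.totalDegree_C, MvPolynomial.totalDegree_X]
  have Ze : ∀ a, MvPolynomial.eval a Z = t - θ (xA K A) ^ S.M - gam S.e θ a := fun a => by
    simp [hZ, gam]
  obtain ⟨L, hL⟩ : ∃ L : Fin m × ι → MvPolynomial (Fin m × ι) K, L = fun v =>
      MvPolynomial.X v + if (v.1 : ℕ) = 0 ∧ v.2 = S.j0 then Z else 0 := ⟨_, rfl⟩
  have L1 : ∀ v, (L v).totalDegree ≤ 1 := fun v => by
    rw [hL]
    refine (MvPolynomial.totalDegree_add _ _).trans (max_le (by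
      rw [MvPolynomial.totalDegree_X]) ?_)
    split_ifs
    exacts [Z1, by simp]
  have Le : ∀ a v, MvPolynomial.eval a (L v) = a v + if (v.1 : ℕ) = 0 ∧ v.2 = S.j0 then
      t - θ (xA K A) ^ S.M - gam S.e θ a else 0 := fun a v => by
    rw [hL, ← Ze]
    dsimp only
    split_ifs <;> simp
  obtain ⟨Ψ, hΨ⟩ : ∃ Ψ : MvPolynomial (Fin m × ι) K, Ψ = (derivative S.NN).eval₂
      (MvPolynomial.aeval (Sum.elim L fun v => MvPolynomial.C (g v) +
        MvPolynomial.C c * L v)).toRingHom (MvPolynomial.C (θ (xA K A))) := ⟨_, rfl⟩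
  have Pe : ∀ a, MvPolynomial.eval a Ψ = (derivative (S.Nf (fun v => MvPolynomial.eval a (L v))
      fun v => g v + c * MvPolynomial.eval a (L v))).eval (θ (xA K A)) := fun a => by
    rw [hΨ, hom_eval₂, Nf, derivative_map, eval_map, MvPolynomial.eval_C]
    congr 1
    refine MvPolynomial.ringHom_ext (fun r => by simp) fun v => ?_
    rcases v with v | v <;> simp
  refine ⟨Ψ, fun e => h0 ?_, ?_, fun a ha => ?_⟩
  · have := Pe a0
    rw [e, map_zero] at this
    have k : t - θ (xA K A) ^ S.M - gam S.e θ a0 = 0 := by rw [show t = _ from hT]; ring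
    simpa only [Le, k, ite_self, add_zero] using this.symm
  · rw [hΨ, eval₂_eq_sum, Polynomial.sum]
    refine MvPolynomial.totalDegree_finsetSum_le fun i hi => ?_
    refine (MvPolynomial.totalDegree_mul _ _).trans ?_
    rw [← map_pow, MvPolynomial.totalDegree_C, add_zero]
    refine (smpp_deg _ (fun v => ?_) _).trans
      (Finset.le_sup (f := fun i => ((derivative S.NN).coeff i).totalDegree) hi)
    rcases v with v | v
    · exact L1 v
    · refine (MvPolynomial.totalDegree_add _ _).trans (max_le (by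
        rw [MvPolynomial.totalDegree_C]; omega) ((MvPolynomial.totalDegree_mul _ _).trans ?_))
      rw [MvPolynomial.totalDegree_C, zero_add]
      exact L1 v
  · rw [Pe] at ha
    simp only [Le] at ha
    rw [← smpp_sl, smpp_chain] at ha
    have k : (X ^ S.M + C (t - θ (xA K A) ^ S.M - gam S.e θ a)).eval (θ (xA K A)) =
        t - gam S.e θ a := by
      rw [eval_add, eval_pow, eval_X, eval_C]; ring
    rw [k] at ha
    by_contra hn
    rw [Grd, not_or, not_not, not_not] at hn
    rw [hn.1, hn.2] at ha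
    simp at ha

end Pool.Agent.MP_a9d3bd_zz
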