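import Pool.Agent.MP_a9d3bd_zz.Defs
import Pool.Agent.MP_a9d3bd_zz.Sz
import Pool.Agent.MP_a9d3bd_zz.LagT

namespace Pool.Agent.MP_a9d3bd_zz

open Polynomial Su

theorem uni_deg {K σ τ : Type} [Field K] (f : σ → MvPolynomial τ K) (hf : ∀ s, (f s).totalDegree ≤ 1)
    (P : MvPolynomial σ K) : (MvPolynomial.aeval f P).totalDegree ≤ P.totalDegree := by
  classical
  conv_lhs => rw [P.as_sum, map_sum]
  refine MvPolynomial.totalDegree_finsetSum_le fun d hd => ?_
  rw [MvPolynomial.aeval_monomial]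
  refine (MvPolynomial.totalDegree_mul _ _).trans ?_
  rw [MvPolynomial.algebraMap_eq, MvPolynomial.totalDegree_C, zero_add]
  refine le_trans ?_ (MvPolynomial.le_totalDegree hd)
  refine (MvPolynomial.totalDegree_finsetProd _ _).trans (Finset.sum_le_sum fun s _ => ?_)
  exact (MvPolynomial.totalDegree_pow _ _).trans (by simpa using Nat.mul_le_mul_left (d s) (hf s))

theorem uni_rat {K σ τ : Type} [Field K] (φ : K →+* K) (f : σ → MvPolynomial τ K)
    (hf : ∀ s, MvPolynomial.map φ (f s) = f s) (P : MvPolynomial σ K)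
    (hP : ∀ d, φ (P.coeff d) = P.coeff d) (d : τ →₀ ℕ) :
    φ ((MvPolynomial.aeval f P).coeff d) = (MvPolynomial.aeval f P).coeff d := by
  have h1 : MvPolynomial.map φ P = P := MvPolynomial.ext _ _ fun d => by
    rw [MvPolynomial.coeff_map, hP]
  rw [← MvPolynomial.coeff_map, MvPolynomial.aeval_eq_bind₁, MvPolynomial.map_bind₁, h1]
  simp only [hf]

variable {K : Type} [Field K] [IsAlgClosed K] (p : ℕ) [Fact p.Prime] [CharP K p]

theorem uni_int {f m k M : ℕ} (hf : 0 < f) (hk : k ≤ m) {x : Fin k → K} (y : Fin k → K)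
    (hx : Function.Injective x) :
    {α : Fin m → K | (∀ i, Ra (p ^ f) (α i)) ∧
      ∀ i, y i = x i ^ M + ∑ l, α l * x i ^ (l : ℕ)}.ncard ≤ (p ^ f) ^ (m - k) := by
  obtain ⟨h1, h2, -⟩ := sz (K := K) p (V := Fin (m - k)) hf (Ψ := 1) one_ne_zero
  rw [Fintype.card_fin] at h2
  rw [← h2]
  refine Set.ncard_le_ncard_of_injOn (fun α l => α ⟨l + k, by omega⟩) (fun α h l => h.1 _)
    (fun α h β h' e => ?_) h1
  have hc : ∀ l : Fin m, (∑ l, C (α l - β l) * X ^ (l : ℕ) : K[X]).coeff l = α l - β l := by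
    intro l
    simp only [finsetSum_coeff, coeff_C_mul, coeff_X_pow, Fin.val_inj]
    rw [Finset.sum_eq_single l] <;> simp +contextual [eq_comm]
  have h0 : (∑ l, C (α l - β l) * X ^ (l : ℕ) : K[X]) = 0 := by
    refine eq_zero_of_degree_lt_of_eval_index_eq_zero Finset.univ (v := x) hx.injOn ?_ fun i _ => ?_
    · rw [Finset.card_univ, Fintype.card_fin, degree_lt_iff_coeff_zero]
      intro l hl
      by_cases h3 : l < m
      · refine (hc ⟨l, h3⟩).trans (sub_eq_zero.2 ?_)
        have := congrFun e ⟨l - k, by omega⟩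
        simpa [Nat.sub_add_cancel hl] using this
      · simp only [finsetSum_coeff, coeff_C_mul, coeff_X_pow]
        exact Finset.sum_eq_zero fun j _ => by rw [if_neg (by omega), mul_zero]
    · have := add_left_cancel ((h.2 i).symm.trans (h'.2 i))
      simp [eval_finsetSum, sub_mul, this]
  funext l
  rw [← sub_eq_zero, ← hc, h0, coeff_zero]

variable {A ι : Type} [CommRing A] [IsDomain A] [Algebra K A]
  [Algebra K[X] A] [IsScalarTower K K[X] A] [Fintype ι] {m : ℕ} (S : Su K A ι m)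

omit [IsAlgClosed K] in
theorem uni_gam_add (θ : A →ₐ[K] K) (a b : Fin m × ι → K) (c : K) :
    gam S.e θ (fun v => a v + c * b v) = gam S.e θ a + c * gam S.e θ b := by
  simp [gam, add_mul, Finset.sum_add_distrib, Finset.mul_sum, mul_assoc]

omit [IsAlgClosed K] in
theorem uni_gam_emb [DecidableEq ι] (θ : A →ₐ[K] K) (a : Fin m × ι → K) (α : Fin m → K) :
    gam S.e θ (fun v => a v + S.emb α v) = gam S.e θ a + ∑ l, α l * θ (xA K A) ^ (l : ℕ) := by
  simp [gam, add_mul, Finset.sum_add_distrib, emb, Fintype.sum_prod_type, S.he0]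

omit [IsAlgClosed K] in
theorem uni_NH (c : K) (g a : Fin m × ι → K) :
    (S.NH c g).map (MvPolynomial.eval a) = S.Nf a fun v => g v + c * a v := by
  rw [NH, Nf, Nf, Polynomial.map_map]
  congr 1
  refine MvPolynomial.ringHom_ext (fun k => by simp) fun v => ?_
  rcases v with v | v <;> simp

omit [IsAlgClosed K] in
theorem uni_van {c : K} {g : Fin m × ι → K} {θ : A →ₐ[K] K} {t : K}
    (h : (S.fp θ c g).eval t = 0) : S.Van (S.NH c g) θ t := by
  intro a ha
  have := S.hfin
  have h1 := S.hN K θ a fun v => g v + c * a v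
  rw [finprod_eq_zero _ 1 _ (Set.toFinite _)] at h1
  · rw [← eval_map, uni_NH, Nf, eval_map]
    exact (mul_eq_zero.1 h1).resolve_left (pow_ne_zero _ S.h0)
  · have e : θ.comp ((1 : A ≃ₐ[K[X]] A).restrictScalars K).toAlgHom = θ := by ext; rfl
    rw [e, ← h, fp, ← coe_aeval_eq_eval, ← AlgHom.comp_apply, MvPolynomial.comp_aeval]
    congr 2
    funext i
    rw [Thr] at ha
    fin_cases i <;> simp [wl, uni_gam_add, ha]
    ring

end Pool.Agent.MP_a9d3bd_zz
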