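import Pool.Agent.MP_a9d3bd_zz.Defs
import Pool.Agent.MP_a9d3bd_zz.Fac
import Pool.Agent.MP_a9d3bd_zz.Sepa
import Pool.Agent.MP_a9d3bd_zz.Smpp
import Pool.Agent.MP_a9d3bd_zz.Sz
import Pool.Agent.MP_a9d3bd_zz.Ct2
import Pool.Agent.MP_a9d3bd_zz.UniA

namespace Pool.Agent.MP_a9d3bd_zz

open Polynomial Su

variable {K A ι : Type} [Field K] [IsAlgClosed K] [CommRing A] [IsDedekindDomain A] [Algebra K A]
  [Algebra K[X] A] [IsScalarTower K K[X] A] [Module.Finite K[X] A] [Module.IsTorsionFree K[X] A]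
  [Fintype ι] [DecidableEq ι] {m : ℕ} (S : Su K A ι m) (p : ℕ) [Fact p.Prime] [CharP K p]

theorem uni_bl {c : K} {g : Fin m × ι → K} {s : ℕ} {D : Fin s → (MvPolynomial (Fin m × ι) K)[X]}
    (hD : ∏ j, D j = S.NH c g) {θ : A →ₐ[K] K} {t : K} (h : (S.fp θ c g).eval t = 0) :
    ∃ j, S.Van (D j) θ t := by
  have hl := lag_thr S (k := 1) (by norm_num) (fun _ => (θ, t))
    (Function.injective_of_subsingleton _)
  set φ : (MvPolynomial (Fin m × ι) K)[X] →+* MvPolynomial (Fin m × ι) K := eval₂RingHom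
    (MvPolynomial.aeval (S.lag fun _ : Fin 1 => (θ, t))).toRingHom (MvPolynomial.C (θ (xA K A)))
    with hφ
  have key : ∀ a E, MvPolynomial.eval a (φ E) = E.eval₂ (MvPolynomial.eval fun v =>
      MvPolynomial.eval a (S.lag (fun _ : Fin 1 => (θ, t)) v)) (θ (xA K A)) := by
    intro a E
    rw [hφ, coe_eval₂RingHom, hom_eval₂, MvPolynomial.eval_C]
    congr 1
    exact MvPolynomial.ringHom_ext (fun k => by simp) fun v => by simp
  have h0 : φ (∏ j, D j) = 0 := MvPolynomial.funext fun a => by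
    rw [key, hD, map_zero]
    exact uni_van S h _ ((hl a).1 0)
  rw [map_prod, Finset.prod_eq_zero_iff] at h0
  obtain ⟨j, -, hj⟩ := h0
  refine ⟨j, fun a ha => ?_⟩
  have := key a (D j)
  rw [hj, map_zero, funext ((hl a).2 fun _ => ha)] at this
  exact this.symm

theorem uni_sl {D : (MvPolynomial (Fin m × ι) K)[X]} {θ : A →ₐ[K] K} {t : K} (h : S.Van D θ t)
    (a : Fin m × ι → K) : (S.Sl D a).evalEval (θ (xA K A)) (t - gam S.e θ a) = 0 := by
  have hm := S.hm
  set z := t - gam S.e θ a - θ (xA K A) ^ S.M with hz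
  rw [← h (fun v => a v + S.emb (fun l => if (l : ℕ) = 0 then z else 0) v) ?_, Sl,
    ← coe_evalEvalRingHom, hom_eval₂]
  · congr 1
    · refine MvPolynomial.ringHom_ext (fun k => by simp) fun v => ?_
      by_cases h1 : (v.1 : ℕ) = 0 <;> by_cases h2 : v.2 = S.j0 <;> simp [h1, h2, emb, hz]
    · simp
  · rw [Thr, uni_gam_emb, Finset.sum_eq_single (⟨0, by omega⟩ : Fin m)]
    · simp only [hz, if_true, pow_zero]
      ring
    · intro l _ hl
      rw [if_neg fun h => hl (Fin.ext h), zero_mul]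
    · simp

omit [IsAlgClosed K] in
theorem uni_ra {f : ℕ} {a : K} : Ra (p ^ f) a ↔ iterateFrobenius K p f a = a := by
  rw [iterateFrobenius_def, Ra]

omit [IsAlgClosed K] [Module.Finite K[X] A] [Module.IsTorsionFree K[X] A] [DecidableEq ι] in
theorem uni_gam_ra {f : ℕ} {θ : A →ₐ[K] K} {a : Fin m × ι → K} (h1 : Ra (p ^ f) (θ (xA K A)))
    (h2 : ∀ j, Ra (p ^ f) (θ (S.e j))) (ha : RaV (p ^ f) a) : Ra (p ^ f) (gam S.e θ a) := by
  rw [uni_ra] at h1 ⊢
  rw [gam, map_sum]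
  exact Finset.sum_congr rfl fun v _ => by
    rw [map_mul, map_mul, map_pow, h1, (uni_ra p).1 (h2 _), (uni_ra p).1 (ha _)]

theorem uni_one (ε : ℝ) (hε : 0 < ε) : ∃ q0, ∀ f, 0 < f → q0 ≤ p ^ f → ∀ c g, S.Act (p ^ f) c g →
    ∃ (s : ℕ) (D : Fin s → (MvPolynomial (Fin m × ι) K)[X]), (∀ j, (D j).Monic) ∧
    ∏ j, D j = S.NH c g ∧ ∀ k ≤ 2, ∀ (y : Fin k → (A →ₐ[K] K) × K) (bl : Fin k → Fin s),
      (Function.Injective fun i => (y i).1 (xA K A)) → (∀ i, S.Inc (p ^ f) c g (y i).1 (y i).2) →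
      (∀ i, S.Van (D (bl i)) (y i).1 (y i).2) →
      |(S.cnt (p ^ f) c g y : ℝ) * ((p : ℝ) ^ f) ^ k * ∏ j, (((D j).natDegree -
        (Finset.univ.filter fun i => bl i = j).card).factorial : ℝ) -
        ((p : ℝ) ^ f) ^ Fintype.card (Fin m × ι)| ≤ ε * ((p : ℝ) ^ f) ^ Fintype.card (Fin m × ι) := by
  classical
  have hm := S.hm
  obtain ⟨D1, h1⟩ := sepa S
  obtain ⟨D2, h2⟩ := smpp S
  obtain ⟨q0, h3⟩ := ct2 (K := K) p S.n (S.NN.support.sup fun i => (S.NN.coeff i).totalDegree) S.M m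
    (by omega) (ε / 2) (by positivity)
  obtain ⟨q1, hq1⟩ := exists_nat_ge (((S.n.factorial : ℝ) + 1) * (D1 + 2 * D2 : ℕ) / (ε / 2))
  refine ⟨max q0 q1, fun f hf hq c g hA => ?_⟩
  obtain ⟨s, D, hDm, hD, hsl, hcrv⟩ := fac S hA.2.2.1
  refine ⟨s, D, hDm, hD, fun k hk y bl hy hI hV => ?_⟩
  have hq0 : (0 : ℝ) < (p : ℝ) ^ f := pow_pos (by exact_mod_cast (Fact.out : p.Prime).pos) _
  set Pi : ℝ := ∏ j, (((D j).natDegree -
    (Finset.univ.filter fun i => bl i = j).card).factorial : ℝ) with hPi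
  have hsum : ∑ j, (D j).natDegree = S.n := by
    rw [← natDegree_prod_of_monic _ _ fun j _ => hDm j, hD, NH, Nf, S.hNm.natDegree_map, n]
  have hPi1 : Pi ≤ S.n.factorial := by
    rw [hPi, ← hsum]
    norm_cast
    exact (Finset.prod_le_prod' fun j _ => Nat.factorial_le (Nat.sub_le _ _)).trans
      (Nat.le_of_dvd (Nat.factorial_pos _) (Nat.prod_factorial_dvd_factorial_sum _ _))
  have hPi0 : 0 ≤ Pi := by positivity
  obtain ⟨Ψ1, hΨ1, hd1, hs1⟩ := h1 c g hA.2.2.1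
  choose Ψ2 hΨ2 hd2 hs2 using fun i => h2 c g (y i).1 (y i).2
    ⟨(hI i).2.2.2.1, (hI i).2.2.2.2.imp fun a h => ⟨fun _ => trivial, h.2⟩⟩
  have hΨ : Ψ1 * ∏ i, Ψ2 i ≠ 0 := mul_ne_zero hΨ1 (Finset.prod_ne_zero_iff.2 fun i _ => hΨ2 i)
  have hd : (Ψ1 * ∏ i, Ψ2 i).totalDegree ≤ D1 + 2 * D2 := by
    refine (MvPolynomial.totalDegree_mul _ _).trans (add_le_add hd1 ?_)
    refine (MvPolynomial.totalDegree_finsetProd _ _).trans
      ((Finset.sum_le_card_nsmul _ _ _ fun i _ => hd2 i).trans ?_)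
    simpa using Nat.mul_le_mul_right D2 hk
  obtain ⟨hF, hF1, hF2⟩ := sz p hf hΨ
  obtain ⟨hG, hG1, -⟩ := sz (K := K) p (V := Fin m) hf (Ψ := 1) one_ne_zero
  have hP : ∀ a, ∏ j, S.Sl (D j) a = S.Sl (S.NH c g) a := fun a => by
    rw [← hD]
    exact (eval₂_finsetProd _ _ _ _).symm
  have hgr : ∀ a (T : Type) [CommRing T] [Algebra K T] (α : Fin m → T),
      grf S.M (∏ j, S.Sl (D j) a) α = (S.NH c g).map
        (MvPolynomial.aeval fun v => algebraMap K T (a v) + S.emb α v).toRingHom := by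
    intro a T _ _ α
    rw [← hD, Polynomial.map_prod, grf, Polynomial.map_prod, eval_prod]
    exact Finset.prod_congr rfl fun j _ => hsl j a T α
  set T : Set (Fin m × ι → K) := {a ∈ S.Sp (p ^ f) c g | ∀ i, S.Thr (y i).1 (y i).2 a} with hT
  set B : (Fin m × ι → K) → Set (Fin m → K) := fun a => {α | (∀ i, Ra (p ^ f) (α i)) ∧
    (∀ i, (y i).2 - gam S.e (y i).1 a =
      (y i).1 (xA K A) ^ S.M + ∑ l, α l * (y i).1 (xA K A) ^ (l : ℕ)) ∧
    Spl (p ^ f) (grf S.M (∏ j, S.Sl (D j) a) α)} with hB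
  have hemb : ∀ α : Fin m → K, (∀ i, Ra (p ^ f) (α i)) → ∀ v, iterateFrobenius K p f (S.emb α v) =
      S.emb α v := by
    intro α h v
    rw [emb]
    split_ifs
    · exact (uni_ra p).1 (h _)
    · exact map_zero _
  have hBT : ∀ a α, RaV (p ^ f) a → (∀ i, Ra (p ^ f) (α i)) →
      (α ∈ B a ↔ (fun v => a v + S.emb α v) ∈ T) := by
    intro a α ha hα
    have e1 : grf S.M (∏ j, S.Sl (D j) a) α =
        S.Nf (fun v => a v + S.emb α v) fun v => g v + c * (a v + S.emb α v) := by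
      rw [hgr, ← uni_NH]
      rfl
    have e2 : RaV (p ^ f) fun v => a v + S.emb α v := fun v => by
      rw [uni_ra, map_add, (uni_ra p).1 (ha v), hemb α hα]
    simp only [hB, hT, Set.mem_ofPred_eq, Sp, e1, Thr, uni_gam_emb, hα, e2, implies_true, true_and,
      sub_eq_iff_eq_add, and_comm]
    refine and_congr_right fun _ => forall_congr' fun i => ?_
    rw [add_assoc, add_comm (gam S.e (y i).1 a)]
  have hgood : ∀ a, RaV (p ^ f) a → MvPolynomial.eval a (Ψ1 * ∏ i, Ψ2 i) ≠ 0 →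
      |((B a).ncard : ℝ) * Pi - ((p : ℝ) ^ f) ^ (m - k)| ≤ ε / 2 * ((p : ℝ) ^ f) ^ (m - k) := by
    intro a ha h0
    rw [map_mul, map_prod, mul_ne_zero_iff, Finset.prod_ne_zero_iff] at h0
    have e1 : ∀ j, (grf S.M (S.Sl (D j) a)
        (MvPolynomial.X : Fin m → MvPolynomial (Fin m) K)).natDegree = (D j).natDegree := fun j => by
      rw [hsl, (hDm j).natDegree_map]
    have e2 : ∀ v, (algebraMap K (MvPolynomial (Fin m) K) (a v) +
        S.emb MvPolynomial.X v).totalDegree ≤ 1 := fun v => by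
      refine (MvPolynomial.totalDegree_add _ _).trans (max_le (by simp) ?_)
      rw [emb]
      split_ifs <;> simp
    have := h3 f ((le_max_left _ _).trans hq) s (fun j => S.Sl (D j) a) (hcrv a (hs1 a h0.1))
      (fun j => by rw [hsl]; exact (hDm j).map _) (by simp only [e1, hsum]) (fun i => ?_)
      (fun j i d => ?_) k hk (fun i => (y i).1 (xA K A)) (fun i => (y i).2 - gam S.e (y i).1 a) bl hy
      fun i => ⟨(hI i).1, ?_, uni_sl S (hV i) a, by rw [hP]; exact hs2 i a (h0.2 i (by simp))⟩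
    · simpa only [e1] using this
    · rw [hgr, coeff_map, NH, Nf, coeff_map]
      refine (uni_deg _ e2 _).trans ((uni_deg _ (fun v => ?_) _).trans ?_)
      · rcases v with v | v
        · simp
        · refine (MvPolynomial.totalDegree_add _ _).trans (max_le (by simp) ?_)
          exact (MvPolynomial.totalDegree_mul _ _).trans (by simp)
      · by_cases hi : i ∈ S.NN.support
        · exact Finset.le_sup (f := fun i => (S.NN.coeff i).totalDegree) hi
        · simp [notMem_support_iff.1 hi]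
    · rw [hsl, coeff_map, uni_ra]
      refine uni_rat _ _ (fun v => ?_) _
        (fun d => (uni_ra p).1 (hA.2.2.2 _ (hDm j) (hD ▸ Finset.dvd_prod_of_mem _ (by simp)) _ _)) d
      rw [map_add, MvPolynomial.algebraMap_eq, MvPolynomial.map_C, (uni_ra p).1 (ha v), emb]
      split_ifs <;> simp
    · rw [uni_ra, map_sub, (uni_ra p).1 (hI i).2.2.1,
        (uni_ra p).1 (uni_gam_ra S p (hI i).1 (hI i).2.1 ha)]
  have hbad : ∀ a, |((B a).ncard : ℝ) * Pi - ((p : ℝ) ^ f) ^ (m - k)| ≤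
      (S.n.factorial + 1) * ((p : ℝ) ^ f) ^ (m - k) := by
    intro a
    have e1 : ((B a).ncard : ℝ) ≤ ((p : ℝ) ^ f) ^ (m - k) := by
      have : (B a).ncard ≤ (p ^ f) ^ (m - k) := le_trans (Set.ncard_le_ncard
        (fun α h => And.intro h.1 h.2.1) (hG.subset fun α h => h.1))
        (uni_int p (M := S.M) hf (by omega : k ≤ m) (fun i => (y i).2 - gam S.e (y i).1 a) hy)
      exact_mod_cast this
    have e2 : (0 : ℝ) ≤ (B a).ncard := Nat.cast_nonneg _
    have e3 := pow_pos hq0 (m - k)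
    rw [abs_le]
    constructor <;> nlinarith [mul_le_mul e1 hPi1 hPi0 e3.le, mul_nonneg e2 hPi0,
      mul_nonneg (Nat.cast_nonneg (α := ℝ) S.n.factorial) e3.le]
  have hTF : T.Finite := hF.subset fun a h => h.1.1
  have hdbl : ∑ a ∈ hF.toFinset, (B a).ncard = (p ^ f) ^ m * T.ncard := by
    have e1 : ∀ a ∈ hF.toFinset, (B a).ncard =
        (hG.toFinset.filter fun α => (fun v => a v + S.emb α v) ∈ T).card := by
      intro a ha
      rw [← Set.ncard_coe_finset]
      congr 1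
      ext α
      simp only [Finset.coe_filter, Set.Finite.mem_toFinset, Set.mem_ofPred_eq]
      exact ⟨fun h => ⟨h.1, (hBT a α (hF.mem_toFinset.1 ha) h.1).1 h⟩,
        fun h => (hBT a α (hF.mem_toFinset.1 ha) h.1).2 h.2⟩
    have e2 : ∀ α ∈ hG.toFinset, (hF.toFinset.filter fun a =>
        (fun v => a v + S.emb α v) ∈ T).card = T.ncard := by
      intro α hα
      rw [Set.ncard_eq_toFinset_card _ hTF]
      refine Finset.card_nbij' (fun a v => a v + S.emb α v) (fun a v => a v - S.emb α v)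
        (fun a h => ?_) (fun a h => ?_) (fun a _ => by simp) fun a _ => by simp
      · simpa using (Finset.mem_filter.1 h).2
      · have h : a ∈ T := by simpa using h
        refine Finset.mem_filter.2 ⟨hF.mem_toFinset.2 fun v => ?_, by simpa using h⟩
        rw [uni_ra, map_sub, (uni_ra p).1 (h.1.1 v), hemb α (hG.mem_toFinset.1 hα)]
    rw [Finset.sum_congr rfl e1]
    simp only [Finset.card_filter] at e2 ⊢
    rw [Finset.sum_comm, Finset.sum_congr rfl e2, Finset.sum_const, ← Set.ncard_eq_toFinset_card _ hG, hG1,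
      Fintype.card_fin, smul_eq_mul]
  set Q : ℝ := (p : ℝ) ^ f with hQ
  set N := Fintype.card (Fin m × ι) with hN
  have hcard : (hF.toFinset.card : ℝ) = Q ^ N := by
    rw [← Set.ncard_eq_toFinset_card _ hF, hF1]
    simp [hQ]
  set Z := hF.toFinset.filter fun a => MvPolynomial.eval a (Ψ1 * ∏ i, Ψ2 i) = 0 with hZ
  have hZ1 : (Z.card : ℝ) * Q ≤ (D1 + 2 * D2 : ℕ) * Q ^ N := by
    have e1 : Z.card = {a : Fin m × ι → K | (∀ v, Ra (p ^ f) (a v)) ∧
        MvPolynomial.eval a (Ψ1 * ∏ i, Ψ2 i) = 0}.ncard := by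
      rw [← Set.ncard_coe_finset]
      congr 1
      ext a
      simp [hZ]
    have := hF2.trans (Nat.mul_le_mul_right _ hd)
    rw [← e1] at this
    rw [hQ]
    exact_mod_cast this
  have hq2 : ((S.n.factorial : ℝ) + 1) * (D1 + 2 * D2 : ℕ) ≤ ε / 2 * Q := by
    rw [div_le_iff₀ (by positivity)] at hq1
    have : (q1 : ℝ) ≤ Q := by rw [hQ]; exact_mod_cast (le_max_right _ _).trans hq
    nlinarith
  have hZ2 : ((S.n.factorial : ℝ) + 1) * Z.card ≤ ε / 2 * Q ^ N := by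
    refine le_of_mul_le_mul_right ?_ hq0
    have e1 := mul_le_mul_of_nonneg_left hZ1 (show (0 : ℝ) ≤ S.n.factorial + 1 by positivity)
    have e2 := mul_le_mul_of_nonneg_right hq2 (pow_pos hq0 N).le
    nlinarith
  have hfin : |∑ a ∈ hF.toFinset, (((B a).ncard : ℝ) * Pi - Q ^ (m - k))| ≤
      ε * Q ^ N * Q ^ (m - k) := by
    refine (Finset.abs_sum_le_sum_abs _ _).trans ?_
    refine (Finset.sum_le_sum (g := fun a => ε / 2 * Q ^ (m - k) +
      if a ∈ Z then (S.n.factorial + 1) * Q ^ (m - k) else 0) fun a ha => ?_).trans ?_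
    · split_ifs with h
      · exact (hbad a).trans (le_add_of_nonneg_left (by positivity))
      · rw [add_zero]
        exact hgood a (hF.mem_toFinset.1 ha) fun h0 => h (Finset.mem_filter.2 ⟨ha, h0⟩)
    · rw [Finset.sum_add_distrib, Finset.sum_const, Finset.sum_ite_mem,
        Finset.inter_eq_right.2 (Finset.filter_subset _ _), Finset.sum_const, nsmul_eq_mul,
        nsmul_eq_mul, hcard]
      nlinarith [mul_le_mul_of_nonneg_right hZ2 (pow_pos hq0 (m - k)).le]
  have e3 : ∑ a ∈ hF.toFinset, (((B a).ncard : ℝ) * Pi - Q ^ (m - k)) =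
      ((T.ncard : ℝ) * Q ^ k * Pi - Q ^ N) * Q ^ (m - k) := by
    have : (∑ a ∈ hF.toFinset, ((B a).ncard : ℝ)) = Q ^ (m - k) * Q ^ k * T.ncard := by
      rw [← pow_add, Nat.sub_add_cancel (by omega : k ≤ m), hQ]
      exact_mod_cast hdbl
    rw [Finset.sum_sub_distrib, ← Finset.sum_mul, this, Finset.sum_const, nsmul_eq_mul, hcard]
    ring
  rw [e3, abs_mul, abs_of_pos (pow_pos hq0 _)] at hfin
  exact le_of_mul_le_mul_right hfin (pow_pos hq0 _)

theorem uni (δ : ℝ) (hδ : 0 < δ) : ∃ q0, ∀ q, q0 ≤ q → S.Qk p q → ∀ c g, S.Act q c g → ∀ k ≤ 2,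
    ∀ y y' : Fin k → (A →ₐ[K] K) × K, (Function.Injective fun i => (y i).1 (xA K A)) →
      (Function.Injective fun i => (y' i).1 (xA K A)) → (∀ i, S.Inc q c g (y i).1 (y i).2) →
      (∀ i, S.Inc q c g (y' i).1 (y' i).2) →
      (∀ i, S.cls c g (y i).1 (y i).2 = S.cls c g (y' i).1 (y' i).2) →
      |(S.cnt q c g y : ℝ) - S.cnt q c g y'| * q ^ k ≤ δ * q ^ Fintype.card (Fin m × ι) ∧
      (q : ℝ) ^ Fintype.card (Fin m × ι) ≤ 2 * S.n.factorial * (S.cnt q c g y * q ^ k) := by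
  classical
  obtain ⟨q0, h⟩ := uni_one S p (min (δ / 2) (1 / 2)) (by positivity)
  refine ⟨q0, fun q hq ⟨f1, k1, hf1, hk1, e1, e2⟩ c g hA k hk y y' hy hy' hI hI' hc => ?_⟩
  obtain rfl : q = p ^ (f1 * k1) := by rw [e2, e1, pow_mul]
  obtain ⟨s, D, hDm, hD, h⟩ := h _ (Nat.mul_pos hf1 hk1) hq c g hA
  choose bl hbl using fun i => uni_bl S hD (hI i).2.2.2.1
  have hbl' : ∀ i, S.Van (D (bl i)) (y' i).1 (y' i).2 := fun i => by
    have : D (bl i) ∈ S.cls c g (y i).1 (y i).2 :=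
      ⟨hDm _, hD ▸ Finset.dvd_prod_of_mem _ (by simp), hbl i⟩
    rw [hc] at this
    exact this.2.2
  have h1 := abs_le.1 (h k hk y bl hy hI hbl)
  have h2 := abs_le.1 (h k hk y' bl hy' hI' hbl')
  set Pi : ℝ := ∏ j, (((D j).natDegree -
    (Finset.univ.filter fun i => bl i = j).card).factorial : ℝ) with hPi
  have hsum : ∑ j, (D j).natDegree = S.n := by
    rw [← natDegree_prod_of_monic _ _ fun j _ => hDm j, hD, NH, Nf, S.hNm.natDegree_map, n]
  have hPi1 : Pi ≤ S.n.factorial := by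
    rw [hPi, ← hsum]
    norm_cast
    exact (Finset.prod_le_prod' fun j _ => Nat.factorial_le (Nat.sub_le _ _)).trans
      (Nat.le_of_dvd (Nat.factorial_pos _) (Nat.prod_factorial_dvd_factorial_sum _ _))
  have hPi0 : 1 ≤ Pi := by
    rw [hPi]
    norm_cast
    exact Finset.one_le_prod' fun j _ => Nat.factorial_pos _
  push_cast
  set Q : ℝ := (p : ℝ) ^ (f1 * k1) with hQ
  have hq0 : 0 < Q := pow_pos (by exact_mod_cast (Fact.out : p.Prime).pos) _
  have hN := pow_pos hq0 (Fintype.card (Fin m × ι))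
  have m1 := mul_le_mul_of_nonneg_right (min_le_left (δ / 2) (1 / 2)) hN.le
  have m2 := mul_le_mul_of_nonneg_right (min_le_right (δ / 2) (1 / 2)) hN.le
  constructor
  · have e : |(S.cnt (p ^ (f1 * k1)) c g y : ℝ) - S.cnt (p ^ (f1 * k1)) c g y'| * Q ^ k * Pi ≤
        δ * Q ^ Fintype.card (Fin m × ι) := by
      rw [← abs_of_pos (pow_pos hq0 k), ← abs_of_pos (one_pos.trans_le hPi0), ← abs_mul, ← abs_mul,
        abs_le]
      constructor <;> nlinarith [h1.1, h1.2, h2.1, h2.2]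
    exact (le_mul_of_one_le_right (by positivity) hPi0).trans e
  · have := mul_le_mul_of_nonneg_left hPi1
      (show (0 : ℝ) ≤ S.cnt (p ^ (f1 * k1)) c g y * Q ^ k by positivity)
    nlinarith [h1.1]

end Pool.Agent.MP_a9d3bd_zz
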