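import Pool.Agent.MP_a9d3bd_zz.Defs
import Pool.Agent.MP_a9d3bd_zz.Uni
import Pool.Agent.MP_a9d3bd_zz.Spl
import Pool.Agent.MP_a9d3bd_zz.Pc
import Pool.Agent.MP_a9d3bd_zz.Pen
import Pool.Agent.MP_a9d3bd_zz.Act
import Pool.Agent.MP_a9d3bd_zz.ClsC
import Pool.Agent.MP_a9d3bd_zz.FinD
import Pool.Agent.MP_a9d3bd_g.UDefs

namespace Pool.Agent.MP_a9d3bd_zz

open Polynomial Su

variable {K A ι : Type} [Field K] [IsAlgClosed K] [CommRing A] [IsDedekindDomain A] [Algebra K A]
  [Algebra K[X] A] [IsScalarTower K K[X] A] [Module.Finite K[X] A] [Module.IsTorsionFree K[X] A]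
  [Fintype ι] [DecidableEq ι] {m : ℕ} (S : Su K A ι m) (p : ℕ) [Fact p.Prime] [CharP K p]

open FinB Finset in
theorem fin : ∃ q0, ∀ q, q0 ≤ q → S.Qk p q →
    ∀ (φ : K → (Fin m × ι → K) → (A →ₐ[K] K) × K → ℝ) (Af : K → (Fin m × ι → K) → ℝ)
      (r : (Fin m × ι → K) → (Fin m × ι → K) → ℝ),
      (∀ c g, Ra q c → RaV q g → S.Adm c g → ∀ a ∈ S.Sp q c g,
        ∑ᶠ y ∈ S.pts c g a, φ c g y - Af c g = r a fun v => g v + c * a v) →
      ∃ (α : (A →ₐ[K] K) → K → K → ℝ)
        (β : K → (Fin m × ι → K) → Set (MvPolynomial (Fin m × ι) K)[X] → ℝ),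
        ∀ c g, S.Act q c g → ∀ θ t, S.Inc q c g θ t →
          φ c g (θ, t) = α θ t ((S.wl θ c g).eval t) + β c g (S.cls c g θ t) := by
  classical
  obtain ⟨B, hB⟩ := pcount S p
  obtain ⟨D, hD⟩ := pen S
  set N : ℝ := (S.n.factorial : ℝ) with hN
  have N0 : 0 < N := Nat.cast_pos.2 (Nat.factorial_pos _)
  have B0 : (0 : ℝ) ≤ B := Nat.cast_nonneg _
  obtain ⟨q1, hU⟩ := uni S p (1 / (8 * N * (B + 1))) (by positivity)
  refine ⟨q1 + 2 + 8 * S.n.factorial * (B + 1) + (D + 4 * S.n * S.n.factorial + 1),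
    fun q hq hQ φ Af r hr => ?_⟩
  obtain ⟨F, hc, hF⟩ : ∃ F : Finset K, F.card = q ∧ ∀ x, x ∈ F ↔ Ra q x := by
    obtain ⟨f, k, -, -, h1, h2⟩ := hQ
    rw [h1, ← pow_mul] at h2
    subst h2
    exact MP_a9d3bd_g.fq p _ K (by omega)
  set Z : ℝ := (q : ℝ) ^ Fintype.card (Fin m × ι) with hZ
  have q0 : (0 : ℝ) < q := Nat.cast_pos.2 (by omega)
  have Z0 : 0 < Z := pow_pos q0 _
  have q2 : 8 * N * (B + 1) ≤ q := by
    rw [hN]; exact_mod_cast (by omega : 8 * S.n.factorial * (B + 1) ≤ q)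
  have q3 : (D : ℝ) + 4 * S.n * N + 1 ≤ q := by
    rw [hN]; exact_mod_cast (by omega : D + 4 * S.n * S.n.factorial + 1 ≤ q)
  have n0 : (0 : ℝ) ≤ 4 * S.n * N := by positivity
  let Kr : K × (Fin m × ι → K) → Submodule ℝ (((A →ₐ[K] K) × K) × K → ℝ) := fun H =>
    { carrier := {k | (∃ γ : Set (MvPolynomial (Fin m × ι) K)[X] → ℝ,
        ∀ x, k x = γ (S.cls H.1 H.2 x.1.1 x.1.2)) ∧
        ∀ l ∈ SP S q F, H ∈ mm F l → ∑ x ∈ pt S l, k x = 0}
      zero_mem' := ⟨⟨0, fun _ => rfl⟩, fun _ _ _ => sum_const_zero⟩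
      add_mem' := by
        rintro u v ⟨⟨γ, h1⟩, h2⟩ ⟨⟨γ', h3⟩, h4⟩
        exact ⟨⟨γ + γ', fun x => by simp only [Pi.add_apply, h1, h3]⟩, fun l hl h => by
          simp only [Pi.add_apply, sum_add_distrib, h2 l hl h, h4 l hl h, add_zero]⟩
      smul_mem' := by
        rintro c u ⟨⟨γ, h1⟩, h2⟩
        exact ⟨⟨c • γ, fun x => by simp only [Pi.smul_apply, h1]⟩, fun l hl h => by
          simp only [Pi.smul_apply, ← smul_sum, h2 l hl h, smul_zero]⟩ }
  have inc : ∀ l ∈ SP S q F, ∀ H ∈ mm F l, H ∈ GG S q F → pt S l ⊆ on S q H := by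
    rintro l hl ⟨c, g⟩ h hG x hx
    rw [mem_GG S hF] at hG
    have ha := sp_of S hF hl h
    rw [(mem_mm.1 h).2, mem_pt S hQ hG.1 hG.2.1 ha] at hx
    exact (mem_on S hQ hG.2.2.1).2 ⟨((spl S p hQ hG.1 hG.2.1 ha).2.2.2 _ hx.1).1, hx.2⟩
  have cd : ∀ l ∈ SP S q F, (pt S l).card = S.n := by
    intro l hl
    have z0 : Ra q (0 : K) := zero_pow (by omega)
    have h : ((0 : K), l.2) ∈ mm F l := mem_mm.2 ⟨(hF _).2 z0, by simp⟩
    have hg : RaV q l.2 := (mem_gd hF).1 (mem_product.1 (mem_filter.1 hl).1).2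
    have ha := sp_of S hF hl h
    have := card_pt S hQ z0 hg ha fun _ => True
    rw [filter_true, ← (mem_mm.1 h).2] at this
    rw [this, ← (spl S p hQ z0 hg ha).2.1]
    simp
  obtain ⟨α, hα⟩ := FinA.garland (GG S q F) (on S q) (SP S q F) (pt S) (mm F) Kr
    (fun x H => φ H.1 H.2 x.1 - Af H.1 H.2 / S.n) S.n (q - D) (Z / q) (Z / q / (4 * N))
    (by linarith) (Nat.cast_nonneg _) inc
    (by
      have key : ∀ l ∈ SP S q F, ∀ H ∈ mm F l, H ∈ GG S q F → S.n ≠ 0 →
          ∑ x ∈ pt S l, (φ H.1 H.2 x.1 - Af H.1 H.2 / S.n) = r l.1 l.2 := by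
        rintro l hl ⟨c, g⟩ h hG hn
        rw [mem_GG S hF] at hG
        have ha := sp_of S hF hl h
        rw [sum_sub_distrib, sum_const, cd l hl, nsmul_eq_mul, mul_div_cancel₀ _ (Nat.cast_ne_zero.2 hn),
          (mem_mm.1 h).2, sum_pt S hQ hG.1 hG.2.1 ha]
        exact hr c g hG.1 hG.2.1 hG.2.2.1 _ ha
      intro l hl H h hG H' h' hG'
      by_cases hn : S.n = 0
      · rw [card_eq_zero.1 ((cd l hl).trans hn), sum_empty, sum_empty]
      · rw [key l hl H h hG hn, key l hl H' h' hG' hn])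
    (fun l hl H h _ k hk => hk.2 l hl h)
    (by
      rintro l hl ⟨c, g⟩ h hG
      rw [mem_GG S hF] at hG
      obtain ⟨E, hE, hE'⟩ := hD l.1 l.2 c (by
        convert hG.2.2.1
        rw [(mem_mm.1 h).2]
        simp)
      have h1 : (F \ E).card ≤ ((mm F l).filter (· ∈ GG S q F)).card := by
        refine card_le_card_of_injOn (fun c => (c, fun v => l.2 v - c * l.1 v)) (fun c' hc' => ?_)
          fun _ _ _ _ e => congrArg Prod.fst e
        rw [mem_coe, mem_sdiff] at hc'
        have h2 : (c', fun v => l.2 v - c' * l.1 v) ∈ mm F l := mem_mm.2 ⟨hc'.1, by simp⟩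
        have h3 := mem_product.1 (mem_filter.1 hl).1
        rw [mem_gd hF, mem_gd hF] at h3
        exact mem_coe.2 (mem_filter.2 ⟨h2, (mem_GG S hF).2 (act S p hQ ((hF _).1 hc'.1)
          (fun v => (ra_lin S hQ (h3.2 v) ((hF _).1 hc'.1) (h3.1 v)).2.1) (hE' c' hc'.2)
          (sp_of S hF hl h2))⟩)
      have h2 := le_card_sdiff E F
      rw [sub_le_iff_le_add]
      exact_mod_cast (by omega : q ≤ _ + D))
    (fun l hl => by rw [cd l hl])
    (radonX S hF hQ _ fun θ t => by
      rw [le_div_iff₀ q0, hZ, ← hc]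
      exact_mod_cast thr1 S F θ t)
    (by
      rintro ⟨c, g⟩ hG u hu
      rw [mem_GG S hF] at hG
      have mo := fun x => (mem_on S hQ (c := c) (g := g) hG.2.2.1 (x := x)).1
      have c2 : ∀ x ∈ on S q (c, g), ∀ y ∈ on S q (c, g),
          #{l ∈ (SP S q F).filter fun l => (c, g) ∈ mm F l | x ∈ pt S l ∧ y ∈ pt S l} =
          S.cnt q c g fun i => (![x, y] i).1 := fun x hx y hy => by
        rw [← cnt_eq S hF hQ hG ![x, y] (by simp [Fin.forall_fin_two, hx, hy])]
        simp [Fin.forall_fin_two]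
      have key := FinA.gramU (on S q (c, g)) ((SP S q F).filter fun l => (c, g) ∈ mm F l) (pt S)
        (fun l hl => inc l (mem_filter.1 hl).1 _ (mem_filter.1 hl).2 ((mem_GG S hF).2 hG))
        (fun x => S.cls c g x.1.1 x.1.2) (fun x y => x.1.1 (xA K A) = y.1.1 (xA K A))
        (fun _ _ h => h.symm) (Z / q / (2 * N)) (1 / (8 * N * (B + 1)) * Z / q ^ 2) (Z / q ^ 2) B
        (by positivity) (by positivity) (by positivity)
        (fun x hx => by
          have h1 := cnt_eq S hF hQ hG (fun _ : Fin 1 => x) fun _ => hx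
          simp only [forall_const] at h1
          have h2 := (hU q (by omega) hQ c g hG 1 one_le_two (fun _ => x.1) (fun _ => x.1)
            (Function.injective_of_subsingleton _) (Function.injective_of_subsingleton _)
            (fun _ => (mo x hx).1) (fun _ => (mo x hx).1) fun _ => rfl).2
          rw [h1, div_div, div_le_iff₀ (by positivity)]
          linarith)
        (fun x hx y hy x' hx' y' hy' h h' e e' => by
          rw [c2 x hx y hy, c2 x' hx' y' hy', le_div_iff₀ (by positivity)]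
          have inj : ∀ x y : ((A →ₐ[K] K) × K) × K, x.1.1 (xA K A) ≠ y.1.1 (xA K A) →
              Function.Injective fun i => (![x, y] i).1.1 (xA K A) := fun x y h i j => by
            fin_cases i <;> fin_cases j <;> simp [h, h.symm]
          exact (hU q (by omega) hQ c g hG 2 le_rfl _ _ (inj x y h) (inj x' y' h')
            (Fin.forall_fin_two.2 ⟨(mo x hx).1, (mo y hy).1⟩)
            (Fin.forall_fin_two.2 ⟨(mo x' hx').1, (mo y' hy').1⟩)
            (Fin.forall_fin_two.2 ⟨e, e'⟩)).1)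
        (fun x hx y hy hne => by
          by_cases h : x.1.1 (xA K A) = y.1.1 (xA K A)
          · rw [filter_false_of_mem, card_empty, Nat.cast_zero]
            · positivity
            rintro l hl ⟨h1, h2⟩
            rw [mem_filter] at hl
            have ha := sp_of S hF hl.1 hl.2
            rw [(mem_mm.1 hl.2).2, mem_pt S hQ hG.1 hG.2.1 ha] at h1 h2
            exact hne (by rw [h1.2, h2.2, (spl S p hQ hG.1 hG.2.1 ha).2.2.1 h1.1 h2.1 h])
          have h2 := (Nat.cast_le (α := ℝ)).2 (thr2 S F x.1.1 y.1.1 x.1.2 y.1.2 h)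
          rw [hc] at h2
          push_cast at h2
          rw [le_div_iff₀ (by positivity)]
          refine le_trans ?_ h2
          refine mul_le_mul_of_nonneg_right (Nat.cast_le.2 (card_le_card_of_injOn Prod.fst ?_ ?_))
            (by positivity)
          · intro l hl
            simp only [coe_filter, mem_filter, Set.mem_ofPred_eq] at hl ⊢
            exact ⟨(mem_product.1 (mem_filter.1 hl.1.1).1).1, (of_mem_tf hl.2.1).1.1,
              (of_mem_tf hl.2.2).1.1⟩
          · intro l hl l' hl' e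
            simp only [coe_filter, mem_filter, Set.mem_ofPred_eq] at hl hl'
            rw [(mem_mm.1 hl.1.2).2, (mem_mm.1 hl'.1.2).2, e])
        (fun _ => rfl)
        (fun x _ => by
          refine Nat.cast_le.2 (le_trans ?_ ((hB q hQ c g hG.2.2.1).2.2 (x.1.1 (xA K A))))
          rw [← Set.ncard_coe_finset]
          refine Set.ncard_le_ncard_of_injOn Prod.fst (fun y hy => ?_) (fun y hy y' hy' e => ?_)
            ((hB q hQ c g hG.2.2.1).1.subset fun _ h => h.1)
          · rw [mem_coe, mem_filter] at hy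
            exact ⟨(mo y hy.1).1, hy.2.symm⟩
          · rw [mem_coe, mem_filter] at hy hy'
            rw [(mo y hy.1).2, (mo y' hy'.1).2, e])
        (fun l hl l' hl' k => by
          rw [mem_filter] at hl hl'
          have ha := sp_of S hF hl.1 hl.2
          have ha' := sp_of S hF hl'.1 hl'.2
          rw [(mem_mm.1 hl.2).2, (mem_mm.1 hl'.2).2]
          convert (card_pt S hQ hG.1 hG.2.1 ha fun y => S.cls c g y.1 y.2 = k).trans
            ((cls_cnt S p hQ hG.1 hG.2.1 ha ha' k).trans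
              (card_pt S hQ hG.1 hG.2.1 ha' fun y => S.cls c g y.1 y.2 = k).symm))
        u fun γ hγ => hu _ ⟨⟨γ, fun _ => rfl⟩, fun l hl h => hγ l (mem_filter.2 ⟨hl, h⟩)⟩
      refine le_trans (mul_le_mul_of_nonneg_right ?_ (sum_nonneg fun _ _ => sq_nonneg _)) key
      have hP : ((on S q (c, g)).card : ℝ) ≤ (B + 1) * q := by
        have h1 := hB q hQ c g hG.2.2.1
        rw [← Set.ncard_coe_finset, on, coe_tf (h1.1.image _),
          Set.ncard_image_of_injective _ (up_inj S c g)]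
        have h2 : (({y : (A →ₐ[K] K) × K | S.Inc q c g y.1 y.2}.ncard : ℕ) : ℝ) ≤ B * q := by
          exact_mod_cast h1.2.1
        linarith
      have e1 : 1 / (8 * N * (B + 1)) * Z / q ^ 2 * ((B + 1) * q) = Z / q / (8 * N) := by
        field_simp
      have e2 : (B + 1) * (Z / q ^ 2) ≤ Z / q / (8 * N) := by
        rw [div_div, le_div_iff₀ (by positivity)]
        calc (B + 1) * (Z / q ^ 2) * (q * (8 * N)) = Z / q * (8 * N * (B + 1)) := by field_simp
          _ ≤ Z / q * q := by gcongr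
          _ = Z := by field_simp
      have e3 : Z / q / (4 * N) = Z / q / (2 * N) - Z / q / (8 * N) - Z / q / (8 * N) := by
        field_simp
        ring
      have e4 := mul_le_mul_of_nonneg_left hP
        (show 0 ≤ 1 / (8 * N * (B + 1)) * Z / q ^ 2 by positivity)
      linarith)
    (by
      rw [div_mul_eq_mul_div, lt_div_iff₀ (by positivity)]
      nlinarith [div_pos Z0 q0])
  choose k hk hk' using hα
  refine ⟨fun θ t w => α ((θ, t), w), fun c g l => if h : (c, g) ∈ GG S q F then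
    (hk _ h).1.choose l + Af c g / S.n else 0, fun c g h θ t hI => ?_⟩
  have hG := (mem_GG S hF).2 h
  have h1 := hk' _ hG (up S c g (θ, t)) ((mem_on S hQ h.2.2.1).2 ⟨hI, rfl⟩)
  rw [(hk _ hG).1.choose_spec] at h1
  simp only [hG, dif_pos]
  rw [← add_assoc, ← sub_eq_iff_eq_add]
  exact h1

end Pool.Agent.MP_a9d3bd_zz
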