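import Pool.Agent.MP_a9d3bd_zz.Defs

namespace Pool.Agent.MP_a9d3bd_zz

open Polynomial Su

theorem spe_mem {R : Type} [CommRing R] {I : Ideal R} {a b : R} (h : b ∈ I) (e : a = b) : a ∈ I :=
  e ▸ h

theorem spe_lead {K T : Type} [Field K] [CommRing T] [Algebra K T] (P : MvPolynomial (Fin 3) K)
    (d : ℕ) (hP : P.totalDegree ≤ d) (a b c e : T) :
    (MvPolynomial.aeval ![C a, X, C b + C c * (X - C e)] P : T[X]).coeff d = pd P d c := by
  unfold pd
  conv_lhs => rw [P.as_sum]
  conv_rhs => rw [P.as_sum]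
  simp only [map_sum, finsetSum_coeff]
  refine Finset.sum_congr rfl fun s hs => ?_
  have h1 : s 0 + s 1 + s 2 ≤ d := by
    have := (MvPolynomial.le_totalDegree hs).trans hP
    rwa [Finsupp.sum_fintype _ _ (fun _ => rfl), Fin.sum_univ_three] at this
  have h2 : s.degree = s 0 + s 1 + s 2 := by
    rw [Finsupp.degree_eq_sum, Fin.sum_univ_three]
  have hW : (C b + C c * (X - C e) : T[X]).natDegree ≤ 1 := by compute_degree
  have hc : (C b + C c * (X - C e) : T[X]).coeff 1 = c := by
    simp [coeff_C, mul_sub]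
  rw [MvPolynomial.homogeneousComponent_of_mem (n := s 0 + s 1 + s 2)
    (MvPolynomial.isHomogeneous_monomial _ h2), MvPolynomial.aeval_monomial,
    Finsupp.prod_fintype _ _ (fun _ => pow_zero _), Fin.prod_univ_three]
  simp only [Matrix.cons_val_zero, Matrix.cons_val_one, Matrix.cons_val]
  rw [Polynomial.algebraMap_apply, ← C_pow, mul_assoc, coeff_C_mul, coeff_C_mul]
  by_cases h3 : s 1 + s 2 = d
  · have h4 : s 0 = 0 := by omega
    rw [if_pos (by omega), MvPolynomial.aeval_monomial,
      Finsupp.prod_fintype _ _ (fun _ => pow_zero _), Fin.prod_univ_three]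
    simp only [Matrix.cons_val_zero, Matrix.cons_val_one, Matrix.cons_val]
    have h5 := coeff_pow_of_natDegree_le (m := s 2) hW
    rw [mul_one] at h5
    rw [← h3, add_comm (s 1), coeff_X_pow_mul, h5, hc, h4]
    simp
  · have h6 : (X ^ s 1 * (C b + C c * (X - C e)) ^ s 2 : T[X]).coeff d = 0 := by
      refine coeff_eq_zero_of_natDegree_lt (lt_of_le_of_lt natDegree_mul_le ?_)
      have a1 : (X ^ s 1 : T[X]).natDegree ≤ s 1 := natDegree_X_pow_le _
      have a2 := natDegree_pow_le_of_le (s 2) hW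
      omega
    rw [h6, mul_zero, mul_zero]
    split_ifs with h7
    · rw [MvPolynomial.aeval_monomial, Finsupp.prod_fintype _ _ (fun _ => pow_zero _),
        Fin.prod_univ_three]
      simp only [Matrix.cons_val_zero]
      rw [zero_pow (by omega)]
      simp
    · simp

theorem spe_norm {K A : Type} [Field K] [CommRing A] [IsDomain A] [Algebra K A]
    [Algebra K[X] A] [IsScalarTower K K[X] A] [Module.Finite K[X] A] [Module.IsTorsionFree K[X] A]
    (x : K) (R : A) (hR : R ≠ 0)
    (h : ∀ a : A, ∃ (k : K) (s u : A),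
      a = algebraMap K A k + R * s + algebraMap K[X] A ((X - C x) ^ 2) * u) :
    ¬ (X - C x) ^ 2 ∣ Algebra.norm K[X] R := by
  classical
  intro hd
  have hI := Ideal.span_singleton_eq_bot.not.2 hR
  let b := Module.Free.chooseBasis K[X] A
  let b' := Ideal.ringBasis b (Ideal.span {R}) hI
  let sm := Ideal.smithCoeffs b (Ideal.span {R}) hI
  have hd2 : (X - C x) ^ 2 ∣ ∏ i, sm i := hd.trans (associated_norm_prod_smith b hR).dvd
  have k1 : ∀ (s : A) i, sm i ∣ b'.repr (R * s) i := by
    intro s i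
    have hm : R * s ∈ Ideal.span {R} := Ideal.mul_mem_right _ _ (Ideal.mem_span_singleton_self R)
    have e := congrArg Subtype.val ((Ideal.selfBasis b (Ideal.span {R}) hI).sum_repr ⟨_, hm⟩)
    have e2 : R * s = ∑ j, ((Ideal.selfBasis b (Ideal.span {R}) hI).repr ⟨_, hm⟩ j * sm j) •
        b' j := by
      refine e.symm.trans ?_
      rw [AddSubmonoidClass.coe_finsetSum]
      refine Finset.sum_congr rfl fun j _ => ?_
      rw [mul_smul]
      exact congrArg (_ • ·) (Ideal.selfBasis_def b _ hI j)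
    rw [e2, b'.repr_sum_self]
    exact Dvd.intro_left _ rfl
  have k2 : ∀ a : A, ∃ k : K, ∀ i, ∃ s u : K[X],
      b'.repr a i = C k * b'.repr 1 i + sm i * s + (X - C x) ^ 2 * u := by
    intro a
    obtain ⟨k, s, u, e⟩ := h a
    refine ⟨k, fun i => ?_⟩
    obtain ⟨s', hs'⟩ := k1 s i
    refine ⟨s', b'.repr u i, ?_⟩
    have e1 : algebraMap K A k = (C k : K[X]) • (1 : A) := by
      rw [Algebra.smul_def, mul_one, IsScalarTower.algebraMap_apply K K[X] A,
        Polynomial.algebraMap_apply]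
      rfl
    rw [e, ← Algebra.smul_def, e1, map_add, map_add, map_smul, map_smul]
    simp only [Finsupp.add_apply, Finsupp.smul_apply, smul_eq_mul, hs']
  have hp : Prime (X - C x) := prime_X_sub_C x
  obtain ⟨i, -, q, hq⟩ := (hp.dvd_finsetProd_iff _).1 ((dvd_pow_self _ two_ne_zero).trans hd2)
  rw [← Finset.mul_prod_erase _ _ (Finset.mem_univ i), hq, sq, mul_assoc,
    mul_dvd_mul_iff_left hp.ne_zero] at hd2
  obtain ⟨k, hk⟩ := k2 (b' i)
  obtain ⟨s, u, e1⟩ := hk i
  have e2 := congrArg (eval x) e1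
  simp [hq] at e2
  rcases hp.dvd_or_dvd hd2 with ⟨r, hr⟩ | h2
  · obtain ⟨k', hk'⟩ := k2 ((X - C x : K[X]) • b' i)
    obtain ⟨s', u', e3⟩ := hk' i
    have e4 := congrArg (eval x) e3
    simp [hq] at e4
    have k0 : k' = 0 := e4.resolve_right fun h0 => by simp [h0] at e2
    rw [k0, hq, hr] at e3
    simp only [map_smul, Finsupp.smul_apply, Module.Basis.repr_self, Finsupp.single_eq_same,
      smul_eq_mul, mul_one, C_0, zero_mul, zero_add] at e3
    have e5 : (X - C x) * 1 = (X - C x) * ((X - C x) * (r * s' + u')) := by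
      linear_combination e3
    have e6 := congrArg (eval x) (mul_left_cancel₀ hp.ne_zero e5)
    simp at e6
  · obtain ⟨j, hj, r, hr⟩ := (hp.dvd_finsetProd_iff _).1 h2
    have hji := (Finset.mem_erase.1 hj).1
    obtain ⟨s', u', e3⟩ := hk j
    have e4 := congrArg (eval x) e3
    simp [hr, Finsupp.single_eq_of_ne hji] at e4
    obtain ⟨k', hk'⟩ := k2 (b' j)
    obtain ⟨s'', u'', e5⟩ := hk' j
    have e6 := congrArg (eval x) e5
    simp [hr] at e6
    rcases e4 with h0 | h0
    · simp [h0] at e2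
    · simp [h0] at e6

theorem spe_pick {K A : Type} [Field K] [Infinite K] [CommRing A] [IsDedekindDomain A]
    [Algebra K A] (β : A →ₐ[K] K) (π : A) (hπ : π ≠ 0) (hβ : β π = 0) (f : A[X]) (d : ℕ) (κ t : K)
    (hκ : κ ≠ 0) (hf : f.coeff d = algebraMap K A κ) (h0 : β (f.eval (algebraMap K A t)) = 0)
    (h1 : β ((derivative f).eval (algebraMap K A t)) ≠ 0) :
    ∃ y : A, β y = t ∧ ∀ y' w : A, y' = y + π ^ 2 * w → f.eval y' ≠ 0 ∧ β (f.eval y') = 0 ∧
      ∀ a : A, ∃ (k : K) (s u : A), a = algebraMap K A k + f.eval y' * s + π ^ 2 * u := by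
  classical
  obtain ⟨M, hM⟩ : ∃ M : Ideal A, M = RingHom.ker β := ⟨_, rfl⟩
  have mem : ∀ a, a ∈ M ↔ β a = 0 := fun a => by rw [hM, RingHom.mem_ker]
  have hmax : M.IsMaximal := hM ▸ RingHom.ker_isMaximal_of_surjective β
    fun k => ⟨algebraMap K A k, by simp⟩
  have M0 : M ≠ ⊥ := fun h => hπ (by simpa [h] using (mem π).2 hβ)
  have cong : ∀ (I : Ideal A) (y z : A), y - z ∈ I → f.eval y - f.eval z ∈ I := fun I y z h =>
    Ideal.mem_of_dvd _ (sub_dvd_eval_sub y z f) h
  obtain ⟨y0, y1, y2⟩ : ∃ y0 : A, β y0 = t ∧ f.eval y0 ∉ M ^ 2 := by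
    by_cases hc : f.eval (algebraMap K A t) ∈ M ^ 2
    · obtain ⟨ϖ, p1, p2⟩ := Ideal.exists_mem_pow_notMem_pow_succ M M0 hmax.ne_top 1
      rw [pow_one] at p1
      refine ⟨algebraMap K A t + ϖ, by simp [(mem ϖ).1 p1], fun h => ?_⟩
      obtain ⟨k, hk⟩ := binomExpansion f (algebraMap K A t) ϖ
      have q1 : k * ϖ ^ 2 ∈ M ^ 2 := Ideal.mul_mem_left _ _ (Ideal.pow_mem_pow p1 2)
      have q2 : (derivative f).eval (algebraMap K A t) * ϖ ∈ M ^ 2 := by
        have := Ideal.sub_mem _ (Ideal.sub_mem _ h hc) q1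
        rw [hk] at this
        refine spe_mem this ?_
        ring
      rcases Ideal.IsPrime.mul_mem_pow M q2 with h | h
      · exact h1 ((mem _).1 h)
      · exact p2 h
    · exact ⟨algebraMap K A t, by simp, hc⟩
  have I0 : Ideal.span {π} ≠ ⊥ := Ideal.span_singleton_eq_bot.not.2 hπ
  obtain ⟨τ, hτ⟩ : ∃ τ : K, ∀ P : Ideal A, P.IsMaximal → π ∈ P →
      f.eval (algebraMap K A τ) ∉ P := by
    have fin : (⋃ v ∈ {v : IsDedekindDomain.HeightOneSpectrum A | v.asIdeal ∣ Ideal.span {π}},
        {τ : K | f.eval (algebraMap K A τ) ∈ v.asIdeal}).Finite := by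
      refine (Ideal.finite_factors I0).biUnion fun v _ => ?_
      have := v.isPrime
      have inj : Function.Injective (algebraMap K (A ⧸ v.asIdeal)) := RingHom.injective _
      have ne : f.map (Ideal.Quotient.mk v.asIdeal) ≠ 0 := fun h => by
        have e := congrArg (fun q => q.coeff d) h
        simp only [coeff_map, hf, coeff_zero] at e
        exact hκ (inj (by rw [map_zero]; exact e))
      refine ((finite_setOfPred_isRoot ne).preimage inj.injOn).subset fun τ hτ => ?_
      have e : algebraMap K (A ⧸ v.asIdeal) τ = Ideal.Quotient.mk _ (algebraMap K A τ) := rfl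
      simp only [Set.mem_preimage, Set.mem_ofPred_eq, IsRoot.def]
      rw [e, eval_map_apply, Ideal.Quotient.eq_zero_iff_mem]
      exact hτ
    obtain ⟨τ, hτ⟩ := fin.exists_notMem
    refine ⟨τ, fun P hP h hm => hτ ?_⟩
    simp only [Set.mem_iUnion, Set.mem_ofPred_eq]
    exact ⟨⟨P, hP.isPrime, fun h0 => hπ (by simpa [h0] using h)⟩,
      Ideal.dvd_span_singleton.2 h, hm⟩
  obtain ⟨J, hJ, hJe⟩ := Ideal.eq_prime_pow_mul_coprime I0 M
  have cop : M ^ 2 ⊔ J = ⊤ := Ideal.pow_sup_eq_top hJ
  obtain ⟨u, hu, v, hv, huv⟩ := Submodule.mem_sup.1 ((Ideal.eq_top_iff_one _).1 cop)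
  have M2 : M ^ 2 ≤ M := Ideal.pow_le_self two_ne_zero
  have d1 : y0 * v + algebraMap K A τ * u - y0 ∈ M ^ 2 := by
    have := Ideal.mul_mem_left _ (algebraMap K A τ - y0) hu
    refine spe_mem this ?_
    linear_combination y0 * huv
  have d2 : y0 * v + algebraMap K A τ * u - algebraMap K A τ ∈ J := by
    have := Ideal.mul_mem_left _ (y0 - algebraMap K A τ) hv
    refine spe_mem this ?_
    linear_combination algebraMap K A τ * huv
  have b1 : β (y0 * v + algebraMap K A τ * u) = t := by
    have := (mem _).1 (M2 d1)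
    rw [map_sub, y1, sub_eq_zero] at this
    exact this
  refine ⟨_, b1, fun y' w hy => ?_⟩
  have πM : π ^ 2 * w ∈ M ^ 2 := Ideal.mul_mem_right _ _ (Ideal.pow_mem_pow ((mem π).2 hβ) 2)
  have r1 : f.eval y' ∉ M ^ 2 := fun h => y2 (by
    have := cong (M ^ 2) y' y0 (by
      have := Ideal.add_mem _ d1 πM
      refine spe_mem this ?_
      rw [hy]
      ring)
    simpa using Ideal.sub_mem _ h this)
  have r2 : f.eval y' ∈ M := by
    have := cong M y' (algebraMap K A t) (by rw [mem, hy]; simp [b1, hβ])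
    simpa using Ideal.add_mem _ this ((mem _).2 h0)
  have r3 : ∀ P : Ideal A, P.IsMaximal → π ∈ P → f.eval y' ∈ P → P = M := by
    intro P hP h hm
    by_contra hne
    have l1 : J ≤ P := by
      have l2 := (Ideal.span_singleton_le_iff_mem P).2 h
      rw [hJe] at l2
      refine (hP.isPrime.mul_le.1 l2).resolve_left fun l3 => hne ?_
      exact (hmax.eq_of_le hP.ne_top (hP.isPrime.le_of_pow_le l3)).symm
    refine hτ P hP h ?_
    have := cong P y' (algebraMap K A τ) (by
      have := Ideal.add_mem _ (l1 d2) (Ideal.mul_mem_right w _ (Ideal.pow_mem_of_mem P h 2 two_pos))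
      refine spe_mem this ?_
      rw [hy]
      ring)
    simpa using Ideal.sub_mem _ hm this
  refine ⟨fun h => r1 (h ▸ Ideal.zero_mem _), (mem _).1 r2, fun a => ?_⟩
  have le1 : Ideal.span {f.eval y', π ^ 2} ≤ M := by
    rw [Ideal.span_le]
    rintro z (rfl | rfl)
    · exact r2
    · exact Ideal.pow_mem_of_mem M ((mem π).2 hβ) 2 two_pos
  obtain ⟨I', hI'⟩ := Ideal.dvd_iff_le.2 le1
  have top : I' = ⊤ := by
    by_contra hne
    obtain ⟨P, hP, l1⟩ := Ideal.exists_le_maximal I' hne
    have l2 : Ideal.span {f.eval y', π ^ 2} ≤ P := hI' ▸ Ideal.mul_le_right.trans l1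
    have e := r3 P hP (hP.isPrime.mem_of_pow_mem 2 (l2 (Ideal.subset_span (by simp))))
      (l2 (Ideal.subset_span (by simp)))
    refine r1 ?_
    have l3 : Ideal.span {f.eval y', π ^ 2} ≤ M ^ 2 := by
      rw [hI', sq]
      exact Ideal.mul_mono_right (e ▸ l1)
    exact l3 (Ideal.subset_span (by simp))
  rw [top, Ideal.mul_top] at hI'
  have am : a - algebraMap K A (β a) ∈ Ideal.span {f.eval y', π ^ 2} := by
    rw [hI', mem]
    simp
  obtain ⟨s, u', e⟩ := Ideal.mem_span_pair.1 am
  exact ⟨β a, s, u', by linear_combination -e⟩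

theorem spe_gam {K A ι T T' : Type} [Field K] [CommRing A] [Algebra K A] [Algebra K[X] A]
    [Fintype ι] [CommRing T] [Algebra K T] [CommRing T'] [Algebra K T'] {m : ℕ} (e : ι → A)
    (θ : A →ₐ[K] T) (φ : T →ₐ[K] T') (a : Fin m × ι → T) :
    φ (gam e θ a) = gam e (φ.comp θ) fun v => φ (a v) := by
  simp [gam, map_sum]

theorem spe_aeval {K T T' : Type} [Field K] [CommRing T] [Algebra K T] [CommRing T']
    [Algebra K T'] (φ : T →ₐ[K] T') (P : MvPolynomial (Fin 3) K) (a b c : T) :
    φ (MvPolynomial.aeval ![a, b, c] P) = MvPolynomial.aeval ![φ a, φ b, φ c] P := by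
  rw [← AlgHom.comp_apply, MvPolynomial.comp_aeval]
  congr 2
  funext i
  fin_cases i <;> rfl

variable {K A ι : Type} [Field K] [IsAlgClosed K] [CommRing A] [IsDedekindDomain A] [Algebra K A]
  [Algebra K[X] A] [IsScalarTower K K[X] A] [Module.Finite K[X] A] [Module.IsTorsionFree K[X] A]
  [Fintype ι] [DecidableEq ι] {m : ℕ} (S : Su K A ι m) (p : ℕ) [Fact p.Prime] [CharP K p]

theorem spe {c : K} {g : Fin m × ι → K} (hc : pd S.P S.d c ≠ 0) {β : A →ₐ[K] K} {t : K}
    (h0 : (S.fp β c g).eval t = 0) (h1 : (derivative (S.fp β c g)).eval t ≠ 0) :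
    S.Smp (fun _ => True) c g β t := by
  classical
  have halg : ∀ q : K[X], algebraMap K[X] A q = aeval (xA K A) q := fun q => by
    have : IsScalarTower.toAlgHom K K[X] A = aeval (xA K A) := by
      ext
      simp
    exact DFunLike.congr_fun this q
  have hβq : ∀ q : K[X], β (algebraMap K[X] A q) = q.eval (β (xA K A)) := fun q => by
    rw [halg, ← aeval_algHom_apply, coe_aeval_eq_eval]
  obtain ⟨f, hf⟩ : ∃ f : A[X], f = S.fp (AlgHom.id K A) (algebraMap K A c)
    fun v => algebraMap K A (g v) := ⟨_, rfl⟩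
  have fβ : f.map (β : A →+* K) = S.fp β c g := by
    have := spe_aeval (mapAlgHom β) S.P (C (xA K A)) X
      (S.wl (AlgHom.id K A) (algebraMap K A c) fun v => algebraMap K A (g v))
    rw [hf, fp, fp]
    refine this.trans ?_
    simp [wl, spe_gam]
  have fd : f.coeff S.d = algebraMap K A (pd S.P S.d c) := by
    rw [hf, fp, wl, spe_lead _ _ S.hP, pd, pd]
    have := spe_aeval (Algebra.ofId K A) (MvPolynomial.homogeneousComponent S.d S.P) 0 1 c
    simpa using this.symm
  have e0 : β (f.eval (algebraMap K A t)) = 0 := by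
    have := eval_map_apply (p := f) (f := (β : A →+* K)) (algebraMap K A t)
    rw [fβ] at this
    simpa [h0] using this.symm
  have e1 : β ((derivative f).eval (algebraMap K A t)) ≠ 0 := by
    have := eval_map_apply (p := derivative f) (f := (β : A →+* K)) (algebraMap K A t)
    rw [← derivative_map, fβ] at this
    intro h
    exact h1 (by simpa [h] using this)
  have inj : Function.Injective (algebraMap K[X] A) := FaithfulSMul.algebraMap_injective _ _
  obtain ⟨y, y1, hy⟩ := spe_pick β (algebraMap K[X] A (X - C (β (xA K A))))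
    (fun h => X_sub_C_ne_zero _ (inj (h.trans (map_zero _).symm))) (by rw [hβq]; simp) f S.d _ t
    hc fd e0 e1
  obtain ⟨q, hq⟩ := (Submodule.mem_span_range_iff_exists_fun K[X]).1
    (S.hspan ▸ Submodule.mem_top : y - xA K A ^ S.M ∈ Submodule.span K[X] (Set.range S.e))
  have mo : ((X - C (β (xA K A))) ^ 2 : K[X]).Monic := (monic_X_sub_C _).pow 2
  obtain ⟨a, ha⟩ : ∃ a : Fin m × ι → K,
    a = fun v => (q v.2 %ₘ (X - C (β (xA K A))) ^ 2).coeff v.1 := ⟨_, rfl⟩
  have ga : gam S.e (AlgHom.id K A) (fun v => algebraMap K A (a v)) =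
      ∑ j, algebraMap K[X] A (q j %ₘ (X - C (β (xA K A))) ^ 2) * S.e j := by
    rw [gam, Fintype.sum_prod_type_right]
    refine Finset.sum_congr rfl fun j _ => ?_
    have dg : (q j %ₘ (X - C (β (xA K A))) ^ 2).natDegree < m := by
      have a1 := natDegree_modByMonic_le (q j) mo
      have a2 : ((X - C (β (xA K A))) ^ 2 : K[X]).natDegree ≤ 2 := by compute_degree
      have := S.hm
      omega
    rw [halg, aeval_eq_sum_range' dg, Finset.sum_range, Finset.sum_mul]
    refine Finset.sum_congr rfl fun i _ => ?_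
    simp [ha, Algebra.smul_def, mul_assoc]
  have ey : xA K A ^ S.M + gam S.e (AlgHom.id K A) (fun v => algebraMap K A (a v)) =
      y + algebraMap K[X] A (X - C (β (xA K A))) ^ 2 *
        -∑ j, algebraMap K[X] A (q j /ₘ (X - C (β (xA K A))) ^ 2) * S.e j := by
    have : ∑ j, q j • S.e j = ∑ j, algebraMap K[X] A (q j %ₘ (X - C (β (xA K A))) ^ 2) * S.e j +
        algebraMap K[X] A (X - C (β (xA K A))) ^ 2 *
          ∑ j, algebraMap K[X] A (q j /ₘ (X - C (β (xA K A))) ^ 2) * S.e j := by
      rw [Finset.mul_sum, ← Finset.sum_add_distrib]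
      refine Finset.sum_congr rfl fun j _ => ?_
      rw [← mul_assoc, ← add_mul, ← map_pow, ← map_mul, ← map_add, modByMonic_add_div,
        Algebra.smul_def]
    rw [ga]
    linear_combination hq - this
  obtain ⟨r0, r1, r2⟩ := hy _ _ ey
  obtain ⟨R, hR⟩ : ∃ R, R = f.eval (xA K A ^ S.M +
    gam S.e (AlgHom.id K A) (fun v => algebraMap K A (a v))) := ⟨_, rfl⟩
  rw [← hR] at r0 r1 r2
  have eR : R = S.RR a fun v => g v + c * a v := by
    have := spe_aeval (Polynomial.aevalTower (AlgHom.id K A) (xA K A ^ S.M +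
      gam S.e (AlgHom.id K A) (fun v => algebraMap K A (a v)))) S.P (C (xA K A)) X
      (S.wl (AlgHom.id K A) (algebraMap K A c) fun v => algebraMap K A (g v))
    rw [hR, hf, fp, RR]
    refine this.trans ?_
    simp [wl, gam, Finset.mul_sum, add_mul, Finset.sum_add_distrib, mul_assoc, add_assoc]
  have hN := S.hN A (AlgHom.id K A) (fun v => algebraMap K A (a v))
    fun v => algebraMap K A (g v + c * a v)
  have eN : C (pd S.P S.d S.c0 ^ Nat.card (A ≃ₐ[K[X]] A)) * S.Nf a (fun v => g v + c * a v) =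
      Algebra.norm K[X] R := by
    refine inj ?_
    rw [S.hnorm, map_mul]
    refine Eq.trans ?_ (hN.trans (finprod_congr fun σ => ?_))
    · congr 1
      · rw [halg, aeval_C, map_pow]
      · rw [halg, Nf, aeval_def, eval₂_map]
        congr 1
        refine MvPolynomial.ringHom_ext (fun k => by simp) fun v => ?_
        rcases v with v | v <;> simp
    · have := spe_aeval (σ.restrictScalars K).toAlgHom S.P (xA K A)
        (xA K A ^ S.M + gam S.e (AlgHom.id K A) fun v => algebraMap K A (a v))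
        (algebraMap K A S.c0 * xA K A ^ S.M +
          gam S.e (AlgHom.id K A) fun v => algebraMap K A (g v + c * a v))
      rw [eR, RR]
      refine Eq.trans ?_ this.symm
      simp only [map_add, map_mul, map_pow, spe_gam, AlgHom.commutes]
      simp
  refine ⟨h0, a, fun _ => trivial, ?_, fun hd => ?_⟩
  · have := congrArg β ey
    rw [map_add, map_add, map_mul, map_pow, map_pow, spe_gam, hβq (X - C _), y1, eval_sub, eval_X,
      eval_C,
      sub_self, zero_pow two_ne_zero, zero_mul, add_zero] at this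
    unfold Thr
    simpa using this.symm
  · refine spe_norm (β (xA K A)) R r0 (by simpa only [map_pow] using r2) ?_
    have n0 : (Algebra.norm K[X] R).eval (β (xA K A)) = 0 := by
      have := S.hfin
      have := Fintype.ofFinite (A ≃ₐ[K[X]] A)
      rw [← hβq, S.hnorm, finprod_eq_prod_of_fintype, map_prod]
      exact Finset.prod_eq_zero (Finset.mem_univ 1) r1
    have n1 : (derivative (Algebra.norm K[X] R)).eval (β (xA K A)) = 0 := by
      rw [← eN, derivative_C_mul, eval_mul, hd, mul_zero]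
    obtain ⟨k, hk⟩ := dvd_iff_isRoot.2 n0
    rw [hk] at n1 ⊢
    rw [sq]
    exact mul_dvd_mul_left _ (dvd_iff_isRoot.2 (by simpa using n1))

end Pool.Agent.MP_a9d3bd_zz
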