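import Pool.Agent.MP_a9d3bd_zz.Defs
import Pool.Agent.MP_a9d3bd_zz.Fin
import Pool.Agent.MP_a9d3bd_zz.Coc
import Pool.Agent.MP_a9d3bd_zz.Ext
import Pool.Agent.MP_a9d3bd_zz.Spe
import Pool.Agent.MP_a9d3bd_zz.ClsS
import Pool.Agent.MP_a9d3bd_zz.Act2
import Pool.Agent.MP_a9d3bd_zz.Uni
import Pool.Agent.MP_a9d3bd_zz.Spl

namespace Pool.Agent.MP_a9d3bd_zz

open Polynomial Su

/-- The property holds for all positive multiples of some positive number. -/
def core_Ev (P : ℕ → Prop) : Prop := ∃ k0, 0 < k0 ∧ ∀ k, 0 < k → P (k0 * k)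

theorem core_all {I : Type} [Finite I] {P : I → ℕ → Prop} (h : ∀ i, core_Ev (P i)) :
    core_Ev fun n => ∀ i, P i n := by
  have := Fintype.ofFinite I
  choose k0 h0 hk using h
  have hp : 0 < ∏ i, k0 i := Finset.prod_pos fun i _ => h0 i
  refine ⟨∏ i, k0 i, hp, fun k hk' i => ?_⟩
  obtain ⟨c, hc⟩ := Finset.dvd_prod_of_mem k0 (Finset.mem_univ i)
  rw [hc] at hp ⊢
  rw [mul_assoc]
  exact hk i _ (Nat.mul_pos (Nat.pos_of_mul_pos_left hp) hk')

theorem core_and {P Q : ℕ → Prop} (h : core_Ev P) (h' : core_Ev Q) :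
    core_Ev fun n => P n ∧ Q n := by
  obtain ⟨a, ha, h⟩ := h
  obtain ⟨b, hb, h'⟩ := h'
  refine ⟨a * b, Nat.mul_pos ha hb, fun k hk => ⟨?_, ?_⟩⟩
  · rw [mul_assoc]
    exact h _ (Nat.mul_pos hb hk)
  · rw [mul_comm a, mul_assoc]
    exact h' _ (Nat.mul_pos ha hk)

theorem core_big {q1 : ℕ} (h : 1 < q1) (q0 : ℕ) : core_Ev fun n => 0 < n ∧ q0 ≤ q1 ^ n := by
  refine ⟨q0 + 1, Nat.succ_pos _, fun k hk => ⟨Nat.mul_pos (Nat.succ_pos _) hk, ?_⟩⟩
  have h1 := Nat.lt_pow_self (n := (q0 + 1) * k) h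
  have h2 := Nat.le_mul_of_pos_right (q0 + 1) hk
  omega

theorem core_ra {K : Type} [Field K] {p f : ℕ} (ht : ∀ a : K, ∃ n, 0 < n ∧ a ^ p ^ n = a)
    (a : K) : core_Ev fun n => Ra ((p ^ f) ^ n) a := by
  obtain ⟨n, hn, h⟩ := ht a
  have h1 : ∀ s, a ^ p ^ (n * s) = a := fun s => by
    induction s with
    | zero => simp
    | succ s ih => rw [mul_add, mul_one, pow_add, pow_mul a, ih, h]
  refine ⟨n, hn, fun k _ => ?_⟩
  change a ^ (p ^ f) ^ (n * k) = a
  rw [← pow_mul, mul_left_comm]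
  exact h1 _

theorem core_fib {J Z : Type} [Fintype J] (k : J → Z) (f : J → ℝ) (α : Z → ℝ)
    (P : J → Z → Prop) (d : ∀ j z, Decidable (P j z)) (hP : ∀ j z, P j z ↔ k j = z)
    (h : ∀ z, ∑ j, (if P j z then f j else 0) = 0) : ∑ j, f j * α (k j) = 0 := by
  classical
  have e : ∀ j, f j * α (k j) =
      ∑ z ∈ Finset.univ.image k, (if P j z then f j else 0) * α z := fun j => by
    rw [Finset.sum_eq_single (k j)]
    · rw [if_pos ((hP j _).2 rfl)]
    · intro z _ hz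
      rw [if_neg fun a => hz ((hP j z).1 a).symm, zero_mul]
    · intro a
      exact absurd (Finset.mem_image_of_mem k (Finset.mem_univ j)) a
  simp only [e]
  rw [Finset.sum_comm]
  refine Finset.sum_eq_zero fun z _ => ?_
  rw [← Finset.sum_mul, h, zero_mul]

variable {K A ι : Type} [Field K] [IsAlgClosed K] [CommRing A] [IsDedekindDomain A] [Algebra K A]
  [Algebra K[X] A] [IsScalarTower K K[X] A] [Module.Finite K[X] A] [Module.IsTorsionFree K[X] A]
  [Fintype ι] [DecidableEq ι] {m : ℕ} (S : Su K A ι m) (p : ℕ) [Fact p.Prime] [CharP K p]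

omit [IsAlgClosed K] [Module.Finite K[X] A] [Module.IsTorsionFree K[X] A] [DecidableEq ι] in
theorem core_eval {T : Type} [CommRing T] [Algebra K T] (θ : A →ₐ[K] T) (c : T)
    (g : Fin m × ι → T) (t : T) : (S.fp θ c g).eval t = MvPolynomial.aeval ![θ (xA K A), t,
      algebraMap K T S.c0 * θ (xA K A) ^ S.M + gam S.e θ g + c * (t - θ (xA K A) ^ S.M)] S.P := by
  have h := MvPolynomial.comp_aeval_apply (R := K) (f := ![C (θ (xA K A)), X, S.wl θ c g])
    ((Polynomial.aeval t : T[X] →ₐ[T] T).restrictScalars K) S.P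
  rw [AlgHom.restrictScalars_apply, coe_aeval_eq_eval] at h
  rw [fp, h]
  congr 2
  ext i
  fin_cases i <;> simp [wl]

omit [IsAlgClosed K] [Module.Finite K[X] A] [Module.IsTorsionFree K[X] A] [DecidableEq ι] in
theorem core_map {T T' : Type} [CommRing T] [Algebra K T] [CommRing T'] [Algebra K T']
    (ψ : T →ₐ[K] T') (θ : A →ₐ[K] T) (c : T) (g : Fin m × ι → T) (t : T) :
    ψ ((S.fp θ c g).eval t) = (S.fp (ψ.comp θ) (ψ c) fun v => ψ (g v)).eval (ψ t) := by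
  rw [core_eval, core_eval, MvPolynomial.comp_aeval_apply]
  congr 2
  ext i
  fin_cases i <;> simp [gam]

omit [IsAlgClosed K] [Module.Finite K[X] A] [Module.IsTorsionFree K[X] A] [DecidableEq ι] in
theorem core_root {c : K} {g : Fin m × ι → K} {t : A}
    (h : (S.fL c g).IsRoot (algebraMap A _ t)) (β : A →ₐ[K] K) :
    (S.fp β c g).eval (β t) = 0 := by
  have h1 := core_map S (gp K A) (AlgHom.id K A) (algebraMap K A c)
    (fun v => algebraMap K A (g v)) t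
  have h2 := core_map S β (AlgHom.id K A) (algebraMap K A c) (fun v => algebraMap K A (g v)) t
  simp only [AlgHom.comp_id, AlgHom.commutes] at h1 h2
  have h3 : (S.fp (AlgHom.id K A) (algebraMap K A c) fun v => algebraMap K A (g v)).eval t = 0 := by
    refine IsFractionRing.injective A (FractionRing A) ?_
    rw [map_zero]
    exact h1.trans h
  rw [h3, map_zero] at h2
  exact h2.symm

theorem core (ht : ∀ a : K, ∃ n, 0 < n ∧ a ^ p ^ n = a) (h1 : S.Qk p S.q1) {μ : Mu K A ι m}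
    (hμ : S.Good μ) {J : Type} [Fintype J] (g : J → Fin m × ι → K) (t : J → A)
    (u : J → FractionRing A) (ν : J → (A →ₐ[K] K) →₀ ℤ) (r : J → ℝ)
    (hA : ∀ j, S.Adm S.c0 (g j)) (hr : ∀ j, (S.fL S.c0 (g j)).IsRoot (algebraMap A _ (t j)))
    (hu : ∀ j, Dvs K (u j) (ν j)) (hdeg : ∀ j, ((ν j).sum fun _ z => z) = 0)
    (hs : ∀ j, ∀ β ∈ (ν j).support, (derivative (S.fp β S.c0 (g j))).eval (β (t j)) ≠ 0)
    (hcl : ∀ (β : A →ₐ[K] K) (t0 w0 : K), ∑ j, (open Classical in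
      if β (t j) = t0 ∧ S.c0 * t0 + gam S.e β (g j) = w0 then r j * ν j β else 0) = 0) :
    ∑ j, r j * μ S.c0 (g j) (X - C (algebraMap A _ (t j))) (C (u j)) = 0 := by
  have hsm : ∀ j, ∀ β ∈ (ν j).support, S.Smp (fun _ => True) S.c0 (g j) β (β (t j)) :=
    fun j β hβ => spe S S.h0 (core_root S (hr j) β) (hs j β hβ)
  obtain ⟨f, -, hf, -, hq1, -⟩ := id h1
  have hgt : 1 < S.q1 := by
    rw [hq1]
    exact Nat.one_lt_pow hf.ne' (Fact.out : p.Prime).one_lt
  have hra : ∀ a : K, core_Ev fun n => Ra (S.q1 ^ n) a := fun a => by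
    rw [hq1]
    exact core_ra ht a
  obtain ⟨qa, hfin⟩ := fin S p
  obtain ⟨qb, hcoc⟩ := coc S p hμ
  obtain ⟨qc, huni⟩ := uni S p 1 one_pos
  have hinc : ∀ i : Σ j, (ν j).support,
      core_Ev fun n => S.Inc (S.q1 ^ n) S.c0 (g i.1) i.2.1 (i.2.1 (t i.1)) := by
    rintro ⟨j, β, hβ⟩
    obtain ⟨e0, a, -, e1, e2⟩ := hsm j β hβ
    obtain ⟨k0, hk0, hk⟩ := core_and (core_and (hra (β (xA K A))) (core_all fun i => hra (β (S.e i))))
      (core_and (hra (β (t j))) (core_all fun v => hra (a v)))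
    exact ⟨k0, hk0, fun k h => ⟨(hk k h).1.1, (hk k h).1.2, (hk k h).2.1, e0, a, (hk k h).2.2, e1, e2⟩⟩
  obtain ⟨n, -, hn⟩ := core_and (core_big hgt (qa + qb + qc))
    (core_and (core_all (P := fun j n => S.Act (S.q1 ^ n) S.c0 (g j))
      fun j => act2 S p ht h1 (hA j)) (core_all hinc))
  obtain ⟨⟨hn0, hbig⟩, hact, hin⟩ := hn 1 one_pos
  generalize n * 1 = n at hn0 hbig hact hin
  have hq : S.Qk p (S.q1 ^ n) := ⟨f, n, hf, hn0, hq1, rfl⟩
  have hq0 : 0 < S.q1 ^ n := pow_pos (by omega) n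
  generalize S.q1 ^ n = q at hbig hact hin hq hq0
  have hin' : ∀ j, ∀ β ∈ (ν j).support, S.Inc q S.c0 (g j) β (β (t j)) :=
    fun j β hβ => hin ⟨j, β, hβ⟩
  have hsp : ∀ j, ∀ β ∈ (ν j).support,
      ∃ a ∈ S.Sp q S.c0 (g j), (β, β (t j)) ∈ S.pts S.c0 (g j) a := by
    intro j β hβ
    have h2 := (huni q (by omega) hq S.c0 (g j) (hact j) 1 one_le_two (fun _ => (β, β (t j)))
      (fun _ => (β, β (t j))) (Function.injective_of_subsingleton _)
      (Function.injective_of_subsingleton _) (fun _ => hin' j β hβ) (fun _ => hin' j β hβ)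
      fun _ => rfl).2
    have h3 : S.cnt q S.c0 (g j) (fun _ : Fin 1 => (β, β (t j))) ≠ 0 := by
      intro h0
      rw [h0, Nat.cast_zero, zero_mul, mul_zero] at h2
      exact absurd h2 (not_le.2 (pow_pos (Nat.cast_pos.2 hq0) _))
    obtain ⟨a, ha, ha'⟩ := Set.nonempty_of_ncard_ne_zero h3
    exact ⟨a, ha, ha' 0, (hsm j β hβ).1⟩
  have hext : ∀ (c : K) (g' : Fin m × ι → K), ∃ φ : (A →ₐ[K] K) × K → ℝ,
      Ra q c → RaV q g' → S.Adm c g' →
      (∀ a ∈ S.Sp q c g', S.MM μ c g' (S.gr a) = ∑ᶠ y ∈ S.pts c g' a, φ y) ∧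
      ∀ j, c = S.c0 → g' = g j → μ c g' (X - C (algebraMap A _ (t j))) (C (u j)) =
        (ν j).sum fun β z => (z : ℝ) * φ (β, β (t j)) := by
    intro c g'
    by_cases h : Ra q c ∧ RaV q g' ∧ S.Adm c g'
    · obtain ⟨φ, e1, e2⟩ := ext S p hμ hq h.1 h.2.1 h.2.2 (J := {j // c = S.c0 ∧ g' = g j})
        (fun j => t j.1) (fun j => u j.1) (fun j => ν j.1)
        (by rintro ⟨j, rfl, rfl⟩; exact hr j) (fun j => hu j.1) (fun j => hdeg j.1)
        (by rintro ⟨j, rfl, rfl⟩; exact hsp j)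
      exact ⟨φ, fun _ _ _ => ⟨e1, fun j a b => e2 ⟨j, a, b⟩⟩⟩
    · exact ⟨0, fun a b d => absurd ⟨a, b, d⟩ h⟩
  choose φ hφ using hext
  obtain ⟨Af, r', hco⟩ := hcoc q (by omega) hq
  obtain ⟨α, β', hab⟩ := hfin q (by omega) hq φ Af r' fun c g' a b d x hx => by
    rw [← (hφ c g' a b d).1 x hx]
    exact hco c g' a b d x hx
  classical
  have hval : ∀ j, μ S.c0 (g j) (X - C (algebraMap A _ (t j))) (C (u j)) =
      ∑ β ∈ Finset.univ.biUnion fun j => (ν j).support,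
        (ν j β : ℝ) * α β (β (t j)) (S.c0 * β (t j) + gam S.e β (g j)) := by
    intro j
    rw [(hφ S.c0 (g j) (hact j).1 (hact j).2.1 (hA j)).2 j rfl rfl, Finsupp.sum,
      ← Finset.sum_subset (Finset.subset_biUnion_of_mem (fun j => (ν j).support)
        (Finset.mem_univ j)) fun β _ hβ => by
          rw [Finsupp.notMem_support_iff.1 hβ, Int.cast_zero, zero_mul]]
    rcases (ν j).support.eq_empty_or_nonempty with h | ⟨β0, hβ0⟩
    · simp [h]
    have e : ∀ β ∈ (ν j).support, (ν j β : ℝ) * φ S.c0 (g j) (β, β (t j)) =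
        (ν j β : ℝ) * α β (β (t j)) (S.c0 * β (t j) + gam S.e β (g j)) +
          (ν j β : ℝ) * β' S.c0 (g j) (S.cls S.c0 (g j) β0 (β0 (t j))) := fun β hβ => by
      rw [hab S.c0 (g j) (hact j) β _ (hin' j β hβ),
        cls_sec S (hr j) (hsm j β hβ) (hsm j β0 hβ0), mul_add]
      congr 3
      simp [wl]
      ring
    have e2 : ∑ β ∈ (ν j).support, (ν j β : ℝ) = 0 := by exact_mod_cast hdeg j
    rw [Finset.sum_congr rfl e, Finset.sum_add_distrib, ← Finset.sum_mul, e2, zero_mul, add_zero]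
  simp only [hval, Finset.mul_sum]
  rw [Finset.sum_comm]
  refine Finset.sum_eq_zero fun β _ => ?_
  simp only [← mul_assoc]
  refine core_fib (fun j => (β (t j), S.c0 * β (t j) + gam S.e β (g j))) (fun j => r j * ν j β)
    (fun z => α β z.1 z.2) (fun j z => β (t j) = z.1 ∧ S.c0 * z.1 + gam S.e β (g j) = z.2) _
    (fun j z => ?_) fun z => hcl β z.1 z.2
  rw [Prod.ext_iff]
  exact and_congr_right fun h => by rw [← h]

end Pool.Agent.MP_a9d3bd_zz
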