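import Pool.Agent.MP_a9d3bd_zz.Defs

namespace Pool.Agent.MP_a9d3bd_zz

open Polynomial

theorem exsu_fr_pow {K : Type} [Field K] (p : ℕ) {a : K} {n : ℕ} (h : a ^ p ^ n = a) (k : ℕ) :
    a ^ p ^ (n * k) = a := by
  induction k with
  | zero => simp
  | succ k ih => rw [Nat.mul_succ, pow_add, pow_mul, ih, h]

theorem exsu_fr_fin {K : Type} [Field K] (p : ℕ) (ht : ∀ a : K, ∃ n, 0 < n ∧ a ^ p ^ n = a)
    (G : Finset K) : ∃ f, 0 < f ∧ ∀ a ∈ G, a ^ p ^ f = a := by
  classical
  induction G using Finset.induction_on with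
  | empty => exact ⟨1, one_pos, by simp⟩
  | insert a G _ ih =>
    obtain ⟨f, hf, h⟩ := ih
    obtain ⟨n, hn, e⟩ := ht a
    refine ⟨n * f, Nat.mul_pos hn hf, fun x hx => ?_⟩
    rcases Finset.mem_insert.1 hx with rfl | hx
    · exact exsu_fr_pow p e f
    · rw [Nat.mul_comm]
      exact exsu_fr_pow p (h x hx) n

theorem exsu_fr_gen {R A : Type} [CommRing R] [CommRing A] [Algebra R A] {n : ℕ}
    (b : Module.Basis (Fin n) R A) (s : R ≃+* R) (h1 : ∀ k, s (b.repr 1 k) = b.repr 1 k)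
    (h2 : ∀ i j k, s (b.repr (b i * b j) k) = b.repr (b i * b j) k) :
    ∃ fr : A ≃+* A, (∀ (q : R) (a : A), fr (q • a) = s q • fr a) ∧ ∀ j, fr (b j) = b j := by
  classical
  obtain ⟨g, hg⟩ : ∃ g : A ≃+ A, ∀ a k, b.repr (g a) k = s (b.repr a k) :=
    ⟨(b.equivFun.toAddEquiv.trans (AddEquiv.piCongrRight fun _ => s.toAddEquiv)).trans
      b.equivFun.symm.toAddEquiv, fun a k => by
        change b.equivFun (b.equivFun.symm _) k = _
        rw [LinearEquiv.apply_symm_apply]
        rfl⟩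
  have sm : ∀ (q : R) (a : A), g (q • a) = s q • g a := fun q a =>
    b.ext_elem fun k => by simp only [hg, map_smul, Finsupp.smul_apply, smul_eq_mul, map_mul]
  have fix : ∀ a, (∀ k, s (b.repr a k) = b.repr a k) → g a = a := fun a h =>
    b.ext_elem fun k => by rw [hg, h]
  have hb : ∀ j, g (b j) = b j := fun j => fix _ fun k => by
    rw [b.repr_self, Finsupp.single_apply]
    split_ifs
    · exact map_one s
    · exact map_zero s
  have ex : ∀ a, g a = ∑ j, s (b.repr a j) • b j := fun a => by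
    conv_lhs => rw [← b.sum_repr a]
    rw [map_sum]
    exact Finset.sum_congr rfl fun j _ => by rw [sm, hb]
  have mul : ∀ x y, g (x * y) = g x * g y := fun x y => by
    rw [ex x, ex y]
    conv_lhs => rw [← b.sum_repr x, ← b.sum_repr y]
    rw [Finset.sum_mul_sum, Finset.sum_mul_sum, map_sum]
    refine Finset.sum_congr rfl fun i _ => ?_
    rw [map_sum]
    refine Finset.sum_congr rfl fun j _ => ?_
    rw [smul_mul_smul_comm, smul_mul_smul_comm, sm, fix _ (h2 i j), map_mul]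
  exact ⟨{ g with map_mul' := mul }, sm, hb⟩

theorem exsu_fr {K A : Type} [Field K] [IsAlgClosed K] [CommRing A] [Algebra K A]
    [Algebra K[X] A] [IsScalarTower K K[X] A] (p : ℕ) [Fact p.Prime] [CharP K p]
    (ht : ∀ a : K, ∃ n, 0 < n ∧ a ^ p ^ n = a) {n : ℕ} (b : Module.Basis (Fin n) K[X] A)
    (F : Finset K) : ∃ f, 0 < f ∧ (∀ a ∈ F, a ^ p ^ f = a) ∧ ∃ fr : A ≃+* A,
      (∀ a : K, fr (algebraMap K A a) = algebraMap K A (a ^ p ^ f)) ∧ fr (xA K A) = xA K A ∧
      ∀ j, fr (b j) = b j := by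
  classical
  obtain ⟨f, hf, h⟩ := exsu_fr_fin p ht (F ∪ (Finset.univ.biUnion fun k => (b.repr 1 k).coeffs) ∪
    Finset.univ.biUnion fun t : Fin n × Fin n × Fin n => (b.repr (b t.1 * b t.2.1) t.2.2).coeffs)
  have : ExpChar K p := ExpChar.prime Fact.out
  have key : ∀ q : K[X], (∀ a ∈ q.coeffs, a ^ p ^ f = a) →
      Polynomial.mapEquiv (iterateFrobeniusEquiv K p f) q = q := fun q hq => by
    ext m
    rw [Polynomial.mapEquiv_apply, coeff_map]
    change q.coeff m ^ p ^ f = q.coeff m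
    by_cases h0 : q.coeff m = 0
    · rw [h0]
      exact zero_pow (pow_pos (Fact.out : p.Prime).pos f).ne'
    · exact hq _ (coeff_mem_coeffs h0)
  obtain ⟨fr, h1, h2⟩ := exsu_fr_gen b (Polynomial.mapEquiv (iterateFrobeniusEquiv K p f))
    (fun k => key _ fun a ha => h a (Finset.mem_union_left _ (Finset.mem_union_right _
      (Finset.mem_biUnion.2 ⟨k, Finset.mem_univ _, ha⟩))))
    (fun i j k => key _ fun a ha => h a (Finset.mem_union_right _
      (Finset.mem_biUnion.2 ⟨(i, j, k), Finset.mem_univ _, ha⟩)))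
  have h3 : ∀ q : K[X], fr (algebraMap K[X] A q) =
      algebraMap K[X] A (Polynomial.mapEquiv (iterateFrobeniusEquiv K p f) q) := fun q => by
    rw [Algebra.algebraMap_eq_smul_one, h1, map_one, ← Algebra.algebraMap_eq_smul_one]
  refine ⟨f, hf, fun a ha => h a (Finset.mem_union_left _ (Finset.mem_union_left _ ha)), fr,
    fun a => ?_, ?_, h2⟩
  · rw [IsScalarTower.algebraMap_apply K K[X] A, IsScalarTower.algebraMap_apply K K[X] A, h3,
      Polynomial.mapEquiv_apply, algebraMap_eq, map_C]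
    rfl
  · unfold xA
    rw [h3, Polynomial.mapEquiv_apply, map_X]

end Pool.Agent.MP_a9d3bd_zz
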