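import Pool.Agent.MP_a9d3bd_zz.Defs

namespace Pool.Agent.MP_a9d3bd_zz

open Polynomial

theorem exsu_inf_poly {K F Γ : Type} [Field K] [Field F] [LinearOrderedCommGroupWithZero Γ]
    (v : Valuation F Γ) (φ : K[X] →+* F) (h0 : ∀ c, v (φ (C c)) ≤ 1) (h1 : 1 ≤ v (φ X))
    (q : K[X]) {μ : ℕ} (hq : q.natDegree ≤ μ) : v (φ q) ≤ v (φ X) ^ μ := by
  rw [q.as_sum_range_C_mul_X_pow, map_sum]
  refine v.map_sum_le fun i hi => ?_
  rw [map_mul, map_pow, map_mul, map_pow]
  exact (mul_le_of_le_one_left' (h0 _)).trans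
    (pow_le_pow_right₀ h1 ((Nat.lt_succ_iff.1 (Finset.mem_range.1 hi)).trans hq))

theorem exsu_inf_int {K F Γ : Type} [Field K] [Field F] [LinearOrderedCommGroupWithZero Γ]
    (v : Valuation F Γ) (φ : K[X] →+* F) (h0 : ∀ c, v (φ (C c)) ≤ 1) (h1 : 1 ≤ v (φ X))
    {p : K[X][X]} (hp : p.Monic) {μ : ℕ} (hμ : ∀ i, (p.coeff i).natDegree ≤ μ) {a : F}
    (ha : p.eval₂ φ a = 0) : v a ≤ v (φ X) ^ μ := by
  by_contra h
  have h2 : v (φ X) ^ μ < v a := not_le.1 h
  have h3 : 1 ≤ v a := (one_le_pow₀ h1).trans h2.le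
  have h4 : 0 < v a := zero_lt_one.trans_le h3
  rw [hp.as_sum, eval₂_add, eval₂_X_pow, eval₂_finsetSum, add_eq_zero_iff_eq_neg] at ha
  have h5 := congrArg v ha
  rw [v.map_neg, map_pow] at h5
  refine h5.not_gt (v.map_sum_lt (pow_pos h4 _).ne' fun i hi => ?_)
  rw [eval₂_mul, eval₂_C, eval₂_X_pow, map_mul, map_pow]
  calc v (φ (p.coeff i)) * v a ^ i < v a * v a ^ i :=
        mul_lt_mul_of_pos_right ((exsu_inf_poly v φ h0 h1 _ (hμ i)).trans_lt h2) (pow_pos h4 _)
    _ = v a ^ (i + 1) := (pow_succ' _ _).symm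
    _ ≤ _ := pow_le_pow_right₀ h3 (Finset.mem_range.1 hi)

theorem exsu_inf {K A : Type} [Field K] [CommRing A] [IsDomain A] [Algebra K A]
    [Algebra K[X] A] [IsScalarTower K K[X] A] [Module.Finite K[X] A] {ι : Type} [Finite ι]
    (e : ι → A) (m : ℕ) : ∃ M, 2 ≤ M ∧ ∀ O : ValuationSubring (FractionRing A),
      (∀ a : K, algebraMap K _ a ∈ O) → algebraMap A _ (xA K A) ∉ O → ∀ (i : Fin m) (j : ι),
      O.valuation (algebraMap A _ (xA K A ^ (i : ℕ) * e j)) <
        O.valuation (algebraMap A _ (xA K A ^ M)) := by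
  have key : ∀ j, ∃ p : K[X][X], p.Monic ∧ p.eval₂ (algebraMap K[X] A) (e j) = 0 :=
    fun j => Algebra.IsIntegral.isIntegral (R := K[X]) (e j)
  choose p hp hp0 using key
  have key2 : ∀ j, ∃ μ : ℕ, ∀ i, ((p j).coeff i).natDegree ≤ μ := fun j =>
    ⟨(p j).support.sup fun i => ((p j).coeff i).natDegree, fun i => by
      by_cases hi : i ∈ (p j).support
      · exact Finset.le_sup (f := fun i => ((p j).coeff i).natDegree) hi
      · rw [notMem_support_iff.1 hi, natDegree_zero]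
        exact Nat.zero_le _⟩
  choose μ hμ using key2
  obtain ⟨ν, hν⟩ := (Set.finite_range μ).bddAbove
  refine ⟨m + ν + 2, by omega, fun O hK hx i j => ?_⟩
  have h1 : 1 < O.valuation (algebraMap A (FractionRing A) (xA K A)) :=
    not_le.1 fun h => hx ((O.valuation_le_one_iff _).1 h)
  have h2 := exsu_inf_int O.valuation ((algebraMap A (FractionRing A)).comp (algebraMap K[X] A))
    (fun c => (O.valuation_le_one_iff _).2 (by
      rw [RingHom.comp_apply, ← algebraMap_eq, ← IsScalarTower.algebraMap_apply,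
        ← IsScalarTower.algebraMap_apply]
      exact hK c)) h1.le (hp j) (fun i => (hμ j i).trans (hν ⟨j, rfl⟩))
    (a := algebraMap A (FractionRing A) (e j)) (by rw [← hom_eval₂, hp0, map_zero])
  rw [map_mul, map_pow, map_pow, map_mul, map_pow, map_pow]
  refine (mul_le_mul_right h2 _).trans_lt ?_
  rw [RingHom.comp_apply, ← pow_add]
  exact pow_lt_pow_right₀ h1 (by omega)

end Pool.Agent.MP_a9d3bd_zz
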