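import Pool.Agent.MP_a9d3bd_zz.Defs

namespace Pool.Agent.MP_a9d3bd_zz

open Polynomial

section
variable {K L Γ : Type*} [Field K] [Field L] [Algebra K L] [LinearOrderedCommGroupWithZero Γ]
  (v : Valuation L Γ) [v.IsTrivialOn K]

theorem exsu_le {y : L} {c : K} (h : v (y - algebraMap K L c) < 1) : v y ≤ 1 := by
  have : y = (y - algebraMap K L c) + algebraMap K L c := by ring
  rw [this]
  exact v.map_add_le h.le (Valuation.IsTrivialOn.valuation_algebraMap_le_one v c)

theorem exsu_res {σ : Type*} (y : σ → L) (c : σ → K) (h : ∀ i, v (y i - algebraMap K L (c i)) < 1)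
    (Q : MvPolynomial σ K) :
    v (MvPolynomial.aeval y Q - algebraMap K L (MvPolynomial.aeval c Q)) < 1 := by
  induction Q using MvPolynomial.induction_on with
  | C a => simp
  | add P Q hP hQ =>
    have : MvPolynomial.aeval y (P + Q) - algebraMap K L (MvPolynomial.aeval c (P + Q)) =
        (MvPolynomial.aeval y P - algebraMap K L (MvPolynomial.aeval c P)) +
        (MvPolynomial.aeval y Q - algebraMap K L (MvPolynomial.aeval c Q)) := by
      simp only [map_add]; ring
    rw [this]
    exact v.map_add_lt hP hQ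
  | mul_X P i hP =>
    have : MvPolynomial.aeval y (P * MvPolynomial.X i) -
        algebraMap K L (MvPolynomial.aeval c (P * MvPolynomial.X i)) =
        (MvPolynomial.aeval y P - algebraMap K L (MvPolynomial.aeval c P)) * y i +
        algebraMap K L (MvPolynomial.aeval c P) * (y i - algebraMap K L (c i)) := by
      simp only [map_mul, MvPolynomial.aeval_X]; ring
    rw [this]
    refine v.map_add_lt ?_ ?_
    · rw [map_mul]
      exact lt_of_le_of_lt (mul_le_of_le_one_right' (exsu_le v (h i))) hP
    · rw [map_mul]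
      exact lt_of_le_of_lt (mul_le_of_le_one_left'
        (Valuation.IsTrivialOn.valuation_algebraMap_le_one v _)) (h i)

omit [v.IsTrivialOn K] in
theorem exsu_hom {σ : Type*} [Fintype σ] {Q : MvPolynomial σ K} {e : ℕ} (hQ : Q.IsHomogeneous e)
    (t : L) (y : σ → L) :
    MvPolynomial.aeval (fun i => t * y i) Q = t ^ e * MvPolynomial.aeval y Q := by
  rw [MvPolynomial.aeval_def, MvPolynomial.aeval_def, MvPolynomial.eval₂_eq', MvPolynomial.eval₂_eq',
    Finset.mul_sum]
  refine Finset.sum_congr rfl fun s hs => ?_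
  have h1 : ∑ i, s i = e := by
    by_contra h
    refine (MvPolynomial.mem_support_iff.1 hs) (hQ.coeff_eq_zero ?_)
    rwa [Finsupp.degree_eq_sum]
  simp only [mul_pow, Finset.prod_mul_distrib, Finset.prod_pow_eq_pow_sum, h1]
  ring

theorem exsu_top {σ : Type*} [Fintype σ] (t : L) (ht : 1 < v t) (y : σ → L) (c : σ → K)
    (h : ∀ i, v (y i - algebraMap K L (c i) * t) < v t) (P : MvPolynomial σ K) (d : ℕ)
    (hP : P.totalDegree ≤ d) :
    v (MvPolynomial.aeval y P / t ^ d - algebraMap K L
      (MvPolynomial.aeval c (MvPolynomial.homogeneousComponent d P))) < 1 := by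
  have hv0 : 0 < v t := lt_trans zero_lt_one ht
  have ht0 : t ≠ 0 := by
    rintro rfl
    simp at hv0
  have h1 : ∀ i, v (y i / t - algebraMap K L (c i)) < 1 := by
    intro i
    have : y i / t - algebraMap K L (c i) = (y i - algebraMap K L (c i) * t) / t := by
      field_simp
    rw [this, map_div₀]
    exact (div_lt_one₀ hv0).2 (h i)
  have h2 : P = ∑ e ∈ Finset.range (d + 1), MvPolynomial.homogeneousComponent e P := by
    conv_lhs => rw [← MvPolynomial.sum_homogeneousComponent P]
    refine Finset.sum_subset (Finset.range_subset_range.2 (by omega)) fun e _ he => ?_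
    exact MvPolynomial.homogeneousComponent_eq_zero _ _ (by simpa using he)
  have h3 : ∀ e, MvPolynomial.aeval y (MvPolynomial.homogeneousComponent e P) =
      t ^ e * MvPolynomial.aeval (fun i => y i / t) (MvPolynomial.homogeneousComponent e P) := by
    intro e
    rw [← exsu_hom (MvPolynomial.homogeneousComponent_isHomogeneous e P)]
    congr 2
    ext i
    field_simp
  have h4 : MvPolynomial.aeval y P / t ^ d - algebraMap K L
      (MvPolynomial.aeval c (MvPolynomial.homogeneousComponent d P)) =
      ∑ e ∈ Finset.range d, t ^ e / t ^ d *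
        MvPolynomial.aeval (fun i => y i / t) (MvPolynomial.homogeneousComponent e P) +
      (MvPolynomial.aeval (fun i => y i / t) (MvPolynomial.homogeneousComponent d P) -
        algebraMap K L (MvPolynomial.aeval c (MvPolynomial.homogeneousComponent d P))) := by
    have h5 : MvPolynomial.aeval y P = ∑ e ∈ Finset.range (d + 1), t ^ e *
        MvPolynomial.aeval (fun i => y i / t) (MvPolynomial.homogeneousComponent e P) := by
      conv_lhs => rw [h2]
      rw [map_sum]
      exact Finset.sum_congr rfl fun e _ => h3 e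
    rw [h5, Finset.sum_range_succ, add_div, Finset.sum_div, mul_div_cancel_left₀ _ (pow_ne_zero d ht0),
      add_sub_assoc]
    congr 1
    exact Finset.sum_congr rfl fun e _ => by ring
  rw [h4]
  refine v.map_add_lt (v.map_sum_lt one_ne_zero fun e he => ?_) (exsu_res v _ c h1 _)
  rw [map_mul, map_div₀, map_pow, map_pow]
  refine lt_of_le_of_lt (mul_le_of_le_one_right' (exsu_le v (exsu_res v _ c h1 _))) ?_
  exact (div_lt_one₀ (pow_pos hv0 d)).2 (pow_lt_pow_right₀ ht (Finset.mem_range.1 he))

theorem exsu_prod {σ : Type*} [Fintype σ] (y : σ → L) (c : K)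
    (h : ∀ i, v (y i - algebraMap K L c) < 1) :
    v (∏ i, y i - algebraMap K L (c ^ Fintype.card σ)) < 1 := by
  have := exsu_res v y (fun _ => c) h (∏ i, MvPolynomial.X i)
  simpa using this

theorem exsu_deg (x : L) (hx : 1 < v x) (N : K[X]) (D : ℕ) (c : K)
    (h : v (aeval x N / x ^ D - algebraMap K L c) < 1) :
    N.coeff D = c ∧ ∀ i, D < i → N.coeff i = 0 := by
  have hv0 : 0 < v x := lt_trans zero_lt_one hx
  have hx0 : x ≠ 0 := by
    rintro rfl
    simp at hv0
  have h1 : ∀ i, D ≤ i → (N - C c * X ^ D).coeff i = 0 := by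
    intro i hi
    by_cases h0 : N - C c * X ^ D = 0
    · rw [h0, coeff_zero]
    have h2 := valuation_aeval_eq_valuation_X_pow_natDegree_of_one_lt_valuation_X (v := v) x hx h0
    have h3 : aeval x N / x ^ D - algebraMap K L c = aeval x (N - C c * X ^ D) / x ^ D := by
      simp only [map_sub, map_mul, map_pow, aeval_C, aeval_X]
      field_simp
    rw [h3, map_div₀, h2, map_pow, div_lt_one₀ (pow_pos hv0 D), pow_lt_pow_iff_right₀ hx] at h
    exact coeff_eq_zero_of_natDegree_lt (lt_of_lt_of_le h hi)
  refine ⟨?_, fun i hi => ?_⟩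
  · have := h1 D le_rfl
    simpa [sub_eq_zero] using this
  · have := h1 i hi.le
    simpa [coeff_X_pow, hi.ne'] using this

end

theorem exsu_val {K L : Type*} [Field K] [Field L] [Algebra K L] (x : L)
    (hx : Transcendental K x) :
    ∃ O : ValuationSubring L, (∀ a : K, algebraMap K L a ∈ O) ∧ x ∉ O := by
  have hx0 : x ≠ 0 := by
    rintro rfl
    exact hx isAlgebraic_zero
  let := invertibleOfNonzero hx0
  let B := Algebra.adjoin K {x⁻¹}
  let xinv : B.toSubring := ⟨x⁻¹, Algebra.subset_adjoin rfl⟩
  have : Ideal.span {xinv} ≠ ⊤ := fun eq => by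
    have := invertibleOfNonzero (inv_ne_zero hx0)
    obtain ⟨p, hp, hpx⟩ := Algebra.exists_aeval_invOf_eq_zero_of_idealMap_adjoin_sup_span_eq_top
      (x⁻¹) (⊥ : Ideal K) bot_ne_top (top_unique <| eq.ge.trans le_sup_right)
    refine hx ⟨p, ?_, by simpa using hpx⟩
    rintro rfl
    simp at hp
  have ⟨V, hV⟩ := Ideal.image_subset_nonunits_valuationSubring _ this
  exact ⟨V, fun r => hV.1 (B.algebraMap_mem r),
    (V.inv_mem_nonunits_iff.mp <| hV.2 ⟨_, Ideal.subset_span rfl, rfl⟩).resolve_left hx0⟩

theorem exsu_triv {K L : Type*} [Field K] [Field L] [Algebra K L] (O : ValuationSubring L)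
    (h : ∀ a : K, algebraMap K L a ∈ O) : O.valuation.IsTrivialOn K := by
  refine ⟨fun a ha => le_antisymm ((O.valuation_le_one_iff _).2 (h a)) ?_⟩
  have h1 := (O.valuation_le_one_iff _).2 (h a⁻¹)
  rw [map_inv₀, map_inv₀] at h1
  have h2 : 0 < O.valuation (algebraMap K L a) := by
    rw [Valuation.pos_iff]
    simpa using ha
  exact (inv_le_one₀ h2).1 h1

end Pool.Agent.MP_a9d3bd_zz
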