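import Pool.Agent.MP_a9d3bd_zz.Defs
import Pool.Agent.MP_a9d3bd_zz.ExSuC

namespace Pool.Agent.MP_a9d3bd_zz

open Polynomial

variable {K A ι : Type} [Field K] [CommRing A] [Algebra K A]
  [Algebra K[X] A] [IsScalarTower K K[X] A] [Fintype ι] {m : ℕ}

/-- The conjugates of the function of a pencil. -/
noncomputable def exsuR (e : ι → A) (M : ℕ) (P : MvPolynomial (Fin 3) K) (c0 : K) {T : Type}
    [CommRing T] [Algebra K T] (θ : A →ₐ[K] T) (a a' : Fin m × ι → T) (g : A ≃ₐ[K[X]] A) : T :=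
  MvPolynomial.aeval
    ![θ (xA K A), θ (xA K A) ^ M + gam e (θ.comp (g.restrictScalars K).toAlgHom) a,
      algebraMap K T c0 * θ (xA K A) ^ M + gam e (θ.comp (g.restrictScalars K).toAlgHom) a'] P

theorem exsu_nat (e : ι → A) (M : ℕ) (P : MvPolynomial (Fin 3) K) (c0 : K) {T T' : Type}
    [CommRing T] [Algebra K T] [CommRing T'] [Algebra K T'] (Φ : T →ₐ[K] T') (θ : A →ₐ[K] T)
    (a a' : Fin m × ι → T) (g : A ≃ₐ[K[X]] A) :
    Φ (exsuR e M P c0 θ a a' g) =
      exsuR e M P c0 (Φ.comp θ) (fun v => Φ (a v)) (fun v => Φ (a' v)) g := by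
  unfold exsuR
  rw [MvPolynomial.comp_aeval_apply]
  congr 2
  ext i
  fin_cases i <;> simp [gam]

theorem exsu_mul (e : ι → A) (M : ℕ) (P : MvPolynomial (Fin 3) K) (c0 : K) {T : Type}
    [CommRing T] [Algebra K T] (θ : A →ₐ[K] T) (a a' : Fin m × ι → T) (h g : A ≃ₐ[K[X]] A) :
    exsuR e M P c0 (θ.comp (h.restrictScalars K).toAlgHom) a a' g =
      exsuR e M P c0 θ a a' (h * g) := by
  unfold exsuR
  congr 2
  ext i
  fin_cases i <;> simp [gam]

theorem exsu_alg {T : Type} [CommRing T] [Algebra K T] (θ : A →ₐ[K] T) (q : K[X]) :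
    θ (algebraMap K[X] A q) = aeval (θ (xA K A)) q := by
  have := aeval_algHom_apply (θ.comp (IsScalarTower.toAlgHom K K[X] A)) X q
  simpa using this.symm

theorem exsu_n1 [Fintype (A ≃ₐ[K[X]] A)] (e : ι → A) (m M : ℕ) (P : MvPolynomial (Fin 3) K) (c0 : K)
    (hinv : ∀ a : A, (∀ g : A ≃ₐ[K[X]] A, g a = a) → a ∈ Set.range (algebraMap K[X] A)) :
    ∃ N : (MvPolynomial ((Fin m × ι) ⊕ (Fin m × ι)) K)[X],
      ∀ (T : Type) [CommRing T] [Algebra K T] (θ : A →ₐ[K] T) (a a' : Fin m × ι → T),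
        N.eval₂ (MvPolynomial.aeval (Sum.elim a a')).toRingHom (θ (xA K A)) =
          ∏ g, exsuR e M P c0 θ a a' g := by
  let θ0 : A →ₐ[K] MvPolynomial ((Fin m × ι) ⊕ (Fin m × ι)) A := IsScalarTower.toAlgHom K A _
  let Pi0 : MvPolynomial ((Fin m × ι) ⊕ (Fin m × ι)) A :=
    ∏ g, exsuR e M P c0 θ0 (fun v => MvPolynomial.X (Sum.inl v))
    (fun v => MvPolynomial.X (Sum.inr v)) g
  have h1 : ∀ h : A ≃ₐ[K[X]] A,
      MvPolynomial.mapAlgHom (h.restrictScalars K).toAlgHom Pi0 = Pi0 := by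
    intro h
    have h2 : (MvPolynomial.mapAlgHom (h.restrictScalars K).toAlgHom).comp θ0 =
        θ0.comp (h.restrictScalars K).toAlgHom := by
      ext1 a
      simp [θ0]
    simp only [Pi0, map_prod, exsu_nat, h2, exsu_mul]
    simp only [MvPolynomial.mapAlgHom_apply, MvPolynomial.map_X]
    exact Equiv.prod_comp (Equiv.mulLeft h) _
  obtain ⟨N0, hN0⟩ : Pi0 ∈ Set.range (MvPolynomial.map (algebraMap K[X] A)) := by
    rw [MvPolynomial.mem_range_map_iff_coeffs_subset]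
    intro c hc
    obtain ⟨s, -, rfl⟩ := MvPolynomial.mem_coeffs_iff.1 hc
    refine hinv _ fun g => ?_
    have := congrArg (MvPolynomial.coeff s) (h1 g)
    simpa [MvPolynomial.coeff_map] using this
  refine ⟨MvPolynomial.eval₂Hom (mapRingHom MvPolynomial.C) (fun w => C (MvPolynomial.X w)) N0,
    fun T _ _ θ a a' => ?_⟩
  let Φ : MvPolynomial ((Fin m × ι) ⊕ (Fin m × ι)) A →ₐ[K] T :=
    MvPolynomial.aevalTower θ (Sum.elim a a')
  have h3 : (eval₂RingHom (MvPolynomial.aeval (R := K) (Sum.elim a a')).toRingHom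
      (θ (xA K A))).comp
      (MvPolynomial.eval₂Hom (mapRingHom MvPolynomial.C) (fun w => C (MvPolynomial.X w))) =
      Φ.toRingHom.comp (MvPolynomial.map (algebraMap K[X] A)) := by
    refine MvPolynomial.ringHom_ext (fun q => ?_) fun w => ?_
    · simp only [RingHom.comp_apply, MvPolynomial.eval₂Hom_C, coe_mapRingHom, coe_eval₂RingHom,
        eval₂_map, MvPolynomial.map_C, AlgHom.toRingHom_eq_coe, RingHom.coe_coe, Φ,
        MvPolynomial.aevalTower_C]
      rw [exsu_alg θ q, aeval_def]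
      congr 1
      ext c
      simp
    · simp [Φ]
  have h4 := congrArg (fun f => f N0) h3
  simp only [RingHom.comp_apply, coe_eval₂RingHom, hN0] at h4
  rw [h4]
  have h5 : Φ.comp θ0 = θ := by
    ext1 a
    simp [Φ, θ0]
  simp only [Pi0, AlgHom.toRingHom_eq_coe, RingHom.coe_coe, map_prod, exsu_nat, h5]
  simp [Φ]

theorem exsu_nn [IsAlgClosed K] [IsDomain A] [Module.IsTorsionFree K[X] A]
    [Finite (A ≃ₐ[K[X]] A)] (e : ι → A) (m M : ℕ) (hM : 2 ≤ M)
    (hinf : ∀ O : ValuationSubring (FractionRing A),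
      (∀ a : K, algebraMap K _ a ∈ O) → algebraMap A _ (xA K A) ∉ O →
      ∀ (i : Fin m) (j : ι × (A ≃ₐ[K[X]] A)),
      O.valuation (algebraMap A _ (xA K A ^ (i : ℕ) * j.2 (e j.1))) <
        O.valuation (algebraMap A _ (xA K A ^ M)))
    (P : MvPolynomial (Fin 3) K) (d : ℕ) (hP : P.totalDegree ≤ d) (c0 : K) (h0 : pd P d c0 ≠ 0)
    (hinv : ∀ a : A, (∀ g : A ≃ₐ[K[X]] A, g a = a) → a ∈ Set.range (algebraMap K[X] A)) :
    ∃ NN : (MvPolynomial ((Fin m × ι) ⊕ (Fin m × ι)) K)[X], NN.Monic ∧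
      NN.natDegree = Nat.card (A ≃ₐ[K[X]] A) * (d * M) ∧
      ∀ (T : Type) [CommRing T] [Algebra K T] (θ : A →ₐ[K] T) (a a' : Fin m × ι → T),
        algebraMap K T (pd P d c0) ^ Nat.card (A ≃ₐ[K[X]] A) *
          NN.eval₂ (MvPolynomial.aeval (Sum.elim a a')).toRingHom (θ (xA K A)) =
        ∏ᶠ g, exsuR e M P c0 θ a a' g := by
  have := Fintype.ofFinite (A ≃ₐ[K[X]] A)
  obtain ⟨N, hN⟩ := exsu_n1 e m M P c0 hinv
  let θ : A →ₐ[K] FractionRing A := IsScalarTower.toAlgHom K A _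
  have hθ : ∀ a, θ a = algebraMap A _ a := fun a => rfl
  have htr : Transcendental K (θ (xA K A)) := by
    rintro ⟨q, hq, hq0⟩
    rw [← exsu_alg θ q, hθ, map_eq_zero_iff _ (IsFractionRing.injective A _),
      map_eq_zero_iff _ (FaithfulSMul.algebraMap_injective K[X] A)] at hq0
    exact hq hq0
  obtain ⟨O, hO, hx⟩ := exsu_val _ htr
  have := exsu_triv O hO
  have hx1 : 1 < O.valuation (θ (xA K A)) :=
    lt_of_not_ge fun h => hx ((O.valuation_le_one_iff _).1 h)
  have ht1 : 1 < O.valuation (θ (xA K A) ^ M) := by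
    rw [map_pow]
    exact one_lt_pow₀ hx1 (by omega)
  have hg : ∀ (g : A ≃ₐ[K[X]] A) (z : Fin m × ι → K), O.valuation
      (gam e (θ.comp (g.restrictScalars K).toAlgHom) fun v => algebraMap K _ (z v)) <
      O.valuation (θ (xA K A) ^ M) := by
    intro g z
    refine O.valuation.map_sum_lt (lt_trans zero_lt_one ht1).ne' fun u _ => ?_
    rw [map_mul]
    refine lt_of_le_of_lt (mul_le_of_le_one_left'
      (Valuation.IsTrivialOn.valuation_algebraMap_le_one _ _)) ?_
    have := hinf O hO hx u.1 (u.2, g)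
    simpa [hθ] using this
  set D := Nat.card (A ≃ₐ[K[X]] A) * (d * M) with hD
  set κ := pd P d c0 ^ Nat.card (A ≃ₐ[K[X]] A) with hκ
  have key : ∀ z : (Fin m × ι) ⊕ (Fin m × ι) → K,
      (N.map (MvPolynomial.eval z)).coeff D = κ ∧
        ∀ i, D < i → (N.map (MvPolynomial.eval z)).coeff i = 0 := by
    intro z
    refine exsu_deg O.valuation (θ (xA K A)) hx1 _ D κ ?_
    have h1 := hN _ θ (fun v => algebraMap K _ (z (Sum.inl v)))
      (fun v => algebraMap K _ (z (Sum.inr v)))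
    have h2 : aeval (θ (xA K A)) (N.map (MvPolynomial.eval z)) = ∏ g, exsuR e M P c0 θ
        (fun v => algebraMap K _ (z (Sum.inl v))) (fun v => algebraMap K _ (z (Sum.inr v))) g := by
      rw [← h1, aeval_def, eval₂_map]
      congr 1
      refine MvPolynomial.ringHom_ext (fun c => by simp) fun w => ?_
      cases w <;> simp
    have h3 := exsu_prod O.valuation (fun g => exsuR e M P c0 θ
      (fun v => algebraMap K _ (z (Sum.inl v))) (fun v => algebraMap K _ (z (Sum.inr v))) g /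
        (θ (xA K A) ^ M) ^ d) (pd P d c0) fun g => by
      refine exsu_top O.valuation _ ht1 _ ![0, 1, c0] (fun i => ?_) P d hP
      fin_cases i
      · simp only [Fin.zero_eta, Matrix.cons_val_zero, map_zero, zero_mul, sub_zero, map_pow]
        exact lt_self_pow₀ hx1 (by omega)
      · simpa using hg g fun v => z (Sum.inl v)
      · simpa using hg g fun v => z (Sum.inr v)
    rw [Finset.prod_div_distrib, Finset.prod_const, Finset.card_univ, ← pow_mul, ← pow_mul,
      ← Nat.card_eq_fintype_card, ← h2] at h3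
    rw [hD, show Nat.card (A ≃ₐ[K[X]] A) * (d * M) = M * (d * Nat.card (A ≃ₐ[K[X]] A)) by ring]
    exact h3
  have k1 : N.coeff D = MvPolynomial.C κ := MvPolynomial.funext fun z => by
    simpa [coeff_map] using (key z).1
  have k2 : ∀ i, D < i → N.coeff i = 0 := fun i hi => MvPolynomial.funext fun z => by
    simpa [coeff_map] using (key z).2 i hi
  have hκ0 : κ ≠ 0 := pow_ne_zero _ h0
  have k3 : (C (MvPolynomial.C κ⁻¹) * N).coeff D = 1 := by
    rw [coeff_C_mul, k1, ← map_mul, inv_mul_cancel₀ hκ0, map_one]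
  have k4 : (C (MvPolynomial.C κ⁻¹) * N).natDegree ≤ D :=
    natDegree_le_iff_coeff_eq_zero.2 fun i hi => by rw [coeff_C_mul, k2 i hi, mul_zero]
  refine ⟨C (MvPolynomial.C κ⁻¹) * N, monic_of_natDegree_le_of_coeff_eq_one D k4 k3,
    natDegree_eq_of_le_of_coeff_ne_zero k4 (by rw [k3]; exact one_ne_zero),
    fun T _ _ θ a a' => ?_⟩
  rw [finprod_eq_prod_of_fintype, ← hN T θ a a', eval₂_mul, eval₂_C, ← mul_assoc, ← map_pow, ← hκ]
  simp only [AlgHom.toRingHom_eq_coe, RingHom.coe_coe, MvPolynomial.aeval_C]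
  rw [← map_mul, mul_inv_cancel₀ hκ0, map_one, one_mul]

end Pool.Agent.MP_a9d3bd_zz
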