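import Pool.Agent.MP_a9d3bd_zz.Defs
import Pool.Agent.MP_a9d3bd_zz.ExSuA
import Pool.Agent.MP_a9d3bd_zz.ExSuB
import Pool.Agent.MP_a9d3bd_zz.ExSuD

namespace Pool.Agent.MP_a9d3bd_zz

open Polynomial Su

variable {K A : Type} [Field K] [IsAlgClosed K] [CommRing A] [IsDedekindDomain A] [Algebra K A]
  [Algebra K[X] A] [IsScalarTower K K[X] A] [Module.Finite K[X] A] [Module.IsTorsionFree K[X] A]
   (p : ℕ) [Fact p.Prime] [CharP K p]

theorem exists_su (ht : ∀ a : K, ∃ n, 0 < n ∧ a ^ p ^ n = a)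
    (hfin : Finite (A ≃ₐ[K[X]] A))
    (hinv : ∀ a : A, (∀ g : A ≃ₐ[K[X]] A, g a = a) → a ∈ Set.range (algebraMap K[X] A))
    (hnorm : ∀ a : A, algebraMap K[X] A (Algebra.norm K[X] a) = ∏ᶠ g : A ≃ₐ[K[X]] A, g a)
    (P : MvPolynomial (Fin 3) K) (d : ℕ) (hd : 0 < d) (hP : P.totalDegree ≤ d) (c0 : K)
    (h0 : pd P d c0 ≠ 0) (s : Finset A) :
    ∃ (n m : ℕ) (S : Su K A (Fin n) m), S.P = P ∧ S.d = d ∧ S.c0 = c0 ∧ S.Qk p S.q1 ∧ 2 ≤ S.M ∧
      ∀ a ∈ s, ∃ g : Fin m × Fin n → K,
        a = gam S.e (AlgHom.id K A) fun v => algebraMap K A (g v) := by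
  classical
  let b := Module.finBasis K[X] A
  let e : Fin (Module.finrank K[X] A + 1) → A := Fin.cons 1 b
  let m := (s.sup fun a => Finset.univ.sup fun j => (b.repr a j).natDegree) + 12
  obtain ⟨M, hM, hinf⟩ := exsu_inf (K := K)
    (fun j : Fin (Module.finrank K[X] A + 1) × (A ≃ₐ[K[X]] A) => j.2 (e j.1)) m
  obtain ⟨NN, hNm, hNd, hN⟩ := exsu_nn e m M hM hinf P d hP c0 h0 hinv
  obtain ⟨f, hf, hF, fr, hK, hx, hb⟩ := exsu_fr p ht b
    (insert c0 (P.coeffs ∪ NN.support.biUnion fun i => (NN.coeff i).coeffs))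
  have hz : (0 : K) ^ p ^ f = 0 := zero_pow (pow_ne_zero _ (Fact.out : p.Prime).ne_zero)
  refine ⟨_, m,
    { e := e
      j0 := 0
      he0 := rfl
      hspan := ?_
      hm := Nat.le_add_left _ _
      M := M
      hinf := fun O hO hx i j => hinf O hO hx i (j, 1)
      P := P
      d := d
      hd := hd
      hP := hP
      c0 := c0
      h0 := h0
      hfin := hfin
      hinv := hinv
      hnorm := hnorm
      NN := NN
      hNm := hNm
      hNd := hNd
      hN := hN
      q1 := p ^ f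
      fr := fr
      hfrK := hK
      hfrx := hx
      hfre := fun j => ?_
      hq1P := fun t => ?_
      hq1c := hF _ (Finset.mem_insert_self _ _)
      hq1N := fun i t => ?_ }, rfl, rfl, rfl, ⟨f, 1, hf, one_pos, rfl, (pow_one _).symm⟩, hM,
    fun a ha => ?_⟩
  · rw [eq_top_iff, ← b.span_eq]
    refine Submodule.span_mono ?_
    rintro _ ⟨j, rfl⟩
    exact ⟨j.succ, rfl⟩
  · refine Fin.cases ?_ (fun j => hb j) j
    exact map_one fr
  · by_cases h : P.coeff t = 0
    · rw [h, hz]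
    · exact hF _ (Finset.mem_insert_of_mem (Finset.mem_union_left _
        (MvPolynomial.coeff_mem_coeffs t h)))
  · by_cases h : (NN.coeff i).coeff t = 0
    · rw [h, hz]
    · refine hF _ (Finset.mem_insert_of_mem (Finset.mem_union_right _
        (Finset.mem_biUnion.2 ⟨i, mem_support_iff.2 fun h1 => h ?_,
          MvPolynomial.coeff_mem_coeffs t h⟩)))
      rw [h1, MvPolynomial.coeff_zero]
  · refine ⟨fun v => (Fin.cons 0 fun j => (b.repr a j).coeff v.1 :
      Fin (Module.finrank K[X] A + 1) → K) v.2, ?_⟩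
    simp only [gam, AlgHom.id_apply]
    rw [Fintype.sum_prod_type_right, Fin.sum_univ_succ]
    simp only [Fin.cons_zero, Fin.cons_succ, map_zero, zero_mul, Finset.sum_const_zero, zero_add, e]
    conv_lhs => rw [← b.sum_repr a]
    refine Finset.sum_congr rfl fun j _ => ?_
    have h1 : (b.repr a j).natDegree < m := by
      have h2 : (b.repr a j).natDegree ≤ Finset.univ.sup fun j => (b.repr a j).natDegree :=
        Finset.le_sup (f := fun j => (b.repr a j).natDegree) (Finset.mem_univ j)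
      have h3 := Finset.le_sup (f := fun a => Finset.univ.sup fun j => (b.repr a j).natDegree) ha
      simp only [m]
      omega
    have h4 := exsu_alg (AlgHom.id K A) (b.repr a j)
    simp only [AlgHom.id_apply] at h4
    rw [Algebra.smul_def, h4, aeval_eq_sum_range' h1, Finset.sum_range, Finset.sum_mul]
    exact Finset.sum_congr rfl fun i _ => by rw [Algebra.smul_def, mul_assoc]

end Pool.Agent.MP_a9d3bd_zz
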