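import Mathlib

/-! Data for the vanishing of `CH_0(X,1)`: a plane curve over a Galois cover of the line. -/

namespace Pool.Agent.MP_a9d3bd_zz

open Polynomial

variable (K A : Type) [Field K] [CommRing A] [Algebra K A] [Algebra K[X] A]

/-- The coordinate of the line. -/
noncomputable abbrev xA : A := algebraMap K[X] A X

variable {K A}

section
variable {ι T : Type} [Fintype ι] [CommRing T] [Algebra K T]

/-- Value at the point `θ` of the function with coordinates `a`. -/
noncomputable def gam {m : ℕ} (e : ι → A) (θ : A →ₐ[K] T) (a : Fin m × ι → T) : T :=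
  ∑ v, a v * (θ (xA K A) ^ (v.1 : ℕ) * θ (e v.2))

/-- The leading coefficient in the direction `c`. -/
noncomputable def pd (P : MvPolynomial (Fin 3) K) (d : ℕ) (c : T) : T :=
  MvPolynomial.aeval ![0, 1, c] (MvPolynomial.homogeneousComponent d P)

end

variable (K A) [IsDomain A] [IsScalarTower K K[X] A]

/-- The fixed data. -/
structure Su (ι : Type) [Fintype ι] (m : ℕ) where
  e : ι → A
  j0 : ι
  he0 : e j0 = 1
  hspan : Submodule.span K[X] (Set.range e) = ⊤
  hm : 12 ≤ m
  M : ℕ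
  hinf : ∀ O : ValuationSubring (FractionRing A), (∀ a : K, algebraMap K _ a ∈ O) →
    algebraMap A _ (xA K A) ∉ O → ∀ (i : Fin m) (j : ι),
      O.valuation (algebraMap A _ (xA K A ^ (i : ℕ) * e j)) <
        O.valuation (algebraMap A _ (xA K A ^ M))
  P : MvPolynomial (Fin 3) K
  d : ℕ
  hd : 0 < d
  hP : P.totalDegree ≤ d
  c0 : K
  h0 : pd P d c0 ≠ 0
  hfin : Finite (A ≃ₐ[K[X]] A)
  hinv : ∀ a : A, (∀ g : A ≃ₐ[K[X]] A, g a = a) → a ∈ Set.range (algebraMap K[X] A)
  hnorm : ∀ a : A, algebraMap K[X] A (Algebra.norm K[X] a) = ∏ᶠ g : A ≃ₐ[K[X]] A, g a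
  NN : (MvPolynomial ((Fin m × ι) ⊕ (Fin m × ι)) K)[X]
  hNm : NN.Monic
  hNd : NN.natDegree = Nat.card (A ≃ₐ[K[X]] A) * (d * M)
  hN : ∀ (T : Type) [CommRing T] [Algebra K T] (θ : A →ₐ[K] T) (a a' : Fin m × ι → T),
    algebraMap K T (pd P d c0) ^ Nat.card (A ≃ₐ[K[X]] A) *
      NN.eval₂ (MvPolynomial.aeval (Sum.elim a a')).toRingHom (θ (xA K A)) =
    ∏ᶠ g : A ≃ₐ[K[X]] A, MvPolynomial.aeval
      ![θ (xA K A), θ (xA K A) ^ M + gam e (θ.comp (g.restrictScalars K).toAlgHom) a,
        algebraMap K T c0 * θ (xA K A) ^ M + gam e (θ.comp (g.restrictScalars K).toAlgHom) a'] P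
  q1 : ℕ
  fr : A ≃+* A
  hfrK : ∀ a : K, fr (algebraMap K A a) = algebraMap K A (a ^ q1)
  hfrx : fr (xA K A) = xA K A
  hfre : ∀ j, fr (e j) = e j
  hq1P : ∀ s, P.coeff s ^ q1 = P.coeff s
  hq1c : c0 ^ q1 = c0
  hq1N : ∀ i s, (NN.coeff i).coeff s ^ q1 = (NN.coeff i).coeff s

variable {K A} {ι : Type} [Fintype ι] {m : ℕ}

namespace Su

variable (S : Su K A ι m) {T : Type} [CommRing T] [Algebra K T]

/-- The number of points of a pencil. -/
noncomputable def n : ℕ := S.NN.natDegree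

/-- The norm polynomial of the pencil with coordinates `a`, `a'`. -/
noncomputable def Nf (a a' : Fin m × ι → T) : T[X] :=
  S.NN.map (MvPolynomial.aeval (Sum.elim a a')).toRingHom

/-- The norm polynomial of the generic pencil in the curve `c, g`. -/
noncomputable def NH (c : T) (g : Fin m × ι → T) : (MvPolynomial (Fin m × ι) T)[X] :=
  S.Nf (fun v => MvPolynomial.X v)
    (fun v => MvPolynomial.C (g v) + MvPolynomial.C c * MvPolynomial.X v)

/-- The second coordinate on the curve `c, g` over the point `θ`, as a polynomial in the first. -/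
noncomputable def wl (θ : A →ₐ[K] T) (c : T) (g : Fin m × ι → T) : T[X] :=
  C (algebraMap K T S.c0 * θ (xA K A) ^ S.M + gam S.e θ g) + C c * (X - C (θ (xA K A) ^ S.M))

/-- The equation of the curve `c, g` over the point `θ`. -/
noncomputable def fp (θ : A →ₐ[K] T) (c : T) (g : Fin m × ι → T) : T[X] :=
  MvPolynomial.aeval ![C (θ (xA K A)), X, S.wl θ c g] S.P

/-- Admissible curves. -/
def Adm (c : T) (g : Fin m × ι → T) : Prop :=
  pd S.P S.d c ≠ 0 ∧ ∃ θ : A →ₐ[K] T, (S.fp θ c g).Separable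

/-- The graph with coordinates `a` passes through the point `θ, t`. -/
def Thr (θ : A →ₐ[K] T) (t : T) (a : Fin m × ι → T) : Prop :=
  t = θ (xA K A) ^ S.M + gam S.e θ a

/-- A simple point of the curve `c, g`, with a witness that has the property `R`. -/
def Smp (R : T → Prop) (c : T) (g : Fin m × ι → T) (θ : A →ₐ[K] T) (t : T) : Prop :=
  (S.fp θ c g).eval t = 0 ∧ ∃ a, (∀ v, R (a v)) ∧ S.Thr θ t a ∧
    (derivative (S.Nf a fun v => g v + c * a v)).eval (θ (xA K A)) ≠ 0

/-- The polynomial `D` vanishes on the graphs through the point. -/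
def Van (D : (MvPolynomial (Fin m × ι) T)[X]) (θ : A →ₐ[K] T) (t : T) : Prop :=
  ∀ a, S.Thr θ t a → D.eval₂ (MvPolynomial.eval a) (θ (xA K A)) = 0

/-- The graph through the points `p i` that is made from `X` by interpolation. -/
noncomputable def lag {T : Type} [Field T] [Algebra K T] [DecidableEq ι] {k : ℕ}
    (p : Fin k → (A →ₐ[K] T) × T) (v : Fin m × ι) : MvPolynomial (Fin m × ι) T :=
  open Classical in
  MvPolynomial.X v + if v.2 = S.j0 then ∑ i,
    MvPolynomial.C ((Lagrange.basis Finset.univ (fun l => (p l).1 (xA K A)) i).coeff v.1) *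
      (MvPolynomial.C ((p i).2 - (p i).1 (xA K A) ^ S.M) -
        ∑ u, MvPolynomial.X u * MvPolynomial.C ((p i).1 (xA K A) ^ (u.1 : ℕ) * (p i).1 (S.e u.2)))
    else 0

end Su

/-- Rational elements. -/
def Ra (q : ℕ) (a : K) : Prop := a ^ q = a

/-- The polynomial has as many rational roots as its degree. -/
def Spl (q : ℕ) (N : K[X]) : Prop := {x | Ra q x ∧ N.IsRoot x}.ncard = N.natDegree

namespace Su

variable (S : Su K A ι m) (q : ℕ)

/-- Rational coordinates. -/
def RaV (a : Fin m × ι → K) : Prop := ∀ v, Ra q (a v)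

/-- Active curves. -/
def Act (c : K) (g : Fin m × ι → K) : Prop :=
  Ra q c ∧ RaV q g ∧ S.Adm c g ∧
    ∀ D, D.Monic → D ∣ S.NH c g → ∀ i s, Ra q ((D.coeff i).coeff s)

/-- Rational simple points of the curve. -/
def Inc (c : K) (g : Fin m × ι → K) (θ : A →ₐ[K] K) (t : K) : Prop :=
  Ra q (θ (xA K A)) ∧ (∀ j, Ra q (θ (S.e j))) ∧ Ra q t ∧ S.Smp (Ra q) c g θ t

/-- The class of a point on a curve. -/
def cls (c : K) (g : Fin m × ι → K) (θ : A →ₐ[K] K) (t : K) :
    Set (MvPolynomial (Fin m × ι) K)[X] := {D | D.Monic ∧ D ∣ S.NH c g ∧ S.Van D θ t}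

/-- The split graphs in the curve. -/
def Sp (c : K) (g : Fin m × ι → K) : Set (Fin m × ι → K) :=
  {a | RaV q a ∧ Spl q (S.Nf a fun v => g v + c * a v)}

/-- The points of the graph `a` on the curve. -/
def pts (c : K) (g a : Fin m × ι → K) : Set ((A →ₐ[K] K) × K) :=
  {y | S.Thr y.1 y.2 a ∧ (S.fp y.1 c g).eval y.2 = 0}

/-- The number of split graphs through the given points. -/
noncomputable def cnt (c : K) (g : Fin m × ι → K) {k : ℕ} (p : Fin k → (A →ₐ[K] K) × K) : ℕ :=
  {a ∈ S.Sp q c g | ∀ i, S.Thr (p i).1 (p i).2 a}.ncard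

/-- The generic point of the base curve. -/
noncomputable def gp (K A : Type) [Field K] [CommRing A] [Algebra K A] :
    A →ₐ[K] FractionRing A := IsScalarTower.toAlgHom K A _

/-- The equation of the curve over the function field. -/
noncomputable def fL (c : K) (g : Fin m × ι → K) : (FractionRing A)[X] :=
  S.fp (gp K A) (algebraMap K _ c) fun v => algebraMap K _ (g v)

/-- The equation of the second curve, restricted to the first. -/
noncomputable def lr (c : K) (g : Fin m × ι → K) (c' : K) (g' : Fin m × ι → K) :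
    (FractionRing A)[X] :=
  S.wl (gp K A) (algebraMap K _ c) (fun v => algebraMap K _ (g v)) -
    S.wl (gp K A) (algebraMap K _ c') fun v => algebraMap K _ (g' v)

/-- The components of the curve. -/
def Cp (c : K) (g : Fin m × ι → K) : Set (FractionRing A)[X] :=
  {f | f.Monic ∧ Irreducible f ∧ f ∣ S.fL c g}

/-- Functionals on the functions on the components. -/
abbrev Mu (K A ι : Type) [CommRing A] (m : ℕ) : Type :=
  K → (Fin m × ι → K) → (FractionRing A)[X] → (FractionRing A)[X] → ℝ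

/-- The sum over the components. -/
noncomputable def MM (μ : Mu K A ι m) (c : K) (g : Fin m × ι → K) (u : (FractionRing A)[X]) : ℝ :=
  ∑ᶠ f ∈ S.Cp c g, μ c g f u

/-- The antisymmetric pairing of two curves. -/
noncomputable def Ph (μ : Mu K A ι m) (H H' : K × (Fin m × ι → K)) : ℝ :=
  S.MM μ H.1 H.2 (S.lr H.1 H.2 H'.1 H'.2) - S.MM μ H'.1 H'.2 (S.lr H'.1 H'.2 H.1 H.2)

/-- The curves have no common component. -/
def Cop (H H' : K × (Fin m × ι → K)) : Prop :=
  IsCoprime (S.fL H.1 H.2) (S.lr H.1 H.2 H'.1 H'.2) ∧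
    IsCoprime (S.fL H'.1 H'.2) (S.lr H'.1 H'.2 H.1 H.2)

/-- The functional is a homomorphism, kills constants and tame symbols. -/
structure Good (μ : Mu K A ι m) : Prop where
  mul : ∀ c g, ∀ f ∈ S.Cp c g, ∀ u u', ¬ f ∣ u → ¬ f ∣ u' → μ c g f (u * u') = μ c g f u + μ c g f u'
  con : ∀ c g, ∀ f ∈ S.Cp c g, ∀ u u', f ∣ u - u' → μ c g f u = μ c g f u'
  cst : ∀ c g, ∀ f ∈ S.Cp c g, ∀ a : K, a ≠ 0 → μ c g f (C (algebraMap K _ a)) = 0
  rel : ∀ H0 H1 H2 H3 : K × (Fin m × ι → K), S.Adm H0.1 H0.2 → S.Adm H1.1 H1.2 → S.Adm H2.1 H2.2 →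
    S.Adm H3.1 H3.2 → H2.1 ≠ S.c0 → H3.1 ≠ S.c0 → S.Cop H1 H2 → S.Cop H1 H3 → S.Cop H0 H2 →
    S.Cop H0 H3 → S.Ph μ H1 H2 - S.Ph μ H1 H3 - S.Ph μ H0 H2 + S.Ph μ H0 H3 = 0

/-- `u` has the divisor `ν`, which is supported on finite places. -/
def Dvs (K : Type) {A : Type} [Field K] [CommRing A] [IsDomain A] [Algebra K A] [Algebra K[X] A]
    (u : FractionRing A) (ν : (A →ₐ[K] K) →₀ ℤ) : Prop :=
  u ≠ 0 ∧ ∀ O : ValuationSubring (FractionRing A), (∀ a : K, algebraMap K _ a ∈ O) →
    (algebraMap A _ (xA K A) ∉ O → O.valuation u = 1) ∧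
    ∀ β : A →ₐ[K] K, (∀ a : A, O.valuation (algebraMap A _ (a - algebraMap K A (β a))) < 1) →
      ∀ π : A, β π = 0 → π ∉ RingHom.ker β ^ 2 →
        O.valuation u = O.valuation (algebraMap A _ π) ^ ν β

/-- Admissible powers of the characteristic. -/
def Qk (p q : ℕ) : Prop := ∃ f k, 0 < f ∧ 0 < k ∧ S.q1 = p ^ f ∧ q = S.q1 ^ k

/-- The function whose zeros are the points of the pencil. -/
noncomputable def RR (a a' : Fin m × ι → K) : A :=
  MvPolynomial.aeval ![xA K A, xA K A ^ S.M + gam S.e (AlgHom.id K A) fun v => algebraMap K A (a v),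
    algebraMap K A S.c0 * xA K A ^ S.M + gam S.e (AlgHom.id K A) fun v => algebraMap K A (a' v)] S.P

/-- Polynomials in the coordinate as functions. -/
def emb {T : Type} [Zero T] [DecidableEq ι] (α : Fin m → T) (v : Fin m × ι) : T :=
  if v.2 = S.j0 then α v.1 else 0

/-- The plane curve that belongs to the slice through `a`. -/
noncomputable def Sl [DecidableEq ι] (D : (MvPolynomial (Fin m × ι) K)[X]) (a : Fin m × ι → K) :
    K[X][X] :=
  D.eval₂ (MvPolynomial.aeval fun v => (C (C (a v)) +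
    if (v.1 : ℕ) = 0 ∧ v.2 = S.j0 then X - C (X ^ S.M) else 0 : K[X][X])).toRingHom (C X)

/-- The equation of the graph. -/
noncomputable def gr (a : Fin m × ι → K) : (FractionRing A)[X] :=
  X - C (algebraMap A _ (xA K A ^ S.M + gam S.e (AlgHom.id K A) fun v => algebraMap K A (a v)))

end Su

/-- The point is a smooth point of the plane curve. -/
def Grd (P : K[X][X]) (x y : K) : Prop :=
  (derivative P).evalEval x y ≠ 0 ∨ (derivative (P.eval (C y))).eval x ≠ 0

/-- The curve evaluated on the graph of `X ^ M + ∑ α i X ^ i`. -/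
noncomputable def grf {T : Type} [CommRing T] [Algebra K T] (M : ℕ) (P : K[X][X])
    (α : Fin m → T) : T[X] :=
  (P.map (mapRingHom (algebraMap K T))).eval (X ^ M + ∑ i, C (α i) * X ^ (i : ℕ))

end Pool.Agent.MP_a9d3bd_zz
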