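import Mathlib

/-! General lemmas for the extension of the functional to points. -/

namespace Pool.Agent.MP_a9d3bd_zz

open Polynomial

theorem ext_lin {I Y : Type} (D : I → Y →₀ ℤ) (val : I → ℝ)
    (h : ∀ w : I →₀ ℤ, (∑ i ∈ w.support, w i • D i) = 0 →
      ∑ i ∈ w.support, (w i : ℝ) * val i = 0) :
    ∃ φ : Y → ℝ, ∀ i, val i = (D i).sum fun y z => (z : ℝ) * φ y := by
  classical
  let T := Finsupp.linearCombination ℤ D
  let V := Finsupp.linearCombination ℤ val
  have hk : LinearMap.ker T ≤ LinearMap.ker V := by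
    intro w hw
    rw [LinearMap.mem_ker, Finsupp.linearCombination_apply] at hw ⊢
    have := h w hw
    simpa [Finsupp.sum, zsmul_eq_mul] using this
  obtain ⟨ψ, hψ⟩ := (Module.Baer.of_divisible ℝ).extension_property
    ((LinearMap.ker T).liftQ T le_rfl)
    (LinearMap.ker_eq_bot.1 (Submodule.ker_liftQ_eq_bot _ _ _ le_rfl))
    ((LinearMap.ker T).liftQ V hk)
  refine ⟨fun y => ψ (Finsupp.single y 1), fun i => ?_⟩
  have h1 := LinearMap.congr_fun hψ ((LinearMap.ker T).mkQ (Finsupp.single i 1))
  simp only [LinearMap.comp_apply, Submodule.mkQ_apply, Submodule.liftQ_apply, T, V,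
    Finsupp.linearCombination_single, one_smul] at h1
  rw [← h1]
  conv_lhs => rw [← Finsupp.sum_single (D i)]
  rw [map_finsuppSum]
  refine Finsupp.sum_congr fun y _ => ?_
  rw [← zsmul_eq_mul, ← map_zsmul, Finsupp.smul_single, smul_eq_mul, mul_one]

theorem ext_const {K E : Type} [Field K] [IsAlgClosed K] [Field E] [Algebra K E] (ε : E)
    (h : ∀ O : ValuationSubring E, (∀ a : K, algebraMap K E a ∈ O) → ε ∈ O) :
    ∃ k : K, algebraMap K E k = ε := by
  have h1 : ε ∈ (integralClosure (Subring.closure (Set.range (algebraMap K E))) E).toSubring := by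
    rw [← iInf_valuationSubring_superset, Subring.mem_iInf]
    exact fun V => h V.1 fun a => V.2 ⟨a, rfl⟩
  have h2 : Subring.closure (Set.range (algebraMap K E)) = (algebraMap K E).range :=
    Subring.closure_eq (algebraMap K E).range
  rw [h2] at h1
  obtain ⟨P, hP, h0⟩ : IsIntegral (algebraMap K E).range ε := h1
  have h3 : IsIntegral K ε := by
    obtain ⟨Q, hQ, -, hm⟩ := Polynomial.lifts_and_degree_eq_and_monic
      (f := (algebraMap K E).rangeRestrict) (p := P)
      (Polynomial.mem_lifts_of_surjective (algebraMap K E).rangeRestrict_surjective P) hP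
    refine ⟨Q, hm, ?_⟩
    rw [← hQ, Polynomial.eval₂_map] at h0
    exact h0
  exact minpoly.mem_range_of_degree_eq_one K ε
    (IsAlgClosed.degree_eq_one_of_irreducible K (minpoly.irreducible h3))

theorem ext_hom {E : Type} [Field E] (ψ : E → ℝ)
    (hψ : ∀ a b, a ≠ 0 → b ≠ 0 → ψ (a * b) = ψ a + ψ b) {I : Type} (s : Finset I) (e : I → E)
    (he : ∀ i, e i ≠ 0) (w : I → ℤ) : ψ (∏ i ∈ s, e i ^ w i) = ∑ i ∈ s, (w i : ℝ) * ψ (e i) := by
  let Ψ : Eˣ →* Multiplicative ℝ := MonoidHom.mk' (fun a => Multiplicative.ofAdd (ψ a))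
    fun a b => by rw [Units.val_mul, hψ _ _ a.ne_zero b.ne_zero, ofAdd_add]
  have h1 : ∏ i ∈ s, e i ^ w i = ((∏ i ∈ s, Units.mk0 (e i) (he i) ^ w i : Eˣ) : E) := by
    simp
  have h2 := congrArg Multiplicative.toAdd (map_prod Ψ (fun i => Units.mk0 (e i) (he i) ^ w i) s)
  rw [h1]
  refine h2.trans ?_
  rw [toAdd_prod]
  refine Finset.sum_congr rfl fun i _ => ?_
  rw [map_zpow, toAdd_zpow, zsmul_eq_mul]
  rfl

theorem ext_vprod {E Γ : Type} [Field E] [LinearOrderedCommGroupWithZero Γ] (v : Valuation E Γ)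
    {I : Type} (s : Finset I) (e : I → E) (w k : I → ℤ) {ρ : Γ} (hρ : ρ ≠ 0)
    (he : ∀ i, v (e i) = ρ ^ k i) (h : ∑ i ∈ s, w i * k i = 0) :
    v (∏ i ∈ s, e i ^ w i) = 1 := by
  classical
  have : v (∏ i ∈ s, e i ^ w i) = ρ ^ ∑ i ∈ s, w i * k i := by
    clear h
    induction s using Finset.induction_on with
    | empty => simp
    | insert a s ha ih =>
      rw [Finset.prod_insert ha, Finset.sum_insert ha, map_mul, ih, map_zpow₀, he, zpow_add₀ hρ,
        ← zpow_mul, mul_comm (k a)]
  rw [this, h, zpow_zero]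

theorem ext_equiv {L E : Type} [Field L] [Field E] (ψ : L →+* E) (O : ValuationSubring E) :
    (O.comap ψ).valuation.IsEquiv (O.valuation.comap ψ) := by
  rw [Valuation.isEquiv_iff_val_le_one]
  intro x
  rw [ValuationSubring.valuation_le_one_iff, Valuation.comap_apply,
    ValuationSubring.valuation_le_one_iff, ValuationSubring.mem_comap]

section

variable {K E Γ : Type} [Field K] [Field E] [Algebra K E] [LinearOrderedCommGroupWithZero Γ]
  (v : Valuation E Γ) (hK : ∀ a : K, v (algebraMap K E a) ≤ 1)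

include hK

theorem ext_unit {a : K} (ha : a ≠ 0) : v (algebraMap K E a) = 1 := by
  refine le_antisymm (hK a) ?_
  have h1 := hK a⁻¹
  have h0 : v (algebraMap K E a) ≠ 0 := by simpa using ha
  rw [map_inv₀, map_inv₀] at h1
  exact (inv_le_one₀ (zero_lt_iff.2 h0)).1 h1

theorem ext_cong {σ : Type} (a b : σ → E) (ha : ∀ i, v (a i) ≤ 1) (hb : ∀ i, v (b i) ≤ 1)
    (hab : ∀ i, v (a i - b i) < 1) (Q : MvPolynomial σ K) :
    v (MvPolynomial.aeval a Q) ≤ 1 ∧
      v (MvPolynomial.aeval a Q - MvPolynomial.aeval b Q) < 1 := by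
  induction Q using MvPolynomial.induction_on with
  | C c => simpa using hK c
  | add p q hp hq =>
    refine ⟨by rw [map_add]; exact v.map_add_le hp.1 hq.1, ?_⟩
    rw [map_add, map_add, add_sub_add_comm]
    exact v.map_add_lt hp.2 hq.2
  | mul_X p i hp =>
    simp only [map_mul, MvPolynomial.aeval_X]
    refine ⟨mul_le_one' hp.1 (ha i), ?_⟩
    have : MvPolynomial.aeval a p * a i - MvPolynomial.aeval b p * b i =
        MvPolynomial.aeval a p * (a i - b i) +
          (MvPolynomial.aeval a p - MvPolynomial.aeval b p) * b i := by ring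
    rw [this]
    refine v.map_add_lt ?_ ?_
    · rw [map_mul]
      exact lt_of_le_of_lt (mul_le_of_le_one_left' hp.1) (hab i)
    · rw [map_mul]
      exact lt_of_le_of_lt (mul_le_of_le_one_right' (hb i)) hp.2

/-- The leading form vanishes at the residue of a point at infinity. -/
theorem ext_top {σ : Type} (P : MvPolynomial σ K) (d : ℕ) (hP : P.totalDegree ≤ d) (l : E)
    (hl : 1 < v l) (a b : σ → E) (hb : ∀ i, v (b i) ≤ 1) (hab : ∀ i, v (a i - l * b i) < v l)
    (h0 : MvPolynomial.aeval a P = 0) :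
    v (MvPolynomial.aeval b (MvPolynomial.homogeneousComponent d P)) < 1 := by
  have hv : v l ≠ 0 := (zero_lt_one.trans hl).ne'
  have hl0 : l ≠ 0 := by simpa using hv
  let a' : σ → E := fun i => a i / l
  have h1 : ∀ i, v (a' i - b i) < 1 := fun i => by
    have : a' i - b i = (a i - l * b i) / l := by
      simp only [a']
      field_simp
    rw [this, map_div₀, div_lt_one₀ (zero_lt_iff.2 hv)]
    exact hab i
  have h2 : ∀ i, v (a' i) ≤ 1 := fun i => by
    have : a' i = (a' i - b i) + b i := by ring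
    rw [this]
    exact v.map_add_le (h1 i).le (hb i)
  have h3 : ∀ k, MvPolynomial.aeval a (MvPolynomial.homogeneousComponent k P) =
      l ^ k * MvPolynomial.aeval a' (MvPolynomial.homogeneousComponent k P) := fun k => by
    have ha : a = l • a' := funext fun i => by
      simp only [a', Pi.smul_apply, smul_eq_mul]
      field_simp
    have hh := (MvPolynomial.homogeneousComponent_isHomogeneous k P)
    rw [MvPolynomial.aeval_def, MvPolynomial.aeval_def, MvPolynomial.eval₂_eq,
      MvPolynomial.eval₂_eq, Finset.mul_sum]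
    refine Finset.sum_congr rfl fun s hs => ?_
    have hd : ∑ i ∈ s.support, s i = k := by
      have := hh (MvPolynomial.mem_support_iff.1 hs)
      simpa [Finsupp.weight_apply, Finsupp.sum] using this
    rw [ha]
    simp only [Pi.smul_apply, smul_eq_mul, mul_pow, Finset.prod_mul_distrib,
      Finset.prod_pow_eq_pow_sum, hd]
    ring
  have h4 : P = ∑ k ∈ Finset.range (d + 1), MvPolynomial.homogeneousComponent k P := by
    conv_lhs => rw [← MvPolynomial.sum_homogeneousComponent P]
    refine Finset.sum_subset (Finset.range_subset_range.2 (by omega)) fun k _ hk => ?_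
    exact MvPolynomial.homogeneousComponent_eq_zero _ _ (by simpa using hk)
  rw [h4, map_sum, Finset.sum_range_succ] at h0
  simp only [h3] at h0
  have h5 : v (l ^ d * MvPolynomial.aeval a' (MvPolynomial.homogeneousComponent d P)) <
      v l ^ d := by
    rw [← neg_eq_of_add_eq_zero_right h0, v.map_neg]
    refine v.map_sum_lt (pow_ne_zero _ hv) fun k hk => ?_
    rw [map_mul, map_pow]
    exact lt_of_le_of_lt (mul_le_of_le_one_right' (ext_cong v hK a' b h2 hb h1 _).1)
      (pow_lt_pow_right₀ hl (Finset.mem_range.1 hk))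
  rw [map_mul, map_pow] at h5
  have h6 : v (MvPolynomial.aeval a' (MvPolynomial.homogeneousComponent d P)) < 1 := by
    by_contra hc
    exact absurd h5 (not_lt.2 (le_mul_of_one_le_right' (not_lt.1 hc)))
  have h7 := (ext_cong v hK a' b h2 hb h1 (MvPolynomial.homogeneousComponent d P)).2
  have := v.map_sub_lt h6 h7
  rwa [sub_sub_cancel] at this

end

end Pool.Agent.MP_a9d3bd_zz
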