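import Pool.Agent.MP_a9d3bd_g.BGram

namespace Pool.Agent.MP_a9d3bd_zz.FinA

open Finset

/-- least squares on a finite set -/
theorem lsq {Z : Type*} (Fl : Finset Z) (U : Submodule ℝ (Z → ℝ)) (Φ : Z → ℝ) :
    ∃ u ∈ U, ∀ v ∈ U, ∑ z ∈ Fl, v z * (Φ z - u z) = 0 := by
  let T : (Z → ℝ) →ₗ[ℝ] EuclideanSpace ℝ Fl :=
    { toFun := fun u => WithLp.toLp 2 fun z => u z
      map_add' := fun u v => by ext z; simp
      map_smul' := fun c u => by ext z; simp }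
  obtain ⟨y, hy, w, hw, h⟩ := Submodule.exists_add_mem_mem_orthogonal (K := U.map T) (T Φ)
  obtain ⟨u, hu, rfl⟩ := hy
  refine ⟨u, hu, fun v hv => ?_⟩
  have h1 := (Submodule.mem_orthogonal _ _).1 hw (T v) ⟨v, hv, rfl⟩
  have h2 : w = T Φ - T u := by rw [h]; abel
  rw [h2, PiLp.inner_apply] at h1
  rw [← Finset.sum_coe_sort Fl, ← h1]
  refine Finset.sum_congr rfl fun z _ => ?_
  simp [T, mul_comm]

/-- Garland vanishing, abstract form. `G` good curves, `on a` the points of the curve `a`,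
`Sp` split pencils, `pts l` base points and `mem l` members of the pencil `l`. -/
theorem garland {X H L : Type*} [DecidableEq X] [DecidableEq H]
    (G : Finset H) (on : H → Finset X) (Sp : Finset L) (pts : L → Finset X) (mem : L → Finset H)
    (K : H → Submodule ℝ (X → ℝ)) (φ : X → H → ℝ) (n m r κ : ℝ) (hm : 0 < m) (hn : 0 ≤ n)
    (inc : ∀ l ∈ Sp, ∀ a ∈ mem l, a ∈ G → pts l ⊆ on a)
    (rel : ∀ l ∈ Sp, ∀ a ∈ mem l, a ∈ G → ∀ b ∈ mem l, b ∈ G →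
      ∑ x ∈ pts l, φ x a = ∑ x ∈ pts l, φ x b)
    (ker : ∀ l ∈ Sp, ∀ a ∈ mem l, a ∈ G → ∀ k ∈ K a, ∑ x ∈ pts l, k x = 0)
    (many : ∀ l ∈ Sp, ∀ a ∈ mem l, a ∈ G → m ≤ ((mem l).filter (· ∈ G)).card)
    (card : ∀ l ∈ Sp, ((pts l).card : ℝ) ≤ n)
    (radon : ∀ x, ∀ f : H → ℝ, (∀ a, f a ≠ 0 → a ∈ G ∧ x ∈ on a) → ∑ a ∈ G, f a = 0 →
      ∑ l ∈ Sp with x ∈ pts l, (∑ a ∈ mem l, f a) ^ 2 ≤ r * ∑ a ∈ G, f a ^ 2)
    (loc : ∀ a ∈ G, ∀ g : X → ℝ, (∀ k ∈ K a, ∑ x ∈ on a, k x * g x = 0) →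
      κ * ∑ x ∈ on a, g x ^ 2 ≤ ∑ l ∈ Sp with a ∈ mem l, (∑ x ∈ pts l, g x) ^ 2)
    (ineq : n * r < κ * m) :
    ∃ α : X → ℝ, ∀ a ∈ G, ∃ k ∈ K a, ∀ x ∈ on a, φ x a = α x + k x := by
  classical
  set PX : Finset X := G.biUnion on with hPX
  set Fl : Finset (X × H) := (PX ×ˢ G).filter fun z => z.1 ∈ on z.2 with hFl
  let U : Submodule ℝ (X × H → ℝ) :=
    { carrier := {w | ∃ α : X → ℝ, ∃ k : H → X → ℝ, (∀ a, k a ∈ K a) ∧
        ∀ z, w z = α z.1 + k z.2 z.1}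
      zero_mem' := ⟨0, 0, fun a => zero_mem _, fun z => by simp⟩
      add_mem' := by
        rintro u v ⟨α, k, h1, h2⟩ ⟨β, k', h3, h4⟩
        exact ⟨α + β, k + k', fun a => add_mem (h1 a) (h3 a), fun z => by
          simp only [Pi.add_apply, h2, h4]; ring⟩
      smul_mem' := by
        rintro c u ⟨α, k, h1, h2⟩
        exact ⟨c • α, c • k, fun a => Submodule.smul_mem _ c (h1 a), fun z => by
          simp only [Pi.smul_apply, h2, smul_eq_mul]; ring⟩ }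
  obtain ⟨u, ⟨α, k, hk, hu⟩, ho⟩ := lsq Fl U fun z => φ z.1 z.2
  set ψ : X → H → ℝ := fun x a => if a ∈ G ∧ x ∈ on a then φ x a - α x - k a x else 0 with hψ
  have sFl : ∀ F : X × H → ℝ, ∑ z ∈ Fl, F z = ∑ a ∈ G, ∑ x ∈ on a, F (x, a) := by
    intro F
    rw [hFl, sum_filter, sum_product_right]
    refine sum_congr rfl fun a ha => ?_
    rw [← sum_filter]
    refine sum_congr ?_ fun _ _ => rfl
    ext x
    simp only [mem_filter, hPX, mem_biUnion]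
    exact ⟨fun h => h.2, fun h => ⟨⟨a, ha, h⟩, h⟩⟩
  have o1 : ∀ x, ∑ a ∈ G, ψ x a = 0 := by
    intro x
    have := ho (fun z => (Pi.single x 1 : X → ℝ) z.1)
      ⟨Pi.single x 1, 0, fun a => zero_mem _, fun z => by simp⟩
    rw [sFl] at this
    rw [← this]
    refine sum_congr rfl fun a ha => ?_
    simp only [hψ, hu, ha, true_and, Pi.single_apply, ite_mul, one_mul, zero_mul, sum_ite_eq']
    split_ifs <;> ring
  have o2 : ∀ a ∈ G, ∀ k' ∈ K a, ∑ x ∈ on a, k' x * ψ x a = 0 := by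
    intro a ha k' hk'
    have := ho (fun z => (Pi.single a k' : H → X → ℝ) z.2 z.1)
      ⟨0, Pi.single a k', fun b => by
        by_cases h : b = a
        · subst h; simpa using hk'
        · simp [Pi.single_eq_of_ne h], fun z => by simp⟩
    rw [sFl, sum_eq_single a (fun b _ hb => by simp [Pi.single_eq_of_ne hb])
      (fun h => absurd ha h)] at this
    rw [← this]
    refine sum_congr rfl fun x hx => ?_
    simp only [hψ, hu, ha, hx, true_and, if_true, Pi.single_eq_same]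
    ring
  have hS : ∀ l ∈ Sp, ∀ a ∈ mem l, a ∈ G →
      ∑ x ∈ pts l, ψ x a = ∑ x ∈ pts l, φ x a - ∑ x ∈ pts l, α x := by
    intro l hl a ha hG
    have h1 := ker l hl a ha hG (k a) (hk a)
    rw [← sum_sub_distrib, ← sub_zero (∑ x ∈ pts l, (φ x a - α x)), ← h1, ← sum_sub_distrib]
    exact sum_congr rfl fun x hx => by simp [hψ, hG, inc l hl a ha hG hx]
  set E : ℝ := ∑ a ∈ G, ∑ x ∈ on a, ψ x a ^ 2 with hE
  have hE0 : 0 ≤ E := sum_nonneg fun _ _ => sum_nonneg fun _ _ => sq_nonneg _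
  have step1 : κ * E ≤ ∑ l ∈ Sp, ∑ a ∈ (mem l).filter (· ∈ G), (∑ x ∈ pts l, ψ x a) ^ 2 := by
    rw [hE, mul_sum]
    refine (sum_le_sum fun a ha => loc a ha (fun x => ψ x a) (o2 a ha)).trans (le_of_eq ?_)
    refine sum_comm' fun a l => ?_
    simp only [mem_filter]
    tauto
  have step2 : ∀ l ∈ Sp, m * ∑ a ∈ (mem l).filter (· ∈ G), (∑ x ∈ pts l, ψ x a) ^ 2 ≤
      n * ∑ x ∈ pts l, (∑ a ∈ mem l, ψ x a) ^ 2 := by
    intro l hl
    rcases ((mem l).filter (· ∈ G)).eq_empty_or_nonempty with h | ⟨b, hb⟩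
    · rw [h, sum_empty, mul_zero]
      exact mul_nonneg hn (sum_nonneg fun _ _ => sq_nonneg _)
    rw [mem_filter] at hb
    set s := ∑ x ∈ pts l, ψ x b with hs
    have h1 : ∀ a ∈ (mem l).filter (· ∈ G), ∑ x ∈ pts l, ψ x a = s := fun a ha => by
      rw [mem_filter] at ha
      rw [hs, hS l hl a ha.1 ha.2, hS l hl b hb.1 hb.2, rel l hl a ha.1 ha.2 b hb.1 hb.2]
    set c : ℝ := (((mem l).filter (· ∈ G)).card : ℝ) with hc
    have h2 : ∑ x ∈ pts l, ∑ a ∈ mem l, ψ x a = c * s := by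
      rw [sum_comm, ← sum_filter_of_ne (p := (· ∈ G)) fun a _ h => by
        by_contra hG
        exact h (by simp [hψ, hG]), sum_congr rfl h1, sum_const, nsmul_eq_mul]
    have h3 := sq_sum_le_card_mul_sum_sq (s := pts l) (f := fun x => ∑ a ∈ mem l, ψ x a)
    rw [h2] at h3
    rw [sum_congr rfl fun a ha => by rw [h1 a ha], sum_const, nsmul_eq_mul, ← hc]
    have h4 := many l hl b hb.1 hb.2
    have h5 : 0 ≤ ∑ x ∈ pts l, (∑ a ∈ mem l, ψ x a) ^ 2 := sum_nonneg fun _ _ => sq_nonneg _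
    have h6 := mul_le_mul_of_nonneg_right (card l hl) h5
    have h7 : m * (c * s ^ 2) ≤ (c * s) ^ 2 := by
      have : 0 ≤ c * s ^ 2 := by positivity
      nlinarith [mul_le_mul_of_nonneg_right h4 this]
    linarith
  have step3 : ∑ l ∈ Sp, ∑ x ∈ pts l, (∑ a ∈ mem l, ψ x a) ^ 2 ≤ r * E := by
    have h1 : E = ∑ x ∈ PX ∪ Sp.biUnion pts, ∑ a ∈ G, ψ x a ^ 2 := by
      rw [hE, sum_comm]
      refine sum_congr rfl fun a ha => sum_subset (fun x hx => ?_) fun x _ hx => by simp [hψ, hx]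
      exact mem_union_left _ (mem_biUnion.2 ⟨a, ha, hx⟩)
    rw [h1, mul_sum]
    refine le_trans (le_of_eq ?_) (sum_le_sum fun x _ => radon x (ψ x) (fun a h => ?_) (o1 x))
    · refine sum_comm' fun l x => ?_
      simp only [mem_filter, mem_union, mem_biUnion]
      exact ⟨fun h => ⟨h, Or.inr ⟨l, h⟩⟩, fun h => h.1⟩
    · by_contra h'
      exact h (by simp only [hψ, h', if_false])
  have step4 : κ * m * E ≤ n * r * E := by
    have h1 := sum_le_sum step2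
    rw [← mul_sum, ← mul_sum] at h1
    nlinarith [mul_le_mul_of_nonneg_left step1 hm.le, mul_le_mul_of_nonneg_left step3 hn]
  have hE1 : E = 0 := by
    by_contra h
    have := mul_lt_mul_of_pos_right ineq (lt_of_le_of_ne hE0 (Ne.symm h))
    linarith
  refine ⟨α, fun a ha => ⟨k a, hk a, fun x hx => ?_⟩⟩
  have h1 := (sum_eq_zero_iff_of_nonneg fun _ _ => sum_nonneg fun _ _ => sq_nonneg _).1 hE1 a ha
  have h2 := (sum_eq_zero_iff_of_nonneg fun _ _ => sq_nonneg _).1 h1 x hx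
  simp only [hψ, ha, hx, true_and, if_true, ne_eq, OfNat.ofNat_ne_zero, not_false_eq_true,
    pow_eq_zero_iff] at h2
  linarith

theorem sum_sq_eq {X L : Type*} [DecidableEq X] (P : Finset X) (La : Finset L)
    (pts : L → Finset X) (g : X → ℝ) (h : ∀ l ∈ La, ∀ x ∈ pts l, g x ≠ 0 → x ∈ P) :
    ∑ l ∈ La, (∑ x ∈ pts l, g x) ^ 2 =
      ∑ x ∈ P, ∑ y ∈ P, (#{l ∈ La | x ∈ pts l ∧ y ∈ pts l} : ℝ) * (g x * g y) := by
  have h1 : ∀ l ∈ La, ∑ x ∈ pts l, g x = ∑ x ∈ P, if x ∈ pts l then g x else 0 := by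
    intro l hl
    rw [← sum_filter, ← sum_filter_of_ne (s := pts l) (p := (· ∈ P)) (h l hl)]
    refine sum_congr ?_ fun _ _ => rfl
    ext x
    simp only [mem_filter, and_comm]
  rw [sum_congr rfl fun l hl => by rw [h1 l hl, sq, sum_mul_sum], sum_comm]
  refine sum_congr rfl fun x _ => ?_
  rw [sum_comm]
  refine sum_congr rfl fun y _ => ?_
  rw [card_filter, Nat.cast_sum, sum_mul]
  refine sum_congr rfl fun l _ => ?_
  by_cases hx : x ∈ pts l <;> by_cases hy : y ∈ pts l <;> simp [hx, hy]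

theorem sum_cls {X C : Type*} [DecidableEq C] (P : Finset X) (Cs : Finset C) (cl : X → C)
    (hcl : ∀ x ∈ P, cl x ∈ Cs) (ν : C → ℝ) (g : X → ℝ) :
    ∑ x ∈ P, ∑ y ∈ P, (if cl x = cl y then ν (cl x) else 0) * (g x * g y) =
      ∑ c ∈ Cs, ν c * (∑ x ∈ P with cl x = c, g x) ^ 2 := by
  rw [← sum_fiberwise_of_maps_to hcl]
  refine sum_congr rfl fun c _ => ?_
  rw [sq, sum_mul_sum, mul_sum]
  refine sum_congr rfl fun x hx => ?_
  rw [mem_filter] at hx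
  rw [mul_sum, sum_filter]
  refine sum_congr rfl fun y _ => ?_
  rw [hx.2]
  by_cases h : cl y = c
  · simp [h]
  · simp [h, Ne.symm h]

/-- Radon bound from incidence numbers (`cl = id`: projective case; `cl` = slope: affine case). -/
theorem radon_abs {H L C : Type*} [DecidableEq H] [DecidableEq C] (Lx : Finset L) (Hx : Finset H)
    (mem : L → Finset H) (cl : H → C) (r : ℝ) (f : H → ℝ) (hs : ∀ a, f a ≠ 0 → a ∈ Hx)
    (h0 : ∑ a ∈ Hx, f a = 0) (diag : ∀ a ∈ Hx, (#{l ∈ Lx | a ∈ mem l} : ℝ) ≤ r)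
    (off : ∀ a ∈ Hx, ∀ b ∈ Hx, a ≠ b →
      #{l ∈ Lx | a ∈ mem l ∧ b ∈ mem l} = if cl a = cl b then 0 else 1) :
    ∑ l ∈ Lx, (∑ a ∈ mem l, f a) ^ 2 ≤ r * ∑ a ∈ Hx, f a ^ 2 := by
  rw [sum_sq_eq Hx Lx mem f fun _ _ a _ => hs a]
  have h1 := sum_cls Hx (Hx.image cl) cl (fun x hx => mem_image_of_mem _ hx) (fun _ => 1) f
  have h2 : 0 ≤ ∑ c ∈ Hx.image cl, (1 : ℝ) * (∑ x ∈ Hx with cl x = c, f x) ^ 2 :=
    sum_nonneg fun _ _ => by positivity
  have h3 : ∑ a ∈ Hx, ∑ b ∈ Hx, f a * f b = 0 := by rw [← sum_mul_sum, h0, zero_mul]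
  rw [← h1] at h2
  have h4 : ∀ a ∈ Hx, ∑ b ∈ Hx, (#{l ∈ Lx | a ∈ mem l ∧ b ∈ mem l} : ℝ) * (f a * f b) ≤
      r * f a ^ 2 + ∑ b ∈ Hx, f a * f b -
        ∑ b ∈ Hx, (if cl a = cl b then (1 : ℝ) else 0) * (f a * f b) := by
    intro a ha
    have h5 : r * f a ^ 2 = ∑ b ∈ Hx, if a = b then r * f a ^ 2 else 0 := by
      rw [sum_ite_eq, if_pos ha]
    rw [h5, ← sum_add_distrib, ← sum_sub_distrib]
    refine sum_le_sum fun b hb => ?_
    by_cases h : a = b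
    · subst h
      simp only [and_self, if_true]
      nlinarith [mul_le_mul_of_nonneg_right (diag a ha) (mul_self_nonneg (f a))]
    · rw [off a ha b hb h, if_neg h]
      split_ifs <;> simp
  have h6 := sum_le_sum h4
  rw [sum_sub_distrib, sum_add_distrib, h3, ← mul_sum] at h6
  linarith

/-- Local bound from uniformity of the incidence numbers. -/
theorem gramU {X L C : Type} [DecidableEq X] [DecidableEq C] (P : Finset X) (La : Finset L)
    (pts : L → Finset X) (hP : ∀ l ∈ La, pts l ⊆ P) (cl : X → C) (bad : X → X → Prop)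
    [DecidableRel bad] (hb : ∀ x y, bad x y → bad y x) (d e u b : ℝ) (hd : 0 < d) (he : 0 ≤ e)
    (hu : 0 ≤ u) (diag : ∀ x ∈ P, d ≤ (#{l ∈ La | x ∈ pts l} : ℝ))
    (unif : ∀ x ∈ P, ∀ y ∈ P, ∀ x' ∈ P, ∀ y' ∈ P, ¬ bad x y → ¬ bad x' y' → cl x = cl x' →
      cl y = cl y' → |(#{l ∈ La | x ∈ pts l ∧ y ∈ pts l} : ℝ) -
        #{l ∈ La | x' ∈ pts l ∧ y' ∈ pts l}| ≤ e)
    (up : ∀ x ∈ P, ∀ y ∈ P, x ≠ y → (#{l ∈ La | x ∈ pts l ∧ y ∈ pts l} : ℝ) ≤ u)
    (refl : ∀ x, bad x x) (few : ∀ x ∈ P, (#{y ∈ P | bad x y} : ℝ) ≤ b)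
    (cnt : ∀ l ∈ La, ∀ l' ∈ La, ∀ c, #{x ∈ pts l | cl x = c} = #{x ∈ pts l' | cl x = c})
    (g : X → ℝ)
    (orth : ∀ γ : C → ℝ, (∀ l ∈ La, ∑ x ∈ pts l, γ (cl x) = 0) → ∑ x ∈ P, γ (cl x) * g x = 0) :
    (d - (e * #P + b * u) - u) * ∑ x ∈ P, g x ^ 2 ≤ ∑ l ∈ La, (∑ x ∈ pts l, g x) ^ 2 := by
  classical
  rcases P.eq_empty_or_nonempty with rfl | ⟨x0, hx0⟩
  · rw [sum_empty, mul_zero]
    exact sum_nonneg fun _ _ => sq_nonneg _
  obtain ⟨l0, hl0⟩ : (La.filter fun l => x0 ∈ pts l).Nonempty :=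
    card_pos.1 (by exact_mod_cast hd.trans_le (diag x0 hx0))
  rw [mem_filter] at hl0
  set N : X → X → ℕ := fun x y => #{l ∈ La | x ∈ pts l ∧ y ∈ pts l} with hN
  set T : C → C → Set ℕ := fun i j =>
    {n | ∃ x ∈ P, ∃ y ∈ P, ¬ bad x y ∧ cl x = i ∧ cl y = j ∧ N x y = n} with hT
  have Ts : ∀ i j, T i j ⊆ T j i := by
    rintro i j n ⟨x, hx, y, hy, h1, h2, h3, h4⟩
    exact ⟨y, hy, x, hx, fun h => h1 (hb _ _ h), h3, h2, by rw [← h4]; simp only [hN, and_comm]⟩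
  have cu : ∀ i j, ((sInf (T i j) : ℕ) : ℝ) ≤ u := by
    intro i j
    rcases (T i j).eq_empty_or_nonempty with h | h
    · simpa [h] using hu
    · obtain ⟨x, hx, y, hy, h1, -, -, h4⟩ := Nat.sInf_mem h
      rw [← h4]
      exact up x hx y hy fun h => h1 (h ▸ refl x)
  refine MP_a9d3bd_g.gram P La pts hP cl (fun i j => ((sInf (T i j) : ℕ) : ℝ))
    (fun i j => by rw [(Ts i j).antisymm (Ts j i)]) d _ u diag (fun x hx => ?_)
    (fun i => cu i i) g ?_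
  · have h1 : ∀ y ∈ P.erase x, |(N x y : ℝ) - (sInf (T (cl x) (cl y)) : ℕ)| ≤
        e + if bad x y then u else 0 := by
      intro y hy
      rw [mem_erase] at hy
      split_ifs with h
      · have h2 := up x hx y hy.2 hy.1.symm
        have h3 := cu (cl x) (cl y)
        have h4 : (0 : ℝ) ≤ N x y := Nat.cast_nonneg _
        have h5 : (0 : ℝ) ≤ (sInf (T (cl x) (cl y)) : ℕ) := Nat.cast_nonneg _
        rw [abs_le]
        constructor <;> linarith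
      · obtain ⟨x', hx', y', hy', h1, h2, h3, h4⟩ :=
          Nat.sInf_mem (s := T (cl x) (cl y)) ⟨_, x, hx, y, hy.2, h, rfl, rfl, rfl⟩
        rw [← h4, add_zero]
        exact unif x hx y hy.2 x' hx' y' hy' h h1 h2.symm h3.symm
    refine (sum_le_sum h1).trans ((sum_le_sum_of_subset_of_nonneg (erase_subset x P)
      fun y _ _ => by positivity).trans ?_)
    rw [sum_add_distrib, ← sum_filter, sum_const, sum_const, nsmul_eq_mul, nsmul_eq_mul, mul_comm]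
    exact add_le_add_right (mul_le_mul_of_nonneg_right (few x hx) hu) _
  set Cs := P.image cl
  have hcl : ∀ x ∈ P, cl x ∈ Cs := fun x hx => mem_image_of_mem _ hx
  set ν : C → ℝ := fun c => #{x ∈ pts l0 | cl x = c} with hν
  set Gc : C → ℝ := fun k => ∑ x ∈ P with cl x = k, g x with hG
  have fib : ∀ γ : C → ℝ, ∑ x ∈ P, γ (cl x) * g x = ∑ k ∈ Cs, γ k * Gc k := by
    intro γ
    rw [← sum_fiberwise_of_maps_to hcl]
    refine sum_congr rfl fun k _ => ?_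
    rw [hG, mul_sum]
    exact sum_congr rfl fun x hx => by rw [(mem_filter.1 hx).2]
  set A := ∑ k ∈ Cs, ν k ^ 2 with hA
  set B := ∑ k ∈ Cs, ν k * Gc k with hB
  have h1 : ∑ k ∈ Cs, (A * Gc k - B * ν k) * ν k = 0 := by
    have : ∀ k, (A * Gc k - B * ν k) * ν k = A * (ν k * Gc k) - B * ν k ^ 2 := fun k => by ring
    simp only [this]
    rw [sum_sub_distrib, ← mul_sum, ← mul_sum, ← hA, ← hB]
    ring
  have h2 := orth (fun k => A * Gc k - B * ν k) fun l hl => by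
    rw [← sum_fiberwise_of_maps_to fun x hx => hcl x (hP l hl hx), ← h1]
    refine sum_congr rfl fun k _ => ?_
    rw [sum_congr rfl fun x hx => by rw [(mem_filter.1 hx).2], sum_const, nsmul_eq_mul, mul_comm,
      cnt l hl l0 hl0.1]
  rw [fib fun k => A * Gc k - B * ν k] at h2
  have h3 : ∑ k ∈ Cs, (A * Gc k - B * ν k) ^ 2 = 0 := by
    have : ∀ k, (A * Gc k - B * ν k) ^ 2 =
      A * ((A * Gc k - B * ν k) * Gc k) - B * ((A * Gc k - B * ν k) * ν k) := fun k => by ring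
    simp only [this]
    rw [sum_sub_distrib, ← mul_sum, ← mul_sum, h1, h2]
    ring
  have h4 : ∀ k ∈ Cs, A * Gc k = B * ν k := fun k hk => sub_eq_zero.1
    (pow_eq_zero_iff two_ne_zero |>.1 ((sum_eq_zero_iff_of_nonneg fun _ _ => sq_nonneg _).1 h3 k hk))
  have hA0 : 0 < A := by
    refine sum_pos' (fun _ _ => sq_nonneg _) ⟨cl x0, hcl x0 hx0, pow_pos ?_ 2⟩
    exact Nat.cast_pos.2 (card_pos.2 ⟨x0, mem_filter.2 ⟨hl0.2, rfl⟩⟩)
  have h5 : ∑ x ∈ P, ∑ y ∈ P, ((sInf (T (cl x) (cl y)) : ℕ) : ℝ) * g x * g y =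
      ∑ i ∈ Cs, (∑ j ∈ Cs, ((sInf (T i j) : ℕ) : ℝ) * Gc j) * Gc i := by
    rw [← fib fun i => ∑ j ∈ Cs, ((sInf (T i j) : ℕ) : ℝ) * Gc j]
    refine sum_congr rfl fun x _ => ?_
    rw [← fib fun j => ((sInf (T (cl x) j) : ℕ) : ℝ), sum_mul]
    exact sum_congr rfl fun y _ => by ring
  rw [h5]
  refine sum_nonneg fun i hi => ?_
  rw [sum_mul]
  refine sum_nonneg fun j hj => ?_
  rw [mul_assoc]
  refine mul_nonneg (Nat.cast_nonneg _) (nonneg_of_mul_nonneg_right ?_ (mul_pos hA0 hA0))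
  rw [mul_mul_mul_comm, h4 i hi, h4 j hj, mul_mul_mul_comm]
  exact mul_nonneg (mul_self_nonneg _) (mul_nonneg (Nat.cast_nonneg _) (Nat.cast_nonneg _))

end Pool.Agent.MP_a9d3bd_zz.FinA
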