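import Pool.Agent.MP_a9d3bd_zz.ExSuA
import Pool.Agent.MP_a9d3bd_yy.Conj

/-! The Frobenius endomorphism as a totally ramified base change. -/

namespace Pool.Agent.MP_a9d3bd_zz

open Polynomial Pool.Agent.MP_a9d3bd_q
open Pool.Agent.MP_a9d3bd_yy (sConj_eqv)

variable {K A : Type} [Field K] [IsAlgClosed K] [CommRing A] [IsDomain A] [Algebra K A]
  [Algebra K[X] A] [IsScalarTower K K[X] A]

omit [IsAlgClosed K] [IsDomain A] [IsScalarTower K K[X] A] in
theorem frobE_pow (q : ℕ) (fr : A ≃+* A)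
    (h : ∀ a : K, fr (algebraMap K A a) = algebraMap K A (a ^ q))
    (hx : fr (xA K A) = xA K A) (k : ℕ) :
    (∀ a : K, (fr ^ k) (algebraMap K A a) = algebraMap K A (a ^ q ^ k)) ∧
      (fr ^ k) (xA K A) = xA K A := by
  induction k with
  | zero => exact ⟨fun a => by simp, rfl⟩
  | succ k ih =>
    refine ⟨fun a => ?_, ?_⟩
    · rw [pow_succ', RingAut.mul_apply, ih.1, h, ← pow_mul, pow_succ]
    · rw [pow_succ', RingAut.mul_apply, ih.2, hx]

theorem frobE [Module.Finite K[X] A] [Module.IsTorsionFree K[X] A] (p : ℕ) [Fact p.Prime]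
    [CharP K p] (ht : ∀ a : K, ∃ n, 0 < n ∧ a ^ p ^ n = a) (n : ℕ) :
    ∃ (q : ℕ) (ρ : A ≃+* A) (ψ : A →ₐ[K] A) (Ψ : FractionRing A →ₐ[K] FractionRing A)
      (e : (A →ₐ[K] K) ≃ (A →ₐ[K] K)), n ≤ q ∧ (∀ a, ψ a = ρ a ^ q) ∧ ρ (xA K A) = xA K A ∧
      (∀ a, Ψ (algebraMap A _ a) = algebraMap A _ (ψ a)) ∧ (∀ β a, e β a = β (ψ a)) ∧
      ∀ u ν, MP_a9d3bd_yy.Dvs K u ν →
        MP_a9d3bd_yy.Dvs K (Ψ u) ((q : ℤ) • Finsupp.equivMapDomain e.symm ν) := by
  obtain ⟨f, hf, -, fr0, hK0, hx0, -⟩ := exsu_fr p ht (Module.finBasis K[X] A) ∅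
  obtain ⟨hK, hx⟩ := frobE_pow _ fr0 hK0 hx0 n
  generalize fr0 ^ n = fr at hK hx
  rw [← pow_mul] at hK
  have hp : 1 < p := (Fact.out : p.Prime).one_lt
  have hq : n ≤ p ^ (f * n) :=
    (Nat.le_mul_of_pos_left n hf).trans (Nat.lt_pow_self hp).le
  generalize f * n = k at hK hq
  have : CharP A p := charP_of_injective_algebraMap (algebraMap K A).injective p
  have : CharP (FractionRing A) p :=
    charP_of_injective_algebraMap (IsFractionRing.injective A _) p
  let σ := iterateFrobeniusEquiv K p k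
  have hσ : ∀ a, σ a = a ^ p ^ k := fun a => rfl
  have hK' : ∀ a : K, fr.symm (algebraMap K A a) = algebraMap K A (σ.symm a) := fun a => by
    rw [RingEquiv.symm_apply_eq, hK, ← hσ, σ.apply_symm_apply]
  have hx' : fr.symm (xA K A) = xA K A := by rw [RingEquiv.symm_apply_eq, hx]
  let ψ : A →ₐ[K] A :=
    { (iterateFrobenius A p k).comp fr.symm.toRingHom with
      commutes' := fun a => by
        change fr.symm (algebraMap K A a) ^ p ^ k = _
        rw [hK', ← map_pow, ← hσ, σ.apply_symm_apply] }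
  have hψ : ∀ a, ψ a = fr.symm a ^ p ^ k := fun _ => rfl
  let R : FractionRing A ≃+* FractionRing A := IsFractionRing.ringEquivOfRingEquiv fr.symm
  have hR : ∀ a : A, R (algebraMap A _ a) = algebraMap A _ (fr.symm a) := fun a =>
    IsFractionRing.ringEquivOfRingEquiv_algebraMap fr.symm a
  let Ψ : FractionRing A →ₐ[K] FractionRing A :=
    { (iterateFrobenius (FractionRing A) p k).comp R.toRingHom with
      commutes' := fun a => by
        change R (algebraMap K _ a) ^ p ^ k = _
        rw [IsScalarTower.algebraMap_apply K A (FractionRing A), hR, ← map_pow, ← hψ,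
          ψ.commutes] }
  have hΨ : ∀ z, Ψ z = R z ^ p ^ k := fun _ => rfl
  let e : (A →ₐ[K] K) ≃ (A →ₐ[K] K) :=
    { toFun := fun β => β.comp ψ
      invFun := fun β =>
        { σ.symm.toRingHom.comp ((β : A →+* K).comp fr.toRingHom) with
          commutes' := fun a => by
            change σ.symm (β (fr (algebraMap K A a))) = a
            rw [hK, AlgHom.commutes, ← hσ]
            exact σ.symm_apply_apply a }
      left_inv := fun β => AlgHom.ext fun a => by
        change σ.symm (β (ψ (fr a))) = β a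
        rw [hψ, fr.symm_apply_apply, map_pow, ← hσ, σ.symm_apply_apply]
      right_inv := fun β => AlgHom.ext fun a => by
        change σ.symm (β (fr (ψ a))) = β a
        rw [hψ, map_pow, fr.apply_symm_apply, map_pow, ← hσ, σ.symm_apply_apply] }
  have he : ∀ β a, e β a = β (fr.symm a) ^ p ^ k := fun β a => by
    rw [← map_pow]
    rfl
  have hq0 : p ^ k ≠ 0 := pow_ne_zero _ (by omega)
  refine ⟨p ^ k, fr.symm, ψ, Ψ, e, hq, hψ, hx', fun a => by rw [hΨ, hR, hψ, map_pow],
    fun _ _ => rfl, fun u ν hu => ⟨(map_ne_zero Ψ).2 hu.1, fun O hO => ?_⟩⟩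
  let G' : FractionRing A →+* FractionRing A := R
  have hG' : ∀ z, G' z = R z := fun _ => rfl
  have hv := sConj_eqv G' O
  obtain ⟨h1, h2⟩ := hu.2 (O.comap G') fun c => by
    rw [ValuationSubring.mem_comap, hG', IsScalarTower.algebraMap_apply K A (FractionRing A), hR,
      hK', ← IsScalarTower.algebraMap_apply]
    exact hO _
  refine ⟨fun hx1 => ?_, fun β hβ π hπ hπ2 => ?_⟩
  · have := hv.eq_one_iff_eq_one.1 (h1 fun hx2 => hx1 (by
      rw [ValuationSubring.mem_comap, hG', hR, hx'] at hx2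
      exact hx2))
    rw [Valuation.comap_apply, hG'] at this
    rw [hΨ, map_pow, this, one_pow]
  · have h3 := h2 (e β) (fun a => by
      refine hv.lt_one_iff_lt_one.2 ?_
      rw [Valuation.comap_apply, hG', hR, map_sub, hK', he, ← hσ, σ.symm_apply_apply]
      exact hβ (fr.symm a)) (fr π) (by
        rw [he, fr.symm_apply_apply, hπ, zero_pow hq0]) (fun hm => hπ2 (by
        have h4 : (RingHom.ker (e β)).map fr.symm ≤ RingHom.ker β :=
          Ideal.map_le_iff_le_comap.2 fun a ha => by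
            have h6 : e β a = 0 := ha
            rw [he] at h6
            exact pow_eq_zero_iff hq0 |>.1 h6
        have h5 := Ideal.mem_map_of_mem fr.symm hm
        rw [Ideal.map_pow, fr.symm_apply_apply] at h5
        exact Ideal.pow_right_mono h4 2 h5))
    rw [← map_zpow₀, hv.eq_iff, Valuation.comap_apply, Valuation.comap_apply, map_zpow₀,
      map_zpow₀, hG', hG', hR, fr.symm_apply_apply] at h3
    rw [hΨ, map_pow, h3, Finsupp.smul_apply, Finsupp.equivMapDomain_apply, Equiv.symm_symm,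
      smul_eq_mul, mul_comm, zpow_mul, zpow_natCast]

end Pool.Agent.MP_a9d3bd_zz
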