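import Pool.Agent.MP_a9d3bd_zz.HBas

namespace Pool.Agent.MP_a9d3bd_zz

open Polynomial Su

set_option linter.unusedSectionVars false

theorem mon_Deg {T : Type} [CommRing T] (l : Fin 3 → T[X]) (hl : ∀ i, (l i).natDegree ≤ 1)
    (s : Fin 3 → ℕ) : (∏ i, l i ^ s i).natDegree ≤ ∑ i, s i ∧
      (∏ i, l i ^ s i).coeff (∑ i, s i) = ∏ i, (l i).coeff 1 ^ s i := by
  have h1 : ∀ i, (l i ^ s i).natDegree ≤ s i := fun i => by
    simpa using natDegree_pow_le_of_le (s i) (hl i)
  have h2 : ∀ i, (l i ^ s i).coeff (s i) = (l i).coeff 1 ^ s i := fun i => by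
    simpa using coeff_pow_of_natDegree_le (m := s i) (hl i)
  have h3 : (l 0 ^ s 0 * l 1 ^ s 1).natDegree ≤ s 0 + s 1 :=
    natDegree_mul_le_of_le (h1 0) (h1 1)
  simp only [Fin.prod_univ_three, Fin.sum_univ_three]
  refine ⟨natDegree_mul_le_of_le h3 (h1 2), ?_⟩
  rw [coeff_mul_add_eq_of_natDegree_le h3 (h1 2), coeff_mul_add_eq_of_natDegree_le (h1 0) (h1 1),
    h2, h2, h2]

theorem gen_Deg {K T : Type} [CommRing K] [CommRing T] [Algebra K T] (l : Fin 3 → T[X])
    (hl : ∀ i, (l i).natDegree ≤ 1) (Q : MvPolynomial (Fin 3) K) (d : ℕ) (hQ : Q.totalDegree ≤ d) :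
    (MvPolynomial.aeval l Q).natDegree ≤ d ∧ (MvPolynomial.aeval l Q).coeff d =
      MvPolynomial.aeval (fun i => (l i).coeff 1) (MvPolynomial.homogeneousComponent d Q) := by
  classical
  have hs : ∀ s ∈ Q.support, ∑ i, s i ≤ d := fun s hs => by
    have := (MvPolynomial.le_totalDegree hs).trans hQ
    rwa [Finsupp.sum_fintype _ _ (fun _ => rfl)] at this
  rw [MvPolynomial.homogeneousComponent_apply, map_sum, MvPolynomial.aeval_def l,
    MvPolynomial.eval₂_eq']
  constructor
  · refine natDegree_sum_le_of_forall_le _ _ fun s h => ?_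
    rw [Polynomial.algebraMap_apply]
    exact (natDegree_C_mul_le _ _).trans ((mon_Deg l hl s).1.trans (hs s h))
  · rw [finsetSum_coeff, Finset.sum_filter]
    refine Finset.sum_congr rfl fun s h => ?_
    rw [Polynomial.algebraMap_apply, coeff_C_mul, Finsupp.degree_eq_sum]
    split_ifs with hd
    · rw [MvPolynomial.aeval_monomial, Finsupp.prod_fintype _ _ (fun _ => pow_zero _), ← hd,
        (mon_Deg l hl s).2]
    · rw [coeff_eq_zero_of_natDegree_lt
        ((mon_Deg l hl s).1.trans_lt (lt_of_le_of_ne (hs s h) hd)), mul_zero]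

variable {K A ι : Type} [Field K] [IsAlgClosed K] [CommRing A] [IsDedekindDomain A] [Algebra K A]
  [Algebra K[X] A] [IsScalarTower K K[X] A] [Module.Finite K[X] A] [Module.IsTorsionFree K[X] A]
  [Fintype ι] [DecidableEq ι] {m : ℕ} (S : Su K A ι m) (p : ℕ) [Fact p.Prime] [CharP K p]

theorem fp_deg {T : Type} [CommRing T] [Algebra K T] (θ : A →ₐ[K] T) (c : T)
    (g : Fin m × ι → T) :
    (S.fp θ c g).natDegree ≤ S.d ∧ (S.fp θ c g).coeff S.d = pd S.P S.d c := by
  have hw : (S.wl θ c g).natDegree ≤ 1 := by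
    unfold Su.wl
    refine (natDegree_add_le _ _).trans (max_le (by rw [natDegree_C]; exact Nat.zero_le _) ?_)
    exact (natDegree_C_mul_le _ _).trans (natDegree_X_sub_C_le _)
  have hl : ∀ i, ((![C (θ (xA K A)), X, S.wl θ c g] : Fin 3 → T[X]) i).natDegree ≤ 1 := by
    intro i
    fin_cases i
    · simp
    · simpa using (natDegree_X_le : (X : T[X]).natDegree ≤ 1)
    · simpa using hw
  have h := gen_Deg _ hl S.P S.d S.hP
  refine ⟨h.1, h.2.trans ?_⟩
  unfold pd
  congr 2
  funext i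
  fin_cases i
  · simp
  · simp
  · simp only [Su.wl, Fin.reduceFinMk, Matrix.cons_val, coeff_add, coeff_C_mul, coeff_sub,
      coeff_X_one, coeff_C_succ, sub_zero, mul_one, zero_add]

end Pool.Agent.MP_a9d3bd_zz
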