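import Pool.Agent.MP_a9d3bd_zz.HBas

namespace Pool.Agent.MP_a9d3bd_zz

open Polynomial Su

set_option linter.unusedSectionVars false

variable {K A ι : Type} [Field K] [IsAlgClosed K] [CommRing A] [IsDedekindDomain A] [Algebra K A]
  [Algebra K[X] A] [IsScalarTower K K[X] A] [Module.Finite K[X] A] [Module.IsTorsionFree K[X] A]
  [Fintype ι] [DecidableEq ι] {m : ℕ} (S : Su K A ι m) (p : ℕ) [Fact p.Prime] [CharP K p]

theorem dim_pts (R : A) (N : K[X]) (u : K) (hu : u ≠ 0) (hN : Algebra.norm K[X] R = C u * N)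
    (hm : N.Monic) (hs : {x | N.IsRoot x}.ncard = N.natDegree)
    (h1 : ∀ β : A →ₐ[K] K, β R = 0 → N.IsRoot (β (xA K A)))
    (h2 : ∀ x0, N.IsRoot x0 → ∃ β : A →ₐ[K] K, β R = 0 ∧ β (xA K A) = x0) :
    {β : A →ₐ[K] K | β R = 0}.Finite ∧ {β : A →ₐ[K] K | β R = 0}.ncard = N.natDegree ∧
      {β : A →ₐ[K] K | β R = 0}.InjOn (fun β => β (xA K A)) ∧
      ∀ β : A →ₐ[K] K, β R = 0 → R ∉ RingHom.ker β ^ 2 := by
  classical
  by_cases hn : N.natDegree = 0
  · have hN1 : N = 1 := hm.natDegree_eq_zero.1 hn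
    have no : ∀ β : A →ₐ[K] K, β R ≠ 0 := fun β hβ => by
      have := h1 β hβ
      simp [hN1] at this
    have he : {β : A →ₐ[K] K | β R = 0} = ∅ := Set.eq_empty_of_forall_notMem no
    rw [he, hn]
    exact ⟨Set.finite_empty, Set.ncard_empty _, Set.injOn_empty _, fun β hβ => absurd hβ (no β)⟩
  have hfree : Module.Free K[X] A := Module.free_of_finite_type_torsion_free'
  have hR : R ≠ 0 := by
    rintro rfl
    rw [Algebra.norm_zero] at hN
    exact mul_ne_zero (C_ne_zero.2 hu) hm.ne_zero hN.symm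
  have hd : Module.finrank K (A ⧸ Ideal.span {R}) = N.natDegree := by
    rw [finrank_quotient_span_eq_natDegree_norm (Module.Free.chooseBasis K[X] A) hR, hN,
      natDegree_C_mul hu]
  have hfd : FiniteDimensional K (A ⧸ Ideal.span {R}) :=
    Module.finite_of_finrank_pos (by omega)
  let f : ((A ⧸ Ideal.span {R}) →ₐ[K] K) → (A →ₐ[K] K) := fun φ =>
    φ.comp (Ideal.Quotient.mkₐ K (Ideal.span {R}))
  have hf : ∀ φ, f φ R = 0 := fun φ => by
    have : Ideal.Quotient.mk (Ideal.span {R}) R = 0 :=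
      Ideal.Quotient.eq_zero_iff_mem.2 (Ideal.mem_span_singleton_self R)
    simp only [f, AlgHom.comp_apply, Ideal.Quotient.mkₐ_eq_mk, this, map_zero]
  have hZ : {β : A →ₐ[K] K | β R = 0} = f '' Set.univ := by
    ext β
    refine ⟨fun hβ => ⟨Ideal.Quotient.liftₐ _ β fun a ha => ?_, Set.mem_univ _, ?_⟩, ?_⟩
    · obtain ⟨c, rfl⟩ := Ideal.mem_span_singleton'.1 ha
      rw [map_mul, show β R = 0 from hβ, mul_zero]
    · ext a
      simp [f]
    · rintro ⟨φ, -, rfl⟩
      exact hf φ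
  have hfin : {β : A →ₐ[K] K | β R = 0}.Finite := hZ ▸ Set.finite_univ.image f
  have hle : {β : A →ₐ[K] K | β R = 0}.ncard ≤ Nat.card ((A ⧸ Ideal.span {R}) →ₐ[K] K) := by
    rw [hZ, ← Set.ncard_univ]
    exact Set.ncard_image_le Set.finite_univ
  have hle2 := card_algHom_le_finrank K (A ⧸ Ideal.span {R}) K
  have himg : (fun β : A →ₐ[K] K => β (xA K A)) '' {β : A →ₐ[K] K | β R = 0} =
      {x | N.IsRoot x} := by
    ext x
    refine ⟨?_, fun hx => h2 x hx⟩
    rintro ⟨β, hβ, rfl⟩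
    exact h1 β hβ
  have hge : N.natDegree ≤ {β : A →ₐ[K] K | β R = 0}.ncard := by
    rw [← hs, ← himg]
    exact Set.ncard_image_le hfin
  have hc : {β : A →ₐ[K] K | β R = 0}.ncard = N.natDegree := by omega
  have inj : {β : A →ₐ[K] K | β R = 0}.InjOn (fun β => β (xA K A)) :=
    Set.injOn_of_ncard_image_eq (by rw [himg, hs, hc]) hfin
  have key : ∀ z : A, (∀ β : A →ₐ[K] K, β R = 0 → β z = 0) → z ∈ Ideal.span {R} := by
    intro z hz
    let _ := Fintype.ofFinite ((A ⧸ Ideal.span {R}) →ₐ[K] K)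
    have hspan := LinearIndependent.span_eq_top_of_card_eq_finrank'
      (linearIndependent_algHom_toLinearMap K (A ⧸ Ideal.span {R}) K)
      (by
        rw [← Nat.card_eq_fintype_card]
        have := Subspace.dual_finrank_eq (K := K) (V := A ⧸ Ideal.span {R})
        unfold Module.Dual at this
        omega)
    rw [← Ideal.Quotient.eq_zero_iff_mem, ← Module.forall_dual_apply_eq_zero_iff K]
    intro φ
    have hφ := hspan.ge (Submodule.mem_top (x := φ))
    induction hφ using Submodule.span_induction with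
    | mem x hx =>
      obtain ⟨ψ, rfl⟩ := hx
      exact hz (f ψ) (hf ψ)
    | zero => rfl
    | add x y _ _ hx hy => rw [LinearMap.add_apply, hx, hy, add_zero]
    | smul c x _ hx => rw [LinearMap.smul_apply, hx, smul_zero]
  refine ⟨hfin, hc, inj, fun β hβ hmem => ?_⟩
  have hpr : (RingHom.ker β).IsPrime := RingHom.ker_isPrime β
  have h0 : RingHom.ker β ≠ ⊥ := fun e => hR (Ideal.mem_bot.1 (e ▸ (RingHom.mem_ker.2 hβ)))
  obtain ⟨π, hπ, hπ2⟩ := SetLike.exists_of_lt (Ideal.pow_lt_self _ h0 hpr.ne_top 2 le_rfl)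
  obtain ⟨b, hb⟩ : ∃ b : A, b = ∏ β' ∈ hfin.toFinset.erase β,
    (xA K A - algebraMap K A (β' (xA K A))) := ⟨_, rfl⟩
  have k1 : π * b ∈ RingHom.ker β ^ 2 := by
    refine (Ideal.span_singleton_le_iff_mem _).2 hmem (key _ fun β' hβ' => ?_)
    rw [map_mul]
    by_cases e : β' = β
    · rw [e, RingHom.mem_ker.1 hπ, zero_mul]
    · rw [hb, map_prod, Finset.prod_eq_zero (i := β')
        (Finset.mem_erase.2 ⟨e, hfin.mem_toFinset.2 hβ'⟩) (by simp), mul_zero]
  have k2 : β b ≠ 0 := by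
    rw [hb, map_prod, Finset.prod_ne_zero_iff]
    intro β' hβ' e
    obtain ⟨e1, e2⟩ := Finset.mem_erase.1 hβ'
    rw [map_sub, AlgHom.commutes, sub_eq_zero] at e
    exact e1 (inj (hfin.mem_toFinset.1 e2) hβ e.symm)
  have k3 : π * (b - algebraMap K A (β b)) ∈ RingHom.ker β ^ 2 := by
    rw [pow_two]
    exact Ideal.mul_mem_mul hπ (RingHom.mem_ker.2 (by simp))
  have k4 := Ideal.mul_mem_left _ (algebraMap K A (β b)⁻¹) (Ideal.sub_mem _ k1 k3)
  refine hπ2 (by
    convert k4 using 1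
    have : algebraMap K A (β b)⁻¹ * algebraMap K A (β b) = 1 := by
      rw [← map_mul, inv_mul_cancel₀ k2, map_one]
    linear_combination (-π) * this)

end Pool.Agent.MP_a9d3bd_zz
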