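import Pool.Agent.MP_a9d3bd_zz.HBas

namespace Pool.Agent.MP_a9d3bd_zz

open Polynomial Su

set_option linter.unusedSectionVars false

variable {K A ι : Type} [Field K] [IsAlgClosed K] [CommRing A] [IsDedekindDomain A] [Algebra K A]
  [Algebra K[X] A] [IsScalarTower K K[X] A] [Module.Finite K[X] A] [Module.IsTorsionFree K[X] A]
  [Fintype ι] [DecidableEq ι] {m : ℕ} (S : Su K A ι m) (p : ℕ) [Fact p.Prime] [CharP K p]

theorem one_Dvd {W : Type} (ev : MvPolynomial W K →+* K) {N D₁ D₂ : (MvPolynomial W K)[X]}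
    (hs : Squarefree (N.map ev)) (m₂ : D₂.Monic) (d₁ : D₁ ∣ N)
    (d₂ : D₂ ∣ N) (h : D₁.map ev = D₂.map ev) : D₂ ∣ D₁ := by
  obtain ⟨E, rfl⟩ := d₁
  have hr : IsRelPrime D₂ E := fun d h1 h2 => by
    have u : IsUnit (d.map ev) := hs _ (by
      rw [Polynomial.map_mul, h]
      exact mul_dvd_mul (Polynomial.map_dvd ev h1) (Polynomial.map_dvd ev h2))
    have lc : IsUnit d.leadingCoeff := m₂.isUnit_leadingCoeff_of_dvd h1
    have d0 : d.natDegree = 0 := by
      rw [← natDegree_map_of_leadingCoeff_ne_zero ev (lc.map ev).ne_zero]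
      exact natDegree_eq_zero_of_isUnit u
    rw [leadingCoeff, d0] at lc
    rw [eq_C_of_natDegree_eq_zero d0]
    exact isUnit_C.2 lc
  exact hr.dvd_of_dvd_mul_right d₂

theorem dvd_eq {W : Type} (ev : MvPolynomial W K →+* K) {N D₁ D₂ : (MvPolynomial W K)[X]}
    (hN : N.Monic) (hs : Squarefree (N.map ev)) (m₁ : D₁.Monic) (m₂ : D₂.Monic) (d₁ : D₁ ∣ N)
    (d₂ : D₂ ∣ N) (h : D₁.map ev = D₂.map ev) : D₁ = D₂ :=
  have _ := hN
  eq_of_monic_of_associated m₁ m₂
    (associated_of_dvd_dvd (one_Dvd ev hs m₁ d₂ d₁ h.symm) (one_Dvd ev hs m₂ d₁ d₂ h))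

open Classical in
theorem rts_Dvd {N : K[X]} (h0 : N ≠ 0) : {x | N.IsRoot x} = (N.roots.toFinset : Set K) := by
  ext x
  simp [h0]

theorem spl_iff {q : ℕ} {N : K[X]} (hm : N.Monic) (h : Spl q N) :
    {x | N.IsRoot x}.ncard = N.natDegree ∧ (∀ x, N.IsRoot x → Ra q x ∧
      (derivative N).eval x ≠ 0) ∧ Squarefree N ∧
    ∀ D, D.Monic → D ∣ N → {x | D.IsRoot x}.ncard = D.natDegree ∧
      ∀ F : K →+* K, (∀ z, F z = z ^ q) → D.map F = D := by
  classical
  have h0 := hm.ne_zero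
  have e := rts_Dvd h0
  have fin : {x | N.IsRoot x}.Finite := e ▸ Finset.finite_toSet _
  have sub : {x | Ra q x ∧ N.IsRoot x} ⊆ {x | N.IsRoot x} := fun x hx => hx.2
  have c0 : {x | N.IsRoot x}.ncard = N.roots.toFinset.card := by rw [e, Set.ncard_coe_finset]
  have c1 := N.roots.toFinset_card_le
  have c2 := N.card_roots'
  have c3 := Set.ncard_le_ncard sub fin
  unfold Spl at h
  have e2 := Set.eq_of_subset_of_ncard_le sub (by omega) fin
  have ra : ∀ x, N.IsRoot x → Ra q x := fun x hx => (e2.ge hx).1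
  have nd : N.roots.Nodup := Multiset.toFinset_card_eq_card_iff_nodup.1 (by omega)
  have sep : N.Separable := (nodup_roots_iff_of_splits h0 (IsAlgClosed.splits N)).1 nd
  refine ⟨by omega, fun x hx => ⟨ra x hx, ?_⟩, sep.squarefree, fun D hD hDN => ⟨?_, fun F hF => ?_⟩⟩
  · simpa using sep.aeval_derivative_ne_zero (x := x) (by simpa using hx)
  · rw [rts_Dvd hD.ne_zero, Set.ncard_coe_finset,
      Multiset.toFinset_card_of_nodup (nodup_roots (sep.of_dvd hDN)),
      (IsAlgClosed.splits D).natDegree_eq_card_roots]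
  · have hp := (IsAlgClosed.splits D).eq_prod_roots_of_monic hD
    rw [hp, Polynomial.map_multiset_prod, Multiset.map_map]
    congr 1
    refine Multiset.map_congr rfl fun r hr => ?_
    have hr' : r ^ q = r := ra r ((isRoot_of_mem_roots hr).dvd hDN)
    simp [hF, hr']

end Pool.Agent.MP_a9d3bd_zz
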