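import Pool.Agent.MP_a9d3bd_zz.HBas

namespace Pool.Agent.MP_a9d3bd_zz

open Polynomial Su

set_option linter.unusedSectionVars false

variable {K A ι : Type} [Field K] [IsAlgClosed K] [CommRing A] [IsDedekindDomain A] [Algebra K A]
  [Algebra K[X] A] [IsScalarTower K K[X] A] [Module.Finite K[X] A] [Module.IsTorsionFree K[X] A]
  [Fintype ι] [DecidableEq ι] {m : ℕ} (S : Su K A ι m) (p : ℕ) [Fact p.Prime] [CharP K p]

theorem pt_ex (x0 : K) : ∃ β : A →ₐ[K] K, β (xA K A) = x0 := by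
  have hP : (RingHom.ker (evalRingHom x0)).IsPrime := RingHom.ker_isPrime _
  have hinj : Function.Injective (algebraMap K[X] A) := FaithfulSMul.algebraMap_injective _ _
  obtain ⟨Q, -, hQ, hc⟩ := Ideal.exists_ideal_over_prime_of_isIntegral
    (RingHom.ker (evalRingHom x0)) (⊥ : Ideal A) (by
      rw [← RingHom.ker_eq_comap_bot, (RingHom.injective_iff_ker_eq_bot _).1 hinj]
      exact bot_le)
  have hx : algebraMap K (A ⧸ Q) x0 = Ideal.Quotient.mk Q (xA K A) := by
    have h1 : (C x0 - X : K[X]) ∈ Q.comap (algebraMap K[X] A) := by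
      rw [hc, RingHom.mem_ker]
      simp
    rw [Ideal.mem_comap, map_sub, ← Ideal.Quotient.eq] at h1
    rw [← h1, ← algebraMap_eq, ← IsScalarTower.algebraMap_apply]
    rfl
  have e : (algebraMap K (A ⧸ Q)).comp (evalRingHom x0) =
      (Ideal.Quotient.mk Q).comp (algebraMap K[X] A) := by
    refine Polynomial.ringHom_ext (fun a => ?_) ?_
    · simp only [RingHom.comp_apply, coe_evalRingHom, eval_C]
      rw [← algebraMap_eq, ← IsScalarTower.algebraMap_apply]
      rfl
    · simpa using hx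
  have hi : Algebra.IsIntegral K (A ⧸ Q) := ⟨fun z => by
    obtain ⟨a, rfl⟩ := Ideal.Quotient.mk_surjective z
    exact IsIntegral.map_of_comp_eq _ _ e (Algebra.IsIntegral.isIntegral a)⟩
  refine ⟨(IsAlgClosed.lift : (A ⧸ Q) →ₐ[K] K).comp (Ideal.Quotient.mkₐ K Q), ?_⟩
  rw [AlgHom.comp_apply, Ideal.Quotient.mkₐ_eq_mk, ← hx, AlgHom.commutes]
  rfl

open scoped Pointwise in
theorem pt_tr {β β' : A →ₐ[K] K} (h : β (xA K A) = β' (xA K A)) (S : Su K A ι m) :
    ∃ σ, β' = cj β σ := by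
  have := S.hfin
  have : Algebra.IsInvariant K[X] A (A ≃ₐ[K[X]] A) := ⟨fun a ha => S.hinv a ha⟩
  have e : β.comp (IsScalarTower.toAlgHom K K[X] A) = β'.comp (IsScalarTower.toAlgHom K K[X] A) :=
    Polynomial.algHom_ext h
  have h1 : (RingHom.ker β).IsPrime := RingHom.ker_isPrime _
  have h2 : (RingHom.ker β').IsPrime := RingHom.ker_isPrime _
  obtain ⟨g, hg⟩ := Algebra.IsInvariant.exists_smul_of_under_eq K[X] A (A ≃ₐ[K[X]] A)
    (RingHom.ker β) (RingHom.ker β') (by
      ext f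
      have := DFunLike.congr_fun e f
      simp only [Ideal.under_def, Ideal.mem_comap, RingHom.mem_ker]
      rw [show β (algebraMap K[X] A f) = β' (algebraMap K[X] A f) from this])
  refine ⟨g⁻¹, AlgHom.ext fun a => ?_⟩
  have h3 : a - algebraMap K A (β' a) ∈ RingHom.ker β' := by simp [RingHom.mem_ker]
  rw [hg, Ideal.mem_pointwise_smul_iff_inv_smul_mem] at h3
  have h4 : cj β g⁻¹ (a - algebraMap K A (β' a)) = 0 := h3
  rw [map_sub, AlgHom.commutes, sub_eq_zero] at h4
  exact h4.symm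

end Pool.Agent.MP_a9d3bd_zz
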