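import Pool.Agent.MP_a9d3bd_zz.HBas

namespace Pool.Agent.MP_a9d3bd_zz

open Polynomial Su

set_option linter.unusedSectionVars false

variable {K A ι : Type} [Field K] [IsAlgClosed K] [CommRing A] [IsDedekindDomain A] [Algebra K A]
  [Algebra K[X] A] [IsScalarTower K K[X] A] [Module.Finite K[X] A] [Module.IsTorsionFree K[X] A]
  [Fintype ι] [DecidableEq ι] {m : ℕ} (S : Su K A ι m) (p : ℕ) [Fact p.Prime] [CharP K p]

theorem pw_Tw {z : K} {r : ℕ} (h : z ^ r = z) (k : ℕ) : z ^ r ^ k = z := by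
  induction k with
  | zero => simp
  | succ k ih => rw [pow_succ, pow_mul, ih, h]

theorem fr_Tw (k : ℕ) : ∃ G : A ≃+* A,
    (∀ a : K, G (algebraMap K A a) = algebraMap K A (a ^ S.q1 ^ k)) ∧ G (xA K A) = xA K A ∧
      ∀ j, G (S.e j) = S.e j := by
  induction k with
  | zero => exact ⟨RingEquiv.refl A, by simp, rfl, fun _ => rfl⟩
  | succ k ih =>
    obtain ⟨G, h1, h2, h3⟩ := ih
    refine ⟨G.trans S.fr, fun a => ?_, ?_, fun j => ?_⟩
    · rw [RingEquiv.trans_apply, h1, S.hfrK, pow_succ, pow_mul]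
    · rw [RingEquiv.trans_apply, h2, S.hfrx]
    · rw [RingEquiv.trans_apply, h3, S.hfre]

theorem fix_Tw {W T : Type} [CommRing T] [Algebra K T] (F : T →+* T) (P : MvPolynomial W K)
    (h : ∀ s, F (algebraMap K T (P.coeff s)) = algebraMap K T (P.coeff s)) (v : W → T) :
    F (MvPolynomial.aeval v P) = MvPolynomial.aeval (fun i => F (v i)) P := by
  simp only [MvPolynomial.aeval_def, MvPolynomial.eval₂_eq, map_sum, map_mul, map_prod, map_pow, h]

theorem F_Tw {q : ℕ} (hq : S.Qk p q) : ∃ F : K →+* K, (∀ z, F z = z ^ q) ∧ 0 < q ∧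
    ∃ k, q = S.q1 ^ k := by
  obtain ⟨f, k, -, -, h1, h2⟩ := hq
  have h3 : q = p ^ (f * k) := by rw [h2, h1, pow_mul]
  refine ⟨iterateFrobenius K p (f * k), fun z => ?_, ?_, k, h2⟩
  · rw [iterateFrobenius_def, h3]
  · rw [h3]
    exact pow_pos (Fact.out : p.Prime).pos _

theorem tw {q : ℕ} (hq : S.Qk p q) (β : A →ₐ[K] K) : ∃ β' : A →ₐ[K] K,
    β' (xA K A) = β (xA K A) ^ q ∧ (∀ j, β' (S.e j) = β (S.e j) ^ q) ∧
    ∀ a a', RaV q a → RaV q a' → S.RT β' a a' = S.RT β a a' ^ q := by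
  obtain ⟨F, hF, hq0, k, hk⟩ := F_Tw S p hq
  obtain ⟨G, h1, h2, h3⟩ := fr_Tw S k
  rw [← hk] at h1
  let β' : A →ₐ[K] K :=
    { toRingHom := F.comp (β.toRingHom.comp G.symm.toRingHom)
      commutes' := fun a => by
        obtain ⟨b, rfl⟩ := IsAlgClosed.exists_pow_nat_eq a hq0
        change F (β (G.symm (algebraMap K A (b ^ q)))) = b ^ q
        rw [← h1, RingEquiv.symm_apply_apply, AlgHom.commutes, hF]
        rfl }
  have hb : ∀ z, β' (G z) = F (β z) := fun z => by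
    change F (β (G.symm (G z))) = _
    rw [RingEquiv.symm_apply_apply]
  have hx : β' (xA K A) = F (β (xA K A)) := by rw [← hb, h2]
  have he : ∀ j, β' (S.e j) = F (β (S.e j)) := fun j => by rw [← hb, h3]
  have hg : ∀ a : Fin m × ι → K, RaV q a → gam S.e β' a = F (gam S.e β a) := fun a ha => by
    simp only [gam, map_sum, map_mul, map_pow, hx, he]
    refine Finset.sum_congr rfl fun v _ => ?_
    rw [hF (a v), ha v]
  refine ⟨β', hx.trans (hF _), fun j => (he j).trans (hF _), fun a a' ha ha' => ?_⟩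
  have hc : F S.c0 = S.c0 := by rw [hF, hk, pw_Tw S.hq1c]
  rw [← hF, Su.RT, Su.RT, fix_Tw F S.P fun s => by
    rw [Algebra.algebraMap_self_apply, hF, hk, pw_Tw (S.hq1P s)]]
  congr 2
  funext i
  fin_cases i <;> simp [hg a ha, hg a' ha', hx, hc]

theorem NH_rat {q : ℕ} (hq : S.Qk p q) {c : K} {g : Fin m × ι → K} (hc : Ra q c)
    (hg : RaV q g) : ∃ F : K →+* K, (∀ z, F z = z ^ q) ∧
      (S.NH c g).map (MvPolynomial.map F) = S.NH c g := by
  obtain ⟨F, hF, -, k, hk⟩ := F_Tw S p hq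
  refine ⟨F, hF, Polynomial.ext fun i => ?_⟩
  have hc' : F c = c := (hF c).trans hc
  have hg' : ∀ v, F (g v) = g v := fun v => (hF _).trans (hg v)
  rw [coeff_map, Su.NH, Su.Nf, coeff_map]
  change MvPolynomial.map F (MvPolynomial.aeval _ _) = MvPolynomial.aeval _ _
  rw [fix_Tw (MvPolynomial.map F) (S.NN.coeff i) fun s => by
    rw [MvPolynomial.algebraMap_eq, MvPolynomial.map_C, hF, hk, pw_Tw (S.hq1N i s)]]
  congr 2
  funext v
  cases v <;> simp [hc', hg']

end Pool.Agent.MP_a9d3bd_zz
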