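import Pool.Agent.MP_a9d3bd_zz.HBas

namespace Pool.Agent.MP_a9d3bd_zz

open Polynomial Su

set_option linter.unusedSectionVars false

variable {K A ι : Type} [Field K] [IsAlgClosed K] [CommRing A] [IsDedekindDomain A] [Algebra K A]
  [Algebra K[X] A] [IsScalarTower K K[X] A] [Module.Finite K[X] A] [Module.IsTorsionFree K[X] A]
  [Fintype ι] [DecidableEq ι] {m : ℕ} (S : Su K A ι m) (p : ℕ) [Fact p.Prime] [CharP K p]

theorem gen_Van {T : Type} [CommRing T] [Algebra K T] (θ : A →ₐ[K] T) (t : T) :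
    ∃ a : Fin m × ι → MvPolynomial (Fin m × ι) T,
      S.Thr ((IsScalarTower.toAlgHom K T (MvPolynomial (Fin m × ι) T)).comp θ)
        (IsScalarTower.toAlgHom K T (MvPolynomial (Fin m × ι) T) t) a ∧
      ∀ (ψ : T →ₐ[K] K) (a2 : Fin m × ι → K), S.Thr (ψ.comp θ) (ψ t) a2 →
        ∀ v, MvPolynomial.aevalTower ψ a2 (a v) = a2 v := by
  have hm : 0 < m := lt_of_lt_of_le (by norm_num) S.hm
  refine ⟨fun v => MvPolynomial.X v + if v = (⟨0, hm⟩, S.j0) then
    MvPolynomial.C (t - θ (xA K A) ^ S.M) -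
      ∑ u : Fin m × ι, MvPolynomial.X u * MvPolynomial.C (θ (xA K A) ^ (u.1 : ℕ) * θ (S.e u.2))
    else 0, ?_, ?_⟩
  · unfold Su.Thr gam
    simp only [add_mul, Finset.sum_add_distrib, ite_mul, zero_mul, Finset.sum_ite_eq',
      Finset.mem_univ, if_true, AlgHom.comp_apply, IsScalarTower.coe_toAlgHom',
      MvPolynomial.algebraMap_eq, S.he0, map_one, pow_zero, mul_one, map_sub, map_mul, map_pow]
    ring
  · intro ψ a2 h2 v
    unfold Su.Thr gam at h2
    simp only [AlgHom.comp_apply] at h2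
    rw [map_add, MvPolynomial.aevalTower_X]
    split_ifs with hv
    · simp only [map_sub, map_sum, map_mul, map_pow, MvPolynomial.aevalTower_X,
        MvPolynomial.aevalTower_C]
      rw [h2]
      ring
    · rw [map_zero, add_zero]

theorem van_or {T : Type} [CommRing T] [IsDomain T] [Algebra K T] (θ : A →ₐ[K] T) (t : T)
    {c : K} {g : Fin m × ι → K}
    (h : (S.fp θ (algebraMap K T c) fun v => algebraMap K T (g v)).eval t = 0)
    {D E : (MvPolynomial (Fin m × ι) K)[X]} (hDE : S.NH c g = D * E) :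
    (∀ ψ : T →ₐ[K] K, S.Van D (ψ.comp θ) (ψ t)) ∨ ∀ ψ : T →ₐ[K] K, S.Van E (ψ.comp θ) (ψ t) := by
  obtain ⟨a, h1, h2⟩ := gen_Van S θ t
  have key : ∀ F : (MvPolynomial (Fin m × ι) K)[X],
      (F.map ((MvPolynomial.aeval a : MvPolynomial (Fin m × ι) K →ₐ[K] MvPolynomial (Fin m × ι) T) :
        MvPolynomial (Fin m × ι) K →+* MvPolynomial (Fin m × ι) T)).eval
          (((IsScalarTower.toAlgHom K T (MvPolynomial (Fin m × ι) T)).comp θ) (xA K A)) = 0 →
      ∀ ψ : T →ₐ[K] K, S.Van F (ψ.comp θ) (ψ t) := by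
    intro F hF ψ a2 h3
    have h4 := congrArg ((MvPolynomial.aevalTower ψ a2 : MvPolynomial (Fin m × ι) T →ₐ[K] K) :
      MvPolynomial (Fin m × ι) T →+* K) hF
    rw [eval_map, hom_eval₂, map_zero] at h4
    refine Eq.trans ?_ h4
    congr 1
    · refine MvPolynomial.ringHom_ext (fun r => ?_) fun v => ?_
      · simp
      · simp [h2 ψ a2 h3 v]
    · simp
  have h5 := fp_map S θ (IsScalarTower.toAlgHom K T (MvPolynomial (Fin m × ι) T))
    (algebraMap K T c) (fun v => algebraMap K T (g v)) t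
  rw [h, map_zero, fp_thr S h1] at h5
  have h6 := Nf_root S h5.symm
  simp only [AlgHom.commutes] at h6
  rw [← NH_aeval, hDE, Polynomial.map_mul, eval_mul] at h6
  exact (mul_eq_zero.1 h6).imp (key D) (key E)

end Pool.Agent.MP_a9d3bd_zz
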