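import Pool.Agent.MP_a9d3bd_zz.HPt
import Pool.Agent.MP_a9d3bd_zz.HDeg
import Pool.Agent.MP_a9d3bd_zz.HTw
import Pool.Agent.MP_a9d3bd_zz.HDvd
import Pool.Agent.MP_a9d3bd_zz.HVan
import Pool.Agent.MP_a9d3bd_zz.HDim
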